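import Pool.Agent.CYC.AlgH

/-!
# The theorem on the graded parts
-/

set_option autoImplicit false
set_option linter.unusedSectionVars false

noncomputable section

namespace Pool.Agent.CYC

open Pool.Agent.ZCyc Pool.Agent.Dess
open Pool.Agent.CYC.Formal Pool.Agent.CYC.Alg

variable {k : Type} [Field k] [IsAlgClosed k] [CharZero k]

open Classical in
private theorem graded_cl (hcore : Core k) {m m' : ℕ} {X : Fin m → Vr k} {Y : Fin m' → Vr k}
    (hX : NoRep X) {γ : Mor X Y →₀ ℚ} {ν : ℕ} (h : KillsForms γ ν) {T : Finset (Fin m)}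
    {T' : Finset (Fin m')} {x : Pts m k} (hx : OnP X x) (h1 : wt X T = ν) (h2 : wt Y T' = ν)
    {G : Pts m' k → k} (hG : G ∈ ClS Y T') :
    ∑ f ∈ (γ.support.filter fun f => Bij (fun j => (f j).src) T T'),
      (γ f : k) * G (f.app x) = 0 := by
  have hG2 := ClS_le Y T' hG
  clear hG
  induction hG2 using Submodule.span_induction with
  | mem G hG =>
    obtain ⟨hG1, hG2⟩ := hG
    have hex : ∀ j, ∃ z : k, z ^ 12 = 1 ∧ (j ∈ T' → ∀ x, G (actP j x) = z * G x) := by
      intro j
      by_cases hj : j ∈ T'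
      · obtain ⟨z, hz, hz2⟩ := hG2 j hj
        refine ⟨z, hz, fun _ x => ?_⟩
        have h3 := congrFun hz2 x
        exact h3
      · exact ⟨1, one_pow _, fun h => absurd h hj⟩
    choose t ht12 ht using hex
    exact graded_eig hcore hX h hx h1 h2 hG1 ht12 ht
  | zero =>
    refine Finset.sum_eq_zero fun f _ => ?_
    rw [Pi.zero_apply, mul_zero]
  | add G H _ _ hG hH =>
    simp only [Pi.add_apply, mul_add]
    rw [Finset.sum_add_distrib, hG, hH, add_zero]
  | smul c G _ hG =>
    have h3 : ∀ f ∈ (γ.support.filter fun f => Bij (fun j => (f j).src) T T'),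
        (γ f : k) * (c • G) (f.app x) = c * ((γ f : k) * G (f.app x)) := by
      intro f _
      rw [Pi.smul_apply, smul_eq_mul]
      ring
    rw [Finset.sum_congr rfl h3, ← Finset.mul_sum, hG, mul_zero]

/-- **The graded parts**, from the core theorem. -/
theorem graded (hcore : Core k) : Graded k := by
  classical
  intro m m' X Y ν γ hX h T T' x hx h1 h2
  refine eq_zero_of_dual fun φ => ?_
  have h3 := graded_cl hcore hX h hx h1 h2 (e_mem Y T' φ)
  rw [map_sum]
  have h4 : ((∑ f ∈ (γ.support.filter fun f => Bij (fun j => (f j).src) T T'),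
      φ (γ f • e (fun j => (⟨Y j, (Y j).o⟩ : Pt k)) (ratEq Y) T' (f.app x)) : ℚ) : k) = 0 := by
    rw [Rat.cast_sum]
    refine Eq.trans ?_ h3
    refine Finset.sum_congr ?_ fun f _ => ?_
    · congr
    · rw [map_smul, smul_eq_mul, Rat.cast_mul]
      rfl
  exact_mod_cast h4

end Pool.Agent.CYC
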