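import Mathlib

/-!
# The case analysis over the numbers prime to twelve

`t i` are roots of unity of the orders `1`, `2`, `3`, `4`, `6`. Suppose that for every `s ∈ {1, 5, 7, 11}` there is an `i`
with `S i (t i ^ s)`. Then `S i (t i)` and `S i (t i)⁻¹` for some `i`, or `S i (t i)` and `S j (t j)⁻¹` for two different `i`, `j` for
which both orders are `4` or both orders are in `{3, 6}`.
-/

set_option autoImplicit false

namespace Pool.Agent.CYC

private theorem cases_pow {k : Type*} [Field k] {x : k} {n : ℕ} (h : orderOf x = n) (a b : ℕ)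
    (hab : a % n = b % n) : x ^ a = x ^ b := by
  subst h
  rw [← pow_mod_orderOf x a, ← pow_mod_orderOf x b, hab]

private theorem cases_inv {k : Type*} [Field k] {x : k} {n : ℕ} (h : orderOf x = n) (hn : 0 < n)
    (a : ℕ) (ha : a % n = n - 1) : x ^ a = x⁻¹ := by
  have h1 : x ^ n = 1 := by
    rw [← h]
    exact pow_orderOf_eq_one x
  have h2 : x ^ a = x ^ (n - 1) := by
    refine cases_pow h a (n - 1) ?_
    rw [ha, Nat.mod_eq_of_lt (by omega)]
  rw [h2]
  refine eq_inv_of_mul_eq_one_left ?_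
  rw [← pow_succ, Nat.sub_add_cancel hn, h1]

theorem cases12 {k ι : Type*} [Field k] (t : ι → k) (S : ι → k → Prop)
    (hm : ∀ i, orderOf (t i) = 1 ∨ orderOf (t i) = 2 ∨ orderOf (t i) = 3 ∨ orderOf (t i) = 4 ∨
      orderOf (t i) = 6)
    (h : ∀ s : ℕ, s = 1 ∨ s = 5 ∨ s = 7 ∨ s = 11 → ∃ i, S i (t i ^ s)) :
    (∃ i, S i (t i) ∧ S i (t i)⁻¹) ∨
      ∃ i j, i ≠ j ∧ S i (t i) ∧ S j (t j)⁻¹ ∧
        ((orderOf (t i) = 4 ∧ orderOf (t j) = 4) ∨
          ((orderOf (t i) = 3 ∨ orderOf (t i) = 6) ∧ (orderOf (t j) = 3 ∨ orderOf (t j) = 6))) := by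
  by_contra hcon
  push Not at hcon
  obtain ⟨hA, hB⟩ := hcon
  -- the possible signs
  have key : ∀ i, (orderOf (t i) = 4 → t i ^ 1 = t i ∧ t i ^ 5 = t i ∧ t i ^ 7 = (t i)⁻¹ ∧
      t i ^ 11 = (t i)⁻¹) ∧ (orderOf (t i) = 3 ∨ orderOf (t i) = 6 → t i ^ 1 = t i ∧
      t i ^ 5 = (t i)⁻¹ ∧ t i ^ 7 = t i ∧ t i ^ 11 = (t i)⁻¹) ∧
      (orderOf (t i) = 1 ∨ orderOf (t i) = 2 → ∀ s : ℕ, s = 1 ∨ s = 5 ∨ s = 7 ∨ s = 11 →
        t i ^ s = t i ∧ (t i)⁻¹ = t i) := by
    intro i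
    refine ⟨fun h4 => ⟨pow_one _, ?_, ?_, ?_⟩, fun h3 => ⟨pow_one _, ?_, ?_, ?_⟩, ?_⟩
    · conv_rhs => rw [← pow_one (t i)]
      exact cases_pow h4 5 1 rfl
    · exact cases_inv h4 (by norm_num) 7 rfl
    · exact cases_inv h4 (by norm_num) 11 rfl
    · rcases h3 with h3 | h3
      · exact cases_inv h3 (by norm_num) 5 rfl
      · exact cases_inv h3 (by norm_num) 5 rfl
    · conv_rhs => rw [← pow_one (t i)]
      rcases h3 with h3 | h3
      · exact cases_pow h3 7 1 rfl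
      · exact cases_pow h3 7 1 rfl
    · rcases h3 with h3 | h3
      · exact cases_inv h3 (by norm_num) 11 rfl
      · exact cases_inv h3 (by norm_num) 11 rfl
    · intro h12 s hs
      have h2 : t i ^ s = t i := by
        conv_rhs => rw [← pow_one (t i)]
        rcases h12 with h12 | h12
        · exact cases_pow h12 s 1 (by rw [Nat.mod_one, Nat.mod_one])
        · refine cases_pow h12 s 1 ?_
          rcases hs with rfl | rfl | rfl | rfl <;> rfl
      refine ⟨h2, ?_⟩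
      rcases h12 with h12 | h12
      · have h3 : t i = 1 := orderOf_eq_one_iff.1 h12
        rw [h3, inv_one]
      · have h3 := cases_inv h12 (by norm_num) 1 rfl
        rw [pow_one] at h3
        exact h3.symm
  have hord : ∀ s : ℕ, s = 1 ∨ s = 5 ∨ s = 7 ∨ s = 11 → ∀ i, S i (t i ^ s) →
      orderOf (t i) = 4 ∨ (orderOf (t i) = 3 ∨ orderOf (t i) = 6) := by
    intro s hs i hi
    by_contra hcon
    have h12 : orderOf (t i) = 1 ∨ orderOf (t i) = 2 := by
      have := hm i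
      tauto
    obtain ⟨h1, h2⟩ := (key i).2.2 h12 s hs
    rw [h1] at hi
    exact hA i hi (by rw [h2]; exact hi)
  have hB' : ∀ i j, S i (t i) → S j (t j)⁻¹ → ¬(orderOf (t i) = 4 ∧ orderOf (t j) = 4) ∧
      ¬((orderOf (t i) = 3 ∨ orderOf (t i) = 6) ∧ (orderOf (t j) = 3 ∨ orderOf (t j) = 6)) := by
    intro i j hi hj
    by_cases hij : i = j
    · subst hij
      exact absurd hj (hA i hi)
    · have h1 := hB i j hij hi hj
      constructor
      · rintro ⟨h2, h3⟩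
        exact (h1.1 h2) h3
      · rintro ⟨h2, h3⟩
        rcases h3 with h3 | h3
        · exact (h1.2 h2).1 h3
        · exact (h1.2 h2).2 h3
  obtain ⟨i1, h1⟩ := h 1 (by tauto)
  obtain ⟨i5, h5⟩ := h 5 (by tauto)
  obtain ⟨i7, h7⟩ := h 7 (by tauto)
  obtain ⟨i11, h11⟩ := h 11 (by tauto)
  have o1 := hord 1 (by tauto) i1 h1
  have o5 := hord 5 (by tauto) i5 h5
  have o7 := hord 7 (by tauto) i7 h7
  have o11 := hord 11 (by tauto) i11 h11
  have s1 : S i1 (t i1) := by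
    rwa [pow_one] at h1
  have s11 : S i11 (t i11)⁻¹ := by
    rcases o11 with o | o
    · rwa [((key i11).1 o).2.2.2] at h11
    · rwa [((key i11).2.1 o).2.2.2] at h11
  rcases o1 with o1 | o1 <;> rcases o11 with o11 | o11
  · exact (hB' _ _ s1 s11).1 ⟨o1, o11⟩
  · -- `i1` has order four, `i11` order three or six: `s = 7`
    rcases o7 with o7 | o7
    · rw [((key i7).1 o7).2.2.1] at h7
      exact (hB' _ _ s1 h7).1 ⟨o1, o7⟩
    · rw [((key i7).2.1 o7).2.2.1] at h7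
      exact (hB' _ _ h7 s11).2 ⟨o7, o11⟩
  · -- `i1` has order three or six, `i11` order four: `s = 5`
    rcases o5 with o5 | o5
    · rw [((key i5).1 o5).2.1] at h5
      exact (hB' _ _ h5 s11).1 ⟨o5, o11⟩
    · rw [((key i5).2.1 o5).2.1] at h5
      exact (hB' _ _ s1 h5).2 ⟨o1, o5⟩
  · exact (hB' _ _ s1 s11).2 ⟨o1, o11⟩

end Pool.Agent.CYC
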