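import Pool.Agent.CYC.CoreZ
import Pool.Agent.CYC.Cases

/-!
# The core theorem
-/

set_option autoImplicit false

noncomputable section

namespace Pool.Agent.CYC

open Pool.Agent.ZCyc Pool.Agent.Dess Pool.Agent.TInc
open Pool.Agent.WFC (below stb)
open scoped Classical

variable {k : Type} [Field k]

theorem Vr.act_succ (X : Vr k) (i : ℕ) (p : X.Crd) : X.act 1 (X.act i p) = X.act (i + 1) p := by
  cases X with
  | curve C =>
    change Place.map (Place.map (p : Place k C.L) (C.σ ^ i).symm) (C.σ ^ 1).symm =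
      Place.map (p : Place k C.L) (C.σ ^ (i + 1)).symm
    apply Place.ext
    ext x
    rw [Place.mem_map, Place.mem_map, Place.mem_map, AlgEquiv.symm_symm, AlgEquiv.symm_symm,
      AlgEquiv.symm_symm, pow_one, pow_succ C.σ i]
    rfl
  | cover W =>
    change ((p.1, W.ζ ^ 1 * (W.ζ ^ i * p.2)) : (Fin (W.n + 1) → k) × k) =
      (p.1, W.ζ ^ (i + 1) * p.2)
    rw [pow_one, pow_succ, mul_comm (W.ζ ^ i) W.ζ, mul_assoc]

theorem Vr.act_ord (X : Vr k) (p : X.Crd) : X.act X.ord p = p := by
  cases X with
  | curve C =>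
    change Place.map (p : Place k C.L) (C.σ ^ orderOf C.σ).symm = p
    rw [pow_orderOf_eq_one]
    apply Place.ext
    ext x
    rw [Place.mem_map, AlgEquiv.symm_symm]
    rfl
  | cover W =>
    obtain ⟨x, w⟩ := p
    change ((x, W.ζ ^ W.m * w) : (Fin (W.n + 1) → k) × k) = (x, w)
    rw [W.ok.prim.pow_eq_one, one_mul]

variable {b : ℕ} {X : Fin b → Vr k} {a : Fin b → ℕ} {t : Fin b → k}
  {f : (∀ β, Fin (a β) → (X β).Crd) → k}

theorem ClsB.eig_pow (h : ClsB X a t f) {x : ∀ β, Fin (a β) → (X β).Crd} (hx : OnB X x)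
    (β : Fin b) (j : Fin (a β)) (i : ℕ) :
    f (Function.update x β (Function.update (x β) j ((X β).act i (x β j)))) = t β ^ i * f x := by
  induction i with
  | zero => rw [Vr.act_zero, Function.update_eq_self, Function.update_eq_self, pow_zero, one_mul]
  | succ i ih =>
    have hy : OnB X (Function.update x β (Function.update (x β) j ((X β).act i (x β j)))) := by
      intro β' j'
      by_cases h1 : β' = β
      · subst h1
        rw [Function.update_self]
        by_cases h2 : j' = j
        · subst h2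
          rw [Function.update_self]
          exact Vr.on_act _ _ (hx _ _)
        · rw [Function.update_of_ne h2]
          exact hx _ _
      · rw [Function.update_of_ne h1]
        exact hx _ _
    have h1 := h.eig _ hy β j
    rw [ih] at h1
    unfold actB at h1
    rw [Function.update_self, Function.update_self, Function.update_idem, Function.update_idem,
      Vr.act_succ] at h1
    rw [h1, pow_succ]
    ring

/-- if `t β` is not a root of unity of the right order then `f = 0` -/
theorem ClsB.zero_of_pow (h : ClsB X a t f) {x : ∀ β, Fin (a β) → (X β).Crd} (hx : OnB X x)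
    {β : Fin b} (ha : 0 < a β) (ht : t β ^ (X β).ord ≠ 1) : f x = 0 := by
  have h1 := h.eig_pow hx β ⟨0, ha⟩ (X β).ord
  rw [Vr.act_ord, Function.update_eq_self, Function.update_eq_self] at h1
  have h2 : (t β ^ (X β).ord - 1) * f x = 0 := by
    rw [sub_mul, one_mul, ← h1, sub_self]
  exact (mul_eq_zero.1 h2).resolve_left (sub_ne_zero.2 ht)

theorem Vr.ord_cases (X : Vr k) : X.ord = 1 ∨ X.ord = 2 ∨ X.ord = 3 ∨ X.ord = 4 ∨ X.ord = 6 := by
  cases X with
  | curve C => exact C.ok.order
  | cover W => exact Or.inr W.ok.order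

theorem orderOf_cases {X : Vr k} {t : k} (h : t ^ X.ord = 1) :
    orderOf t = 1 ∨ orderOf t = 2 ∨ orderOf t = 3 ∨ orderOf t = 4 ∨ orderOf t = 6 := by
  have h1 := orderOf_dvd_of_pow_eq_one h
  rcases X.ord_cases with h2 | h2 | h2 | h2 | h2
  · rw [h2, Nat.dvd_one] at h1
    exact Or.inl h1
  · rw [h2] at h1
    have h3 := Nat.le_of_dvd (by norm_num) h1
    interval_cases orderOf t <;> simp_all
  · rw [h2] at h1
    have h3 := Nat.le_of_dvd (by norm_num) h1
    interval_cases orderOf t <;> simp_all
  · rw [h2] at h1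
    have h3 := Nat.le_of_dvd (by norm_num) h1
    interval_cases orderOf t <;> simp_all
  · rw [h2] at h1
    have h3 := Nat.le_of_dvd (by norm_num) h1
    interval_cases orderOf t <;> simp_all

variable [IsAlgClosed k] [CharZero k]

/-- the trivial eigenvalue -/
theorem zero_bl (X : Vr k) {a : ℕ} (ha : 0 < a) (hd : 1 < a → X.dim = 1) {V : Type}
    [AddCommGroup V] [Module k V] {g : (Spc.bl a X).pt → V} (hcf : CF (Y := Spc.bl a X) g)
    (h : BlS X a 1 fun z (_ : Unit) => g z) (hs : ¬ X.InD 1 (a - 1)) (z : (Spc.bl a X).pt) :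
    g z = 0 := by
  cases X with
  | curve C =>
    have hg : genusQ C.σ < a := by
      by_contra h1
      apply hs
      exact ⟨one_pow _, fun _ => by omega, fun h2 => absurd rfl h2⟩
    refine zero_curve hg hcf ⟨fun P π y => h.sym P _ π (fun j => rfl) y,
      fun P j y => h.eig P _ j rfl y⟩ C.ok.fixed.choose_spec (fun P j hj => ?_) z
    exact h.base P j hj ()
  | cover W =>
    have hm := W.ok.order_pos
    have hdim := W.ok.dim
    have ha1 : a = 1 := by
      by_contra h1
      have h2 : W.n = 1 := hd (by omega)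
      omega
    subst ha1
    have he : W.a + (W.m - 1) * W.b = W.m * W.e := (Nat.mul_div_cancel' W.ok.dvd).symm
    have hf : (W.F * W.G ^ (W.m - 1)).IsHomogeneous (W.m * W.e) := by
      have h1 := W.ok.homF.mul (W.ok.homG.pow (W.m - 1))
      rwa [mul_comm W.b, he] at h1
    have hon := Vr.on_o (.cover W)
    have hon2 : ((0 : k)) ^ W.m = MvPolynomial.aeval W.o (W.F * W.G ^ (W.m - 1)) := by
      have h1 : (0 : k) ^ W.m = MvPolynomial.aeval W.o W.F *
        MvPolynomial.aeval W.o W.G ^ (W.m - 1) := hon.2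
      rw [map_mul, map_pow]
      exact h1
    refine zero_cover (by omega) hf hcf W.ok.prim (fun x => ?_)
      ⟨(W.o, 0), W.ok.ne, hon2⟩ ?_ z
    · have h1 := h.eig x (tw W.ζ W.ok.prim.pow_eq_one x) 0 ?_ ()
      · rw [one_smul] at h1
        exact h1
      · funext j
        have hj : j = 0 := Subsingleton.elim _ _
        subst hj
        rw [Function.update_self]
        change ((x.1.1, W.ζ * x.1.2) : (Fin (W.n + 1) → k) × k) = (x.1.1, W.ζ ^ 1 * x.1.2)
        rw [pow_one]
    · exact h.base _ 0 rfl ()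

/-- **The core theorem.** -/
theorem core : Core k := by
  intro b X a t f h ha hd hs x hx
  by_cases htN : ∀ β, t β ^ (X β).ord = 1
  swap
  · push Not at htN
    obtain ⟨β, hβ⟩ := htN
    exact h.zero_of_pow hx (ha β) hβ
  rcases cases12 t (fun β u => ¬ (X β).InD u (a β - 1)) (fun β => orderOf_cases (htN β)) hs with
    ⟨β, h1, h2⟩ | ⟨β', β, hne, h1, h2, hor⟩
  · by_cases ht : t β = 1
    · rw [ht] at h1
      have h3 : ∀ z, f (upd x β z) = 0 := by
        have h4 := h.blS (B := Unit) (x := fun _ => x) (fun _ => hx) β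
        rw [ht] at h4
        exact zero_bl (X β) (ha β) (hd β) (h.cf_one hx β) h4 h1
      obtain ⟨z, hz⟩ := exists_upd hx β (ha β) (hd β)
      rw [← hz]
      exact h3 z
    · exact core_one h ha hd htN ht h2 h1 hx
  · refine core_two h ha hd htN (Ne.symm hne) ?_ h2 h1 hx
    tauto

end Pool.Agent.CYC
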