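import Pool.Agent.EFP.SFT

/-!
# The second fundamental theorem for several dimension vectors: the group algebra

Let `c'` be a colouring of the letters `Fin l` and `Yg c'` the group of the permutations which preserve
the colours. For a set `A` of letters `ya A` is the antisymmetriser of the subgroup `yf A` of the
permutations in `Yg c'` which fix the letters which are not in `A`. For a set `D` of dimension vectors
`Kid D` is the ideal generated by the `ya A`, such that for every `d` in `D` there is a colour `γ` for which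
`A` has more than `d γ` letters. We show that `Kid D` contains the intersection of the `Kid {d}`, `d ∈ D`
(for finite `D`).
-/

set_option autoImplicit false

noncomputable section

namespace Pool.Agent.CYC.Alg

open Finset Pool.Agent.ZIso MonoidAlgebra

variable (K : Type*) [Field K] {C : Type*} {l : ℕ} (c' : Fin l → C)

/-- the permutations which preserve the colours -/
def Yg : Subgroup (Equiv.Perm (Fin l)) where
  carrier := {π | ∀ i, c' (π i) = c' i}
  one_mem' := fun _ => rfl
  mul_mem' := fun {_ _} ha hb i => (ha _).trans (hb i)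
  inv_mem' := fun {a} ha i => by
    have h := ha (a⁻¹ i)
    have h2 : a (a⁻¹ i) = i := by simp
    rw [h2] at h
    exact h.symm

theorem mem_Yg {π : Equiv.Perm (Fin l)} : π ∈ Yg c' ↔ ∀ i, c' (π i) = c' i := Iff.rfl

instance : Fintype (Yg c') := Fintype.ofFinite _

open Classical in
/-- the permutations of the letters in `A` -/
def yf (A : Finset (Fin l)) : Finset (Yg c') := univ.filter fun π => ∀ i ∉ A, π.1 i = i

variable {c'}

theorem mem_yf {A : Finset (Fin l)} {π : Yg c'} : π ∈ yf c' A ↔ ∀ i ∉ A, π.1 i = i := by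
  unfold yf
  rw [mem_filter]
  exact ⟨fun h => h.2, fun h => ⟨mem_univ _, h⟩⟩

theorem one_mem_yf (A : Finset (Fin l)) : (1 : Yg c') ∈ yf c' A := mem_yf.2 fun _ _ => rfl

theorem mul_mem_yf {A : Finset (Fin l)} {π ρ : Yg c'} (h : π ∈ yf c' A) (h' : ρ ∈ yf c' A) :
    π * ρ ∈ yf c' A := by
  rw [mem_yf] at h h' ⊢
  intro i hi
  change π.1 (ρ.1 i) = i
  rw [h' i hi, h i hi]

theorem inv_mem_yf {A : Finset (Fin l)} {π : Yg c'} (h : π ∈ yf c' A) : π⁻¹ ∈ yf c' A := by
  rw [mem_yf] at h ⊢
  intro i hi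
  change (π.1)⁻¹ i = i
  rw [Equiv.Perm.inv_eq_iff_eq, h i hi]

theorem yf_mono {A B : Finset (Fin l)} (h : A ⊆ B) : yf c' A ⊆ yf c' B := fun _ hπ =>
  mem_yf.2 fun i hi => mem_yf.1 hπ i fun h' => hi (h h')

/-- the sign in the field -/
def sg (π : Yg c') : K := ((Equiv.Perm.sign π.1 : ℤ) : K)

theorem sg_mul (π ρ : Yg c') : sg K (π * ρ) = sg K π * sg K ρ := by
  unfold sg
  rw [Subgroup.coe_mul, Equiv.Perm.sign_mul]
  push_cast
  rfl

theorem sg_one : sg K (1 : Yg c') = 1 := by
  unfold sg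
  simp

theorem sg_sq (π : Yg c') : sg K π * sg K π = 1 := by
  unfold sg
  rw [← Int.cast_mul, ← Units.val_mul, Int.units_mul_self]
  simp

theorem sg_inv (π : Yg c') : sg K π⁻¹ = sg K π := by
  have h := sg_mul K π π⁻¹
  rw [mul_inv_cancel, sg_one] at h
  have h2 := sg_sq K π
  linear_combination (-sg K π⁻¹) * h2 - sg K π * h

theorem sg_conj (π ρ : Yg c') : sg K (ρ⁻¹ * π * ρ) = sg K π := by
  rw [sg_mul, sg_mul, sg_inv]
  linear_combination sg K π * sg_sq K ρ

/-- the antisymmetriser -/
def ya (c' : Fin l → C) (A : Finset (Fin l)) : MonoidAlgebra K (Yg c') :=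
  ∑ π ∈ yf c' A, single π (sg K π)

theorem single_ya {A : Finset (Fin l)} {π : Yg c'} (h : π ∈ yf c' A) :
    single π 1 * ya K c' A = sg K π • ya K c' A := by
  unfold ya
  rw [Finset.mul_sum, Finset.smul_sum]
  refine Finset.sum_bij' (fun ρ _ => π * ρ) (fun ρ _ => π⁻¹ * ρ) (fun ρ hρ => mul_mem_yf h hρ)
    (fun ρ hρ => mul_mem_yf (inv_mem_yf h) hρ) (fun ρ _ => inv_mul_cancel_left _ _)
    (fun ρ _ => mul_inv_cancel_left _ _) fun ρ _ => ?_
  rw [single_mul_single, smul_single, one_mul, sg_mul, smul_eq_mul, ← mul_assoc, sg_sq, one_mul]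

theorem ya_single {A : Finset (Fin l)} {π : Yg c'} (h : π ∈ yf c' A) :
    ya K c' A * single π 1 = sg K π • ya K c' A := by
  unfold ya
  rw [Finset.sum_mul, Finset.smul_sum]
  refine Finset.sum_bij' (fun ρ _ => ρ * π) (fun ρ _ => ρ * π⁻¹) (fun ρ hρ => mul_mem_yf hρ h)
    (fun ρ hρ => mul_mem_yf hρ (inv_mem_yf h)) (fun ρ _ => mul_inv_cancel_right _ _)
    (fun ρ _ => inv_mul_cancel_right _ _) fun ρ _ => ?_
  rw [single_mul_single, smul_single, mul_one, sg_mul, smul_eq_mul]
  congr 1
  linear_combination -sg K ρ * sg_sq K π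

/-- `y_A z = |yf A| z` if all elements of `yf A` act on `z` by their signs -/
theorem ya_mul {A : Finset (Fin l)} {z : MonoidAlgebra K (Yg c')}
    (h : ∀ π ∈ yf c' A, single π 1 * z = sg K π • z) :
    ya K c' A * z = ((yf c' A).card : K) • z := by
  unfold ya
  rw [Finset.sum_mul, Nat.cast_smul_eq_nsmul, ← Finset.sum_const]
  refine Finset.sum_congr rfl fun π hπ => ?_
  have e : (single π (sg K π) : MonoidAlgebra K (Yg c')) = sg K π • single π 1 := by
    rw [smul_single, smul_eq_mul, mul_one]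
  rw [e, smul_mul_assoc, h π hπ, smul_smul, sg_sq, one_smul]

theorem mul_ya {A : Finset (Fin l)} {z : MonoidAlgebra K (Yg c')}
    (h : ∀ π ∈ yf c' A, z * single π 1 = sg K π • z) :
    z * ya K c' A = ((yf c' A).card : K) • z := by
  unfold ya
  rw [Finset.mul_sum, Nat.cast_smul_eq_nsmul, ← Finset.sum_const]
  refine Finset.sum_congr rfl fun π hπ => ?_
  have e : (single π (sg K π) : MonoidAlgebra K (Yg c')) = sg K π • single π 1 := by
    rw [smul_single, smul_eq_mul, mul_one]
  rw [e, mul_smul_comm, h π hπ, smul_smul, sg_sq, one_smul]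

theorem card_yf_ne [CharZero K] (A : Finset (Fin l)) : ((yf c' A).card : K) ≠ 0 := by
  rw [Nat.cast_ne_zero, Finset.card_ne_zero]
  exact ⟨1, one_mem_yf A⟩

/-- `ya A ρ = ρ ya (ρ⁻¹ A)` -/
theorem ya_conj (A : Finset (Fin l)) (ρ : Yg c') :
    ya K c' A * single ρ 1 = single ρ 1 * ya K c' (A.map (ρ.1⁻¹).toEmbedding) := by
  have hmem : ∀ (B : Finset (Fin l)) (σ π : Yg c'), π ∈ yf c' B →
      σ⁻¹ * π * σ ∈ yf c' (B.map (σ.1⁻¹).toEmbedding) := by
    intro B σ π hπ
    rw [mem_yf] at hπ ⊢
    intro i hi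
    have h1 : σ.1 i ∉ B := by
      intro h2
      apply hi
      rw [Finset.mem_map]
      exact ⟨σ.1 i, h2, by simp⟩
    change (σ.1)⁻¹ (π.1 (σ.1 i)) = i
    rw [hπ _ h1]
    simp
  unfold ya
  rw [Finset.sum_mul, Finset.mul_sum]
  refine Finset.sum_bij' (fun π _ => ρ⁻¹ * π * ρ) (fun π _ => ρ * π * ρ⁻¹) (fun π hπ => hmem A ρ π hπ)
    (fun π hπ => ?_) (fun π _ => by group) (fun π _ => by group) fun π _ => ?_
  · have h1 := hmem _ ρ⁻¹ π hπ
    have h2 : (A.map (ρ.1⁻¹).toEmbedding).map (((ρ⁻¹ : Yg c').1)⁻¹).toEmbedding = A := by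
      rw [Finset.map_map]
      convert Finset.map_refl
      ext i
      simp
    rw [h2, inv_inv] at h1
    exact h1
  · rw [single_mul_single, single_mul_single, one_mul, mul_one, sg_conj]
    congr 1
    group

open Classical in
/-- `A` has more than `d γ` letters of some colour `γ` -/
def Good (c' : Fin l → C) (d : C → ℕ) (A : Finset (Fin l)) : Prop :=
  ∃ γ, d γ < (A.filter fun i => c' i = γ).card

theorem good_conj {d : C → ℕ} {A : Finset (Fin l)} (h : Good c' d A) (ρ : Yg c') :
    Good c' d (A.map (ρ.1⁻¹).toEmbedding) := by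
  classical
  obtain ⟨γ, h⟩ := h
  refine ⟨γ, ?_⟩
  rw [Finset.filter_map, Finset.card_map]
  have h2 := (Yg c').inv_mem ρ.2
  have h3 : (A.filter ((fun i => c' i = γ) ∘ ⇑(ρ.1⁻¹).toEmbedding)) =
      A.filter fun i => c' i = γ := by
    refine Finset.filter_congr fun i _ => ?_
    change c' ((ρ.1)⁻¹ i) = γ ↔ c' i = γ
    rw [(mem_Yg c').1 h2 i]
  rw [h3]
  exact h

/-- the ideal -/
def Kid (c' : Fin l → C) (D : Set (C → ℕ)) : Ideal (MonoidAlgebra K (Yg c')) :=
  Ideal.span {x | ∃ A, (∀ d ∈ D, Good c' d A) ∧ x = ya K c' A}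

theorem ya_mem {D : Set (C → ℕ)} {A : Finset (Fin l)} (h : ∀ d ∈ D, Good c' d A) :
    ya K c' A ∈ Kid K c' D := Ideal.subset_span ⟨A, h, rfl⟩

/-- the ideal is two-sided -/
theorem Kid_mul {D : Set (C → ℕ)} {x : MonoidAlgebra K (Yg c')} (hx : x ∈ Kid K c' D)
    (y : MonoidAlgebra K (Yg c')) : x * y ∈ Kid K c' D := by
  induction y using MonoidAlgebra.induction_linear with
  | zero => rw [mul_zero]; exact Submodule.zero_mem _
  | add y z hy hz => rw [mul_add]; exact Submodule.add_mem _ hy hz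
  | single ρ r =>
    have e : (single ρ r : MonoidAlgebra K (Yg c')) = r • single ρ 1 := by
      rw [smul_single, smul_eq_mul, mul_one]
    rw [e, mul_smul_comm]
    refine Submodule.smul_of_tower_mem _ r ?_
    unfold Kid at hx ⊢
    induction hx using Submodule.span_induction with
    | mem x hx =>
      obtain ⟨A, hA, rfl⟩ := hx
      rw [ya_conj]
      exact Ideal.mul_mem_left _ _ (Ideal.subset_span ⟨_, fun d hd => good_conj (hA d hd) ρ, rfl⟩)
    | zero => rw [zero_mul]; exact Submodule.zero_mem _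
    | add x y _ _ hx hy => rw [add_mul]; exact Submodule.add_mem _ hx hy
    | smul a x _ hx => rw [smul_eq_mul, mul_assoc]; exact Ideal.mul_mem_left _ _ hx

/-- the restriction of a permutation to the letters of one colour -/
theorem split (γ : C) (π : Yg c') : ∃ ρ : Yg c', (∀ i, c' i = γ → ρ.1 i = π.1 i) ∧
    ∀ i, c' i ≠ γ → ρ.1 i = i := by
  classical
  have h : ∀ i, c' i = γ ↔ c' (π.1 i) = γ := fun i => by rw [(mem_Yg c').1 π.2 i]
  set ρ : Equiv.Perm (Fin l) := Equiv.Perm.ofSubtype (π.1.subtypePerm (p := fun i => c' i = γ)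
    fun i => (h i).symm) with hρ
  have h1 : ∀ i, c' i = γ → ρ i = π.1 i := fun i hi => by
    rw [hρ, Equiv.Perm.ofSubtype_apply_of_mem (p := fun i => c' i = γ) _ hi]
    rfl
  have h2 : ∀ i, c' i ≠ γ → ρ i = i := fun i hi => by
    rw [hρ, Equiv.Perm.ofSubtype_apply_of_not_mem (p := fun i => c' i = γ) _ hi]
  refine ⟨⟨ρ, (mem_Yg c').2 fun i => ?_⟩, h1, h2⟩
  by_cases hi : c' i = γ
  · rw [h1 i hi, (mem_Yg c').1 π.2 i]
  · rw [h2 i hi]

/-- two permutations with disjoint supports -/
theorem yf_comm {A B : Finset (Fin l)} (h : Disjoint A B) {π ρ : Yg c'} (hπ : π ∈ yf c' A)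
    (hρ : ρ ∈ yf c' B) : π * ρ = ρ * π := by
  have hd : Equiv.Perm.Disjoint π.1 ρ.1 := by
    intro i
    by_cases hi : i ∈ A
    · right
      exact mem_yf.1 hρ i (Finset.disjoint_left.1 h hi)
    · left
      exact mem_yf.1 hπ i hi
  exact Subtype.ext hd.commute.eq

open Classical in
/-- the key relation -/
theorem ya_mul_ya [CharZero K] {D : Set (C → ℕ)} {d : C → ℕ} {A J : Finset (Fin l)}
    (hA : ∀ d' ∈ D, Good c' d' A) {γ : C} (hJ : ∀ i ∈ J, c' i = γ) (hJc : J.card = d γ + 1) :
    ya K c' A * ya K c' J ∈ Kid K c' (insert d D) := by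
  by_cases h1 : J.card ≤ (A.filter fun i => c' i = γ).card
  · refine Kid_mul K (ya_mem K fun d' hd' => ?_) _
    rcases Set.mem_insert_iff.1 hd' with rfl | hd'
    · exact ⟨γ, by omega⟩
    · exact hA d' hd'
  push Not at h1
  set B := A.filter fun i => c' i ≠ γ with hB
  have hBJ : Disjoint B J := by
    rw [Finset.disjoint_left]
    intro i hi hi'
    exact (Finset.mem_filter.1 hi).2 (hJ i hi')
  -- `z = ya B * ya J` is antisymmetric for `B ∪ J`
  set z := ya K c' B * ya K c' J with hz
  have hz1 : ∀ π ∈ yf c' (B ∪ J), single π 1 * z = sg K π • z := by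
    intro π hπ
    obtain ⟨ρ, hρ1, hρ2⟩ := split γ π
    have hρJ : ρ ∈ yf c' J := by
      rw [mem_yf]
      intro i hi
      by_cases hc : c' i = γ
      · rw [hρ1 i hc]
        refine mem_yf.1 hπ i ?_
        rw [Finset.mem_union]
        rintro (h2 | h2)
        · exact (Finset.mem_filter.1 h2).2 hc
        · exact hi h2
      · exact hρ2 i hc
    have hπB : ρ⁻¹ * π ∈ yf c' B := by
      rw [mem_yf]
      intro i hi
      change (ρ.1)⁻¹ (π.1 i) = i
      rw [Equiv.Perm.inv_eq_iff_eq]
      by_cases hc : c' i = γ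
      · exact (hρ1 i hc).symm
      · rw [hρ2 i hc]
        refine mem_yf.1 hπ i ?_
        rw [Finset.mem_union]
        rintro (h2 | h2)
        · exact hi h2
        · exact hc (hJ i h2)
    have e1 : single π 1 = (single ρ 1 * single (ρ⁻¹ * π) 1 : MonoidAlgebra K (Yg c')) := by
      rw [single_mul_single, mul_one, mul_inv_cancel_left]
    have e2 : single ρ 1 * ya K c' B = ya K c' B * single ρ 1 := by
      unfold ya
      rw [Finset.mul_sum, Finset.sum_mul]
      refine Finset.sum_congr rfl fun σ hσ => ?_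
      rw [single_mul_single, single_mul_single, one_mul, mul_one, yf_comm hBJ hσ hρJ]
    rw [e1, hz, mul_assoc, ← mul_assoc (single (ρ⁻¹ * π) 1), single_ya K hπB, smul_mul_assoc,
      mul_smul_comm, ← mul_assoc, e2, mul_assoc, single_ya K hρJ, mul_smul_comm, smul_smul]
    congr 1
    rw [sg_mul, sg_inv]
    linear_combination sg K π * sg_sq K ρ
  have hgood : ∀ d' ∈ insert d D, Good c' d' (B ∪ J) := by
    have hcard : J.card ≤ ((B ∪ J).filter fun i => c' i = γ).card := by
      refine Finset.card_le_card fun i hi => ?_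
      rw [Finset.mem_filter, Finset.mem_union]
      exact ⟨Or.inr hi, hJ i hi⟩
    intro d' hd'
    rcases Set.mem_insert_iff.1 hd' with rfl | hd'
    · exact ⟨γ, by omega⟩
    · obtain ⟨γ', hγ'⟩ := hA d' hd'
      by_cases hγ : γ' = γ
      · subst hγ
        exact ⟨γ', by omega⟩
      · refine ⟨γ', hγ'.trans_le (Finset.card_le_card fun i hi => ?_)⟩
        rw [Finset.mem_filter] at hi
        rw [Finset.mem_filter, Finset.mem_union, hB, Finset.mem_filter]
        exact ⟨Or.inl ⟨hi.1, hi.2 ▸ hγ⟩, hi.2⟩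
  have hz2 : z ∈ Kid K c' (insert d D) := by
    have h2 := Kid_mul K (ya_mem K hgood) z
    rw [ya_mul K hz1] at h2
    have h3 := Submodule.smul_of_tower_mem _ (((yf c' (B ∪ J)).card : K)⁻¹) h2
    rwa [smul_smul, inv_mul_cancel₀ (card_yf_ne K _), one_smul] at h3
  have h3 : ya K c' A * ya K c' J = (((yf c' B).card : K)⁻¹) • (ya K c' A * z) := by
    have h4 : ya K c' A * ya K c' B = ((yf c' B).card : K) • ya K c' A :=
      mul_ya K fun π hπ => ya_single K (yf_mono (Finset.filter_subset _ _) hπ)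
    rw [hz, ← mul_assoc, h4, smul_mul_assoc, smul_smul, inv_mul_cancel₀ (card_yf_ne K _), one_smul]
  rw [h3]
  exact Submodule.smul_of_tower_mem _ _ (Ideal.mul_mem_left _ _ hz2)

/-- the left ideal generated by the antisymmetrisers of `d γ + 1` letters of the colour `γ` -/
def Jid (c' : Fin l → C) (d : C → ℕ) : Ideal (MonoidAlgebra K (Yg c')) :=
  Ideal.span {x | ∃ (J : Finset (Fin l)) (γ : C), (∀ i ∈ J, c' i = γ) ∧ J.card = d γ + 1 ∧
    x = ya K c' J}

theorem Kid_mul_Jid [CharZero K] {D : Set (C → ℕ)} {d : C → ℕ} {x y : MonoidAlgebra K (Yg c')}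
    (hx : x ∈ Kid K c' D) (hy : y ∈ Jid K c' d) : x * y ∈ Kid K c' (insert d D) := by
  unfold Jid at hy
  induction hy using Submodule.span_induction generalizing x with
  | mem y hy =>
    obtain ⟨J, γ, hJ, hJc, rfl⟩ := hy
    unfold Kid at hx
    induction hx using Submodule.span_induction with
    | mem x hx =>
      obtain ⟨A, hA, rfl⟩ := hx
      exact ya_mul_ya K hA hJ hJc
    | zero => rw [zero_mul]; exact Submodule.zero_mem _
    | add x y _ _ hx hy => rw [add_mul]; exact Submodule.add_mem _ hx hy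
    | smul a x _ hx => rw [smul_eq_mul, mul_assoc]; exact Ideal.mul_mem_left _ _ hx
  | zero => rw [mul_zero]; exact Submodule.zero_mem _
  | add y z _ _ hy hz => rw [mul_add]; exact Submodule.add_mem _ (hy hx) (hz hx)
  | smul a y _ hy => rw [smul_eq_mul, ← mul_assoc]; exact hy (Kid_mul K hx a)

/-- one more dimension vector: the group algebra is semisimple -/
theorem Kid_insert [CharZero K] {D : Set (C → ℕ)} {d : C → ℕ} {x : MonoidAlgebra K (Yg c')}
    (hx : x ∈ Kid K c' D) (hx' : x ∈ Jid K c' d) : x ∈ Kid K c' (insert d D) := by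
  have : NeZero (Nat.card (Yg c') : K) := ⟨by
    rw [Nat.cast_ne_zero]
    exact Nat.card_pos.ne'⟩
  obtain ⟨e, he, hI⟩ := IsSemisimpleRing.ideal_eq_span_idempotent (Jid K c' d)
  have he' : e ∈ Jid K c' d := by
    rw [hI]
    exact Ideal.mem_span_singleton_self e
  rw [hI, Ideal.mem_span_singleton'] at hx'
  obtain ⟨a, rfl⟩ := hx'
  have h1 : a * e = (a * e) * e := by rw [mul_assoc, he.eq]
  rw [h1]
  exact Kid_mul_Jid K hx he'

theorem mem_Kid [CharZero K] {S : Type*} (s : Finset S) (d : S → C → ℕ)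
    {x : MonoidAlgebra K (Yg c')} (hx : ∀ i ∈ s, x ∈ Jid K c' (d i)) :
    x ∈ Kid K c' (d '' (s : Set S)) := by
  classical
  induction s using Finset.induction_on with
  | empty =>
    have h1 : (1 : MonoidAlgebra K (Yg c')) = ya K c' ∅ := by
      unfold ya
      have h2 : yf c' (∅ : Finset (Fin l)) = {1} := by
        ext π
        rw [mem_yf, Finset.mem_singleton]
        constructor
        · intro h
          exact Subtype.ext (Equiv.ext fun i => h i (Finset.notMem_empty i))
        · rintro rfl i _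
          rfl
      rw [h2, Finset.sum_singleton, sg_one]
      rfl
    have h2 : (1 : MonoidAlgebra K (Yg c')) ∈ Kid K c' (d '' ((∅ : Finset S) : Set S)) := by
      rw [h1]
      refine ya_mem K fun d' hd' => ?_
      simp at hd'
    have h3 := Ideal.mul_mem_left _ x h2
    rwa [mul_one] at h3
  | insert a s _ ih =>
    rw [Finset.coe_insert, Set.image_insert_eq]
    exact Kid_insert K (ih fun i hi => hx i (Finset.mem_insert_of_mem hi))
      (hx a (Finset.mem_insert_self a s))

end Pool.Agent.CYC.Alg
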