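import Pool.Agent.CYC.AlgA

/-!
# The second fundamental theorem for several dimension vectors

A combination `β` of bijections `τ` with `c ∘ τ = c'` which acts as zero on the tensors for all dimension
vectors `d j`, `j ∈ s`, acts as zero in every situation in which the antisymmetrisers of the Young
subgroups `yf c' A` act as zero, where `A` has for every `j ∈ s` more than `d j γ` letters of some colour
`γ`.
-/

set_option autoImplicit false

noncomputable section

namespace Pool.Agent.CYC.Alg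

open Finset Pool.Agent.ZIso MonoidAlgebra

variable {K : Type*} [Field K] [CharZero K] {C : Type*} {l : ℕ} {T : Type*} [AddCommGroup T]
  [Module K T]

/-- sums over the group and over the permutations which preserve the colours -/
private theorem sum_Yg {M : Type*} [AddCommMonoid M] (c' : Fin l → C)
    (g : Equiv.Perm (Fin l) → M) (h : ∀ π ∉ Yg c', g π = 0) :
    ∑ π, g π = ∑ π : Yg c', g π.1 := by
  classical
  have h1 : ∑ π, g π = ∑ π with π ∈ Yg c', g π := by
    rw [Finset.sum_filter]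
    refine Finset.sum_congr rfl fun π _ => ?_
    by_cases hπ : π ∈ Yg c'
    · rw [if_pos hπ]
    · rw [if_neg hπ, h π hπ]
  rw [h1]
  exact Finset.sum_bij' (fun π hπ => (⟨π, (mem_filter.1 hπ).2⟩ : Yg c')) (fun π _ => π.1)
    (fun _ _ => mem_univ _) (fun π _ => mem_filter.2 ⟨mem_univ _, π.2⟩) (fun _ _ => rfl)
    (fun _ _ => rfl) (fun _ _ => rfl)

theorem second_fundamental_multi {S : Type*} (s : Finset S) (c c' : Fin l → C) (d : S → C → ℕ)
    {f : Equiv.Perm (Fin l) → T}
    (hf : ∀ τ : Equiv.Perm (Fin l), (∀ i, c (τ i) = c' i) → ∀ A : Finset (Fin l),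
      (∀ j ∈ s, Good c' (d j) A) → ∑ π ∈ yf c' A, sg K π • f (τ * π.1) = 0)
    {β : Equiv.Perm (Fin l) → K} (hβ0 : ∀ τ, β τ ≠ 0 → ∀ i, c (τ i) = c' i)
    (hβ : ∀ j ∈ s, ∀ w w' : Fin l → ℕ, (∀ i, w i < d j (c i)) → (∀ i, w' i < d j (c' i)) →
      ∑ τ ∈ univ.filter (fun τ : Equiv.Perm (Fin l) => w ∘ ⇑τ = w'), β τ = 0) :
    ∑ τ, β τ • f τ = 0 := by
  classical
  by_cases hex : ∃ τ₀ : Equiv.Perm (Fin l), ∀ i, c (τ₀ i) = c' i
  swap
  · refine Finset.sum_eq_zero fun τ _ => ?_
    have h1 : β τ = 0 := by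
      by_contra h
      exact hex ⟨τ, hβ0 τ h⟩
    rw [h1, zero_smul]
  obtain ⟨τ₀, hτ₀⟩ := hex
  have hmem : ∀ π : Equiv.Perm (Fin l), (∀ i, c ((τ₀ * π) i) = c' i) ↔ π ∈ Yg c' := by
    intro π
    rw [mem_Yg]
    refine forall_congr' fun i => ?_
    rw [Equiv.Perm.mul_apply, hτ₀]
  have hβ1 : ∀ π ∉ Yg c', β (τ₀ * π) = 0 := by
    intro π hπ
    by_contra h
    exact hπ ((hmem π).1 (hβ0 _ h))
  set b : MonoidAlgebra K (Yg c') := ∑ π : Yg c', single π (β (τ₀ * π.1)) with hb
  have hbJ : ∀ j ∈ s, b ∈ Jid K c' (d j) := by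
    intro j hj
    let I : Submodule K (MonoidAlgebra K (Yg c')) := (Jid K c' (d j)).restrictScalars K
    let F : Equiv.Perm (Fin l) → (MonoidAlgebra K (Yg c') ⧸ I) := fun τ =>
      if h : τ₀⁻¹ * τ ∈ Yg c' then I.mkQ (single ⟨τ₀⁻¹ * τ, h⟩ 1) else 0
    have hF : ∀ π : Yg c', F (τ₀ * π.1) = I.mkQ (single π 1) := by
      intro π
      have h1 : τ₀⁻¹ * (τ₀ * π.1) = π.1 := inv_mul_cancel_left _ _
      have h2 : τ₀⁻¹ * (τ₀ * π.1) ∈ Yg c' := by rw [h1]; exact π.2
      simp only [F]
      rw [dif_pos h2]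
      congr 2
      exact Subtype.ext h1
    have key : ∑ τ, β τ • F τ = 0 := by
      refine Pool.Agent.EFP.second_fundamental_col c c' (d j) ?_ hβ0 (hβ j hj)
      intro τ hτ J γ hJ hJc
      obtain ⟨π, rfl⟩ : ∃ π : Equiv.Perm (Fin l), τ = τ₀ * π :=
        ⟨τ₀⁻¹ * τ, (mul_inv_cancel_left _ _).symm⟩
      have hπ := (hmem π).1 hτ
      have hfix : ∀ σ ∈ fixing J, σ ∈ Yg c' := by
        intro σ hσ
        have h1 : ∀ i ∉ J, σ i = i := by simpa [fixing] using hσ
        rw [mem_Yg]
        intro i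
        by_cases hi : i ∈ J
        · have h2 : σ i ∈ J := by
            by_contra h2
            have h3 := h1 _ h2
            rw [σ.injective h3] at h2
            exact h2 hi
          rw [hJ _ h2, hJ _ hi]
        · rw [h1 i hi]
      have h1 : ∑ σ ∈ fixing J, ((Equiv.Perm.sign σ : ℤ) : K) • F (τ₀ * π * σ) =
          I.mkQ (single ⟨π, hπ⟩ 1 * ya K c' J) := by
        unfold ya
        rw [Finset.mul_sum, map_sum]
        refine Finset.sum_bij' (fun σ hσ => (⟨σ, hfix σ hσ⟩ : Yg c')) (fun σ _ => σ.1) ?_ ?_ ?_ ?_ ?_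
        · intro σ hσ
          rw [mem_yf]
          simpa [fixing] using hσ
        · intro σ hσ
          rw [mem_yf] at hσ
          simpa [fixing] using hσ
        · intro σ _
          rfl
        · intro σ _
          rfl
        · intro σ hσ
          have h2 := hF (⟨π, hπ⟩ * ⟨σ, hfix σ hσ⟩)
          rw [mul_assoc]
          change _ • F (τ₀ * ((⟨π, hπ⟩ * ⟨σ, hfix σ hσ⟩ : Yg c') : Equiv.Perm (Fin l))) = _
          rw [h2, single_mul_single, one_mul, ← map_smul, smul_single, smul_eq_mul, mul_one]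
          rfl
      rw [h1, Submodule.mkQ_apply, Submodule.Quotient.mk_eq_zero]
      exact Ideal.mul_mem_left _ _ (Ideal.subset_span ⟨J, γ, hJ, hJc, rfl⟩)
    have h2 : ∑ τ, β τ • F τ = I.mkQ b := by
      rw [← Equiv.sum_comp (Equiv.mulLeft τ₀)]
      simp only [Equiv.coe_mulLeft]
      rw [sum_Yg c' _ fun π hπ => by rw [hβ1 π hπ, zero_smul], hb, map_sum]
      refine Finset.sum_congr rfl fun π _ => ?_
      rw [hF, ← map_smul, smul_single, smul_eq_mul, mul_one]
    rw [h2, Submodule.mkQ_apply, Submodule.Quotient.mk_eq_zero] at key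
    exact key
  have hbK := mem_Kid K s d hbJ
  -- the ideal acts as zero
  let Λ : MonoidAlgebra K (Yg c') → T := fun x => ∑ π : Yg c', x.coeff π • f (τ₀ * π.1)
  have hΛadd : ∀ x y, Λ (x + y) = Λ x + Λ y := by
    intro x y
    simp only [Λ]
    rw [← Finset.sum_add_distrib]
    refine Finset.sum_congr rfl fun π _ => ?_
    rw [coeff_add, Finsupp.add_apply, add_smul]
  have hΛs : ∀ (π : Yg c') (r : K), Λ (single π r) = r • f (τ₀ * π.1) := by
    intro π r
    simp only [Λ]
    rw [Finset.sum_eq_single π]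
    · rw [coeff_single, Finsupp.single_eq_same]
    · intro ρ _ hρ
      rw [coeff_single, Finsupp.single_eq_of_ne hρ, zero_smul]
    · intro h
      exact absurd (mem_univ _) h
  have hΛ0 : Λ 0 = 0 := by
    simp [Λ]
  have hΛsum : ∀ (A : Finset (Yg c')) (g : Yg c' → MonoidAlgebra K (Yg c')),
      Λ (∑ π ∈ A, g π) = ∑ π ∈ A, Λ (g π) := by
    intro A g
    induction A using Finset.induction_on with
    | empty => simpa using hΛ0
    | insert a A ha ih => rw [Finset.sum_insert ha, Finset.sum_insert ha, hΛadd, ih]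
  have hker : ∀ x ∈ Kid K c' (d '' (s : Set S)), ∀ y, Λ (y * x) = 0 := by
    intro x hx
    unfold Kid at hx
    induction hx using Submodule.span_induction with
    | mem x hx =>
      obtain ⟨A, hA, rfl⟩ := hx
      intro y
      induction y using MonoidAlgebra.induction_linear with
      | zero => rw [zero_mul, hΛ0]
      | add y z hy hz => rw [add_mul, hΛadd, hy, hz, add_zero]
      | single ρ r =>
        have h1 := hf (τ₀ * ρ.1) ((hmem ρ.1).2 ρ.2) A fun j hj => hA _ ⟨j, hj, rfl⟩
        unfold ya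
        rw [Finset.mul_sum, hΛsum]
        have h2 : ∀ π ∈ yf c' A, Λ (single ρ r * single π (sg K π)) =
            r • (sg K π • f (τ₀ * ρ.1 * π.1)) := by
          intro π _
          rw [single_mul_single, hΛs, smul_smul, Subgroup.coe_mul, mul_assoc]
        rw [Finset.sum_congr rfl h2, ← Finset.smul_sum, h1, smul_zero]
    | zero =>
      intro y
      rw [mul_zero, hΛ0]
    | add x z _ _ hx hz =>
      intro y
      rw [mul_add, hΛadd, hx, hz, add_zero]
    | smul a x _ hx =>
      intro y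
      rw [smul_eq_mul, ← mul_assoc]
      exact hx _
  have h3 := hker b hbK 1
  rw [one_mul, hb, hΛsum] at h3
  rw [← Equiv.sum_comp (Equiv.mulLeft τ₀)]
  simp only [Equiv.coe_mulLeft]
  rw [sum_Yg c' _ fun π hπ => by rw [hβ1 π hπ, zero_smul], ← h3]
  exact Finset.sum_congr rfl fun π _ => (hΛs _ _).symm

end Pool.Agent.CYC.Alg
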