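import Mathlib

/-!
# Characters of order twelve

Decomposition of a vector into simultaneous eigenvectors of commuting operators whose twelfth power is
the identity, and the Galois conjugation of the twelfth roots of unity.
-/

set_option autoImplicit false

noncomputable section

namespace Pool.Agent.CYC.Alg

open Polynomial

variable {k : Type*} [Field k] [CharZero k]

/-- A relation with rational coefficients between the powers of `ζ ^ s`, `s` prime to `12`, holds for
`ζ`. -/
theorem galois {ζ : k} (hζ : IsPrimitiveRoot ζ 12) {s : ℕ} (hs : Nat.Coprime s 12) {M : Type*}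
    (S : Finset M) (g : M → ℚ) (e : M → ℕ)
    (h : ∑ f ∈ S, (g f : k) * (ζ ^ s) ^ e f = 0) : ∑ f ∈ S, (g f : k) * ζ ^ e f = 0 := by
  set Q : ℚ[X] := ∑ f ∈ S, C (g f) * X ^ e f with hQ
  have hev : ∀ x : k, aeval x Q = ∑ f ∈ S, (g f : k) * x ^ e f := by
    intro x
    rw [hQ, map_sum]
    refine Finset.sum_congr rfl fun f _ => ?_
    rw [map_mul, map_pow, aeval_X, aeval_C]
    rfl
  have h1 : aeval (ζ ^ s) Q = 0 := by rw [hev]; exact h
  have hζs : IsPrimitiveRoot (ζ ^ s) 12 := hζ.pow_of_coprime s hs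
  have h2 := minpoly.dvd ℚ (ζ ^ s) h1
  rw [← cyclotomic_eq_minpoly_rat hζs (by norm_num), cyclotomic_eq_minpoly_rat hζ (by norm_num)]
    at h2
  obtain ⟨R, hR⟩ := h2
  rw [← hev, hR, map_mul, minpoly.aeval, zero_mul]

omit [CharZero k] in
theorem sum_pow_eq {ζ : k} (hζ : IsPrimitiveRoot ζ 12) (n : ℕ) :
    ∑ i ∈ Finset.range 12, (ζ ^ n) ^ i = if 12 ∣ n then 12 else 0 := by
  split_ifs with h
  · rw [(hζ.pow_eq_one_iff_dvd n).2 h]
    simp
  · have h1 : ζ ^ n ≠ 1 := fun h2 => h ((hζ.pow_eq_one_iff_dvd n).1 h2)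
    have h2 := mul_geom_sum (ζ ^ n) 12
    rw [← pow_mul, mul_comm n, pow_mul, hζ.pow_eq_one, one_pow, sub_self] at h2
    exact (mul_eq_zero.1 h2).resolve_left (sub_ne_zero.2 h1)

variable {V : Type*} [AddCommGroup V] [Module k V]

/-- the eigenvectors -/
def Eig {J : Type*} (s : J → Module.End k V) (T : Finset J) (P : Submodule k V) : Set V :=
  {v | v ∈ P ∧ ∀ j ∈ T, ∃ t : k, t ^ 12 = 1 ∧ s j v = t • v}

/-- one operator -/
private theorem eig_one {ζ : k} (hζ : IsPrimitiveRoot ζ 12) (s : Module.End k V) (hs : s ^ 12 = 1)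
    (v : V) : v = ∑ i ∈ Finset.range 12, (12 : k)⁻¹ •
      ∑ n ∈ Finset.range 12, (ζ ^ n) ^ i • (s ^ n) v ∧
    ∀ i, s (∑ n ∈ Finset.range 12, (ζ ^ n) ^ i • (s ^ n) v) =
      (ζ ^ i)⁻¹ • ∑ n ∈ Finset.range 12, (ζ ^ n) ^ i • (s ^ n) v := by
  constructor
  · have h12 : (12 : k) ≠ 0 := by norm_num
    rw [← Finset.smul_sum, Finset.sum_comm]
    have h1 : ∀ n ∈ Finset.range 12, ∑ i ∈ Finset.range 12, (ζ ^ n) ^ i • (s ^ n) v =
        if n = 0 then (12 : k) • v else 0 := by
      intro n hn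
      rw [← Finset.sum_smul, sum_pow_eq hζ]
      have hn' := Finset.mem_range.1 hn
      by_cases h0 : n = 0
      · subst h0
        simp
      · rw [if_neg h0, if_neg, zero_smul]
        intro h2
        exact h0 (Nat.eq_zero_of_dvd_of_lt h2 hn')
    rw [Finset.sum_congr rfl h1, Finset.sum_ite_eq' (Finset.range 12) 0, if_pos (by simp),
      smul_smul, inv_mul_cancel₀ h12, one_smul]
  · intro i
    have hz : ζ ^ i ≠ 0 := pow_ne_zero _ (hζ.ne_zero (by norm_num))
    have h1 : ∀ n, s ((ζ ^ n) ^ i • (s ^ n) v) =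
        (ζ ^ i)⁻¹ • ((ζ ^ (n + 1)) ^ i • (s ^ (n + 1)) v) := by
      intro n
      rw [map_smul, smul_smul]
      have e1 : (ζ ^ i)⁻¹ * (ζ ^ (n + 1)) ^ i = (ζ ^ n) ^ i := by
        have e2 : (ζ ^ (n + 1)) ^ i = (ζ ^ n) ^ i * ζ ^ i := by
          rw [← pow_mul, ← pow_mul, ← pow_add]
          ring_nf
        rw [e2, mul_comm, mul_assoc, mul_inv_cancel₀ hz, mul_one]
      rw [e1, pow_succ']
      rfl
    rw [map_sum, Finset.sum_congr rfl fun n _ => h1 n, ← Finset.smul_sum]
    congr 1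
    have h2 := Finset.sum_range_succ (fun n => (ζ ^ n) ^ i • (s ^ n) v) 12
    have h3 := Finset.sum_range_succ' (fun n => (ζ ^ n) ^ i • (s ^ n) v) 12
    rw [h2] at h3
    have h4 : (ζ ^ 12) ^ i • (s ^ 12) v = (ζ ^ 0) ^ i • (s ^ 0) v := by
      rw [hs, hζ.pow_eq_one, pow_zero, pow_zero]
    rw [h4] at h3
    exact (add_right_cancel h3).symm

/-- simultaneous eigenvectors -/
theorem mem_span_eig [IsAlgClosed k] {J : Type*} (s : J → Module.End k V) (T : Finset J)
    (P : Submodule k V) (hP : ∀ j ∈ T, ∀ v ∈ P, s j v ∈ P) (hs : ∀ j ∈ T, s j ^ 12 = 1)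
    (hc : ∀ i ∈ T, ∀ j ∈ T, Commute (s i) (s j)) : P ≤ Submodule.span k (Eig s T P) := by
  classical
  obtain ⟨ζ, hζ⟩ : ∃ ζ : k, IsPrimitiveRoot ζ 12 := HasEnoughRootsOfUnity.exists_primitiveRoot k 12
  induction T using Finset.induction_on with
  | empty =>
    intro v hv
    exact Submodule.subset_span ⟨hv, fun j hj => absurd hj (Finset.notMem_empty j)⟩
  | insert a T ha ih =>
    have hT : ∀ j ∈ T, j ∈ insert a T := fun j hj => Finset.mem_insert_of_mem hj
    have haT := Finset.mem_insert_self a T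
    refine (ih (fun j hj => hP j (hT j hj)) (fun j hj => hs j (hT j hj))
      fun i hi j hj => hc i (hT i hi) j (hT j hj)).trans (Submodule.span_le.2 ?_)
    rintro v ⟨hv, hE⟩
    have hpow : ∀ n : ℕ, ∀ w ∈ P, (s a ^ n) w ∈ P := by
      intro n
      induction n with
      | zero => intro w hw; exact hw
      | succ n ihn =>
        intro w hw
        rw [pow_succ]
        exact ihn _ (hP a haT w hw)
    obtain ⟨h1, h2⟩ := eig_one hζ (s a) (hs a haT) v
    rw [SetLike.mem_coe, h1]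
    refine Submodule.sum_mem _ fun i _ => Submodule.smul_mem _ _ (Submodule.subset_span ⟨?_, ?_⟩)
    · exact Submodule.sum_mem _ fun n _ => Submodule.smul_mem _ _ (hpow n v hv)
    · intro j hj
      rcases Finset.mem_insert.1 hj with rfl | hj
      · refine ⟨(ζ ^ i)⁻¹, ?_, h2 i⟩
        rw [inv_pow, ← pow_mul, mul_comm i, pow_mul, hζ.pow_eq_one, one_pow, inv_one]
      · obtain ⟨t, ht, htv⟩ := hE j hj
        refine ⟨t, ht, ?_⟩
        rw [map_sum, Finset.smul_sum]
        refine Finset.sum_congr rfl fun n _ => ?_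
        have h3 : s j ((s a ^ n) v) = (s a ^ n) (s j v) := by
          have h4 := ((hc j (hT j hj) a haT).pow_right n).eq
          have h5 := congrArg (fun f : Module.End k V => f v) h4
          exact h5
        rw [map_smul, h3, htv, map_smul, smul_comm]

end Pool.Agent.CYC.Alg
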