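import Pool.Agent.CYC.Formal

/-!
# The classes `e T x` of the cycles which are rationally equivalent to zero
-/

set_option autoImplicit false

noncomputable section

namespace Pool.Agent.CYC.Alg

open Pool.Agent.CYC.Formal

variable {ι P : Type*} [Fintype ι] [DecidableEq ι]

theorem sum_e (o : ι → P) (R : Submodule ℚ ((ι → P) →₀ ℚ))
    (hR : ∀ U : Finset ι, R ≤ R.comap (Finsupp.lmapDomain ℚ ℚ (prj o U))) (T : Finset ι)
    {z : (ι → P) →₀ ℚ} (hz : z ∈ R) : (z.sum fun p c => c • e o R T p) = 0 := by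
  have h2 : (z.sum fun p c => c • e o R T p) =
      ∑ U ∈ T.powerset, ((-1 : ℚ) ^ (T \ U).card) •
        (Submodule.Quotient.mk (z.mapDomain (prj o U)) : Q R) := by
    simp only [mk_map]
    unfold Finsupp.sum e
    simp only [Finset.smul_sum]
    rw [Finset.sum_comm]
    refine Finset.sum_congr rfl fun U _ => Finset.sum_congr rfl fun p _ => ?_
    rw [smul_comm]
  rw [h2, Finset.sum_eq_zero]
  intro U _
  have h3 : z.mapDomain (prj o U) ∈ R := hR U hz
  rw [(Submodule.Quotient.mk_eq_zero R).2 h3, smul_zero]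

/-- an element of a vector space over `ℚ` is zero if all linear forms vanish on it -/
theorem eq_zero_of_dual {V : Type*} [AddCommGroup V] [Module ℚ V] {v : V}
    (h : ∀ φ : V →ₗ[ℚ] ℚ, φ v = 0) : v = 0 :=
  (Module.forall_dual_apply_eq_zero_iff ℚ v).1 h

end Pool.Agent.CYC.Alg
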