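import Pool.Agent.CYC.FMain
import Pool.Agent.CYC.AlgC
import Pool.Agent.CYC.AlgS

/-!
# Class functions on products

The class functions on the product of the varieties `Y j` which depend only on the coordinates in a set
`T'` and which are zero if one of these coordinates is the base point. They are a `k`-space on which the
automorphisms of the factors act; the twelfth powers of these automorphisms are the identity.
-/

set_option autoImplicit false
set_option linter.unusedSectionVars false

noncomputable section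

namespace Pool.Agent.CYC.Alg

open Pool.Agent.ZCyc Pool.Agent.Dess
open Pool.Agent.CYC.Formal

variable {k : Type} [Field k] [CharZero k] {m m' : ℕ}

/-- the automorphism `s ^ n` on the points -/
def ptAct (n : ℕ) (x : Pt k) : Pt k := ⟨x.1, x.1.act n x.2⟩

/-- the automorphism acts on the coordinate `j` -/
def actP (j : Fin m') (x : Pts m' k) : Pts m' k := Function.update x j (ptAct 1 (x j))

/-- the space of class functions -/
def ClS (Y : Fin m' → Vr k) (T' : Finset (Fin m')) : Submodule k (Pts m' k → k) where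
  carrier := {G | (∀ z ∈ ratEq Y, (z.sum fun p c => (c : k) * G p) = 0) ∧
    (∀ x y : Pts m' k, (∀ j ∈ T', x j = y j) → G x = G y) ∧
    ∀ x : Pts m' k, OnP Y x → ∀ j ∈ T', x j = oP Y j → G x = 0}
  zero_mem' := ⟨fun z _ => by simp, fun x y _ => rfl, fun x _ j _ _ => rfl⟩
  add_mem' := by
    rintro G H ⟨h1, h2, h3⟩ ⟨h4, h5, h6⟩
    refine ⟨fun z hz => ?_, fun x y h => ?_, fun x hx j hj hxj => ?_⟩
    · have e : (z.sum fun p c => (c : k) * (G + H) p) =
          (z.sum fun p c => (c : k) * G p) + z.sum fun p c => (c : k) * H p := by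
        rw [Finsupp.sum, Finsupp.sum, Finsupp.sum, ← Finset.sum_add_distrib]
        exact Finset.sum_congr rfl fun p _ => mul_add _ _ _
      rw [e, h1 z hz, h4 z hz, add_zero]
    · rw [Pi.add_apply, Pi.add_apply, h2 x y h, h5 x y h]
    · rw [Pi.add_apply, h3 x hx j hj hxj, h6 x hx j hj hxj, add_zero]
  smul_mem' := by
    rintro c G ⟨h1, h2, h3⟩
    refine ⟨fun z hz => ?_, fun x y h => ?_, fun x hx j hj hxj => ?_⟩
    · have e : (z.sum fun p a => (a : k) * (c • G) p) = c * z.sum fun p a => (a : k) * G p := by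
        rw [Finsupp.sum, Finsupp.sum, Finset.mul_sum]
        refine Finset.sum_congr rfl fun p _ => ?_
        rw [Pi.smul_apply, smul_eq_mul]
        ring
      rw [e, h1 z hz, mul_zero]
    · rw [Pi.smul_apply, Pi.smul_apply, h2 x y h]
    · rw [Pi.smul_apply, h3 x hx j hj hxj, smul_zero]

variable {Y : Fin m' → Vr k} {T' : Finset (Fin m')}

theorem mem_ClS {G : Pts m' k → k} : G ∈ ClS Y T' ↔
    (∀ z ∈ ratEq Y, (z.sum fun p c => (c : k) * G p) = 0) ∧
    (∀ x y : Pts m' k, (∀ j ∈ T', x j = y j) → G x = G y) ∧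
    ∀ x : Pts m' k, OnP Y x → ∀ j ∈ T', x j = oP Y j → G x = 0 := Iff.rfl

/-- composition with a morphism -/
theorem cl_comp {G : Pts m' k → k} (h : ∀ z ∈ ratEq Y, (z.sum fun p c => (c : k) * G p) = 0)
    (f : Mor Y Y) {z : Pts m' k →₀ ℚ} (hz : z ∈ ratEq Y) :
    (z.sum fun p c => (c : k) * G (f.app p)) = 0 := by
  have h1 := h _ (ratEq_le f hz)
  rw [Finsupp.lmapDomain_apply, Finsupp.sum_mapDomain_index] at h1
  · exact h1
  · intro p
    simp
  · intro p a b
    push_cast
    ring

theorem ptAct_zero (x : Pt k) : ptAct 0 x = x := by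
  unfold ptAct
  rw [Vr.act_zero]

/-- the morphism which is the automorphism on the coordinate `j` -/
def actM (Y : Fin m' → Vr k) (j : Fin m') : Mor Y Y := fun i => .fac i rfl (if i = j then 1 else 0)

theorem actM_app (j : Fin m') : (actM Y j).app = actP j := by
  funext x i
  change ptAct (if i = j then 1 else 0) (x i) = actP j x i
  unfold actP
  by_cases h : i = j
  · subst h
    rw [if_pos rfl, Function.update_self]
  · rw [if_neg h, Function.update_of_ne h, ptAct_zero]

/-- a permutation of the coordinates as a morphism -/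
def permM (Y : Fin m' → Vr k) (σ : Equiv.Perm (Fin m')) (h : ∀ j, Y (σ j) = Y j) : Mor Y Y :=
  fun j => .fac (σ j) (h j) 0

theorem permM_app (σ : Equiv.Perm (Fin m')) (h : ∀ j, Y (σ j) = Y j) (x : Pts m' k) :
    (permM Y σ h).app x = x ∘ σ := by
  funext j
  exact ptAct_zero (x (σ j))

theorem actP_mem {G : Pts m' k → k} (hG : G ∈ ClS Y T') (j : Fin m') :
    (fun x => G (actP j x)) ∈ ClS Y T' := by
  obtain ⟨h1, h2, h3⟩ := hG
  refine ⟨fun z hz => ?_, fun x y h => ?_, fun x hx i hi hxi => ?_⟩
  · have h4 := cl_comp h1 (actM Y j) hz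
    rw [actM_app] at h4
    exact h4
  · refine h2 _ _ fun i hi => ?_
    unfold actP
    by_cases hij : i = j
    · subst hij
      rw [Function.update_self, Function.update_self, h i hi]
    · rw [Function.update_of_ne hij, Function.update_of_ne hij, h i hi]
  · have h5 : OnP Y (actP j x) := by
      rw [← actM_app]
      exact Mor.onP _ hx
    refine h3 _ h5 i hi ?_
    unfold actP
    by_cases hij : i = j
    · subst hij
      rw [Function.update_self, hxi]
      unfold ptAct oP
      rw [Vr.act_o]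
    · rw [Function.update_of_ne hij, hxi]

theorem perm_mem {G : Pts m' k → k} (hG : G ∈ ClS Y T') (σ : Equiv.Perm (Fin m'))
    (h : ∀ j, Y (σ j) = Y j) (hσ : ∀ j ∈ T', σ j ∈ T') : (fun x => G (x ∘ σ)) ∈ ClS Y T' := by
  obtain ⟨h1, h2, h3⟩ := hG
  refine ⟨fun z hz => ?_, fun x y hxy => ?_, fun x hx i hi hxi => ?_⟩
  · have h4 := cl_comp h1 (permM Y σ h) hz
    simp only [permM_app] at h4
    exact h4
  · exact h2 _ _ fun j hj => hxy _ (hσ j hj)
  · have h5 : OnP Y (x ∘ σ) := by
      rw [← permM_app σ h]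
      exact Mor.onP _ hx
    have h6 : ∃ j ∈ T', σ j = i := by
      have h7 : T'.image σ = T' := by
        refine Finset.eq_of_subset_of_card_le ?_ ?_
        · intro a ha
          obtain ⟨b, hb, rfl⟩ := Finset.mem_image.1 ha
          exact hσ b hb
        · rw [Finset.card_image_of_injective _ σ.injective]
      rw [← h7] at hi
      obtain ⟨j, hj, hji⟩ := Finset.mem_image.1 hi
      exact ⟨j, hj, hji⟩
    obtain ⟨j, hj, rfl⟩ := h6
    refine h3 _ h5 j hj ?_
    change x (σ j) = oP Y j
    rw [hxi]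
    unfold oP
    rw [h j]

/-! ### the automorphisms -/

theorem Vr.act_succA (X : Vr k) (n : ℕ) (p : X.Crd) : X.act 1 (X.act n p) = X.act (n + 1) p := by
  cases X with
  | curve C =>
    change Place.map (Place.map (p : Place k C.L) (C.σ ^ n).symm) (C.σ ^ 1).symm =
      Place.map p (C.σ ^ (n + 1)).symm
    apply Place.ext
    ext x
    rw [Place.mem_map, Place.mem_map, Place.mem_map, AlgEquiv.symm_symm, AlgEquiv.symm_symm,
      AlgEquiv.symm_symm, pow_one, pow_succ]
    rfl
  | cover W =>
    change ((p.1, W.ζ ^ 1 * (W.ζ ^ n * p.2)) : (Fin (W.n + 1) → k) × k) = (p.1, W.ζ ^ (n + 1) * p.2)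
    rw [← mul_assoc, ← pow_add, add_comm 1 n]

theorem Vr.act_twelve (X : Vr k) (p : X.Crd) : X.act 12 p = p := by
  cases X with
  | curve C =>
    have h1 : C.σ ^ 12 = 1 := by
      rw [← orderOf_dvd_iff_pow_eq_one]
      rcases C.ok.order with h | h | h | h | h <;> rw [h] <;> norm_num
    change Place.map (p : Place k C.L) (C.σ ^ 12).symm = p
    apply Place.ext
    ext x
    rw [Place.mem_map, AlgEquiv.symm_symm, h1]
    rfl
  | cover W =>
    have h1 : W.ζ ^ 12 = 1 := by
      rw [W.ok.prim.pow_eq_one_iff_dvd]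
      rcases W.ok.order with h | h | h | h <;> rw [h] <;> norm_num
    change ((p.1, W.ζ ^ 12 * p.2) : (Fin (W.n + 1) → k) × k) = p
    rw [h1, one_mul]
    rfl

theorem ptAct_succ (n : ℕ) (x : Pt k) : ptAct 1 (ptAct n x) = ptAct (n + 1) x := by
  unfold ptAct
  rw [Vr.act_succA]

theorem ptAct_twelve (x : Pt k) : ptAct 12 x = x := by
  unfold ptAct
  rw [Vr.act_twelve]

/-- the operators on the functions -/
def opS (j : Fin m') : Module.End k (Pts m' k → k) := LinearMap.funLeft k k (actP j)

theorem opS_apply (j : Fin m') (G : Pts m' k → k) (x : Pts m' k) : opS j G x = G (actP j x) := rfl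

theorem opS_pow (j : Fin m') (n : ℕ) (G : Pts m' k → k) (x : Pts m' k) :
    ((opS j ^ n : Module.End k (Pts m' k → k)) G) x = G (Function.update x j (ptAct n (x j))) := by
  induction n generalizing x with
  | zero =>
    rw [ptAct_zero, Function.update_eq_self]
    rfl
  | succ n ih =>
    rw [pow_succ']
    change ((opS j ^ n : Module.End k (Pts m' k → k)) G) (actP j x) = _
    rw [ih]
    congr 1
    unfold actP
    rw [Function.update_self, Function.update_idem]
    congr 1
    have h : ∀ n, ptAct n (ptAct 1 (x j)) = ptAct (n + 1) (x j) := by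
      intro n
      induction n with
      | zero => rw [ptAct_zero]
      | succ n ih => rw [← ptAct_succ, ih, ptAct_succ]
    exact h n

theorem opS_twelve (j : Fin m') : (opS j ^ 12 : Module.End k (Pts m' k → k)) = 1 := by
  apply LinearMap.ext
  intro G
  funext x
  rw [opS_pow, ptAct_twelve, Function.update_eq_self]
  rfl

theorem opS_comm (i j : Fin m') : Commute (opS i : Module.End k (Pts m' k → k)) (opS j) := by
  apply LinearMap.ext
  intro G
  funext x
  change G (actP j (actP i x)) = G (actP i (actP j x))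
  congr 1
  by_cases h : i = j
  · rw [h]
  · unfold actP
    rw [Function.update_of_ne (Ne.symm h), Function.update_of_ne h, Function.update_comm h]

/-- Every class function is a sum of simultaneous eigenfunctions. -/
theorem ClS_le [IsAlgClosed k] (Y : Fin m' → Vr k) (T' : Finset (Fin m')) :
    ClS Y T' ≤ Submodule.span k (Eig (V := Pts m' k → k) opS T' (ClS Y T')) := by
  have h1 : ∀ j ∈ T', ∀ v ∈ ClS Y T', opS j v ∈ ClS Y T' := by
    intro j _ G hG
    have h2 : opS j G = fun x => G (actP j x) := funext fun x => opS_apply j G x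
    rw [h2]
    exact actP_mem hG j
  have h2 : ∀ j ∈ T', (opS j ^ 12 : Module.End k (Pts m' k → k)) = 1 := fun j _ => opS_twelve j
  have h3 : ∀ i ∈ T', ∀ j ∈ T', Commute (opS i : Module.End k (Pts m' k → k)) (opS j) :=
    fun i _ j _ => opS_comm i j
  exact mem_span_eig (V := Pts m' k → k) opS T' (ClS Y T') h1 h2 h3

/-! ### the classes -/

/-- functions with values in a vector space over `ℚ` -/
theorem lin_mem {V : Type*} [AddCommGroup V] [Module ℚ V] {E : Pts m' k → V}
    (h1 : ∀ z ∈ ratEq Y, (z.sum fun p c => c • E p) = 0)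
    (h2 : ∀ x y : Pts m' k, (∀ j ∈ T', x j = y j) → E x = E y)
    (h3 : ∀ x : Pts m' k, OnP Y x → ∀ j ∈ T', x j = oP Y j → E x = 0) (φ : V →ₗ[ℚ] ℚ) :
    (fun x => ((φ (E x) : ℚ) : k)) ∈ ClS Y T' := by
  refine mem_ClS.2 ⟨fun z hz => ?_, fun x y h => ?_, fun x hx j hj hxj => ?_⟩
  · have h4 := congrArg (fun q => ((φ q : ℚ) : k)) (h1 z hz)
    simp only [map_zero, Rat.cast_zero] at h4
    rw [← h4, Finsupp.sum, Finsupp.sum, map_sum, Rat.cast_sum]
    refine Finset.sum_congr rfl fun p _ => ?_
    rw [map_smul, smul_eq_mul, Rat.cast_mul]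
  · rw [h2 x y h]
  · rw [h3 x hx j hj hxj, map_zero, Rat.cast_zero]

/-- the functions `φ (e T' x)` -/
theorem e_mem (Y : Fin m' → Vr k) (T' : Finset (Fin m')) (φ : Q (ratEq Y) →ₗ[ℚ] ℚ) :
    (fun x => ((φ (e (oP Y) (ratEq Y) T' x) : ℚ) : k)) ∈ ClS Y T' :=
  lin_mem (fun _ hz => sum_e (oP Y) (ratEq Y) (ratEq_prj Y) T' hz)
    (fun _ _ h => e_congr (oP Y) (ratEq Y) h)
    (fun _ _ _ hj hxj => e_eq_zero (oP Y) (ratEq Y) hj hxj) φ

end Pool.Agent.CYC.Alg
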