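import Pool.Agent.CYC.Defs

/-!
# The core theorem: statement

A product of powers `∏ β, (X β) ^ (a β)` of the varieties, `f` a function on its points with values in
`k` which is compatible with the rational equivalence of zero-cycles, is symmetric under the
permutations in every power, is multiplied by `t β` under the automorphism of every factor `X β`, and is
zero if some component is the base point. If for every `s` prime to `12` there is a `β` such that the
dimension of the eigenspace of `t β ^ s` in the holomorphic forms of the highest degree on `X β` is less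
than `a β`, then `f = 0`.
-/

set_option autoImplicit false

noncomputable section

namespace Pool.Agent.CYC

open Pool.Agent.ZCyc Pool.Agent.Dess

variable {k : Type} [Field k]

/-- `x` is a point of the product of the powers -/
def OnB {b : ℕ} (X : Fin b → Vr k) {a : Fin b → ℕ} (x : ∀ β, Fin (a β) → (X β).Crd) : Prop :=
  ∀ β j, (X β).On (x β j)

/-- the automorphism acts on the component `(β, j)` -/
def actB {b : ℕ} (X : Fin b → Vr k) {a : Fin b → ℕ} (β : Fin b) (j : Fin (a β))
    (x : ∀ β, Fin (a β) → (X β).Crd) : ∀ β, Fin (a β) → (X β).Crd :=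
  Function.update x β (Function.update (x β) j ((X β).act 1 (x β j)))

/-- the functions in the core theorem -/
structure ClsB {b : ℕ} (X : Fin b → Vr k) (a : Fin b → ℕ) (t : Fin b → k)
    (f : (∀ β, Fin (a β) → (X β).Crd) → k) : Prop where
  /-- `f` is a class function -/
  cf : ∀ (K : Type) [Field K] [Algebra k K], IsCurve k K →
    ∀ (P : ∀ β, Fin (a β) → (X β).CrdF K) (p : Place k K → ∀ β, Fin (a β) → (X β).Crd) (φ : K)
      (D : Place k K →₀ ℤ), φ ≠ 0 → (∀ v, HasOrd v φ (D v)) → (∀ β j, (X β).OnF (P β j)) →
      (∀ v β j, (X β).On (p v β j) ∧ (X β).IsVal v (P β j) (p v β j)) →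
      (D.sum fun v n => (n : k) * f (p v)) = 0
  eig : ∀ x, OnB X x → ∀ β j, f (actB X β j x) = t β * f x
  base : ∀ x, OnB X x → ∀ β j, x β j = (X β).o → f x = 0
  sym : ∀ x, OnB X x → ∀ σ : ∀ β, Equiv.Perm (Fin (a β)), f (fun β j => x β (σ β j)) = f x

/-- the core theorem -/
def Core (k : Type) [Field k] : Prop :=
  ∀ (b : ℕ) (X : Fin b → Vr k) (a : Fin b → ℕ) (t : Fin b → k)
    (f : (∀ β, Fin (a β) → (X β).Crd) → k), ClsB X a t f → (∀ β, 0 < a β) →
    (∀ β, 1 < a β → (X β).dim = 1) →
    (∀ s : ℕ, s = 1 ∨ s = 5 ∨ s = 7 ∨ s = 11 → ∃ β, ¬ (X β).InD (t β ^ s) (a β - 1)) →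
    ∀ x, OnB X x → f x = 0

end Pool.Agent.CYC
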