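import Pool.Agent.CYC.AlgB
import Pool.Agent.CYC.AlgD
import Pool.Agent.CYC.CoreDef

/-!
# From the core theorem to class functions which are symmetric under a Young subgroup
-/

set_option autoImplicit false
set_option linter.unusedSectionVars false

noncomputable section

namespace Pool.Agent.CYC.Alg

open Pool.Agent.ZCyc Pool.Agent.Dess
open Pool.Agent.CYC.Formal

variable {k : Type} [Field k] [CharZero k] {m m' : ℕ}

/-! ### blocks -/

/-- a partition of `Fin l` -/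
structure Blk (l : ℕ) where
  b : ℕ
  cls : Fin l → Fin b
  rep : Fin b → Fin l
  hrep : ∀ β, cls (rep β) = β

/-- the size of a block -/
def Blk.a {l : ℕ} (B : Blk l) (β : Fin B.b) : ℕ := Fintype.card {i // B.cls i = β}

/-- the enumeration of a block -/
def Blk.e {l : ℕ} (B : Blk l) (β : Fin B.b) : Fin (B.a β) ≃ {i // B.cls i = β} :=
  (Fintype.equivFin _).symm

/-- all letters -/
def Blk.E {l : ℕ} (B : Blk l) : Fin l ≃ (Σ β, Fin (B.a β)) :=
  (Equiv.sigmaFiberEquiv B.cls).symm.trans (Equiv.sigmaCongrRight fun β => (B.e β).symm)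

theorem Blk.cls_E {l : ℕ} (B : Blk l) (i : Fin l) : (B.E i).1 = B.cls i := rfl

theorem Blk.cls_symm {l : ℕ} (B : Blk l) (q : Σ β, Fin (B.a β)) : B.cls (B.E.symm q) = q.1 := by
  rw [← B.cls_E, Equiv.apply_symm_apply]

open Classical in
/-- the partition into the colour classes in `A` and the letters which are not in `A` -/
theorem exists_blk {C : Type*} {l : ℕ} (c' : Fin l → C) (A : Finset (Fin l)) :
    ∃ B : Blk l, ∀ i j, B.cls i = B.cls j ↔ i = j ∨ (i ∈ A ∧ j ∈ A ∧ c' i = c' j) := by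
  let S : Setoid (Fin l) :=
    { r := fun i j => i = j ∨ (i ∈ A ∧ j ∈ A ∧ c' i = c' j)
      iseqv :=
        { refl := fun i => Or.inl rfl
          symm := by
            rintro i j (rfl | ⟨h1, h2, h3⟩)
            · exact Or.inl rfl
            · exact Or.inr ⟨h2, h1, h3.symm⟩
          trans := by
            rintro i j l (rfl | ⟨h1, h2, h3⟩) (rfl | ⟨h4, h5, h6⟩)
            · exact Or.inl rfl
            · exact Or.inr ⟨h4, h5, h6⟩
            · exact Or.inr ⟨h1, h2, h3⟩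
            · exact Or.inr ⟨h1, h5, h3.trans h6⟩ } }
  have : Fintype (Quotient S) := Fintype.ofFinite _
  let ε := Fintype.equivFin (Quotient S)
  refine ⟨⟨Fintype.card (Quotient S), fun i => ε (Quotient.mk S i), fun β => (ε.symm β).out,
    fun β => ?_⟩, fun i j => ?_⟩
  · rw [Quotient.out_eq, Equiv.apply_symm_apply]
  · rw [ε.injective.eq_iff, Quotient.eq]
    rfl

/-! ### points with the same variety -/

theorem pt_ex {Z Y : Vr k} (h : Z = Y) {K : Type} [Field K] [Algebra k K] (P : Z.CrdF K)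
    (p : Place k K → Z.Crd) (hP : Z.OnF P) (hp : ∀ v, Z.On (p v) ∧ Z.IsVal v P (p v)) :
    ∃ (P' : Y.CrdF K) (p' : Place k K → Y.Crd), Y.OnF P' ∧
      ∀ v, (Y.On (p' v) ∧ Y.IsVal v P' (p' v)) ∧ (⟨Z, p v⟩ : Pt k) = ⟨Y, p' v⟩ := by
  subst h
  exact ⟨P, p, hP, fun v => ⟨hp v, rfl⟩⟩

theorem pt_o {Z Y : Vr k} (h : Z = Y) : (⟨Z, Z.o⟩ : Pt k) = ⟨Y, Y.o⟩ := by
  subst h
  rfl

theorem pt_on {Z Y : Vr k} (h : Z = Y) {x : Pt k} (hx : x.1 = Y ∧ x.1.On x.2) :
    ∃ u : Z.Crd, Z.On u ∧ x = ⟨Z, u⟩ := by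
  obtain ⟨X, u⟩ := x
  obtain ⟨h1, h2⟩ := hx
  change X = Y at h1
  subst h1 h
  exact ⟨u, h2, rfl⟩

/-! ### points of the product of the blocks -/

section

variable {l : ℕ} (Y : Fin m' → Vr k) (o : Fin l ↪ Fin m') (B : Blk l)

/-- the variety of a block -/
def Xb (β : Fin B.b) : Vr k := Y (o (B.rep β))

open Classical in
/-- the point of the product given by a point of the product of the blocks -/
def yy (x : ∀ β, Fin (B.a β) → (Xb Y o B β).Crd) : Pts m' k := fun j =>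
  if h : ∃ i, o i = j then ⟨Xb Y o B (B.E h.choose).1, x (B.E h.choose).1 (B.E h.choose).2⟩
  else oP Y j

theorem yy_at (x : ∀ β, Fin (B.a β) → (Xb Y o B β).Crd) (i : Fin l) :
    yy Y o B x (o i) = ⟨Xb Y o B (B.E i).1, x (B.E i).1 (B.E i).2⟩ := by
  have h : ∃ i', o i' = o i := ⟨i, rfl⟩
  have h1 : h.choose = i := o.injective h.choose_spec
  unfold yy
  rw [dif_pos h, h1]

theorem yy_at' (x : ∀ β, Fin (B.a β) → (Xb Y o B β).Crd) (β : Fin B.b) (a : Fin (B.a β)) :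
    yy Y o B x (o (B.E.symm ⟨β, a⟩)) = ⟨Xb Y o B β, x β a⟩ := by
  rw [yy_at, Equiv.apply_symm_apply]

theorem yy_not (x : ∀ β, Fin (B.a β) → (Xb Y o B β).Crd) {j : Fin m'} (h : ¬ ∃ i, o i = j) :
    yy Y o B x j = oP Y j := dif_neg h

variable {Y o B}

theorem yy_on (hY : ∀ i, Xb Y o B (B.cls i) = Y (o i))
    {x : ∀ β, Fin (B.a β) → (Xb Y o B β).Crd} (hx : OnB (Xb Y o B) x) : OnP Y (yy Y o B x) := by
  intro j
  by_cases h : ∃ i, o i = j
  · obtain ⟨i, rfl⟩ := h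
    rw [yy_at]
    exact ⟨hY i, hx _ _⟩
  · rw [yy_not Y o B x h]
    exact onP_oP j

/-- values of morphisms -/
theorem yy_val (hY : ∀ i, Xb Y o B (B.cls i) = Y (o i)) {K : Type} [Field K] [Algebra k K]
    (P : ∀ β, Fin (B.a β) → (Xb Y o B β).CrdF K)
    (p : Place k K → ∀ β, Fin (B.a β) → (Xb Y o B β).Crd)
    (hP : ∀ β j, (Xb Y o B β).OnF (P β j))
    (hp : ∀ v β j, (Xb Y o B β).On (p v β j) ∧ (Xb Y o B β).IsVal v (P β j) (p v β j)) (j : Fin m') :
    ∃ (P' : (Y j).CrdF K) (p' : Place k K → (Y j).Crd), (Y j).OnF P' ∧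
      ∀ v, ((Y j).On (p' v) ∧ (Y j).IsVal v P' (p' v)) ∧ yy Y o B (p v) j = ⟨Y j, p' v⟩ := by
  by_cases h : ∃ i, o i = j
  · obtain ⟨i, rfl⟩ := h
    obtain ⟨P', p', h1, h2⟩ := pt_ex (hY i) (P (B.E i).1 (B.E i).2)
      (fun v => p v (B.E i).1 (B.E i).2) (hP _ _) (fun v => hp v _ _)
    refine ⟨P', p', h1, fun v => ⟨(h2 v).1, ?_⟩⟩
    rw [yy_at]
    exact (h2 v).2
  · refine ⟨(Y j).constF K (Y j).o, fun _ => (Y j).o, (Y j).onF_const (Y j).on_o, fun v =>
      ⟨⟨(Y j).on_o, (Y j).isVal_const _ v⟩, ?_⟩⟩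
    rw [yy_not Y o B _ h]
    rfl

theorem yy_cf (hY : ∀ i, Xb Y o B (B.cls i) = Y (o i)) {T' : Finset (Fin m')}
    {G : Pts m' k → k} (hG : G ∈ ClS Y T') (K : Type) [Field K] [Algebra k K] (hK : IsCurve k K)
    (P : ∀ β, Fin (B.a β) → (Xb Y o B β).CrdF K)
    (p : Place k K → ∀ β, Fin (B.a β) → (Xb Y o B β).Crd) (φ : K) (D : Place k K →₀ ℤ)
    (hφ : φ ≠ 0) (hD : ∀ v, HasOrd v φ (D v)) (hP : ∀ β j, (Xb Y o B β).OnF (P β j))
    (hp : ∀ v β j, (Xb Y o B β).On (p v β j) ∧ (Xb Y o B β).IsVal v (P β j) (p v β j)) :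
    (D.sum fun v n => (n : k) * G (yy Y o B (p v))) = 0 := by
  choose P' p' h1 h2 using yy_val hY P p hP hp
  have hz : (D.sum fun v n => Finsupp.single (fun i => (⟨Y i, p' i v⟩ : Pt k)) (n : ℚ)) ∈
      ratEq Y := Submodule.subset_span ⟨K, inferInstance, inferInstance, hK, P',
    fun v i => p' i v, φ, D, hφ, hD, h1, fun v i => (h2 i v).1, rfl⟩
  have h3 := (mem_ClS.1 hG).1 _ hz
  rw [Finsupp.sum_sum_index] at h3
  · rw [← h3]
    unfold Finsupp.sum
    refine Finset.sum_congr rfl fun v _ => ?_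
    have h4 : (Finsupp.single (fun i => (⟨Y i, p' i v⟩ : Pt k)) ((D v : ℤ) : ℚ)).sum
        (fun q c => (c : k) * G q) = (((D v : ℤ) : ℚ) : k) * G fun i => ⟨Y i, p' i v⟩ :=
      Finsupp.sum_single_index (by simp)
    refine Eq.trans ?_ h4.symm
    have h5 : yy Y o B (p v) = fun i => (⟨Y i, p' i v⟩ : Pt k) := funext fun i => (h2 i v).2
    rw [Rat.cast_intCast, ← h5]
  · intro q
    simp
  · intro q a b
    push_cast
    ring

/-- the action of the automorphism on one component -/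
theorem yy_act (x : ∀ β, Fin (B.a β) → (Xb Y o B β).Crd) (β : Fin B.b) (a : Fin (B.a β)) :
    yy Y o B (actB (Xb Y o B) β a x) = actP (o (B.E.symm ⟨β, a⟩)) (yy Y o B x) := by
  funext j
  by_cases h : ∃ i, o i = j
  · obtain ⟨i, rfl⟩ := h
    obtain ⟨⟨β', a'⟩, rfl⟩ := B.E.symm.surjective i
    rw [yy_at']
    unfold actP
    by_cases h1 : (⟨β', a'⟩ : Σ β, Fin (B.a β)) = ⟨β, a⟩
    · obtain ⟨rfl, h2⟩ := Sigma.mk.inj_iff.1 h1
      obtain rfl := eq_of_heq h2
      rw [Function.update_self, yy_at']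
      unfold actB
      rw [Function.update_self, Function.update_self]
      rfl
    · rw [Function.update_of_ne, yy_at']
      · unfold actB
        by_cases h2 : β' = β
        · subst h2
          rw [Function.update_self, Function.update_of_ne]
          intro h3
          exact h1 (by rw [h3])
        · rw [Function.update_of_ne h2]
      · intro h2
        exact h1 (B.E.symm.injective (o.injective h2))
  · rw [yy_not Y o B _ h]
    unfold actP
    rw [Function.update_of_ne, yy_not Y o B x h]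
    rintro rfl
    exact h ⟨_, rfl⟩

/-- the permutation of the letters given by permutations in the blocks -/
def prm (B : Blk l) (σ : ∀ β, Equiv.Perm (Fin (B.a β))) : Equiv.Perm (Fin l) :=
  (B.E.trans (Equiv.sigmaCongrRight σ)).trans B.E.symm

theorem prm_at (σ : ∀ β, Equiv.Perm (Fin (B.a β))) (β : Fin B.b) (a : Fin (B.a β)) :
    prm B σ (B.E.symm ⟨β, a⟩) = B.E.symm ⟨β, σ β a⟩ := by
  unfold prm
  simp

theorem cls_prm (σ : ∀ β, Equiv.Perm (Fin (B.a β))) (i : Fin l) : B.cls (prm B σ i) = B.cls i := by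
  obtain ⟨⟨β, a⟩, rfl⟩ := B.E.symm.surjective i
  rw [prm_at, B.cls_symm, B.cls_symm]

theorem yy_prm (σ : ∀ β, Equiv.Perm (Fin (B.a β)))
    (x : ∀ β, Fin (B.a β) → (Xb Y o B β).Crd) :
    yy Y o B (fun β a => x β (σ β a)) = yy Y o B x ∘ ((prm B σ).viaEmbedding o) := by
  funext j
  by_cases h : ∃ i, o i = j
  · obtain ⟨i, rfl⟩ := h
    obtain ⟨⟨β, a⟩, rfl⟩ := B.E.symm.surjective i
    rw [yy_at', Function.comp_apply, Equiv.Perm.viaEmbedding_apply, prm_at, yy_at']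
  · rw [yy_not Y o B _ h, Function.comp_apply,
      Equiv.Perm.viaEmbedding_apply_of_notMem _ _ _ (by
        rintro ⟨i, hi⟩
        exact h ⟨i, hi⟩), yy_not Y o B x h]

end

open Classical in
/-- The core theorem for a class function which is an eigenfunction and symmetric under the Young subgroup
of `A`. -/
theorem core_zero (hcore : Core k) {l : ℕ} {Y : Fin m' → Vr k} {T' : Finset (Fin m')}
    {o : Fin l ↪ Fin m'} (ho : ∀ j, j ∈ T' ↔ ∃ i, o i = j) {G : Pts m' k → k}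
    (hG : G ∈ ClS Y T') {t : Fin m' → k} (ht : ∀ j ∈ T', ∀ x, G (actP j x) = t j * G x)
    {A : Finset (Fin l)} {c' : Fin l → Vr k × k} (hc' : ∀ i, c' i = (Y (o i), t (o i)))
    (hdim : ∀ i ∈ A, ∀ j ∈ A, c' i = c' j → i ≠ j → (Y (o i)).dim = 1)
    (hsym : ∀ π ∈ yf c' A, ∀ x, OnP Y x → G (x ∘ (π.1.viaEmbedding o)) = G x)
    (hgood : ∀ s : ℕ, s = 1 ∨ s = 5 ∨ s = 7 ∨ s = 11 → ∃ i ∈ A,
      ¬ (Y (o i)).InD (t (o i) ^ s) ((A.filter fun j => c' j = c' i).card - 1))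
    {y : Pts m' k} (hy : OnP Y y) : G y = 0 := by
  obtain ⟨B, hB⟩ := exists_blk c' A
  have hcol : ∀ i j, B.cls i = B.cls j → c' i = c' j := by
    intro i j h
    rcases (hB i j).1 h with rfl | ⟨-, -, h⟩
    · rfl
    · exact h
  have hrepc : ∀ i, c' (B.rep (B.cls i)) = c' i := fun i => hcol _ _ (B.hrep _)
  have hY : ∀ i, Xb Y o B (B.cls i) = Y (o i) := by
    intro i
    have h := hrepc i
    rw [hc', hc'] at h
    exact congrArg Prod.fst h
  have hT : ∀ i, t (o (B.rep (B.cls i))) = t (o i) := by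
    intro i
    have h := hrepc i
    rw [hc', hc'] at h
    exact congrArg Prod.snd h
  have hdep := (mem_ClS.1 hG).2.1
  have hbase := (mem_ClS.1 hG).2.2
  have hcls : ClsB (Xb Y o B) B.a (fun β => t (o (B.rep β))) (fun x => G (yy Y o B x)) := by
    refine ⟨?_, ?_, ?_, ?_⟩
    · intro K _ _ hK P p φ D hφ hD hP hp
      exact yy_cf hY hG K hK P p φ D hφ hD hP hp
    · intro x _ β a
      rw [yy_act, ht _ ((ho _).2 ⟨_, rfl⟩)]
      congr 1
      have h := hT (B.E.symm ⟨β, a⟩)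
      rw [B.cls_symm] at h
      exact h.symm
    · intro x hx β a hxa
      refine hbase _ (yy_on hY hx) (o (B.E.symm ⟨β, a⟩)) ((ho _).2 ⟨_, rfl⟩) ?_
      rw [yy_at', hxa]
      have h := hY (B.E.symm ⟨β, a⟩)
      rw [B.cls_symm] at h
      exact pt_o h
    · intro x hx σ
      rw [yy_prm]
      have hmem : prm B σ ∈ Yg c' := (mem_Yg c').2 fun i => hcol _ _ (cls_prm σ i)
      refine hsym ⟨prm B σ, hmem⟩ (mem_yf.2 fun i hi => ?_) _ (yy_on hY hx)
      rcases (hB _ _).1 (cls_prm σ i) with h | ⟨-, h, -⟩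
      · exact h
      · exact absurd h hi
  have hpos : ∀ β, 0 < B.a β := fun β => Fintype.card_pos_iff.2 ⟨⟨B.rep β, B.hrep β⟩⟩
  have hdim1 : ∀ β, 1 < B.a β → (Xb Y o B β).dim = 1 := by
    intro β hβ
    obtain ⟨⟨i, hi⟩, ⟨j, hj⟩, hij⟩ := Fintype.one_lt_card_iff.1 hβ
    have hne : i ≠ j := fun h => hij (Subtype.ext h)
    rcases (hB i j).1 (hi.trans hj.symm) with h | ⟨h1, h2, h3⟩
    · exact absurd h hne
    · have h4 := hdim i h1 j h2 h3 hne
      rw [← hY, hi] at h4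
      exact h4
  have hs : ∀ s : ℕ, s = 1 ∨ s = 5 ∨ s = 7 ∨ s = 11 →
      ∃ β, ¬ (Xb Y o B β).InD (t (o (B.rep β)) ^ s) (B.a β - 1) := by
    intro s hs
    obtain ⟨i, hi, h⟩ := hgood s hs
    refine ⟨B.cls i, ?_⟩
    rw [hY, hT]
    have h1 : B.a (B.cls i) = (A.filter fun j => c' j = c' i).card := by
      unfold Blk.a
      rw [Fintype.card_subtype]
      congr 1
      ext j
      rw [Finset.mem_filter, Finset.mem_filter, hB]
      constructor
      · rintro ⟨-, rfl | ⟨h1, -, h2⟩⟩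
        · exact ⟨hi, rfl⟩
        · exact ⟨h1, h2⟩
      · rintro ⟨h1, h2⟩
        exact ⟨Finset.mem_univ _, Or.inr ⟨h1, hi, h2⟩⟩
    rw [h1]
    exact h
  have key := hcore B.b (Xb Y o B) B.a (fun β => t (o (B.rep β))) _ hcls hpos hdim1 hs
  -- the given point
  have hex : ∀ β (a : Fin (B.a β)), ∃ u : (Xb Y o B β).Crd, (Xb Y o B β).On u ∧
      y (o (B.E.symm ⟨β, a⟩)) = ⟨Xb Y o B β, u⟩ := by
    intro β a
    refine pt_on ?_ (hy _)
    have h := hY (B.E.symm ⟨β, a⟩)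
    rw [B.cls_symm] at h
    exact h
  choose x hx1 hx2 using hex
  have h1 := key x hx1
  rw [← h1]
  refine hdep _ _ fun j hj => ?_
  obtain ⟨i, rfl⟩ := (ho j).1 hj
  obtain ⟨⟨β, a⟩, rfl⟩ := B.E.symm.surjective i
  rw [yy_at', hx2]

end Pool.Agent.CYC.Alg
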