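import Pool.Agent.CYC.FMain
import Pool.Agent.CYC.CoreDef

/-!
# The main theorem from the theorem on the graded parts
-/

set_option autoImplicit false

noncomputable section

namespace Pool.Agent.CYC

open Pool.Agent.ZCyc Pool.Agent.Dess
open Pool.Agent.CYC.Formal

open Classical in
/-- the statement on the graded parts, which is condition 4 for the classes `e T' (f x)` -/
def Graded (k : Type) [Field k] : Prop :=
  ∀ (m m' : ℕ) (X : Fin m → Vr k) (Y : Fin m' → Vr k) (ν : ℕ) (γ : Mor X Y →₀ ℚ), NoRep X →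
    KillsForms γ ν → ∀ (T : Finset (Fin m)) (T' : Finset (Fin m')) (x : Pts m k), OnP X x →
      wt X T = ν → wt Y T' = ν →
      ∑ f ∈ (γ.support.filter fun f => Bij (fun j => (f j).src) T T'),
        γ f • e (fun j => (⟨Y j, (Y j).o⟩ : Pt k)) (ratEq Y) T' (f.app x) = 0

theorem main_of_graded {k : Type} [Field k] [IsAlgClosed k] [CharZero k] (hgr : Graded k) :
    -- a decreasing filtration of the zero-cycles modulo rational equivalence
    (∀ (m : ℕ) (X : Fin m → Vr k) (ν : ℕ), ratEq X ≤ Fil X ν ∧ Fil X (ν + 1) ≤ Fil X ν) ∧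
    -- 1: `F⁰` is everything
    (∀ (m : ℕ) (X : Fin m → Vr k) (z : Pts m k →₀ ℚ), z ∈ Fil X 0 ↔ ∀ p ∈ z.support, OnP X p) ∧
    -- 1: `F¹` is the part of degree zero
    (∀ (m : ℕ) (X : Fin m → Vr k) (z : Pts m k →₀ ℚ), z ∈ Fil X 1 ↔
      (∀ p ∈ z.support, OnP X p) ∧ (z.sum fun _ c => c) = 0) ∧
    -- 1: `F²` is the kernel of the Albanese map
    (∀ (m : ℕ) (X : Fin m → Vr k) (z : Pts m k →₀ ℚ), z ∈ Fil X 2 ↔
      z ∈ Fil X 1 ∧ ∀ j, (X j).dim = 1 → toFac j z ∈ ratEq (fun _ : Fin 1 => X j)) ∧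
    -- 2: `F^(dim + 1) = 0`
    (∀ (m : ℕ) (X : Fin m → Vr k), Fil X ((∑ j, (X j).dim) + 1) = ratEq X) ∧
    -- 3: correspondences respect the filtration
    (∀ (m m' : ℕ) (X : Fin m → Vr k) (Y : Fin m' → Vr k) (ν : ℕ) (γ : Mor X Y →₀ ℚ),
      (Fil X ν).map (pushM γ) ≤ Fil Y ν) ∧
    -- 4: a correspondence which is zero on the holomorphic `ν`-forms is zero on `gr^ν`
    (∀ (m m' : ℕ) (X : Fin m → Vr k) (Y : Fin m' → Vr k) (ν : ℕ) (γ : Mor X Y →₀ ℚ),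
      NoRep X → KillsForms γ ν → (Fil X ν).map (pushM γ) ≤ Fil Y (ν + 1)) :=
  ⟨fun _ X ν => ⟨Fil_ge X ν, Fil_anti X ν⟩, fun _ _ _ => Fil_zero, fun _ _ _ => Fil_one,
    fun _ _ _ => Fil_two, fun _ X => Fil_top X, fun _ _ _ _ ν γ => Fil_map γ ν,
    fun m m' X Y ν γ hX hγ => Fil_grad γ ν fun T T' x hx hT hT' =>
      hgr m m' X Y ν γ hX hγ T T' x hx hT hT'⟩

end Pool.Agent.CYC
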