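import Pool.Agent.CYC.AlgE
import Pool.Agent.CYC.Wrap
import Pool.Agent.EFP.Kos

/-!
# Auxiliary facts for the theorem on the graded parts

The dimensions of the eigenspaces, the permutation and the Koszul sign of a morphism, eigenfunctions, and
symmetrisation.
-/

set_option autoImplicit false
set_option linter.unusedSectionVars false

noncomputable section

namespace Pool.Agent.CYC.Alg

open Pool.Agent.ZCyc Pool.Agent.Dess
open Pool.Agent.CYC.Formal
open Pool.Agent.EFP (kos kos_sq kos_mul)
open Pool.Agent.ZIso (fixing)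

variable {k : Type} [Field k] [CharZero k] {m m' : ℕ}

/-! ### dimensions -/

private theorem dim_ex {P : ℕ → Prop} (h : ∀ i j, i ≤ j → P j → P i) (h' : ∃ i, ¬ P i) :
    ∃ d, ∀ i, P i ↔ i < d := by
  classical
  refine ⟨Nat.find h', fun i => ⟨fun hi => ?_, fun hi => ?_⟩⟩
  · by_contra hlt
    exact Nat.find_spec h' (h _ _ (not_lt.1 hlt) hi)
  · by_contra hi'
    exact Nat.find_min h' hi hi'

/-- the dimensions of the eigenspaces -/
theorem exists_dim (Z : Vr k) (z : k) : ∃ d, ∀ i, Z.InD z i ↔ i < d := by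
  cases Z with
  | curve C =>
    refine dim_ex (P := fun i => C.InD z i) ?_ ?_
    · rintro i j hij ⟨h1, h2, h3⟩
      refine ⟨h1, fun h => lt_of_le_of_lt hij (h2 h), fun h => le_trans ?_ (h3 h)⟩
      exact Nat.mul_le_mul_left _ (by omega)
    · have hpos : 0 < orderOf C.σ := by
        rcases C.ok.order with h | h | h | h | h <;> omega
      refine ⟨genusQ C.σ + (orderOf C.σ * genusQ C.σ +
        ∑ x ∈ Finset.Ico 1 (orderOf C.σ), (orderOf C.σ - x) * fixN C.σ x z), ?_⟩
      rintro ⟨-, h2, h3⟩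
      by_cases hz : z = 1
      · have := h2 hz
        omega
      · have h4 := h3 hz
        generalize orderOf C.σ * genusQ C.σ +
          ∑ x ∈ Finset.Ico 1 (orderOf C.σ), (orderOf C.σ - x) * fixN C.σ x z = N at h4
        have h5 := Nat.le_mul_of_pos_left (genusQ C.σ + N + 2) hpos
        omega
  | cover W =>
    refine dim_ex (P := fun i => W.InD z i) ?_ ?_
    · rintro i j hij ⟨r, h1, h2, h3, h4⟩
      exact ⟨r, h1, h2, h3, lt_of_le_of_lt hij h4⟩
    · refine ⟨∑ r ∈ Finset.range W.m, ((r * W.a + (W.m - r) * W.b) / W.m - 1).choose W.n, ?_⟩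
      rintro ⟨r, -, h2, -, h4⟩
      have h5 := Finset.single_le_sum
        (f := fun r => ((r * W.a + (W.m - r) * W.b) / W.m - 1).choose W.n)
        (fun _ _ => Nat.zero_le _) (Finset.mem_range.2 h2)
      omega

/-- the dimension of the eigenspace of `z` -/
def dd (Z : Vr k) (z : k) : ℕ := (exists_dim Z z).choose

theorem inD_iff (Z : Vr k) (z : k) (i : ℕ) : Z.InD z i ↔ i < dd Z z :=
  (exists_dim Z z).choose_spec i

/-! ### morphisms -/

variable {X : Fin m → Vr k} {Y : Fin m' → Vr k}

/-- the permutation given by a morphism -/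
theorem gr_per {l : ℕ} {T : Finset (Fin m)} {T' : Finset (Fin m')}
    {oI : Fin l → Fin m} {oJ : Fin l → Fin m'} (hoJ : Function.Injective oJ)
    (hI : ∀ i ∈ T, ∃ a, oI a = i) (hJ : ∀ a, oJ a ∈ T') {f : Mor X Y}
    (hf : Bij (fun j => (f j).src) T T') :
    ∃ τ : Equiv.Perm (Fin l), ∀ a, (f (oJ a)).src = some (oI (τ a)) := by
  have h1 : ∀ a, ∃ b, (f (oJ a)).src = some (oI b) := by
    intro a
    obtain ⟨i, h2, h3⟩ := hf.1 (oJ a) (hJ a)
    obtain ⟨b, rfl⟩ := hI i h2
    exact ⟨b, h3⟩
  choose t ht using h1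
  have hti : Function.Injective t := by
    intro a b hab
    obtain ⟨i, h2, h3⟩ := hf.1 (oJ a) (hJ a)
    obtain ⟨j, -, hj⟩ := hf.2 i h2
    apply hoJ
    rw [hj (oJ a) ⟨hJ a, h3⟩, hj (oJ b) ⟨hJ b, ?_⟩]
    show (f (oJ b)).src = some i
    have h4 : (f (oJ a)).src = some i := h3
    rw [ht b, ← hab, ← ht a, h4]
  exact ⟨Equiv.ofBijective t (Finite.injective_iff_bijective.1 hti), ht⟩

open Classical in
theorem gr_koszul {l : ℕ} {T' : Finset (Fin m')}
    {oI : Fin l → Fin m} (hoI : StrictMono oI) {oJ : Fin l → Fin m'} (hoJ : StrictMono oJ)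
    (hJ' : ∀ j ∈ T', ∃ a, oJ a = j) (hJ : ∀ a, oJ a ∈ T') {f : Mor X Y}
    {τ : Equiv.Perm (Fin l)} (hτ : ∀ a, (f (oJ a)).src = some (oI (τ a))) :
    koszul f T' = kos (fun a => (Y (oJ a)).dim) τ := by
  have hT : T' = Finset.univ.map ⟨oJ, hoJ.injective⟩ := by
    ext j
    rw [Finset.mem_map]
    constructor
    · intro hj
      obtain ⟨a, rfl⟩ := hJ' j hj
      exact ⟨a, Finset.mem_univ _, rfl⟩
    · rintro ⟨a, -, rfl⟩
      exact hJ a
  unfold koszul kos
  rw [hT, Finset.prod_map]
  refine Finset.prod_congr rfl fun a _ => ?_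
  rw [Finset.filter_map, Finset.prod_map]
  refine Finset.prod_congr ?_ fun b _ => rfl
  refine Finset.filter_congr fun b _ => ?_
  change (oJ a < oJ b ∧ ∃ i i', (f (oJ a)).src = some i ∧ (f (oJ b)).src = some i' ∧ i' < i) ↔ _
  constructor
  · rintro ⟨h1, i, i', h2, h3, h4⟩
    rw [hτ a, Option.some.injEq] at h2
    rw [hτ b, Option.some.injEq] at h3
    subst h2 h3
    exact ⟨hoJ.lt_iff_lt.1 h1, hoI.lt_iff_lt.1 h4⟩
  · rintro ⟨h1, h2⟩
    exact ⟨hoJ h1, _, _, hτ a, hτ b, hoI h2⟩

/-! ### eigenfunctions -/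

/-- powers of the automorphism in one coordinate -/
theorem eig_pow {G : Pts m' k → k} {t : k} {j : Fin m'} (h : ∀ x, G (actP j x) = t * G x) (n : ℕ)
    (x : Pts m' k) : G (Function.update x j (ptAct n (x j))) = t ^ n * G x := by
  rw [← opS_pow j n G x]
  have h1 : opS j G = t • G := by
    funext y
    rw [opS_apply, h]
    rfl
  have h2 : ∀ n : ℕ, (opS j ^ n : Module.End k (Pts m' k → k)) G = t ^ n • G := by
    intro n
    induction n with
    | zero =>
      rw [pow_zero, pow_zero, one_smul]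
      rfl
    | succ n ih =>
      rw [pow_succ]
      change (opS j ^ n : Module.End k (Pts m' k → k)) (opS j G) = _
      rw [h1, map_smul, ih, smul_smul, pow_succ, mul_comm]
  rw [h2]
  rfl

/-- powers of the automorphisms in all coordinates -/
theorem eig_prod {T' : Finset (Fin m')} {G : Pts m' k → k} {t : Fin m' → k}
    (h : ∀ j ∈ T', ∀ x, G (actP j x) = t j * G x) (n : Fin m' → ℕ) (x : Pts m' k)
    {S : Finset (Fin m')} (hS : S ⊆ T') :
    G (fun j => if j ∈ S then ptAct (n j) (x j) else x j) = (∏ j ∈ S, t j ^ n j) * G x := by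
  induction S using Finset.induction_on with
  | empty => simp
  | insert a S ha ih =>
    have h1 := eig_pow (h a (hS (Finset.mem_insert_self a S))) (n a)
      (fun j => if j ∈ S then ptAct (n j) (x j) else x j)
    rw [ih fun j hj => hS (Finset.mem_insert_of_mem hj)] at h1
    rw [Finset.prod_insert ha, mul_assoc, ← h1]
    congr 1
    funext j
    by_cases hj : j = a
    · subst hj
      rw [Function.update_self, if_pos (Finset.mem_insert_self _ _), if_neg ha]
    · rw [Function.update_of_ne hj]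
      by_cases hjS : j ∈ S
      · rw [if_pos hjS, if_pos (Finset.mem_insert_of_mem hjS)]
      · rw [if_neg hjS, if_neg]
        intro h2
        rcases Finset.mem_insert.1 h2 with h3 | h3
        · exact hj h3
        · exact hjS h3

end Pool.Agent.CYC.Alg
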