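import Pool.Agent.CYC.AlgF

/-!
# Symmetrisation of class functions
-/

set_option autoImplicit false
set_option linter.unusedSectionVars false

noncomputable section

namespace Pool.Agent.CYC.Alg

open Pool.Agent.ZCyc Pool.Agent.Dess
open Pool.Agent.CYC.Formal

variable {k : Type} [Field k] [CharZero k] {m m' l : ℕ}

/-- transport of permutations -/
theorem via_mul (o : Fin l ↪ Fin m') (π ρ : Equiv.Perm (Fin l)) :
    (π * ρ).viaEmbedding o = π.viaEmbedding o * ρ.viaEmbedding o := by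
  apply Equiv.ext
  intro j
  by_cases h : j ∈ Set.range o
  · obtain ⟨i, rfl⟩ := h
    rw [Equiv.Perm.mul_apply, Equiv.Perm.viaEmbedding_apply, Equiv.Perm.viaEmbedding_apply,
      Equiv.Perm.viaEmbedding_apply, Equiv.Perm.mul_apply]
  · rw [Equiv.Perm.mul_apply, Equiv.Perm.viaEmbedding_apply_of_notMem _ _ _ h,
      Equiv.Perm.viaEmbedding_apply_of_notMem _ _ _ h,
      Equiv.Perm.viaEmbedding_apply_of_notMem _ _ _ h]

theorem actP_perm (σ : Equiv.Perm (Fin m')) (j : Fin m') (x : Pts m' k) :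
    actP (σ j) x ∘ σ = actP j (x ∘ σ) := by
  funext i
  unfold actP
  by_cases h : i = j
  · subst h
    rw [Function.comp_apply, Function.update_self, Function.update_self, Function.comp_apply]
  · rw [Function.comp_apply, Function.update_of_ne (fun h2 => h (σ.injective h2)),
      Function.update_of_ne h, Function.comp_apply]

section

variable {Y : Fin m' → Vr k} {T' : Finset (Fin m')} {o : Fin l ↪ Fin m'}
  {t : Fin m' → k} {c' : Fin l → Vr k × k}

theorem via_Y (hc' : ∀ i, c' i = (Y (o i), t (o i))) (π : Yg c') (j : Fin m') :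
    Y (π.1.viaEmbedding o j) = Y j := by
  by_cases h : j ∈ Set.range o
  · obtain ⟨i, rfl⟩ := h
    rw [Equiv.Perm.viaEmbedding_apply]
    have h1 := (mem_Yg c').1 π.2 i
    rw [hc', hc'] at h1
    exact congrArg Prod.fst h1
  · rw [Equiv.Perm.viaEmbedding_apply_of_notMem _ _ _ h]

theorem via_t (hc' : ∀ i, c' i = (Y (o i), t (o i))) (π : Yg c') (j : Fin m') :
    t (π.1.viaEmbedding o j) = t j := by
  by_cases h : j ∈ Set.range o
  · obtain ⟨i, rfl⟩ := h
    rw [Equiv.Perm.viaEmbedding_apply]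
    have h1 := (mem_Yg c').1 π.2 i
    rw [hc', hc'] at h1
    exact congrArg Prod.snd h1
  · rw [Equiv.Perm.viaEmbedding_apply_of_notMem _ _ _ h]

theorem via_T (ho : ∀ j, j ∈ T' ↔ ∃ i, o i = j) (π : Equiv.Perm (Fin l)) (j : Fin m') :
    π.viaEmbedding o j ∈ T' ↔ j ∈ T' := by
  by_cases h : j ∈ Set.range o
  · obtain ⟨i, rfl⟩ := h
    rw [Equiv.Perm.viaEmbedding_apply, ho, ho]
    exact ⟨fun _ => ⟨i, rfl⟩, fun _ => ⟨_, rfl⟩⟩
  · rw [Equiv.Perm.viaEmbedding_apply_of_notMem _ _ _ h]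

open Classical in
/-- the sum over the Young subgroup vanishes -/
theorem sym_zero (hcore : Core k) (ho : ∀ j, j ∈ T' ↔ ∃ i, o i = j) {G : Pts m' k → k}
    (hG : G ∈ ClS Y T') (ht : ∀ j ∈ T', ∀ x, G (actP j x) = t j * G x)
    (hc' : ∀ i, c' i = (Y (o i), t (o i)))
    (hdim : ∀ i j, c' i = c' j → i ≠ j → (Y (o i)).dim = 1) {A : Finset (Fin l)}
    (hgood : ∀ s : ℕ, s = 1 ∨ s = 5 ∨ s = 7 ∨ s = 11 →
      Good c' (fun q : Vr k × k => dd q.1 (q.2 ^ s)) A)
    {y : Pts m' k} (hy : OnP Y y) : ∑ π ∈ yf c' A, G (y ∘ (π.1.viaEmbedding o)) = 0 := by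
  set G' : Pts m' k → k := ∑ π ∈ yf c' A, fun x => G (x ∘ (π.1.viaEmbedding o)) with hG'
  have happ : ∀ x, G' x = ∑ π ∈ yf c' A, G (x ∘ (π.1.viaEmbedding o)) := by
    intro x
    rw [hG', Finset.sum_apply]
  have h1 : G' ∈ ClS Y T' := Submodule.sum_mem _ fun π _ =>
    perm_mem hG _ (via_Y hc' π) fun j hj => (via_T ho π.1 j).2 hj
  have h2 : ∀ j ∈ T', ∀ x, G' (actP j x) = t j * G' x := by
    intro j hj x
    rw [happ, happ, Finset.mul_sum]
    refine Finset.sum_congr rfl fun π _ => ?_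
    obtain ⟨j', rfl⟩ := (π.1.viaEmbedding o).surjective j
    rw [actP_perm, ht j' ((via_T ho π.1 j').1 hj), via_t hc' π j']
  have h3 : ∀ ρ ∈ yf c' A, ∀ x, OnP Y x → G' (x ∘ (ρ.1.viaEmbedding o)) = G' x := by
    intro ρ hρ x _
    rw [happ, happ]
    refine Finset.sum_bij' (fun π _ => ρ * π) (fun π _ => ρ⁻¹ * π)
      (fun π hπ => mul_mem_yf hρ hπ) (fun π hπ => mul_mem_yf (inv_mem_yf hρ) hπ)
      (fun π _ => inv_mul_cancel_left _ _) (fun π _ => mul_inv_cancel_left _ _) fun π _ => ?_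
    rw [Subgroup.coe_mul, via_mul]
    rfl
  have h4 : ∀ s : ℕ, s = 1 ∨ s = 5 ∨ s = 7 ∨ s = 11 → ∃ i ∈ A,
      ¬ (Y (o i)).InD (t (o i) ^ s) ((A.filter fun j => c' j = c' i).card - 1) := by
    intro s hs
    obtain ⟨γ, hγ'⟩ := hgood s hs
    have hγ : dd γ.1 (γ.2 ^ s) < (A.filter fun j => c' j = γ).card := by
      convert hγ'
    have h5 : (A.filter fun j => c' j = γ).Nonempty := by
      rw [← Finset.card_pos]
      omega
    obtain ⟨i, hi⟩ := h5
    rw [Finset.mem_filter] at hi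
    refine ⟨i, hi.1, ?_⟩
    rw [hi.2, inD_iff]
    have h6 : dd (Y (o i)) (t (o i) ^ s) = dd γ.1 (γ.2 ^ s) := by
      rw [← hi.2, hc']
    rw [h6]
    omega
  rw [← happ]
  exact core_zero hcore ho h1 h2 hc' (fun i _ j _ => hdim i j) h3 h4 hy

end

/-! ### the point with permuted coordinates -/

section

variable {X : Fin m → Vr k} {Y : Fin m' → Vr k} {oI : Fin l → Fin m} {o : Fin l ↪ Fin m'}
  {x : Pts m k}

variable (Y oI o x) in
open Classical in
/-- the point with permuted coordinates -/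
def xt (τ : Equiv.Perm (Fin l)) : Pts m' k := fun j =>
  if h : ∃ a, o a = j then x (oI (τ h.choose)) else oP Y j

theorem xt_at (τ : Equiv.Perm (Fin l)) (a : Fin l) : xt Y oI o x τ (o a) = x (oI (τ a)) := by
  have h : ∃ b, o b = o a := ⟨a, rfl⟩
  have h1 : h.choose = a := o.injective h.choose_spec
  unfold xt
  rw [dif_pos h, h1]

theorem xt_not (τ : Equiv.Perm (Fin l)) {j : Fin m'} (h : ¬ ∃ a, o a = j) :
    xt Y oI o x τ j = oP Y j := dif_neg h

theorem xt_on (hx : OnP X x) {τ : Equiv.Perm (Fin l)} (hτ : ∀ a, X (oI (τ a)) = Y (o a)) :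
    OnP Y (xt Y oI o x τ) := by
  intro j
  by_cases h : ∃ a, o a = j
  · obtain ⟨a, rfl⟩ := h
    rw [xt_at, ← hτ a]
    exact hx _
  · rw [xt_not τ h]
    exact onP_oP j

theorem xt_mul (τ π : Equiv.Perm (Fin l)) :
    xt Y oI o x (τ * π) = xt Y oI o x τ ∘ (π.viaEmbedding o) := by
  funext j
  by_cases h : ∃ a, o a = j
  · obtain ⟨a, rfl⟩ := h
    rw [xt_at, Function.comp_apply, Equiv.Perm.viaEmbedding_apply, xt_at, Equiv.Perm.mul_apply]
  · rw [xt_not _ h, Function.comp_apply, Equiv.Perm.viaEmbedding_apply_of_notMem _ _ _ (by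
        rintro ⟨i, hi⟩
        exact h ⟨i, hi⟩), xt_not _ h]

end

end Pool.Agent.CYC.Alg
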