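import Pool.Agent.CYC.AlgG

/-!
# Correspondences which are zero on the holomorphic forms
-/

set_option autoImplicit false
set_option linter.unusedSectionVars false

noncomputable section

namespace Pool.Agent.CYC.Alg

open Pool.Agent.ZCyc Pool.Agent.Dess
open Pool.Agent.CYC.Formal
open Pool.Agent.EFP (kos kos_sq kos_mul)
open Pool.Agent.ZIso (fixing)

variable {k : Type} [Field k] [CharZero k] {m m' l : ℕ}

/-- the numbers prime to twelve -/
def S12 : Finset ℕ := {1, 5, 7, 11}

theorem mem_S12 {s : ℕ} : s ∈ S12 ↔ s = 1 ∨ s = 5 ∨ s = 7 ∨ s = 11 := by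
  simp [S12]

theorem pow_inj {s : ℕ} (hs : s ∈ S12) {a b : k} (ha : a ^ 12 = 1) (hb : b ^ 12 = 1) :
    a ^ s = b ^ s ↔ a = b := by
  refine ⟨fun h => ?_, fun h => by rw [h]⟩
  have key : ∀ c : k, c ^ 12 = 1 → (c ^ s) ^ s = c := by
    intro c hc
    obtain ⟨r, hr⟩ : ∃ r, s * s = 12 * r + 1 := by
      rcases mem_S12.1 hs with rfl | rfl | rfl | rfl
      · exact ⟨0, rfl⟩
      · exact ⟨2, rfl⟩
      · exact ⟨4, rfl⟩
      · exact ⟨10, rfl⟩
    rw [← pow_mul, hr, pow_add, pow_mul, hc, one_pow, one_mul, pow_one]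
  rw [← key a ha, ← key b hb, h]

theorem coprime_S12 {s : ℕ} (hs : s ∈ S12) : Nat.Coprime s 12 := by
  rcases mem_S12.1 hs with rfl | rfl | rfl | rfl <;> decide

variable {X : Fin m → Vr k} {Y : Fin m' → Vr k}

open Classical in
/-- the theorem for eigenfunctions -/
theorem graded_eig [IsAlgClosed k] (hcore : Core k) (hX : NoRep X) {γ : Mor X Y →₀ ℚ} {ν : ℕ}
    (h : KillsForms γ ν) {T : Finset (Fin m)} {T' : Finset (Fin m')} {x : Pts m k}
    (hx : OnP X x) (h1 : wt X T = ν) (h2 : wt Y T' = ν) {G : Pts m' k → k} (hG : G ∈ ClS Y T')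
    {t : Fin m' → k} (ht12 : ∀ j, t j ^ 12 = 1) (ht : ∀ j ∈ T', ∀ x, G (actP j x) = t j * G x) :
    ∑ f ∈ (γ.support.filter fun f => Bij (fun j => (f j).src) T T'),
      (γ f : k) * G (f.app x) = 0 := by
  by_cases hex : ∃ f : Mor X Y, Bij (fun j => (f j).src) T T'
  swap
  · rw [Finset.filter_false_of_mem, Finset.sum_empty]
    intro f _ hf
    exact hex ⟨f, hf⟩
  obtain ⟨f₀, hf₀⟩ := hex
  -- the enumerations
  have hcard : T'.card = T.card := by
    refine Finset.card_bij (fun j hj => (hf₀.1 j hj).choose) ?_ ?_ ?_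
    · intro j hj
      exact (hf₀.1 j hj).choose_spec.1
    · intro j hj j' hj' hjj
      have e1 := (hf₀.1 j hj).choose_spec
      have e2 := (hf₀.1 j' hj').choose_spec
      obtain ⟨j₁, -, h3⟩ := hf₀.2 _ e1.1
      rw [h3 j ⟨hj, e1.2⟩, h3 j' ⟨hj', hjj ▸ e2.2⟩]
    · intro i hi
      obtain ⟨j, ⟨h3, h4⟩, -⟩ := hf₀.2 i hi
      refine ⟨j, h3, ?_⟩
      exact Option.some.inj ((hf₀.1 j h3).choose_spec.2.symm.trans h4)
  obtain ⟨l, hl⟩ : ∃ l, T.card = l := ⟨_, rfl⟩
  have hl' : T'.card = l := hcard.trans hl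
  set oI := T.orderEmbOfFin hl with hoIdef
  set oJ := T'.orderEmbOfFin hl' with hoJdef
  have hI1 : ∀ a, oI a ∈ T := fun a => T.orderEmbOfFin_mem hl a
  have hJ1 : ∀ a, oJ a ∈ T' := fun a => T'.orderEmbOfFin_mem hl' a
  have hI2 : ∀ i ∈ T, ∃ a, oI a = i := by
    intro i hi
    have h3 : i ∈ Set.range oI := by
      rw [hoIdef, Finset.range_orderEmbOfFin]
      exact hi
    exact h3
  have hJ2 : ∀ j ∈ T', ∃ a, oJ a = j := by
    intro j hj
    have h3 : j ∈ Set.range oJ := by
      rw [hoJdef, Finset.range_orderEmbOfFin]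
      exact hj
    exact h3
  have hoI : StrictMono oI := oI.strictMono
  have hoJ : StrictMono oJ := oJ.strictMono
  have ho : ∀ j, j ∈ T' ↔ ∃ i, oJ.toEmbedding i = j := fun j =>
    ⟨fun hj => hJ2 j hj, by rintro ⟨i, rfl⟩; exact hJ1 i⟩
  -- the permutation of a morphism
  have hper0 : ∀ f : Mor X Y, ∃ τ : Equiv.Perm (Fin l), Bij (fun j => (f j).src) T T' →
      ∀ a, (f (oJ a)).src = some (oI (τ a)) := by
    intro f
    by_cases hf : Bij (fun j => (f j).src) T T'
    · obtain ⟨τ, hτ⟩ := gr_per hoJ.injective hI2 hJ1 hf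
      exact ⟨τ, fun _ => hτ⟩
    · exact ⟨1, fun h => absurd h hf⟩
  choose per hper using hper0
  have hcomp : ∀ f : Mor X Y, Bij (fun j => (f j).src) T T' → ∀ a, X (oI (per f a)) = Y (oJ a) :=
    fun f hf a => Comp.src_eq (hper f hf a)
  -- the value at the image of the point
  set xx : Equiv.Perm (Fin l) → Pts m' k := xt Y oI oJ.toEmbedding x with hxx
  have hval : ∀ f : Mor X Y, Bij (fun j => (f j).src) T T' →
      G (f.app x) = (∏ j ∈ T', t j ^ (f j).exp) * G (xx (per f)) := by
    intro f hf
    rw [← eig_prod ht (fun j => (f j).exp) (xx (per f)) (Finset.Subset.refl T')]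
    refine (mem_ClS.1 hG).2.1 _ _ fun j hj => ?_
    obtain ⟨a, rfl⟩ := hJ2 j hj
    rw [if_pos hj]
    change (f (oJ a)).app x = _
    rw [Comp.app_fac (hper f hf a)]
    have h3 : xx (per f) (oJ a) = x (oI (per f a)) := xt_at (per f) a
    rw [h3]
    rfl
  set n : Fin l → ℕ := fun a => (Y (oJ a)).dim with hn
  set F : Mor X Y → k := fun f =>
    ((γ f * (koszul f T' : ℚ) : ℚ) : k) * ∏ j ∈ T', t j ^ (f j).exp with hF
  set β : Equiv.Perm (Fin l) → k := fun τ =>
    ∑ f ∈ γ.support, if Bij (fun j => (f j).src) T T' ∧ per f = τ then F f else 0 with hβdef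
  set g : Equiv.Perm (Fin l) → k := fun τ => ((kos n τ : ℤ) : k) * G (xx τ) with hg
  have hkos : ∀ f : Mor X Y, Bij (fun j => (f j).src) T T' → koszul f T' = kos n (per f) :=
    fun f hf => gr_koszul hoI hoJ hJ2 hJ1 (hper f hf)
  have hβX : ∀ τ, β τ ≠ 0 → ∀ a, X (oI (τ a)) = Y (oJ a) := by
    intro τ hτ a
    rw [hβdef] at hτ
    simp only at hτ
    obtain ⟨f, -, hf⟩ := Finset.exists_ne_zero_of_sum_ne_zero hτ
    by_cases hc1 : Bij (fun j => (f j).src) T T' ∧ per f = τ
    · rw [← hc1.2]
      exact hcomp f hc1.1 a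
    · rw [if_neg hc1] at hf
      exact absurd rfl hf
  -- the conclusion of the second fundamental theorem
  have key : ∑ τ, β τ * g τ = 0 := by
    set U : Finset (Fin l → k) :=
      Finset.univ.image fun (τ : Equiv.Perm (Fin l)) (a : Fin l) => t (oJ (τ⁻¹ a)) with hU
    have hsplit : ∑ τ, β τ * g τ =
        ∑ u ∈ U, ∑ τ, (if ∀ a, u (τ a) = t (oJ a) then β τ else 0) * g τ := by
      rw [Finset.sum_comm]
      refine Finset.sum_congr rfl fun τ _ => ?_
      rw [← Finset.sum_mul, Finset.sum_eq_single (fun a => t (oJ (τ⁻¹ a)))]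
      · rw [if_pos fun a => by simp]
      · intro u _ hne
        rw [if_neg]
        intro h3
        apply hne
        funext a
        rw [← h3 (τ⁻¹ a)]
        simp
      · intro h3
        exact absurd (Finset.mem_image_of_mem _ (Finset.mem_univ τ)) h3
    rw [hsplit]
    refine Finset.sum_eq_zero fun u hu => ?_
    have hu12 : ∀ a, u a ^ 12 = 1 := by
      obtain ⟨τ₁, -, rfl⟩ := Finset.mem_image.1 hu
      exact fun a => ht12 _
    have hmain := second_fundamental_multi (K := k) (T := k) S12
      (fun a => ((X (oI a), u a) : Vr k × k)) (fun a => ((Y (oJ a), t (oJ a)) : Vr k × k))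
      (fun s q => dd q.1 (q.2 ^ s)) (f := g)
      (β := fun τ => if ∀ a, u (τ a) = t (oJ a) then β τ else 0) ?_ ?_ ?_
    · simpa only [smul_eq_mul] using hmain
    · intro τ hτ A hA
      have hτX : ∀ a, X (oI (τ a)) = Y (oJ a) := fun a => congrArg Prod.fst (hτ a)
      have hdim : ∀ i j, ((Y (oJ i), t (oJ i)) : Vr k × k) = (Y (oJ j), t (oJ j)) → i ≠ j →
          (Y (oJ i)).dim = 1 := by
        intro i j hij hne
        by_contra hd
        have h3 : X (oI (τ i)) = X (oI (τ j)) := by
          rw [hτX, hτX]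
          exact congrArg Prod.fst hij
        have h4 := hX _ _ h3 (by rw [hτX]; exact hd)
        exact hne (τ.injective (hoI.injective h4))
      have h3 : ∀ π ∈ yf (fun a => ((Y (oJ a), t (oJ a)) : Vr k × k)) A,
          sg k π • g (τ * π.1) =
            ((kos n τ : ℤ) : k) * G (xx τ ∘ (π.1.viaEmbedding oJ.toEmbedding)) := by
        intro π _
        have h4 : kos n (τ * π.1) = ((Equiv.Perm.sign π.1 : ℤ)) ^ 1 * kos n τ := by
          refine kos_mul n τ (J := Finset.univ.filter fun i => π.1 i ≠ i) ?_ ?_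
          · intro i hi
            have h5 := (Finset.mem_filter.1 hi).2
            exact hdim i (π.1 i) ((mem_Yg _).1 π.2 i).symm (Ne.symm h5)
          · unfold fixing
            rw [Finset.mem_filter]
            refine ⟨Finset.mem_univ _, fun i hi => ?_⟩
            by_contra h5
            exact hi (Finset.mem_filter.2 ⟨Finset.mem_univ _, h5⟩)
        have h5 : xx (τ * π.1) = xx τ ∘ (π.1.viaEmbedding oJ.toEmbedding) := xt_mul τ π.1
        have h6 := sg_sq k π
        simp only [hg]
        rw [h4, h5, pow_one, smul_eq_mul, Int.cast_mul]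
        have h7 : sg k π = ((Equiv.Perm.sign π.1 : ℤ) : k) := rfl
        rw [← h7]
        linear_combination (((kos n τ : ℤ) : k) *
          G (xx τ ∘ (π.1.viaEmbedding oJ.toEmbedding))) * h6
      rw [Finset.sum_congr rfl h3, ← Finset.mul_sum]
      have h4 := sym_zero (l := l) (Y := Y) (T' := T') (o := oJ.toEmbedding) (t := t)
        (c' := fun a => ((Y (oJ a), t (oJ a)) : Vr k × k)) hcore ho hG ht (fun _ => rfl) hdim
        (A := A) (fun s hs => hA s (mem_S12.2 hs)) (y := xx τ) (xt_on hx hτX)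
      rw [h4, mul_zero]
    · intro τ hτ a
      by_cases h3 : ∀ a, u (τ a) = t (oJ a)
      · rw [if_pos h3] at hτ
        exact Prod.ext (hβX τ hτ a) (h3 a)
      · rw [if_neg h3] at hτ
        exact absurd rfl hτ
    · intro s hs w w' hw hw'
      obtain ⟨ζ, hζ⟩ : ∃ ζ : k, IsPrimitiveRoot ζ 12 :=
        HasEnoughRootsOfUnity.exists_primitiveRoot k 12
      have hex : ∀ j, ∃ e : ℕ, ζ ^ e = t j := by
        intro j
        obtain ⟨e, -, he⟩ := hζ.eq_pow_of_pow_eq_one (ht12 j)
        exact ⟨e, he⟩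
      choose e he using hex
      set E : Mor X Y → ℕ := fun f => ∑ j ∈ T', e j * (f j).exp with hE
      set S : Finset (Mor X Y) := γ.support.filter fun f =>
        Bij (fun j => (f j).src) T T' ∧ (∀ a, u (per f a) = t (oJ a)) ∧ w ∘ ⇑(per f) = w' with hS
      have hprod : ∀ (r : ℕ) (f : Mor X Y),
          ∏ j ∈ T', (t j ^ r) ^ (f j).exp = (ζ ^ r) ^ E f := by
        intro r f
        rw [hE, ← Finset.prod_pow_eq_pow_sum]
        refine Finset.prod_congr rfl fun j _ => ?_
        rw [← he j]
        ring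
      have hleft : ∑ τ ∈ Finset.univ.filter (fun τ : Equiv.Perm (Fin l) => w ∘ ⇑τ = w'),
          (if ∀ a, u (τ a) = t (oJ a) then β τ else 0) =
          ∑ f ∈ S, ((γ f * (koszul f T' : ℚ) : ℚ) : k) * ζ ^ E f := by
        have e1 : ∀ τ : Equiv.Perm (Fin l), (if ∀ a, u (τ a) = t (oJ a) then β τ else 0) =
            ∑ f ∈ γ.support, if (Bij (fun j => (f j).src) T T' ∧ per f = τ) ∧
              (∀ a, u (τ a) = t (oJ a)) then F f else 0 := by
          intro τ
          by_cases h3 : ∀ a, u (τ a) = t (oJ a)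
          · rw [if_pos h3, hβdef]
            refine Finset.sum_congr rfl fun f _ => ?_
            simp only [h3, implies_true, and_true]
          · rw [if_neg h3]
            symm
            refine Finset.sum_eq_zero fun f _ => ?_
            rw [if_neg fun h4 => h3 h4.2]
        rw [Finset.sum_congr rfl fun τ _ => e1 τ, Finset.sum_comm, hS, Finset.sum_filter]
        refine Finset.sum_congr rfl fun f _ => ?_
        by_cases hB : Bij (fun j => (f j).src) T T' ∧ (∀ a, u (per f a) = t (oJ a)) ∧
            w ∘ ⇑(per f) = w'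
        · rw [if_pos hB, Finset.sum_eq_single (per f)]
          · rw [if_pos ⟨⟨hB.1, rfl⟩, hB.2.1⟩, hF]
            have h3 := hprod 1 f
            simp only [pow_one] at h3
            simp only
            rw [h3]
          · intro τ _ hτ
            rw [if_neg fun h => hτ h.1.2.symm]
          · intro hcon
            exfalso
            apply hcon
            simp only [Finset.mem_filter, Finset.mem_univ, true_and]
            exact hB.2.2
        · rw [if_neg hB]
          refine Finset.sum_eq_zero fun τ hτ => ?_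
          rw [if_neg]
          rintro ⟨⟨h3, rfl⟩, h4⟩
          exact hB ⟨h3, h4, by simpa using hτ⟩
      rw [hleft]
      refine galois hζ (coprime_S12 hs) S (fun f => γ f * (koszul f T' : ℚ)) E ?_
      -- the forms
      set aa : Fin m → ℕ := fun i => if h : ∃ b, oI b = i then w h.choose else 0 with haa
      set tt : Fin m → k := fun i => if h : ∃ b, oI b = i then u h.choose ^ s else 1 with htt
      set bb : Fin m' → ℕ := fun j => if h : ∃ b, oJ b = j then w' h.choose else 0 with hbb
      set tt' : Fin m' → k := fun j => if j ∈ T' then t j ^ s else 1 with htt'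
      have haa1 : ∀ b, aa (oI b) = w b := by
        intro b
        have h3 : ∃ b', oI b' = oI b := ⟨b, rfl⟩
        rw [haa]
        simp only
        rw [dif_pos h3, oI.injective h3.choose_spec]
      have htt1 : ∀ b, tt (oI b) = u b ^ s := by
        intro b
        have h3 : ∃ b', oI b' = oI b := ⟨b, rfl⟩
        rw [htt]
        simp only
        rw [dif_pos h3, oI.injective h3.choose_spec]
      have hbb1 : ∀ b, bb (oJ b) = w' b := by
        intro b
        have h3 : ∃ b', oJ b' = oJ b := ⟨b, rfl⟩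
        rw [hbb]
        simp only
        rw [dif_pos h3, oJ.injective h3.choose_spec]
      have htt'1 : ∀ j ∈ T', tt' j = t j ^ s := fun j hj => if_pos hj
      have hformI : IsForm X T tt aa := by
        intro i
        by_cases hi : i ∈ T
        · rw [if_pos hi]
          obtain ⟨b, rfl⟩ := hI2 i hi
          rw [haa1, htt1, inD_iff]
          exact hw b
        · have h3 : ¬ ∃ b, oI b = i := by
            rintro ⟨b, rfl⟩
            exact hi (hI1 b)
          rw [if_neg hi, htt, haa]
          simp only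
          rw [dif_neg h3, dif_neg h3]
          exact ⟨rfl, rfl⟩
      have hformJ : IsForm Y T' tt' bb := by
        intro j
        by_cases hj : j ∈ T'
        · rw [if_pos hj, htt'1 j hj]
          obtain ⟨b, rfl⟩ := hJ2 j hj
          rw [hbb1, inD_iff]
          exact hw' b
        · have h3 : ¬ ∃ b, oJ b = j := by
            rintro ⟨b, rfl⟩
            exact hj (hJ1 b)
          rw [if_neg hj, htt', hbb]
          simp only
          rw [if_neg hj, dif_neg h3]
          exact ⟨rfl, rfl⟩
      have hk := h T tt aa T' tt' bb hformI hformJ h1 h2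
      rw [Finsupp.sum] at hk
      rw [← hk, hS, Finset.sum_filter]
      refine Finset.sum_congr rfl fun f _ => ?_
      have hcond : ((∀ j ∈ T', ∃ i ∈ T, (f j).src = some i ∧ tt i = tt' j ∧ aa i = bb j) ∧
          ∀ i ∈ T, ∃! j, j ∈ T' ∧ (f j).src = some i) ↔
          (Bij (fun j => (f j).src) T T' ∧ (∀ a, u (per f a) = t (oJ a)) ∧
            w ∘ ⇑(per f) = w') := by
        constructor
        · rintro ⟨h3, h4⟩
          have hB : Bij (fun j => (f j).src) T T' := by
            refine ⟨fun j hj => ?_, h4⟩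
            obtain ⟨i, h5, h6, -⟩ := h3 j hj
            exact ⟨i, h5, h6⟩
          refine ⟨hB, fun a => ?_, ?_⟩
          · obtain ⟨i, h5, h6, h7, -⟩ := h3 (oJ a) (hJ1 a)
            rw [hper f hB a, Option.some.injEq] at h6
            rw [← h6, htt1, htt'1 _ (hJ1 a)] at h7
            exact (pow_inj hs (hu12 _) (ht12 _)).1 h7
          · funext b
            obtain ⟨i, h5, h6, -, h7⟩ := h3 (oJ b) (hJ1 b)
            rw [hper f hB b, Option.some.injEq] at h6
            rw [← h6, haa1, hbb1] at h7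
            exact h7
        · rintro ⟨hB, h3, h3'⟩
          refine ⟨fun j hj => ?_, hB.2⟩
          obtain ⟨b, rfl⟩ := hJ2 j hj
          refine ⟨oI (per f b), hI1 _, hper f hB b, ?_, ?_⟩
          · rw [htt1, htt'1 _ hj, h3 b]
          · rw [haa1, hbb1]
            exact congrFun h3' b
      unfold pullCoef
      by_cases hB : Bij (fun j => (f j).src) T T' ∧ (∀ a, u (per f a) = t (oJ a)) ∧
          w ∘ ⇑(per f) = w'
      · rw [if_pos hB, if_pos (hcond.2 hB), ← hprod s f]
        have h3 : ∏ j ∈ T', tt' j ^ (f j).exp = ∏ j ∈ T', (t j ^ s) ^ (f j).exp :=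
          Finset.prod_congr rfl fun j hj => by rw [htt'1 j hj]
        rw [h3]
        push_cast
        ring
      · rw [if_neg hB, if_neg fun h => hB (hcond.1 h), mul_zero]
  rw [← key, hβdef]
  simp only [Finset.sum_mul]
  rw [Finset.sum_comm, Finset.sum_filter]
  refine Finset.sum_congr rfl fun f _ => ?_
  by_cases hB : Bij (fun j => (f j).src) T T'
  · rw [if_pos hB, Finset.sum_eq_single (per f)]
    · rw [if_pos ⟨hB, rfl⟩, hval f hB, hg, hF]
      simp only
      rw [hkos f hB]
      have h3 : ((kos n (per f) : ℤ) : k) * ((kos n (per f) : ℤ) : k) = 1 := by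
        rw [← Int.cast_mul, kos_sq, Int.cast_one]
      push_cast
      linear_combination (-(γ f : k) * (∏ j ∈ T', t j ^ (f j).exp) * G (xx (per f))) * h3
    · intro τ _ hτ
      rw [if_neg fun h => hτ h.2.symm, zero_mul]
    · intro hcon
      exact absurd (Finset.mem_univ _) hcon
  · rw [if_neg hB]
    symm
    refine Finset.sum_eq_zero fun τ _ => ?_
    rw [if_neg fun h => hB h.1, zero_mul]

end Pool.Agent.CYC.Alg
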