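import Pool.Agent.GT.Presc

/-!
# Functions with prescribed orders and values
-/

set_option autoImplicit false

noncomputable section

namespace Pool.Agent.CYC

open Pool.Agent.ZCyc Pool.Agent.Dess Pool.Agent.TInc
open scoped Classical

variable {k K : Type} [Field k] [IsAlgClosed k] [CharZero k] [Field K] [Algebra k K]

omit [CharZero k] in
/-- a transcendental function which is regular at finitely many given places -/
private theorem app_regular (hK : IsCurve k K)
    (S : Finset (Place k K)) : ∃ w : K, Transcendental k w ∧ ∀ u ∈ S, w ∈ u.ring := by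
  obtain ⟨t, ht, -⟩ := hK
  let vl : Place k K → k := fun u => if h : ∃ c, u.At t c then h.choose else 0
  obtain ⟨c, hc⟩ := Infinite.exists_notMem_finset (S.image vl)
  refine ⟨(t - algebraMap k K c)⁻¹, ?_, fun u hu => ?_⟩
  · intro h
    apply ht
    have h1 : IsAlgebraic k (t - algebraMap k K c) := by
      have := h.inv
      rwa [inv_inv] at this
    have h2 := h1.add (isAlgebraic_algebraMap (A := K) c)
    rwa [sub_add_cancel] at h2
  · by_contra h
    have h1 : u.Vanishes (t - algebraMap k K c) := (u.vanishes_iff_or _).2 (Or.inr h)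
    apply hc
    rw [Finset.mem_image]
    refine ⟨u, hu, ?_⟩
    have h2 : ∃ c, u.At t c := ⟨c, h1⟩
    have h3 : vl u = h2.choose := dif_pos h2
    rw [h3]
    exact h2.choose_spec.unique h1

/-- PROOF. `b = ∏ v ∈ S, f_v ^ (n v)`, where `f_v` is the function of `GT.exists_prescribed` for
`v` and `S` (`ord_mul`, orders of products and integral powers). -/
theorem exists_ords (hK : IsCurve k K) (S : Finset (Place k K)) (n : Place k K → ℤ) :
    ∃ b : K, b ≠ 0 ∧ ∀ v ∈ S, ord v b = n v := by
  choose f hf0 hf1 hf2 using fun v : Place k K => GT.exists_prescribed hK v S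
  refine ⟨∏ v ∈ S, f v ^ n v, Finset.prod_ne_zero_iff.2 fun v _ => zpow_ne_zero _ (hf0 v), ?_⟩
  intro v hv
  rw [ord_prod hK v S _ fun u _ => zpow_ne_zero _ (hf0 u), Finset.sum_eq_single v]
  · rw [ord_zpow hK, hf1, mul_one]
  · intro u _ huv
    rw [ord_zpow hK, hf2 u v hv (Ne.symm huv), mul_zero]
  · exact fun h => absurd hv h

/-- PROOF. `Dess.crt` for a function `w` which is regular at the places of `S` (see
`presc_regular` in `GT/Presc.lean`), with `n = 1` and the constants `c v`:
`(b - c v) / π ∈ v.ring`, so `b - c v` vanishes at `v`. -/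
theorem exists_vals (hK : IsCurve k K) (S : Finset (Place k K)) (c : Place k K → k) :
    ∃ b : K, ∀ v ∈ S, v.At b (c v) := by
  obtain ⟨w, hw, hreg⟩ := app_regular hK S
  obtain ⟨b, -, hb⟩ := crt hK hw S hreg 1 (fun v => algebraMap k K (c v))
    (fun v _ => v.const_mem _)
  refine ⟨b, fun v hv => ?_⟩
  obtain ⟨π, hπ⟩ := exists_unif hK v
  have h := hb v hv π hπ
  rw [pow_one] at h
  have h2 := Place.Vanishes.mul v hπ.2.1 h
  unfold Place.At
  have hπ0 := hπ.1
  convert h2 using 1
  field_simp

/-- PROOF. `exists_vals` with `2` at `q` and `1` at the other places of `S`; `ord v b = 0` because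
the value is not zero (`val_eq`, `ord_eq_zero_iff` in `TInc/OrdThy.lean`). -/
theorem exists_two (hK : IsCurve k K) (S : Finset (Place k K)) (q : Place k K) :
    ∃ b : K, b ≠ 0 ∧ (∀ v ∈ insert q S, ord v b = 0) ∧ val q b = 2 ∧
      ∀ v ∈ S, v ≠ q → val v b = 1 := by
  obtain ⟨b, hb⟩ := exists_vals hK (insert q S) (fun v => if v = q then 2 else 1)
  have hq := hb q (Finset.mem_insert_self _ _)
  rw [if_pos rfl] at hq
  refine ⟨b, ?_, ?_, val_eq hq, ?_⟩
  · rintro rfl
    exact two_ne_zero (hq.unique (by simpa using Place.at_const (v := q) (0 : k)))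
  · intro v hv
    apply ord_of_at hK (hb v hv)
    split_ifs
    · exact two_ne_zero
    · exact one_ne_zero
  · intro v hv hvq
    have h := hb v (Finset.mem_insert_of_mem hv)
    rw [if_neg hvq] at h
    exact val_eq h

end Pool.Agent.CYC
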