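import Pool.Agent.TInc.Ord

/-!
# Base change of function fields: definition

`K' = Frac (Ω ⊗ K)` for an extension `Ω` of the algebraically closed field `k`.
-/

set_option autoImplicit false

noncomputable section

namespace Pool.Agent.CYC

open Pool.Agent.ZCyc Pool.Agent.Dess Pool.Agent.TInc

/-- `ι : K → K'` is the base change of the extension `K` of `k` to the extension `Ω` of `k`. -/
structure BC {k K Ω K' : Type} [Field k] [Field K] [Algebra k K] [Field Ω] [Algebra k Ω]
    [Field K'] [Algebra Ω K'] (ι : K →+* K') : Prop where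
  comm : ∀ a : k, ι (algebraMap k K a) = algebraMap Ω K' (algebraMap k Ω a)
  indep : ∀ (n : ℕ) (u : Fin n → K) (a : Fin n → Ω), LinearIndependent k u →
    ∑ i, algebraMap Ω K' (a i) * ι (u i) = 0 → a = 0
  gen : ∀ x : K', ∃ (n : ℕ) (u : Fin n → K) (a b : Fin n → Ω),
    ∑ i, algebraMap Ω K' (b i) * ι (u i) ≠ 0 ∧
      x * ∑ i, algebraMap Ω K' (b i) * ι (u i) = ∑ i, algebraMap Ω K' (a i) * ι (u i)

end Pool.Agent.CYC
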