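import Pool.Agent.CYC.BCDef

/-!
# Base change of function fields: existence
-/

set_option autoImplicit false

noncomputable section

namespace Pool.Agent.CYC

open Pool.Agent.ZCyc Pool.Agent.Dess Pool.Agent.TInc
open scoped TensorProduct

variable {k K Ω : Type} [Field k] [IsAlgClosed k] [Field K] [Algebra k K] [Field Ω] [Algebra k Ω]

/-- A finitely generated domain over the algebraically closed field `k` has a homomorphism to `k`
which does not vanish at a given element `r ≠ 0`. PROOF. `R = Algebra.adjoin k S`, `S` finite, is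
a finite type `k`-algebra, hence a Jacobson ring, and it is a domain, so its Jacobson radical is
zero (`jacobson_bot_of_...`, `IsJacobsonRing`): there is a maximal ideal `m` with `r ∉ m`. `R / m`
is a finite extension of `k` (`finite_of_finite_type_of_isJacobsonRing`, Zariski's lemma), so `k →
R / m` is bijective (`IsAlgClosed.algebraMap_bijective_of_isIntegral`). Alternatively use the
localization `R[1 / r]` (a finite type algebra which is not zero) and any maximal ideal of it. -/
theorem exists_hom (S : Finset Ω) {r : Ω} (hr : r ∈ Algebra.adjoin k (S : Set Ω)) (hr0 : r ≠ 0) :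
    ∃ φ : Algebra.adjoin k (S : Set Ω) →ₐ[k] k, φ ⟨r, hr⟩ ≠ 0 := by
  classical
  let R := Algebra.adjoin k (S : Set Ω)
  let t : R := ⟨r, hr⟩
  have ht0 : t ≠ 0 := fun h => hr0 (congrArg Subtype.val h)
  have hfR : Algebra.FiniteType k R :=
    (Subalgebra.fg_iff_finiteType _).mp (Subalgebra.fg_adjoin_finset S)
  let R' := Localization.Away t
  have hf1 : Algebra.FiniteType R R' := IsLocalization.finiteType_of_monoid_fg
    (Submonoid.powers t) R'
  have hf2 : Algebra.FiniteType k R' := Algebra.FiniteType.trans hfR hf1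
  have hnt : Nontrivial R' := by
    refine (IsLocalization.injective R' (M := Submonoid.powers t) ?_).nontrivial
    exact powers_le_nonZeroDivisors_of_noZeroDivisors ht0
  obtain ⟨m, hm⟩ := Ideal.exists_maximal R'
  let _ : Field (R' ⧸ m) := Ideal.Quotient.field m
  have hf3 : Algebra.FiniteType k (R' ⧸ m) :=
    Algebra.FiniteType.of_surjective (Ideal.Quotient.mkₐ k m) (Ideal.Quotient.mkₐ_surjective k m)
  have hfin : Module.Finite k (R' ⧸ m) := finite_of_finite_type_of_isJacobsonRing k (R' ⧸ m)
  have hbij : Function.Bijective (algebraMap k (R' ⧸ m)) :=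
    IsAlgClosed.algebraMap_bijective_of_isIntegral
  let e : k ≃ₐ[k] (R' ⧸ m) := AlgEquiv.ofBijective (Algebra.ofId k (R' ⧸ m)) hbij
  let g : R →ₐ[k] R' := IsScalarTower.toAlgHom k R R'
  let φ : R →ₐ[k] k := (e.symm.toAlgHom.comp (Ideal.Quotient.mkₐ k m)).comp g
  refine ⟨φ, ?_⟩
  have hu : IsUnit (g t) := IsLocalization.Away.algebraMap_isUnit t
  have hu2 : IsUnit (φ t) := hu.map (e.symm.toAlgHom.comp (Ideal.Quotient.mkₐ k m))
  exact hu2.ne_zero

/-- The tensor product of two extensions of an algebraically closed field is a domain. PROOF. Let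
`α β = 0`, `α ≠ 0`, `β ≠ 0`. Write `α = ∑ a_i ⊗ u_i`, `β = ∑ b_j ⊗ w_j` with `a_i, b_j ∈ Ω` and
`u_i`, `w_j` linearly independent over `k` (elements of a `k`-basis of `K`; `Ω ⊗ K` is a free
`Ω`-module with the basis `1 ⊗ u`), `a_0 ≠ 0`, `b_0 ≠ 0`. Let `S` be the set of all `a_i`, `b_j`,
and `φ : k[S] → k` a homomorphism with `φ (a_0 b_0) ≠ 0` (`exists_hom`). `α` and `β` are the
images of elements `α'`, `β'` of `k[S] ⊗ K`, and `α' β' = 0` because `k[S] ⊗ K → Ω ⊗ K` is
injective (flatness). Apply `φ ⊗ id : k[S] ⊗ K → k ⊗ K = K`: `(∑ φ(a_i) u_i) (∑ φ(b_j) w_j) = 0`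
in the field `K`, but both factors are different from zero by linear independence. -/
theorem isDomain_tensor : IsDomain (Ω ⊗[k] K) := by
  classical
  have : NoZeroDivisors (Ω ⊗[k] K) := by
    refine ⟨?_⟩
    intro α β hαβ
    by_contra hne
    push Not at hne
    obtain ⟨hα, hβ⟩ := hne
    let b := Module.Basis.ofVectorSpace k K
    let B := Algebra.TensorProduct.basis Ω b
    obtain ⟨i0, hi0⟩ : ∃ i, B.repr α i ≠ 0 := by
      by_contra h
      push Not at h
      exact hα (B.repr.map_eq_zero_iff.mp (Finsupp.ext h))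
    obtain ⟨j0, hj0⟩ : ∃ j, B.repr β j ≠ 0 := by
      by_contra h
      push Not at h
      exact hβ (B.repr.map_eq_zero_iff.mp (Finsupp.ext h))
    let S : Finset Ω := (B.repr α).support.image (B.repr α) ∪ (B.repr β).support.image (B.repr β)
    let R := Algebra.adjoin k (S : Set Ω)
    have hSa : ∀ i, B.repr α i ∈ R := by
      intro i
      by_cases h : B.repr α i = 0
      · rw [h]; exact R.zero_mem
      · exact Algebra.subset_adjoin (by
          simp only [S, Finset.coe_union, Finset.coe_image]
          exact Or.inl ⟨i, by simpa using h, rfl⟩)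
    have hSb : ∀ i, B.repr β i ∈ R := by
      intro i
      by_cases h : B.repr β i = 0
      · rw [h]; exact R.zero_mem
      · exact Algebra.subset_adjoin (by
          simp only [S, Finset.coe_union, Finset.coe_image]
          exact Or.inr ⟨i, by simpa using h, rfl⟩)
    obtain ⟨φ, hφ⟩ := exists_hom S (R.mul_mem (hSa i0) (hSb j0)) (mul_ne_zero hi0 hj0)
    let f : R ⊗[k] K →ₐ[k] K := Algebra.TensorProduct.lift ((Algebra.ofId k K).comp φ)
      (AlgHom.id k K) (fun _ _ => Commute.all _ _)
    let g : R ⊗[k] K →ₐ[k] Ω ⊗[k] K := Algebra.TensorProduct.map R.val (AlgHom.id k K)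
    have hg : Function.Injective g := by
      have h := Module.Flat.rTensor_preserves_injective_linearMap (M := K) R.val.toLinearMap
        Subtype.val_injective
      exact h
    let α' : R ⊗[k] K := ∑ i ∈ (B.repr α).support, (⟨B.repr α i, hSa i⟩ : R) ⊗ₜ[k] b i
    let β' : R ⊗[k] K := ∑ i ∈ (B.repr β).support, (⟨B.repr β i, hSb i⟩ : R) ⊗ₜ[k] b i
    have hgα : g α' = α := by
      simp only [α', map_sum]
      conv_rhs => rw [← B.linearCombination_repr α, Finsupp.linearCombination_apply, Finsupp.sum]
      refine Finset.sum_congr rfl fun i _ => ?_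
      simp only [B, Algebra.TensorProduct.basis_apply, TensorProduct.smul_tmul', smul_eq_mul,
        mul_one]
      rfl
    have hgβ : g β' = β := by
      simp only [β', map_sum]
      conv_rhs => rw [← B.linearCombination_repr β, Finsupp.linearCombination_apply, Finsupp.sum]
      refine Finset.sum_congr rfl fun i _ => ?_
      simp only [B, Algebra.TensorProduct.basis_apply, TensorProduct.smul_tmul', smul_eq_mul,
        mul_one]
      rfl
    have h0 : α' * β' = 0 := hg (by rw [map_mul, hgα, hgβ, hαβ, map_zero])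
    have h1 : f α' * f β' = 0 := by rw [← map_mul, h0, map_zero]
    have hfα : f α' = ∑ i ∈ (B.repr α).support, φ ⟨B.repr α i, hSa i⟩ • b i := by
      simp only [α', map_sum]
      refine Finset.sum_congr rfl fun i _ => ?_
      simp only [f, Algebra.TensorProduct.lift_tmul, AlgHom.comp_apply, AlgHom.id_apply,
        Algebra.ofId_apply, Algebra.smul_def]
    have hfβ : f β' = ∑ i ∈ (B.repr β).support, φ ⟨B.repr β i, hSb i⟩ • b i := by
      simp only [β', map_sum]
      refine Finset.sum_congr rfl fun i _ => ?_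
      simp only [f, Algebra.TensorProduct.lift_tmul, AlgHom.comp_apply, AlgHom.id_apply,
        Algebra.ofId_apply, Algebra.smul_def]
    have hφ2 : φ ⟨B.repr α i0, hSa i0⟩ ≠ 0 ∧ φ ⟨B.repr β j0, hSb j0⟩ ≠ 0 := by
      have h2 : (⟨B.repr α i0 * B.repr β j0, R.mul_mem (hSa i0) (hSb j0)⟩ : R)
          = ⟨B.repr α i0, hSa i0⟩ * ⟨B.repr β j0, hSb j0⟩ := rfl
      rw [h2, map_mul] at hφ
      exact ⟨left_ne_zero_of_mul hφ, right_ne_zero_of_mul hφ⟩
    rcases mul_eq_zero.mp h1 with h | h
    · rw [hfα] at h
      have h3 := linearIndependent_iff'.mp b.linearIndependent _ _ h i0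
        (Finsupp.mem_support_iff.mpr hi0)
      exact hφ2.1 h3
    · rw [hfβ] at h
      have h3 := linearIndependent_iff'.mp b.linearIndependent _ _ h j0
        (Finsupp.mem_support_iff.mpr hj0)
      exact hφ2.2 h3
  have : Nontrivial (Ω ⊗[k] K) := by
    have h := Algebra.TensorProduct.includeLeft_injective (R := k) (S := k) (A := Ω) (B := K)
      (algebraMap k K).injective
    exact h.nontrivial
  exact NoZeroDivisors.to_isDomain _

/-- Existence of the base change: `K'` is the field of fractions of `Ω ⊗ K`, `ι u = 1 ⊗ u`.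
`indep`: `1 ⊗ u_i` are linearly independent over `Ω` (for a basis extending `u`,
`Algebra.TensorProduct.basis`, or `LinearIndependent` under flat base change), and `Ω ⊗ K → K'` is
injective. `gen`: numerators and denominators of elements of `K'` are elements `∑ a_i ⊗ u_i`; use
the same family `u` for both (concatenate the families, with coefficients zero). -/
theorem exists_bc : ∃ (K' : Type) (_ : Field K') (_ : Algebra Ω K') (ι : K →+* K'),
    BC (k := k) (Ω := Ω) ι := by
  classical
  have : IsDomain (Ω ⊗[k] K) := isDomain_tensor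
  let F := FractionRing (Ω ⊗[k] K)
  let ι : K →+* F := (algebraMap (Ω ⊗[k] K) F).comp
    (Algebra.TensorProduct.includeRight : K →ₐ[k] Ω ⊗[k] K).toRingHom
  have hsum : ∀ {I : Type} (T : Finset I) (u : I → K) (a : I → Ω),
      ∑ i ∈ T, algebraMap Ω F (a i) * ι (u i)
        = algebraMap (Ω ⊗[k] K) F (∑ i ∈ T, a i ⊗ₜ[k] u i) := by
    intro I T u a
    rw [map_sum]
    refine Finset.sum_congr rfl fun i _ => ?_
    have h1 : algebraMap Ω F (a i) = algebraMap (Ω ⊗[k] K) F (a i ⊗ₜ[k] 1) := by
      rw [IsScalarTower.algebraMap_apply Ω (Ω ⊗[k] K) F]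
      rfl
    have h2 : ι (u i) = algebraMap (Ω ⊗[k] K) F (1 ⊗ₜ[k] u i) := rfl
    rw [h1, h2, ← map_mul, Algebra.TensorProduct.tmul_mul_tmul, mul_one, one_mul]
  refine ⟨F, inferInstance, inferInstance, ι, ?_⟩
  refine ⟨?_, ?_, ?_⟩
  · intro a
    have h1 : algebraMap Ω F (algebraMap k Ω a)
        = algebraMap (Ω ⊗[k] K) F ((algebraMap k Ω a) ⊗ₜ[k] 1) := by
      rw [IsScalarTower.algebraMap_apply Ω (Ω ⊗[k] K) F]
      rfl
    have h2 : ι (algebraMap k K a) = algebraMap (Ω ⊗[k] K) F (1 ⊗ₜ[k] algebraMap k K a) := rfl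
    have h3 : (1 : Ω) ⊗ₜ[k] algebraMap k K a = algebraMap k Ω a ⊗ₜ[k] (1 : K) := by
      rw [Algebra.algebraMap_eq_smul_one (A := K), Algebra.algebraMap_eq_smul_one (A := Ω),
        TensorProduct.tmul_smul, TensorProduct.smul_tmul']
    rw [h1, h2, h3]
  · intro n u a hu h
    rw [hsum Finset.univ u a] at h
    have h0 : ∑ i, a i ⊗ₜ[k] u i = 0 :=
      (IsFractionRing.injective (Ω ⊗[k] K) F) (by rw [h, map_zero])
    have hli := Module.Flat.linearIndependent_one_tmul (S := Ω) hu
    rw [Fintype.linearIndependent_iff] at hli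
    funext i
    refine hli a ?_ i
    rw [← h0]
    refine Finset.sum_congr rfl fun i _ => ?_
    rw [TensorProduct.smul_tmul', smul_eq_mul, mul_one]
  · intro x
    obtain ⟨p, q, hq, hx⟩ := IsFractionRing.div_surjective (A := Ω ⊗[k] K) x
    have hq0 : q ≠ 0 := nonZeroDivisors.ne_zero hq
    let b := Module.Basis.ofVectorSpace k K
    let B := Algebra.TensorProduct.basis Ω b
    let T := (B.repr p).support ∪ (B.repr q).support
    have key : ∀ y : Ω ⊗[k] K, (B.repr y).support ⊆ T →
        ∑ i ∈ T, (B.repr y i) ⊗ₜ[k] b i = y := by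
      intro y hy
      conv_rhs => rw [← B.linearCombination_repr y, Finsupp.linearCombination_apply,
        Finsupp.sum_of_support_subset _ hy _ (by simp)]
      refine Finset.sum_congr rfl fun i _ => ?_
      simp only [B, Algebra.TensorProduct.basis_apply, TensorProduct.smul_tmul', smul_eq_mul,
        mul_one]
    have hp' := key p Finset.subset_union_left
    have hq' := key q Finset.subset_union_right
    let e := T.equivFin
    have tr : ∀ y : Ω ⊗[k] K, ∑ i ∈ T, (B.repr y i) ⊗ₜ[k] b i = y →
        ∑ i : Fin T.card, algebraMap Ω F (B.repr y (e.symm i)) * ι (b (e.symm i))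
          = algebraMap (Ω ⊗[k] K) F y := by
      intro y hy
      rw [hsum Finset.univ (fun i : Fin T.card => b (e.symm i))
        (fun i => B.repr y (e.symm i))]
      congr 1
      refine Eq.trans ?_ hy
      rw [← Finset.sum_coe_sort T (fun i => (B.repr y i) ⊗ₜ[k] b i)]
      exact Equiv.sum_comp e.symm (fun i : T => (B.repr y i) ⊗ₜ[k] b i)
    refine ⟨T.card, fun i => b (e.symm i), fun i => B.repr p (e.symm i),
      fun i => B.repr q (e.symm i), ?_, ?_⟩
    · rw [tr q hq']
      intro h
      exact hq0 ((IsFractionRing.injective (Ω ⊗[k] K) F) (by rw [h, map_zero]))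
    · rw [tr q hq', tr p hp', ← hx]
      have hne : algebraMap (Ω ⊗[k] K) F q ≠ 0 := by
        intro h
        exact hq0 ((IsFractionRing.injective (Ω ⊗[k] K) F) (by rw [h, map_zero]))
      exact div_mul_cancel₀ _ hne

end Pool.Agent.CYC
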