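import Pool.Agent.CYC.BCDef

/-!
# Base change of function fields: the base change is the function field of a curve
-/

set_option autoImplicit false

noncomputable section

namespace Pool.Agent.CYC

open Pool.Agent.ZCyc Pool.Agent.Dess Pool.Agent.TInc Polynomial

variable {k K Ω K' : Type} [Field k] [Field K] [Algebra k K] [Field Ω] [Algebra k Ω]
    [Field K'] [Algebra Ω K'] {ι : K →+* K'}

/-- PROOF. The powers of `t` are linearly independent over `k`, so a polynomial relation
`∑ a_i (ι t) ^ i = 0` with `a_i ∈ Ω` is trivial by `BC.indep`. -/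
theorem BC.transc (h : BC (k := k) (Ω := Ω) ι) {t : K} (ht : Transcendental k t) :
    Transcendental Ω (ι t) := by
  rw [transcendental_iff]
  intro p hp
  rw [aeval_eq_sum_range, Finset.sum_range] at hp
  have hli : LinearIndependent k fun i : Fin (p.natDegree + 1) => t ^ (i : ℕ) := by
    rw [Fintype.linearIndependent_iff]
    intro g hg
    have h2 : aeval t (∑ l : Fin (p.natDegree + 1), C (g l) * X ^ (l : ℕ)) = 0 := by
      rw [map_sum, ← hg]
      refine Finset.sum_congr rfl fun l _ => ?_
      rw [map_mul, aeval_C, map_pow, aeval_X, Algebra.smul_def]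
    have h4 := (transcendental_iff.1 ht) _ h2
    intro l
    have h5 := congrArg (fun q => q.coeff (l : ℕ)) h4
    simp only [finsetSum_coeff, coeff_C_mul, coeff_X_pow, coeff_zero] at h5
    rw [Finset.sum_eq_single l] at h5
    · simpa using h5
    · intro l' _ hl'
      rw [if_neg (fun h => hl' (Fin.ext h).symm), mul_zero]
    · intro h
      exact absurd (Finset.mem_univ l) h
  have h1 := h.indep (p.natDegree + 1) (fun i => t ^ (i : ℕ)) (fun i => p.coeff i) hli (by
    rw [← hp]
    refine Finset.sum_congr rfl fun i _ => ?_
    rw [Algebra.smul_def, map_pow])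
  have h2 := congrFun h1 (Fin.last p.natDegree)
  have h3 : p.coeff p.natDegree = 0 := h2
  exact leadingCoeff_eq_zero.1 h3

/-- PROOF. Let `t` be transcendental, `K` finite over `k(t)` with the generators `e_1, …, e_n` as a vector
space. `t' = ι t` is transcendental over `Ω` (`BC.transc`). Let `F = Ω(t')`, the images of `k(t)` under `ι`
are in `F`. The `F`-span `M` of the `ι e_i` is a subring (the products `e_i e_j` are combinations of the `e_l`
with coefficients in `k(t)`; `1` is a combination), of finite dimension over `F`, so it is a field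
(a domain which is finite-dimensional over a field; or: every element of `M` is algebraic over `F`). It
contains `ι K` and `Ω`, hence all of `K'` by `BC.gen`. Alternatively: every `ι u` is algebraic over `F` and
`K' = F(ι e_1, …, ι e_n)` by `gen`, use `IntermediateField.finiteDimensional_adjoin`. -/
theorem BC.curve (h : BC (k := k) (Ω := Ω) ι) (hK : IsCurve k K) : IsCurve Ω K' := by
  obtain ⟨t, ht, hfin⟩ := hK
  refine ⟨ι t, h.transc ht, ?_⟩
  set E := IntermediateField.adjoin k {t} with hE
  set F := IntermediateField.adjoin Ω {ι t} with hF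
  have hmem : ∀ x ∈ E, ι x ∈ F := by
    intro x hx
    let T : IntermediateField k K :=
      { F.toSubfield.comap ι with
        algebraMap_mem' := fun a => by
          change ι (algebraMap k K a) ∈ F
          rw [h.comm]
          exact F.algebraMap_mem _ }
    have h1 : E ≤ T := by
      rw [hE, IntermediateField.adjoin_simple_le_iff]
      exact IntermediateField.mem_adjoin_simple_self Ω (ι t)
    exact h1 hx
  let ψ : E →+* F :=
    { toFun := fun x => ⟨ι x, hmem x x.2⟩
      map_one' := Subtype.ext (map_one ι)
      map_zero' := Subtype.ext (map_zero ι)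
      map_mul' := fun x y => Subtype.ext (map_mul ι _ _)
      map_add' := fun x y => Subtype.ext (map_add ι _ _) }
  have hψ : ∀ x : E, algebraMap F K' (ψ x) = ι (algebraMap E K x) := fun x => rfl
  have hint : ∀ x : K, IsIntegral F (ι x) := by
    intro x
    have h1 : IsIntegral E x := Algebra.IsIntegral.isIntegral x
    obtain ⟨p, hp, hp0⟩ := h1
    refine ⟨p.map ψ, hp.map ψ, ?_⟩
    rw [eval₂_map]
    have h2 : (algebraMap F K').comp ψ = ι.comp (algebraMap E K) := RingHom.ext hψ
    rw [h2, ← hom_eval₂, hp0, map_zero]
  let e := Module.finBasis E K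
  set S : Set K' := Set.range fun i => ι (e i) with hS
  have hSfin : Finite S := Set.finite_range _
  have hfd : FiniteDimensional F (IntermediateField.adjoin F S) :=
    IntermediateField.finiteDimensional_adjoin (by
      rintro x ⟨i, rfl⟩
      exact hint _)
  have hι : ∀ u : K, ι u ∈ IntermediateField.adjoin F S := by
    intro u
    rw [← e.sum_repr u, map_sum]
    refine sum_mem fun i _ => ?_
    rw [Algebra.smul_def, map_mul, ← hψ]
    exact mul_mem (IntermediateField.algebraMap_mem _ _)
      (IntermediateField.subset_adjoin F S ⟨i, rfl⟩)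
  have hΩ : ∀ a : Ω, algebraMap Ω K' a ∈ IntermediateField.adjoin F S := by
    intro a
    have h1 : algebraMap Ω K' a = algebraMap F K' (algebraMap Ω F a) := rfl
    rw [h1]
    exact IntermediateField.algebraMap_mem _ _
  have htop : IntermediateField.adjoin F S = ⊤ := by
    rw [eq_top_iff]
    intro x _
    obtain ⟨n, u, a, b, hb, hx⟩ := h.gen x
    have h1 : x = (∑ i, algebraMap Ω K' (a i) * ι (u i)) /
        ∑ i, algebraMap Ω K' (b i) * ι (u i) := by
      rw [eq_div_iff hb]
      exact hx
    rw [h1]
    exact div_mem (sum_mem fun i _ => mul_mem (hΩ _) (hι _))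
      (sum_mem fun i _ => mul_mem (hΩ _) (hι _))
  rw [htop] at hfd
  exact (IntermediateField.topEquiv (F := F) (E := K')).toLinearEquiv.finiteDimensional

end Pool.Agent.CYC
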