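import Pool.Agent.CYC.BCb

/-!
# Base change of function fields: places
-/

set_option autoImplicit false

noncomputable section

namespace Pool.Agent.CYC

open Pool.Agent.ZCyc Pool.Agent.Dess Pool.Agent.TInc

variable {k K Ω K' : Type} [Field k] [IsAlgClosed k] [CharZero k] [Field K] [Algebra k K]
    [Field Ω] [Algebra k Ω] [IsAlgClosed Ω] [CharZero Ω] [Field K'] [Algebra Ω K'] {ι : K →+* K'}

omit [IsAlgClosed k] [CharZero k] [IsAlgClosed Ω] [CharZero Ω] in
/-- sums over a finite set as sums over `Fin` -/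
private theorem BCc_reindex {α : Type} (L : Finset α) (a : α → Ω) (u : α → K) :
    ∑ l ∈ L, algebraMap Ω K' (a l) * ι (u l) =
      ∑ i : Fin L.card, algebraMap Ω K' (a (L.equivFin.symm i).1) *
        ι (u (L.equivFin.symm i).1) := by
  rw [← Finset.sum_coe_sort L, ← Equiv.sum_comp L.equivFin.symm]

omit [IsAlgClosed k] [CharZero k] [IsAlgClosed Ω] [CharZero Ω] in
private theorem BCc_indep (h : BC (k := k) (Ω := Ω) ι) {α : Type} (L : Finset α) (a : α → Ω)
    {e : α → K} (he : LinearIndependent k e)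
    (h0 : ∑ l ∈ L, algebraMap Ω K' (a l) * ι (e l) = 0) : ∀ l ∈ L, a l = 0 := by
  rw [BCc_reindex] at h0
  have hinj : Function.Injective fun i : Fin L.card => (L.equivFin.symm i).1 :=
    Subtype.val_injective.comp L.equivFin.symm.injective
  have h1 := h.indep _ _ _ (he.comp _ hinj) h0
  intro l hl
  have h2 := congrFun h1 (L.equivFin ⟨l, hl⟩)
  simpa using h2

omit [IsAlgClosed k] [CharZero k] [IsAlgClosed Ω] [CharZero Ω] in
/-- expansion with respect to a basis of `K` -/
private theorem BCc_expand (h : BC (k := k) (Ω := Ω) ι) {α β : Type} [Fintype α]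
    (e : Module.Basis β k K) (u : α → K) (a : α → Ω) (L : Finset β)
    (hL : ∀ i, (e.repr (u i)).support ⊆ L) :
    ∑ i, algebraMap Ω K' (a i) * ι (u i) =
      ∑ l ∈ L, algebraMap Ω K' (∑ i, (e.repr (u i) l) • a i) * ι (e l) := by
  have h1 : ∀ i, u i = ∑ l ∈ L, algebraMap k K (e.repr (u i) l) * e l := by
    intro i
    conv_lhs => rw [← e.linearCombination_repr (u i)]
    rw [Finsupp.linearCombination_apply, Finsupp.sum_of_support_subset _ (hL i) _ (by simp)]
    simp only [Algebra.smul_def]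
  have h2 : ∀ i, algebraMap Ω K' (a i) * ι (u i) =
      ∑ l ∈ L, algebraMap Ω K' ((e.repr (u i) l) • a i) * ι (e l) := by
    intro i
    conv_lhs => rw [h1 i]
    rw [map_sum, Finset.mul_sum]
    apply Finset.sum_congr rfl
    intro l _
    rw [map_mul, h.comm, Algebra.smul_def, map_mul]
    ring
  rw [Finset.sum_congr rfl fun i _ => h2 i, Finset.sum_comm]
  apply Finset.sum_congr rfl
  intro l _
  rw [map_sum, Finset.sum_mul]

omit [IsAlgClosed k] [CharZero k] [IsAlgClosed Ω] [CharZero Ω] in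
/-- a linear functional applied to a relation -/
private theorem BCc_dual (h : BC (k := k) (Ω := Ω) ι) {α : Type} [Fintype α]
    (u : α → K) (a : α → Ω) (h0 : ∑ i, algebraMap Ω K' (a i) * ι (u i) = 0)
    (lam : Ω →ₗ[k] k) : ∑ i, lam (a i) • u i = 0 := by
  classical
  let e := Module.Basis.ofVectorSpace k K
  let L : Finset (Module.Basis.ofVectorSpaceIndex k K) :=
    Finset.univ.biUnion fun i => (e.repr (u i)).support
  have hL : ∀ i, (e.repr (u i)).support ⊆ L := fun i =>
    Finset.subset_biUnion_of_mem (fun i => (e.repr (u i)).support) (Finset.mem_univ i)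
  rw [BCc_expand h e u a L hL] at h0
  have h1 := BCc_indep h L _ e.linearIndependent h0
  have h2 : ∀ i, u i = ∑ l ∈ L, (e.repr (u i) l) • e l := by
    intro i
    conv_lhs => rw [← e.linearCombination_repr (u i)]
    rw [Finsupp.linearCombination_apply, Finsupp.sum_of_support_subset _ (hL i) _ (by simp)]
  have h3 : ∀ i, lam (a i) • u i = ∑ l ∈ L, (lam ((e.repr (u i) l) • a i)) • e l := by
    intro i
    conv_lhs => rw [h2 i]
    rw [Finset.smul_sum]
    apply Finset.sum_congr rfl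
    intro l _
    rw [map_smul, smul_smul, smul_eq_mul, mul_comm]
  rw [Finset.sum_congr rfl fun i _ => h3 i, Finset.sum_comm]
  apply Finset.sum_eq_zero
  intro l hl
  rw [← Finset.sum_smul, ← map_sum, h1 l hl, map_zero, zero_smul]

omit [IsAlgClosed Ω] [CharZero Ω] in
/-- the normal form of a sum -/
private theorem BCc_norm (h : BC (k := k) (Ω := Ω) ι) (hK : IsCurve k K) (q : Place k K) {π : K}
    (hπ : IsUnif q π) {m : ℕ} (u : Fin m → K) (a : Fin m → Ω)
    (h0 : ∑ i, algebraMap Ω K' (a i) * ι (u i) ≠ 0) :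
    ∃ (n : ℤ) (r : ℕ) (a' : Fin r → Ω) (x' : Fin r → K), (∀ i, x' i ∈ q.ring) ∧
      ∑ i, a' i * algebraMap k Ω (val q (x' i)) ≠ 0 ∧
      ∑ i, algebraMap Ω K' (a i) * ι (u i) =
        ι π ^ n * ∑ i, algebraMap Ω K' (a' i) * ι (x' i) := by
  classical
  let b := Module.Basis.ofVectorSpace k Ω
  let J : Finset (Module.Basis.ofVectorSpaceIndex k Ω) :=
    Finset.univ.biUnion fun i => (b.repr (a i)).support
  have hJ : ∀ i, (b.repr (a i)).support ⊆ J := fun i =>
    Finset.subset_biUnion_of_mem (fun i => (b.repr (a i)).support) (Finset.mem_univ i)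
  let z : Module.Basis.ofVectorSpaceIndex k Ω → K := fun j =>
    ∑ i, algebraMap k K (b.repr (a i) j) * u i
  have h1 : ∀ i, a i = ∑ j ∈ J, algebraMap k Ω (b.repr (a i) j) * b j := by
    intro i
    conv_lhs => rw [← b.linearCombination_repr (a i)]
    rw [Finsupp.linearCombination_apply, Finsupp.sum_of_support_subset _ (hJ i) _ (by simp)]
    simp only [Algebra.smul_def]
  have h2 : ∑ i, algebraMap Ω K' (a i) * ι (u i) = ∑ j ∈ J, algebraMap Ω K' (b j) * ι (z j) := by
    have h3 : ∀ i, algebraMap Ω K' (a i) * ι (u i) =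
        ∑ j ∈ J, algebraMap Ω K' (b j) * ι (algebraMap k K (b.repr (a i) j) * u i) := by
      intro i
      conv_lhs => rw [h1 i]
      rw [map_sum, Finset.sum_mul]
      apply Finset.sum_congr rfl
      intro j _
      rw [map_mul, map_mul, h.comm]
      ring
    rw [Finset.sum_congr rfl fun i _ => h3 i, Finset.sum_comm]
    apply Finset.sum_congr rfl
    intro j _
    rw [map_sum, Finset.mul_sum]
  obtain ⟨j1, hj1, hz1⟩ : ∃ j ∈ J, z j ≠ 0 := by
    by_contra hcon
    push Not at hcon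
    apply h0
    rw [h2]
    apply Finset.sum_eq_zero
    intro j hj
    rw [hcon j hj, map_zero, mul_zero]
  obtain ⟨j0, hj0, hmin⟩ := Finset.exists_min_image (J.filter fun j => z j ≠ 0)
    (fun j => ord q (z j)) ⟨j1, Finset.mem_filter.2 ⟨hj1, hz1⟩⟩
  rw [Finset.mem_filter] at hj0
  set N := ord q (z j0) with hN
  have hπN : π ^ N ≠ 0 := zpow_ne_zero _ hπ.1
  have h4 : ∀ j ∈ J, z j / π ^ N ∈ q.ring := by
    intro j hj
    by_cases hz : z j = 0
    · rw [hz, zero_div]
      exact zero_mem _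
    · rw [mem_iff_ord hK (div_ne_zero hz hπN), div_eq_mul_inv,
        ord_mul hK q hz (inv_ne_zero hπN), ord_inv hK, ord_zpow hK, ord_unif hK hπ]
      have := hmin j (Finset.mem_filter.2 ⟨hj, hz⟩)
      omega
  have h5 : val q (z j0 / π ^ N) ≠ 0 := by
    intro h6
    have h7 := at_val hK (h4 j0 hj0.1)
    rw [h6, Place.at_zero_iff, vanishes_iff_ord hK (div_ne_zero hj0.2 hπN), div_eq_mul_inv,
      ord_mul hK q hj0.2 (inv_ne_zero hπN), ord_inv hK, ord_zpow hK, ord_unif hK hπ] at h7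
    omega
  refine ⟨N, J.card, fun i => b (J.equivFin.symm i).1,
    fun i => z (J.equivFin.symm i).1 / π ^ N, fun i => h4 _ (J.equivFin.symm i).2, ?_, ?_⟩
  · intro h6
    have h7 : ∑ j ∈ J, (val q (z j / π ^ N)) • b j = 0 := by
      rw [← Finset.sum_coe_sort J, ← Equiv.sum_comp J.equivFin.symm, ← h6]
      apply Finset.sum_congr rfl
      intro i _
      rw [Algebra.smul_def, mul_comm]
    exact h5 (linearIndependent_iff'.1 b.linearIndependent J _ h7 j0 hj0.1)
  · rw [← BCc_reindex J (fun j => b j) (fun j => z j / π ^ N), h2, Finset.mul_sum]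
    apply Finset.sum_congr rfl
    intro j _
    have h6 : ι π ^ N ≠ 0 := by
      rw [← map_zpow₀]
      exact (map_ne_zero ι).2 hπN
    rw [map_div₀, map_zpow₀]
    field_simp

/-- Every element `x ≠ 0` of `K'` is `ι(π) ^ n u / u'` with sums `u = ∑ a_i ι(x_i)`, `u' = ∑ b_i
ι(y_i)`, `x_i`, `y_i ∈ O_q`, whose values `∑ a_i x_i(q)`, `∑ b_i y_i(q)` in `Ω` are not zero.
PROOF. By `gen` it is enough to consider `f = ∑ a_i ι(x_i) ≠ 0`, `x_i ∈ K`. We may assume that the
`a_i` are linearly independent over `k` (choose a basis of the `k`-space spanned by the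
coefficients and collect terms) and that all `x_i ≠ 0`. Let `n` be the minimum of the orders of
the `x_i` at `q`, `x_i = π ^ n x_i'`, `x_i' ∈ O_q`, and not all values `x_i'(q) ∈ k` are zero, so
`∑ a_i x_i'(q) ≠ 0`. -/
theorem BC.factor (h : BC (k := k) (Ω := Ω) ι) (hK : IsCurve k K) (q : Place k K) {π : K}
    (hπ : IsUnif q π) {x : K'} (hx : x ≠ 0) :
    ∃ (n : ℤ) (r s : ℕ) (a : Fin r → Ω) (x' : Fin r → K) (b : Fin s → Ω) (y' : Fin s → K),
      (∀ i, x' i ∈ q.ring) ∧ (∀ i, y' i ∈ q.ring) ∧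
      ∑ i, a i * algebraMap k Ω (val q (x' i)) ≠ 0 ∧
      ∑ i, b i * algebraMap k Ω (val q (y' i)) ≠ 0 ∧
      ∑ i, algebraMap Ω K' (b i) * ι (y' i) ≠ 0 ∧
      x * ∑ i, algebraMap Ω K' (b i) * ι (y' i) =
        ι π ^ n * ∑ i, algebraMap Ω K' (a i) * ι (x' i) := by
  obtain ⟨m, u, a, b, hb, hx1⟩ := h.gen x
  have ha : ∑ i, algebraMap Ω K' (a i) * ι (u i) ≠ 0 := by
    rw [← hx1]
    exact mul_ne_zero hx hb
  obtain ⟨n1, r, a', x', h1, h2, h3⟩ := BCc_norm h hK q hπ u a ha
  obtain ⟨n2, s, b', y', h4, h5, h6⟩ := BCc_norm h hK q hπ u b hb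
  have hπ' : ι π ≠ 0 := (map_ne_zero ι).2 hπ.1
  refine ⟨n1 - n2, r, s, a', x', b', y', h1, h4, h2, h5, ?_, ?_⟩
  · intro h7
    apply hb
    rw [h6, h7, mul_zero]
  · rw [h3, h6] at hx1
    have h8 : ι π ^ n2 ≠ 0 := zpow_ne_zero _ hπ'
    apply mul_left_cancel₀ h8
    rw [zpow_sub₀ hπ']
    calc ι π ^ n2 * (x * ∑ i, algebraMap Ω K' (b' i) * ι (y' i))
        = x * (ι π ^ n2 * ∑ i, algebraMap Ω K' (b' i) * ι (y' i)) := by ring
      _ = ι π ^ n1 * ∑ i, algebraMap Ω K' (a' i) * ι (x' i) := hx1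
      _ = ι π ^ n2 * (ι π ^ n1 / ι π ^ n2 * ∑ i, algebraMap Ω K' (a' i) * ι (x' i)) := by
          field_simp

omit [IsAlgClosed k] [CharZero k] [IsAlgClosed Ω] [CharZero Ω] in
/-- the values at a place above `q` -/
private theorem BCc_at (h : BC (k := k) (Ω := Ω) ι) {q : Place k K} {P : Place Ω K'}
    (hP : ∀ b, b ∈ q.ring ↔ ι b ∈ P.ring) {b : K} {c : k} (hb : q.At b c) :
    P.At (ι b) (algebraMap k Ω c) := by
  unfold Place.At at hb ⊢
  rw [← h.comm, ← map_sub, P.vanishes_iff_or]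
  rcases (q.vanishes_iff_or _).1 hb with h1 | h1
  · left
    rw [h1, map_zero]
  · right
    rw [← map_inv₀, ← hP]
    exact h1

omit [IsAlgClosed Ω] [CharZero Ω] in
private theorem BCc_at_sum (h : BC (k := k) (Ω := Ω) ι) (hK : IsCurve k K) {q : Place k K}
    {P : Place Ω K'} (hP : ∀ b, b ∈ q.ring ↔ ι b ∈ P.ring) {r : ℕ} (a : Fin r → Ω)
    (x : Fin r → K) (hx : ∀ i, x i ∈ q.ring) :
    P.At (∑ i, algebraMap Ω K' (a i) * ι (x i)) (∑ i, a i * algebraMap k Ω (val q (x i))) :=
  Place.At.sum fun i _ => (Place.at_const (a i)).mul (BCc_at h hP (at_val hK (hx i)))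

omit [IsAlgClosed Ω] [CharZero Ω] in
/-- regularity at a place above `q` -/
private theorem BCc_reg (h : BC (k := k) (Ω := Ω) ι) (hK : IsCurve k K) {q : Place k K} {π : K}
    (hπ : IsUnif q π) {x : K'} {n : ℤ} {r s : ℕ} {a : Fin r → Ω} {x' : Fin r → K}
    {b : Fin s → Ω} {y' : Fin s → K} (h1 : ∀ i, x' i ∈ q.ring) (h2 : ∀ i, y' i ∈ q.ring)
    (h3 : ∑ i, a i * algebraMap k Ω (val q (x' i)) ≠ 0)
    (h4 : ∑ i, b i * algebraMap k Ω (val q (y' i)) ≠ 0)
    (h5 : ∑ i, algebraMap Ω K' (b i) * ι (y' i) ≠ 0)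
    (h6 : x * ∑ i, algebraMap Ω K' (b i) * ι (y' i) =
        ι π ^ n * ∑ i, algebraMap Ω K' (a i) * ι (x' i)) {P : Place Ω K'}
    (hP : ∀ b, b ∈ q.ring ↔ ι b ∈ P.ring) :
    (0 ≤ n → x ∈ P.ring) ∧ (1 ≤ n → x / ι π ∈ P.ring) ∧ (n ≤ 0 → x⁻¹ ∈ P.ring) ∧
      (n < 0 → P.Vanishes x⁻¹) := by
  have ha := BCc_at_sum h hK hP a x' h1
  have hb := BCc_at_sum h hK hP b y' h2
  have hπ' : ι π ≠ 0 := (map_ne_zero ι).2 hπ.1
  have hπv : P.Vanishes (ι π) := by
    have := BCc_at h hP (Place.at_zero_iff.2 hπ.2.1)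
    rw [map_zero] at this
    exact Place.at_zero_iff.1 this
  have ha' : ∑ i, algebraMap Ω K' (a i) * ι (x' i) ≠ 0 := by
    intro h7
    rw [h7] at ha
    have h8 : P.At (0 : K') 0 := Place.at_zero_iff.2 P.vanishes_zero
    exact h3 (ha.unique h8)
  set A := ∑ i, algebraMap Ω K' (a i) * ι (x' i) with hA
  set B := ∑ i, algebraMap Ω K' (b i) * ι (y' i) with hB
  have hx : x = ι π ^ n * (A * B⁻¹) := by
    rw [← mul_assoc, ← h6, mul_assoc, mul_inv_cancel₀ h5, mul_one]
  have hu : A * B⁻¹ ∈ P.ring := mul_mem ha.mem (hb.inv h4).mem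
  have hu' : (A * B⁻¹)⁻¹ ∈ P.ring := by
    rw [mul_inv, inv_inv]
    exact mul_mem (ha.inv h3).mem hb.mem
  refine ⟨fun hn => ?_, fun hn => ?_, fun hn => ?_, fun hn => ?_⟩
  · obtain ⟨l, hl⟩ := Int.eq_ofNat_of_zero_le hn
    rw [hx, hl, zpow_natCast]
    exact mul_mem (pow_mem hπv.mem _) hu
  · obtain ⟨l, hl⟩ := Int.eq_ofNat_of_zero_le (show 0 ≤ n - 1 by omega)
    have h7 : x / ι π = ι π ^ l * (A * B⁻¹) := by
      have h8 : n = (l : ℤ) + 1 := by omega
      rw [hx, h8, zpow_add₀ hπ', zpow_one, zpow_natCast]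
      field_simp
    rw [h7]
    exact mul_mem (pow_mem hπv.mem _) hu
  · obtain ⟨l, hl⟩ := Int.eq_ofNat_of_zero_le (show 0 ≤ -n by omega)
    have h7 : x⁻¹ = ι π ^ l * (A * B⁻¹)⁻¹ := by
      rw [hx, mul_inv, ← zpow_neg, hl, zpow_natCast]
    rw [h7]
    exact mul_mem (pow_mem hπv.mem _) hu'
  · obtain ⟨l, hl⟩ := Int.eq_ofNat_of_zero_le (show 0 ≤ -n - 1 by omega)
    have h7 : x⁻¹ = ι π * (ι π ^ l * (A * B⁻¹)⁻¹) := by
      have h8 : -n = (l : ℤ) + 1 := by omega
      rw [hx, mul_inv, ← zpow_neg, h8, zpow_add₀ hπ', zpow_one, zpow_natCast]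
      ring
    rw [h7]
    exact hπv.mul P (mul_mem (pow_mem hπv.mem _) hu')

omit [IsAlgClosed k] [CharZero k] [IsAlgClosed Ω] [CharZero Ω] in
/-- the ring of the sums over `O_q`, `ι π` is not invertible -/
private theorem BCc_nonunit (h : BC (k := k) (Ω := Ω) ι) {q : Place k K} {π : K}
    (hπ : IsUnif q π) :
    (ι π)⁻¹ ∉ Algebra.adjoin Ω ((q.ring.toSubring.toSubmonoid.map ι : Submonoid K') : Set K') := by
  intro h1
  have h2 : (ι π)⁻¹ ∈ Submodule.span Ω
      ((q.ring.toSubring.toSubmonoid.map ι : Submonoid K') : Set K') := by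
    have h3 := Algebra.adjoin_eq_span Ω
      ((q.ring.toSubring.toSubmonoid.map ι : Submonoid K') : Set K')
    rw [Submonoid.closure_eq] at h3
    rw [← h3]
    exact h1
  rw [Submodule.mem_span_set'] at h2
  obtain ⟨n, f, g, hfg⟩ := h2
  have h4 : ∀ i, ∃ x : K, x ∈ q.ring ∧ ι x = g i := by
    intro i
    obtain ⟨x, hx, hx'⟩ := Submonoid.mem_map.1 (g i).2
    exact ⟨x, hx, hx'⟩
  choose x hx hx' using h4
  have hπ' : ι π ≠ 0 := (map_ne_zero ι).2 hπ.1
  obtain ⟨lam, hlam⟩ := LinearMap.exists_leftInverse_of_injective (Algebra.linearMap k Ω)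
    (LinearMap.ker_eq_bot.2 (algebraMap k Ω).injective)
  have hlam1 : lam 1 = 1 := by
    have := LinearMap.congr_fun hlam (1 : k)
    simpa using this
  let u : Option (Fin n) → K := fun o => o.elim 1 fun i => π * x i
  let a : Option (Fin n) → Ω := fun o => o.elim (-1) f
  have h5 : ∑ o, algebraMap Ω K' (a o) * ι (u o) = 0 := by
    rw [Fintype.sum_option]
    have h6 : ∑ i, algebraMap Ω K' (a (some i)) * ι (u (some i)) = 1 := by
      have h7 : ∑ i, algebraMap Ω K' (a (some i)) * ι (u (some i)) =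
          ι π * ∑ i, f i • (g i : K') := by
        rw [Finset.mul_sum]
        apply Finset.sum_congr rfl
        intro i _
        rw [Algebra.smul_def, ← hx' i]
        show algebraMap Ω K' (f i) * ι (π * x i) = _
        rw [map_mul]
        ring
      rw [h7, hfg, mul_inv_cancel₀ hπ']
    rw [h6]
    show algebraMap Ω K' (-1) * ι 1 + 1 = 0
    simp
  have h8 := BCc_dual h u a h5 lam
  rw [Fintype.sum_option] at h8
  have h9 : π * ∑ i, algebraMap k K (lam (f i)) * x i = 1 := by
    have h10 : lam (a none) • u none = -1 := by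
      show lam (-1) • (1 : K) = -1
      rw [map_neg, hlam1]
      simp
    have h11 : ∑ i, lam (a (some i)) • u (some i) =
        π * ∑ i, algebraMap k K (lam (f i)) * x i := by
      rw [Finset.mul_sum]
      apply Finset.sum_congr rfl
      intro i _
      show lam (f i) • (π * x i) = _
      rw [Algebra.smul_def]
      ring
    rw [h10, h11] at h8
    linear_combination h8
  have h12 : π⁻¹ ∈ q.ring := by
    rw [inv_eq_of_mul_eq_one_right h9]
    exact sum_mem fun i _ => mul_mem (q.const_mem _) (hx i)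
  rcases (q.vanishes_iff_or π).1 hπ.2.1 with h13 | h13
  · exact hπ.1 h13
  · exact h13 h12

omit [IsAlgClosed k] [CharZero k] [IsAlgClosed Ω] [CharZero Ω] in
/-- the valuation ring above `q` -/
private theorem BCc_ext (h : BC (k := k) (Ω := Ω) ι) {q : Place k K} {π : K}
    (hπ : IsUnif q π) : ∃ P : Place Ω K', ∀ b, b ∈ q.ring ↔ ι b ∈ P.ring := by
  let A := Algebra.adjoin Ω ((q.ring.toSubring.toSubmonoid.map ι : Submonoid K') : Set K')
  have hA : ∀ b ∈ q.ring, ι b ∈ A := fun b hb =>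
    Algebra.subset_adjoin (Submonoid.mem_map.2 ⟨b, hb, rfl⟩)
  have hπm : π ∈ q.ring := hπ.2.1.mem
  have hπ' : ι π ≠ 0 := (map_ne_zero ι).2 hπ.1
  let p : A := ⟨ι π, hA π hπm⟩
  have hp : p ∈ nonunits A := by
    intro hu
    obtain ⟨w, hw⟩ := isUnit_iff_exists_inv.1 hu
    apply BCc_nonunit h hπ
    have h1 : ι π * (w : K') = 1 := congrArg Subtype.val hw
    rw [inv_eq_of_mul_eq_one_right h1]
    exact w.2
  obtain ⟨m, hm, hpm⟩ := exists_max_ideal_of_mem_nonunits hp
  have hmp : m.IsPrime := hm.isPrime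
  have hu : ∀ y : m.primeCompl, IsUnit (A.val.toRingHom (y : A)) := by
    intro y
    apply IsUnit.mk0
    intro h1
    apply y.2
    have h2 : (y : A) = 0 := Subtype.ext h1
    rw [h2]
    exact m.zero_mem
  let φ : Localization.AtPrime m →+* K' := IsLocalization.lift (M := m.primeCompl) hu
  have hφ : ∀ z : A, φ (algebraMap A _ z) = z := fun z => IsLocalization.lift_eq hu z
  obtain ⟨V, hV, hloc⟩ := IsLocalRing.exists_factor_valuationRing φ
  have hAV : ∀ z ∈ A, z ∈ V := by
    intro z hz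
    have := hV (algebraMap A _ ⟨z, hz⟩)
    rw [hφ] at this
    exact this
  have hπV : (ι π)⁻¹ ∉ V := by
    intro h1
    have h2 : IsUnit ((φ.codRestrict V.toSubring hV) (algebraMap A _ p)) := by
      refine IsUnit.of_mul_eq_one (⟨(ι π)⁻¹, h1⟩ : V.toSubring) ?_
      apply Subtype.ext
      show φ (algebraMap A _ p) * (ι π)⁻¹ = 1
      rw [hφ]
      exact mul_inv_cancel₀ hπ'
    have h3 := hloc.map_nonunit _ h2
    rw [IsLocalization.AtPrime.isUnit_to_map_iff (Localization.AtPrime m) m] at h3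
    exact h3 hpm
  let P : Place Ω K' := ⟨V, fun c => hAV _ (A.algebraMap_mem c), fun htop => hπV (by
    rw [htop]
    exact ValuationSubring.mem_top _)⟩
  have hPv : P.Vanishes (ι π) := (P.vanishes_iff_or _).2 (Or.inr hπV)
  refine ⟨P, fun b => ⟨fun hb => hAV _ (hA b hb), fun hb => ?_⟩⟩
  by_contra hcon
  have h1 : q.Vanishes b⁻¹ := by
    rw [q.vanishes_iff_or, inv_inv]
    exact Or.inr hcon
  have h2 : P.Vanishes (ι b⁻¹) := by
    have h3 : ι b⁻¹ = ι π * ι (b⁻¹ / π) := by
      rw [← map_mul, mul_div_cancel₀ _ hπ.1]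
    rw [h3]
    exact hPv.mul P (hAV _ (hA _ (hπ.2.2 _ h1)))
  rw [P.vanishes_iff_or, map_inv₀, inv_inv] at h2
  rcases h2 with h2 | h2
  · apply hcon
    have h3 : ι b = 0 := inv_eq_zero.1 h2
    rw [(map_eq_zero ι).1 h3]
    exact zero_mem _
  · exact h2 hb

/-- The place `q'` above the place `q`: functions `b` in `K` have the same values and orders at
`q'`.
PROOF. Let `A ⊆ K'` be the subring of the sums `∑ a_i ι(x_i)`, `x_i ∈ O_q`, and let `A → Ω` be the
evaluation `∑ a_i ι(x_i) ↦ ∑ a_i x_i(q)`. It is well defined: if `∑ a_i ι(x_i) = 0`, write `a_i`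
as combinations of elements `a'_j` of `Ω` which are linearly independent over `k`: then the
coefficient of every `a'_j`, a combination `z_j` of the `x_i` over `k`, is zero (by `indep`:
choose a basis of the `k`-span of the `z_j`), so its value is zero. (Or construct it from `Ω ⊗ O_q
→ Ω ⊗ K → K'`, which is injective.) By `IsLocalRing.exists_factor_valuationRing` (see
`Dess.exists_ext`) there is a valuation ring of `K'` which contains `A`, such that exactly the
elements of `A` with value `0` are nonunits. It contains `Ω`, and it is not `K'` because `ι π` is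
a nonunit `≠ 0`. For `b ∈ O_q` with value `c` the element `ι b - c` is in the kernel of the
evaluation, so it vanishes at `q'`. `ι π` is a uniformizer: let `g` vanish at `q'`, `g ≠ 0`, then
`g = ι π ^ n u / u'` (`BC.factor`), where `u`, `u'` are units at `q'`, so `n ≥ 1` and `g / ι π` is
regular. So the order of `ι b` is the order of `b`. -/
theorem BC.exists_place (h : BC (k := k) (Ω := Ω) ι) (hK : IsCurve k K) (q : Place k K) :
    ∃ q' : Place Ω K', (∀ b, b ∈ q.ring ↔ ι b ∈ q'.ring) ∧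
      (∀ b (c : k), q.At b c → q'.At (ι b) (algebraMap k Ω c)) ∧
      ∀ b, b ≠ 0 → ord q' (ι b) = ord q b := by
  obtain ⟨π, hπ⟩ := exists_unif hK q
  obtain ⟨P, hP⟩ := BCc_ext h hπ
  have hπ' : ι π ≠ 0 := (map_ne_zero ι).2 hπ.1
  refine ⟨P, hP, fun b c hb => BCc_at h hP hb, fun b hb => ?_⟩
  have hu : IsUnif P (ι π) := by
    refine ⟨hπ', ?_, fun g hg => ?_⟩
    · have := BCc_at h hP (Place.at_zero_iff.2 hπ.2.1)
      rw [map_zero] at this
      exact Place.at_zero_iff.1 this
    · by_cases hg0 : g = 0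
      · rw [hg0, zero_div]
        exact zero_mem _
      obtain ⟨n, r, s, a, x', b', y', h1, h2, h3, h4, h5, h6⟩ := h.factor hK q hπ hg0
      obtain ⟨-, h8, h9, -⟩ := BCc_reg h hK hπ h1 h2 h3 h4 h5 h6 hP
      apply h8
      by_contra hn
      rcases (P.vanishes_iff_or g).1 hg with h10 | h10
      · exact hg0 h10
      · exact h10 (h9 (by omega))
  apply ord_eq (h.curve hK) ((map_ne_zero ι).2 hb)
  obtain ⟨h1, h2⟩ := ord_unit hK hπ hb
  refine ⟨ι π, hu, ?_, ?_⟩
  · rw [← map_zpow₀, ← map_div₀, ← hP]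
    exact h1
  · rw [← map_zpow₀, ← map_div₀, ← map_inv₀, ← hP]
    exact h2

/-- The dichotomy for the places of `K'`: let `Q` be a place of `K'` over `Ω`. If all elements of
`ι K` are regular at `Q` then their values define an embedding `s : K → Ω`. Otherwise `Q` is the
place `q'` above a place `q` of `K`, and there is only one.
PROOF. In the second case `O = ι ^ (-1) (O_Q)` is a valuation ring of `K` which contains `k` and
is not `K`, the ring of a place `q`. Let `q'` be a place with the properties in `exists_place` for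
`q`. Let `x ≠ 0` be in the ring of `q'`. By `BC.factor` `x = ι π ^ n u / u'`. Both at `q'` and at
`Q` the sums `u`, `u'` are units: at `Q` the `ι(x_i)` have the values `x_i(q)` (the elements of
the maximal ideal of `q` are nonunits at `Q`), so `u` has the value `∑ a_i x_i(q) ≠ 0`. So `n ≥ 0`
(as `x` is regular at `q'`), and `x` is regular at `Q`. The other inclusion is the same: `ι π`
vanishes at `Q` and at `q'`, so `x` is regular at `Q` iff `n ≥ 0` iff `x` is regular at `q'`. -/
theorem BC.dichotomy (h : BC (k := k) (Ω := Ω) ι) (hK : IsCurve k K) (Q : Place Ω K') :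
    (∃ s : K →+* Ω, (∀ a : k, s (algebraMap k K a) = algebraMap k Ω a) ∧ ∀ b, Q.At (ι b) (s b)) ∨
    ∃ q : Place k K, ∀ q' : Place Ω K', (∀ b, b ∈ q.ring ↔ ι b ∈ q'.ring) → q' = Q := by
  have hK' := h.curve hK
  by_cases hcase : ∀ b, ι b ∈ Q.ring
  · left
    have hv : ∀ b, Q.At (ι b) (val Q (ι b)) := fun b => at_val hK' (hcase b)
    refine ⟨{ toFun := fun b => val Q (ι b)
              map_one' := ?_
              map_mul' := ?_
              map_zero' := ?_
              map_add' := ?_ }, ?_, hv⟩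
    · apply val_eq
      rw [map_one]
      have := Place.at_const (v := Q) (1 : Ω)
      rwa [map_one] at this
    · intro x y
      apply val_eq
      rw [map_mul]
      exact (hv x).mul (hv y)
    · apply val_eq
      rw [map_zero]
      exact Place.at_zero_iff.2 Q.vanishes_zero
    · intro x y
      apply val_eq
      rw [map_add]
      exact (hv x).add (hv y)
    · intro a
      show val Q (ι (algebraMap k K a)) = _
      apply val_eq
      rw [h.comm]
      exact Place.at_const _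
  · right
    push Not at hcase
    obtain ⟨b0, hb0⟩ := hcase
    let q : Place k K := ⟨Q.ring.comap ι, fun c => by
      rw [ValuationSubring.mem_comap, h.comm]
      exact Q.const_mem _, fun htop => hb0 (by
        have : b0 ∈ Q.ring.comap ι := by
          rw [htop]
          exact ValuationSubring.mem_top _
        exact ValuationSubring.mem_comap.1 this)⟩
    have hQ : ∀ b, b ∈ q.ring ↔ ι b ∈ Q.ring := fun b => ValuationSubring.mem_comap
    refine ⟨q, fun q' hq' => place_le hK' fun x hx => ?_⟩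
    by_cases hx0 : x = 0
    · rw [hx0]
      exact zero_mem _
    obtain ⟨π, hπ⟩ := exists_unif hK q
    obtain ⟨n, r, s, a, x', b', y', h1, h2, h3, h4, h5, h6⟩ := h.factor hK q hπ hx0
    obtain ⟨h7, -, -, -⟩ := BCc_reg h hK hπ h1 h2 h3 h4 h5 h6 hQ
    obtain ⟨-, -, -, h8⟩ := BCc_reg h hK hπ h1 h2 h3 h4 h5 h6 hq'
    apply h7
    by_contra hn
    rcases (q'.vanishes_iff_or x⁻¹).1 (h8 (by omega)) with h9 | h9
    · exact hx0 (inv_eq_zero.1 h9)
    · rw [inv_inv] at h9
      exact h9 hx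

end Pool.Agent.CYC
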