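import Mathlib

/-!
# Zero-cycles on products: the formal part

Products of pointed varieties, the projections which replace some coordinates by the base points, the
classes `e T x = ∑ U ⊆ T, (-1) ^ |T \ U| [π_U x]`, the filtration and the push-forward. Everything here is
formal: a *theory* is a submodule `R` of the space of the zero-cycles which is stable under the
projections.
-/

set_option autoImplicit false
set_option linter.unusedSectionVars false
set_option linter.unusedDecidableInType false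
set_option linter.unusedFintypeInType false

noncomputable section

namespace Pool.Agent.CYC.Formal

variable {ι ι' : Type*} [Fintype ι] [DecidableEq ι] [Fintype ι'] [DecidableEq ι'] {P P' : Type*}

/-- replace the coordinates outside of `T` by the base points -/
def prj (o : ι → P) (T : Finset ι) (x : ι → P) : ι → P := fun j => if j ∈ T then x j else o j

theorem prj_prj (o : ι → P) (T U : Finset ι) (x : ι → P) :
    prj o T (prj o U x) = prj o (T ∩ U) x := by
  funext j
  unfold prj
  by_cases h1 : j ∈ T <;> by_cases h2 : j ∈ U <;> simp [h1, h2]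

theorem prj_univ (o : ι → P) (x : ι → P) : prj o Finset.univ x = x := by
  funext j
  simp [prj]

theorem prj_empty (o : ι → P) (x : ι → P) : prj o ∅ x = o := by
  funext j
  simp [prj]

theorem prj_congr (o : ι → P) {T : Finset ι} {x y : ι → P} (h : ∀ j ∈ T, x j = y j) :
    prj o T x = prj o T y := by
  funext j
  unfold prj
  split_ifs with h1
  · exact h j h1
  · rfl

/-- zero-cycles modulo `R` -/
abbrev Q (R : Submodule ℚ ((ι → P) →₀ ℚ)) : Type _ := ((ι → P) →₀ ℚ) ⧸ R

/-- the class of a point -/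
def cl (R : Submodule ℚ ((ι → P) →₀ ℚ)) (x : ι → P) : Q R :=
  Submodule.Quotient.mk (Finsupp.single x 1)

/-- the part of the class of `x` which belongs to `T` -/
def e (o : ι → P) (R : Submodule ℚ ((ι → P) →₀ ℚ)) (T : Finset ι) (x : ι → P) : Q R :=
  ∑ U ∈ T.powerset, ((-1 : ℚ) ^ (T \ U).card) • cl R (prj o U x)

/-- Möbius inversion on the set of the subsets -/
theorem moebius {A V : Type*} [DecidableEq A] [AddCommGroup V] [Module ℚ V]
    (f : Finset A → V) (B : Finset A) :
    f B = ∑ T ∈ B.powerset, ∑ U ∈ T.powerset, ((-1 : ℚ) ^ (T \ U).card) • f U := by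
  induction B using Finset.induction_on generalizing f with
  | empty => simp
  | insert a B ha ih =>
    rw [Finset.sum_powerset_insert ha, ← ih f, ih (fun U => f (insert a U)),
      ← sub_eq_iff_eq_add', ih f, ← Finset.sum_sub_distrib]
    refine Finset.sum_congr rfl fun T hT => ?_
    have haT : a ∉ T := fun h => ha (Finset.mem_powerset.1 hT h)
    rw [Finset.sum_powerset_insert haT, ← Finset.sum_sub_distrib, ← Finset.sum_add_distrib]
    refine Finset.sum_congr rfl fun U hU => ?_
    have haU : a ∉ U := fun h => haT (Finset.mem_powerset.1 hU h)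
    have e1 : insert a T \ U = insert a (T \ U) := by
      ext b
      simp only [Finset.mem_sdiff, Finset.mem_insert]
      constructor
      · rintro ⟨rfl | h1, h2⟩
        · exact Or.inl rfl
        · exact Or.inr ⟨h1, h2⟩
      · rintro (rfl | ⟨h1, h2⟩)
        · exact ⟨Or.inl rfl, haU⟩
        · exact ⟨Or.inr h1, h2⟩
    have e2 : insert a T \ insert a U = T \ U := by
      ext b
      simp only [Finset.mem_sdiff, Finset.mem_insert, not_or]
      constructor
      · rintro ⟨rfl | h1, h2, h3⟩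
        · exact absurd rfl h2
        · exact ⟨h1, h3⟩
      · rintro ⟨h1, h2⟩
        exact ⟨Or.inr h1, fun h => haT (h ▸ h1), h2⟩
    have h3 : a ∉ T \ U := fun h => haT (Finset.mem_sdiff.1 h).1
    rw [e1, e2, Finset.card_insert_of_notMem h3, pow_succ]
    module

theorem incl_excl {α : Type*} [DecidableEq α] (V T : Finset α) (hV : V ⊆ T) :
    ∑ U ∈ T.powerset, (-1 : ℚ) ^ (T \ U).card * (if V ⊆ U then (1 : ℚ) else 0) =
      if V = T then 1 else 0 := by
  have h := Finset.prod_add (fun _ : α => (1 : ℚ)) (fun p => if p ∈ V then 0 else -1) T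
  have h1 : ∏ p ∈ T, ((1 : ℚ) + if p ∈ V then 0 else -1) = if V = T then 1 else 0 := by
    split_ifs with h2
    · subst h2
      refine Finset.prod_eq_one fun p hp => ?_
      rw [if_pos hp, add_zero]
    · obtain ⟨p, hp, hp'⟩ := Finset.exists_of_ssubset (lt_of_le_of_ne hV h2)
      refine Finset.prod_eq_zero hp ?_
      rw [if_neg hp']
      norm_num
  rw [← h1, h]
  refine Finset.sum_congr rfl fun U hU => ?_
  rw [Finset.prod_const_one, one_mul]
  split_ifs with h2
  · rw [mul_one, Finset.card_eq_sum_ones, ← Finset.prod_pow_eq_pow_sum]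
    refine Finset.prod_congr rfl fun p hp => ?_
    rw [if_neg, pow_one]
    intro h3
    exact (Finset.mem_sdiff.1 hp).2 (h2 h3)
  · rw [mul_zero, eq_comm]
    rw [Finset.not_subset] at h2
    obtain ⟨p, hp, hp'⟩ := h2
    exact Finset.prod_eq_zero (Finset.mem_sdiff.2 ⟨hV hp, hp'⟩) (if_pos hp)

theorem incl_excl' {α : Type*} [DecidableEq α] (V T : Finset α) :
    ∑ U ∈ T.powerset, (-1 : ℚ) ^ (T \ U).card * (if V ⊆ U then (1 : ℚ) else 0) =
      if V = T then 1 else 0 := by
  by_cases hV : V ⊆ T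
  · exact incl_excl V T hV
  · rw [if_neg fun h => hV h.subset]
    refine Finset.sum_eq_zero fun U hU => ?_
    rw [if_neg, mul_zero]
    intro h
    exact hV (h.trans (Finset.mem_powerset.1 hU))

variable (o : ι → P) (o' : ι' → P') (R : Submodule ℚ ((ι → P) →₀ ℚ))
  (R' : Submodule ℚ ((ι' → P') →₀ ℚ))

/-- the class of `π_B x` -/
theorem cl_prj (B : Finset ι) (x : ι → P) : cl R (prj o B x) = ∑ T ∈ B.powerset, e o R T x :=
  moebius (fun U => cl R (prj o U x)) B

theorem cl_eq_sum (x : ι → P) : cl R x = ∑ T, e o R T x := by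
  rw [← Finset.powerset_univ, ← cl_prj, prj_univ]

/-- `e T x` depends only on the coordinates in `T` -/
theorem e_congr {T : Finset ι} {x y : ι → P} (h : ∀ j ∈ T, x j = y j) : e o R T x = e o R T y := by
  unfold e
  refine Finset.sum_congr rfl fun U hU => ?_
  rw [prj_congr o fun j hj => h j (Finset.mem_powerset.1 hU hj)]

/-- `e T x` is zero if one of the coordinates in `T` is the base point -/
theorem e_eq_zero {T : Finset ι} {x : ι → P} {j : ι} (hj : j ∈ T) (h : x j = o j) :
    e o R T x = 0 := by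
  unfold e
  rw [← Finset.insert_erase hj, Finset.sum_powerset_insert (Finset.notMem_erase j T),
    ← Finset.sum_add_distrib]
  refine Finset.sum_eq_zero fun U hU => ?_
  have hjU : j ∉ U := fun h1 => Finset.notMem_erase j T (Finset.mem_powerset.1 hU h1)
  have h1 : prj o (insert j U) x = prj o U x := by
    funext i
    unfold prj
    by_cases h2 : i = j
    · subst h2
      simp [hjU, h]
    · simp [Finset.mem_insert, h2]
  have h2 : (insert j (T.erase j) \ U).card = (insert j (T.erase j) \ insert j U).card + 1 := by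
    have h3 : insert j (T.erase j) \ U = insert j (insert j (T.erase j) \ insert j U) := by
      ext i
      simp only [Finset.mem_sdiff, Finset.mem_insert, not_or]
      constructor
      · rintro ⟨h4, h5⟩
        by_cases h6 : i = j
        · exact Or.inl h6
        · exact Or.inr ⟨h4, h6, h5⟩
      · rintro (rfl | ⟨h4, h5, h6⟩)
        · exact ⟨Or.inl rfl, hjU⟩
        · exact ⟨h4, h6⟩
    rw [h3, Finset.card_insert_of_notMem (by simp)]
  rw [h1, h2, pow_succ]
  module

theorem e_prj (T U : Finset ι) (x : ι → P) :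
    e o R T (prj o U x) = if T ⊆ U then e o R T x else 0 := by
  split_ifs with h
  · refine e_congr o R fun j hj => ?_
    simp [prj, h hj]
  · obtain ⟨j, hj, hjU⟩ := Finset.not_subset.1 h
    exact e_eq_zero o R hj (by simp [prj, hjU])

/-- the filtration on the quotient -/
def FV (On : (ι → P) → Prop) (n : ι → ℕ) (ν : ℕ) : Submodule ℚ (Q R) :=
  Submodule.span ℚ {y | ∃ (T : Finset ι) (x : ι → P), On x ∧ ν ≤ ∑ j ∈ T, n j ∧ y = e o R T x}

/-- the filtration -/
def InFil (On : (ι → P) → Prop) (n : ι → ℕ) (ν : ℕ) (z : (ι → P) →₀ ℚ) : Prop :=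
  (∀ p ∈ z.support, On p) ∧
    ∀ T : Finset ι, ∑ j ∈ T, n j < ν → z.mapDomain (prj o T) ∈ R

theorem mk_eq (z : (ι → P) →₀ ℚ) :
    (Submodule.Quotient.mk z : Q R) = z.sum fun p c => c • cl R p := by
  conv_lhs => rw [← Finsupp.sum_single z]
  rw [Finsupp.sum, ← Submodule.mkQ_apply, map_sum, Finsupp.sum]
  refine Finset.sum_congr rfl fun p _ => ?_
  rw [cl, ← Submodule.mkQ_apply, ← map_smul, Finsupp.smul_single, smul_eq_mul, mul_one]

theorem mk_map (U : Finset ι) (z : (ι → P) →₀ ℚ) :
    (Submodule.Quotient.mk (z.mapDomain (prj o U)) : Q R) =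
      z.sum fun p c => c • cl R (prj o U p) := by
  rw [mk_eq, Finsupp.sum_mapDomain_index]
  · intro p
    rw [zero_smul]
  · intro p a b
    rw [add_smul]

variable {On : (ι → P) → Prop} {On' : (ι' → P') → Prop} {n : ι → ℕ} {n' : ι' → ℕ}

variable {R R'} in
/-- the map of the quotients -/
def pushQ (g : (ι → P) → ι' → P') (h : R ≤ R'.comap (Finsupp.lmapDomain ℚ ℚ g)) : Q R →ₗ[ℚ] Q R' :=
  R.mapQ R' (Finsupp.lmapDomain ℚ ℚ g) h

theorem pushQ_cl (g : (ι → P) → ι' → P') (h : R ≤ R'.comap (Finsupp.lmapDomain ℚ ℚ g))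
    (x : ι → P) : pushQ g h (cl R x) = cl R' (g x) := by
  have h : pushQ g h (cl R x) =
      Submodule.Quotient.mk (Finsupp.mapDomain g (Finsupp.single x (1 : ℚ))) := rfl
  rw [h, Finsupp.mapDomain_single]
  rfl

theorem pushQ_mk (g : (ι → P) → ι' → P') (h : R ≤ R'.comap (Finsupp.lmapDomain ℚ ℚ g))
    (z : (ι → P) →₀ ℚ) : pushQ g h (Submodule.Quotient.mk z) =
      Submodule.Quotient.mk (z.mapDomain g) := rfl

theorem mk_mem_FV {ν : ℕ} (hR : ∀ U : Finset ι, R ≤ R.comap (Finsupp.lmapDomain ℚ ℚ (prj o U)))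
    {z : (ι → P) →₀ ℚ} (hz : ∀ p ∈ z.support, On p) :
    (Submodule.Quotient.mk z : Q R) ∈ FV o R On n ν ↔ InFil o R On n ν z := by
  constructor
  · intro h
    refine ⟨hz, fun U hU => ?_⟩
    have h1 : FV o R On n ν ≤ LinearMap.ker (pushQ (prj o U) (hR U)) := by
      unfold FV
      rw [Submodule.span_le]
      rintro y ⟨T, x, hx, hν, rfl⟩
      rw [SetLike.mem_coe, LinearMap.mem_ker]
      have h2 : pushQ (prj o U) (hR U) (e o R T x) = e o R T (prj o U x) := by
        unfold e
        rw [map_sum]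
        refine Finset.sum_congr rfl fun V _ => ?_
        rw [map_smul, pushQ_cl, prj_prj, prj_prj, Finset.inter_comm]
      rw [h2, e_prj, if_neg]
      intro hTU
      have := Finset.sum_le_sum_of_subset (f := n) hTU
      omega
    have h2 := h1 h
    rw [LinearMap.mem_ker, pushQ_mk, Submodule.Quotient.mk_eq_zero] at h2
    exact h2
  · rintro ⟨-, h⟩
    have h1 : (Submodule.Quotient.mk z : Q R) =
        ∑ T : Finset ι, z.sum fun p c => c • e o R T p := by
      rw [mk_eq]
      unfold Finsupp.sum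
      rw [Finset.sum_comm]
      refine Finset.sum_congr rfl fun p hp => ?_
      beta_reduce
      rw [cl_eq_sum o R p, Finset.smul_sum]
    rw [h1]
    refine Submodule.sum_mem _ fun T _ => ?_
    by_cases hν : ν ≤ ∑ j ∈ T, n j
    · refine Submodule.sum_mem _ fun p hp => Submodule.smul_mem _ _ (Submodule.subset_span ?_)
      exact ⟨T, p, hz p hp, hν, rfl⟩
    · have h2 : (z.sum fun p c => c • e o R T p) =
          ∑ U ∈ T.powerset, ((-1 : ℚ) ^ (T \ U).card) •
            (Submodule.Quotient.mk (z.mapDomain (prj o U)) : Q R) := by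
        simp only [mk_map]
        unfold Finsupp.sum e
        simp only [Finset.smul_sum]
        rw [Finset.sum_comm]
        refine Finset.sum_congr rfl fun U _ => Finset.sum_congr rfl fun p _ => ?_
        rw [smul_comm]
      rw [h2, Finset.sum_eq_zero]
      · exact zero_mem _
      intro U hU
      have h3 := Finset.sum_le_sum_of_subset (f := n) (Finset.mem_powerset.1 hU)
      rw [(Submodule.Quotient.mk_eq_zero _).2 (h U (by omega)), smul_zero]

/-! ### morphisms -/

/-- the `i` with `src j = some i` for some `j ∈ T'` -/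
def srcT (src : ι' → Option ι) (T' : Finset ι') : Finset ι :=
  T'.biUnion fun j => (src j).toFinset

theorem mem_srcT {src : ι' → Option ι} {T' : Finset ι'} {i : ι} :
    i ∈ srcT src T' ↔ ∃ j ∈ T', src j = some i := by
  simp [srcT]

/-- the coordinates of the image of `π_U x` which are not changed -/
def keep (src : ι' → Option ι) (U : Finset ι) : Finset ι' :=
  Finset.univ.filter fun j => ∀ i, src j = some i → i ∈ U

/-- `g` is a map with the sources `src`: constant, or a function of the factor with number `i` which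
maps the base point to the base point -/
def Src (On : (ι → P) → Prop) (src : ι' → Option ι) (g : (ι → P) → ι' → P') : Prop :=
  ∀ x U, On x → g (prj o U x) = prj o' (keep src U) (g x)

theorem subset_keep {src : ι' → Option ι} {U : Finset ι} {T' : Finset ι'} :
    T' ⊆ keep src U ↔ srcT src T' ⊆ U := by
  constructor
  · intro h i hi
    obtain ⟨j, hj, hs⟩ := mem_srcT.1 hi
    exact (Finset.mem_filter.1 (h hj)).2 i hs
  · intro h j hj
    refine Finset.mem_filter.2 ⟨Finset.mem_univ _, fun i hi => ?_⟩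
    exact h (mem_srcT.2 ⟨j, hj, hi⟩)

theorem pushQ_e {src : ι' → Option ι} {g : (ι → P) → ι' → P'} (hg : Src o o' On src g)
    (h : R ≤ R'.comap (Finsupp.lmapDomain ℚ ℚ g)) (T : Finset ι) {x : ι → P} (hx : On x) :
    pushQ g h (e o R T x) = ∑ T' : Finset ι' with srcT src T' = T, e o' R' T' (g x) := by
  have h1 : ∀ U ∈ T.powerset, pushQ g h (((-1 : ℚ) ^ (T \ U).card) • cl R (prj o U x)) =
      ∑ T' : Finset ι', ((-1 : ℚ) ^ (T \ U).card *
        (if srcT src T' ⊆ U then (1 : ℚ) else 0)) • e o' R' T' (g x) := by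
    intro U _
    rw [map_smul, pushQ_cl, hg x U hx, cl_eq_sum o' R', Finset.smul_sum]
    refine Finset.sum_congr rfl fun T' _ => ?_
    rw [e_prj, ← smul_smul]
    by_cases h2 : T' ⊆ keep src U
    · rw [if_pos h2, if_pos (subset_keep.1 h2), one_smul]
    · rw [if_neg h2, if_neg fun h3 => h2 (subset_keep.2 h3), zero_smul]
  have h2 : e o R T x = ∑ U ∈ T.powerset, ((-1 : ℚ) ^ (T \ U).card) • cl R (prj o U x) := rfl
  rw [h2, map_sum, Finset.sum_congr rfl h1, Finset.sum_comm, Finset.sum_filter]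
  refine Finset.sum_congr rfl fun T' _ => ?_
  rw [← Finset.sum_smul, incl_excl']
  split_ifs
  · rw [one_smul]
  · rw [zero_smul]

/-- `src` induces a bijection from `T'` to `T` -/
def Bij (src : ι' → Option ι) (T : Finset ι) (T' : Finset ι') : Prop :=
  (∀ j ∈ T', ∃ i ∈ T, src j = some i) ∧ ∀ i ∈ T, ∃! j, j ∈ T' ∧ src j = some i

theorem wt_srcT_le {src : ι' → Option ι} (hn : ∀ j i, src j = some i → n i = n' j)
    (T' : Finset ι') : ∑ i ∈ srcT src T', n i ≤ ∑ j ∈ T', n' j := by
  induction T' using Finset.induction_on with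
  | empty => simp [srcT]
  | insert a T' ha ih =>
    rw [Finset.sum_insert ha]
    have h1 : srcT src (insert a T') = (src a).toFinset ∪ srcT src T' := by
      unfold srcT
      rw [Finset.biUnion_insert]
    rw [h1]
    refine (Finset.sum_union_inter (f := n) (s₁ := (src a).toFinset) (s₂ := srcT src T') ▸
      Nat.le_add_right _ _).trans ?_
    refine Nat.add_le_add ?_ ih
    cases hs : src a with
    | none => simp
    | some i => simp [hn a i hs]

theorem bij_iff {src : ι' → Option ι} (hn : ∀ j i, src j = some i → n i = n' j)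
    (hpos : ∀ j, 0 < n' j) (T : Finset ι) (T' : Finset ι') :
    Bij src T T' ↔ srcT src T' = T ∧ ∑ i ∈ T, n i = ∑ j ∈ T', n' j := by
  constructor
  · rintro ⟨h1, h2⟩
    constructor
    · ext i
      rw [mem_srcT]
      constructor
      · rintro ⟨j, hj, hs⟩
        obtain ⟨i', hi', hs'⟩ := h1 j hj
        rw [hs, Option.some.injEq] at hs'
        rw [hs']
        exact hi'
      · intro hi
        obtain ⟨j, ⟨hj, hs⟩, -⟩ := h2 i hi
        exact ⟨j, hj, hs⟩
    · symm
      choose φ hφ using h1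
      refine Finset.sum_bij (fun j hj => φ j hj) (fun j hj => (hφ j hj).1) ?_ ?_ ?_
      · intro j hj j' hj' h
        obtain ⟨j₁, -, h3⟩ := h2 _ (hφ j hj).1
        rw [h3 j ⟨hj, (hφ j hj).2⟩, h3 j' ⟨hj', ?_⟩]
        rw [(hφ j' hj').2]
        exact congrArg some h.symm
      · intro i hi
        obtain ⟨j, ⟨hj, hs⟩, -⟩ := h2 i hi
        refine ⟨j, hj, ?_⟩
        have := (hφ j hj).2
        rw [hs, Option.some.injEq] at this
        exact this.symm
      · intro j hj
        exact (hn j _ (hφ j hj).2).symm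
  · rintro ⟨rfl, h⟩
    -- removing an element of `T'` with the same image would make the sum smaller
    have key : ∀ a ∈ T', srcT src (T'.erase a) ≠ srcT src T' := by
      intro a ha h1
      have h2 := wt_srcT_le hn (T'.erase a)
      rw [h1, h] at h2
      have h3 := Finset.sum_erase_add T' n' ha
      have h4 := hpos a
      omega
    have hsub : ∀ a ∈ T', srcT src (T'.erase a) ⊆ srcT src T' := fun a _ =>
      Finset.biUnion_subset_biUnion_of_subset_left _ (Finset.erase_subset a T')
    have hex : ∀ j ∈ T', ∃ i ∈ srcT src T', src j = some i := by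
      intro j hj
      cases hs : src j with
      | some i => exact ⟨i, mem_srcT.2 ⟨j, hj, hs⟩, rfl⟩
      | none =>
        exfalso
        refine key j hj (Finset.Subset.antisymm (hsub j hj) ?_)
        intro i hi
        obtain ⟨j', hj', hs'⟩ := mem_srcT.1 hi
        refine mem_srcT.2 ⟨j', Finset.mem_erase.2 ⟨?_, hj'⟩, hs'⟩
        rintro rfl
        rw [hs] at hs'
        cases hs'
    refine ⟨hex, fun i hi => ?_⟩
    obtain ⟨j, hj, hs⟩ := mem_srcT.1 hi
    refine ⟨j, ⟨hj, hs⟩, ?_⟩
    rintro j' ⟨hj', hs'⟩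
    by_contra hne
    refine key j' hj' (Finset.Subset.antisymm (hsub j' hj') ?_)
    intro i₁ hi₁
    obtain ⟨j₁, hj₁, hs₁⟩ := mem_srcT.1 hi₁
    by_cases h1 : j₁ = j'
    · subst h1
      rw [hs₁, Option.some.injEq] at hs'
      subst hs'
      exact mem_srcT.2 ⟨j, Finset.mem_erase.2 ⟨fun h2 => hne h2.symm, hj⟩, hs⟩
    · exact mem_srcT.2 ⟨j₁, Finset.mem_erase.2 ⟨h1, hj₁⟩, hs₁⟩

/-- what is used about a morphism -/
structure IsMor (On : (ι → P) → Prop) (On' : (ι' → P') → Prop) (n : ι → ℕ) (n' : ι' → ℕ)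
    (src : ι' → Option ι) (g : (ι → P) → ι' → P') : Prop where
  on : ∀ x, On x → On' (g x)
  hsrc : Src o o' On src g
  le : R ≤ R'.comap (Finsupp.lmapDomain ℚ ℚ g)
  eq : ∀ j i, src j = some i → n i = n' j

/-- condition 3 for one morphism -/
theorem push_FV {src : ι' → Option ι} {g : (ι → P) → ι' → P'}
    (hg : IsMor o o' R R' On On' n n' src g) (ν : ℕ) :
    (FV o R On n ν).map (pushQ g hg.le) ≤ FV o' R' On' n' ν := by
  rw [Submodule.map_le_iff_le_comap]
  conv_lhs => unfold FV
  rw [Submodule.span_le]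
  rintro y ⟨T, x, hx, hν, rfl⟩
  rw [SetLike.mem_coe, Submodule.mem_comap, pushQ_e o o' R R' hg.hsrc hg.le T hx]
  refine Submodule.sum_mem _ fun T' hT' => Submodule.subset_span ⟨T', g x, hg.on x hx, ?_, rfl⟩
  have h4 := wt_srcT_le hg.eq T'
  rw [(Finset.mem_filter.1 hT').2] at h4
  exact hν.trans h4

variable {M : Type*} {src : M → ι' → Option ι} {g : M → (ι → P) → ι' → P'}

private theorem supp_sum (hg : ∀ f x, On x → On' (g f x)) (γ : M →₀ ℚ) {z : (ι → P) →₀ ℚ}
    (hz : ∀ p ∈ z.support, On p) :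
    ∀ p ∈ (γ.sum fun f c => c • z.mapDomain (g f)).support, On' p := by
  classical
  intro p hp
  rw [Finsupp.sum] at hp
  obtain ⟨f, -, hf⟩ := Finset.mem_biUnion.1 (Finsupp.support_finsetSum hp)
  obtain ⟨q, hq, rfl⟩ := Finset.mem_image.1 (Finsupp.mapDomain_support (Finsupp.support_smul hf))
  exact hg f q (hz q hq)

private theorem mk_sum (hle : ∀ f, R ≤ R'.comap (Finsupp.lmapDomain ℚ ℚ (g f))) (γ : M →₀ ℚ)
    (z : (ι → P) →₀ ℚ) :
    (Submodule.Quotient.mk (γ.sum fun f c => c • z.mapDomain (g f)) : Q R') =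
      ∑ f ∈ γ.support, γ f • pushQ (g f) (hle f) (Submodule.Quotient.mk z : Q R) := by
  rw [Finsupp.sum, ← Submodule.mkQ_apply, map_sum]
  refine Finset.sum_congr rfl fun f _ => ?_
  rw [map_smul]
  rfl

/-- condition 3 -/
theorem InFil_map (hR : ∀ U : Finset ι, R ≤ R.comap (Finsupp.lmapDomain ℚ ℚ (prj o U)))
    (hR' : ∀ U : Finset ι', R' ≤ R'.comap (Finsupp.lmapDomain ℚ ℚ (prj o' U)))
    (hg : ∀ f, IsMor o o' R R' On On' n n' (src f) (g f)) (γ : M →₀ ℚ) {ν : ℕ}
    {z : (ι → P) →₀ ℚ} (hz : InFil o R On n ν z) :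
    InFil o' R' On' n' ν (γ.sum fun f c => c • z.mapDomain (g f)) := by
  rw [← mk_mem_FV o' R' hR' (supp_sum (fun f => (hg f).on) γ hz.1),
    mk_sum R R' (fun f => (hg f).le)]
  refine Submodule.sum_mem _ fun f _ => Submodule.smul_mem _ _ ?_
  exact push_FV o o' R R' (hg f) ν ⟨_, (mk_mem_FV o R hR hz.1).2 hz, rfl⟩

open Classical in
/-- condition 4 -/
theorem InFil_grad (hR : ∀ U : Finset ι, R ≤ R.comap (Finsupp.lmapDomain ℚ ℚ (prj o U)))
    (hR' : ∀ U : Finset ι', R' ≤ R'.comap (Finsupp.lmapDomain ℚ ℚ (prj o' U)))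
    (hpos : ∀ j, 0 < n' j) (hg : ∀ f, IsMor o o' R R' On On' n n' (src f) (g f)) (γ : M →₀ ℚ)
    {ν : ℕ} (hgr : ∀ (T : Finset ι) (T' : Finset ι') (x : ι → P), On x → ∑ i ∈ T, n i = ν →
      ∑ j ∈ T', n' j = ν →
      ∑ f ∈ (γ.support.filter fun f => Bij (src f) T T'), γ f • e o' R' T' (g f x) = 0)
    {z : (ι → P) →₀ ℚ} (hz : InFil o R On n ν z) :
    InFil o' R' On' n' (ν + 1) (γ.sum fun f c => c • z.mapDomain (g f)) := by
  rw [← mk_mem_FV o' R' hR' (supp_sum (fun f => (hg f).on) γ hz.1),
    mk_sum R R' (fun f => (hg f).le)]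
  have hz2 := (mk_mem_FV o R hR hz.1).2 hz
  have h2 : FV o R On n ν ≤ (FV o' R' On' n' (ν + 1)).comap
      (∑ f ∈ γ.support, γ f • pushQ (g f) (hg f).le) := by
    conv_lhs => unfold FV
    rw [Submodule.span_le]
    rintro _ ⟨T, x, hx, hν, rfl⟩
    rw [SetLike.mem_coe, Submodule.mem_comap, LinearMap.sum_apply]
    have h1 : ∑ f ∈ γ.support, (γ f • pushQ (g f) (hg f).le) (e o R T x) =
        ∑ T' : Finset ι', ∑ f ∈ γ.support.filter (fun f => srcT (src f) T' = T),
          γ f • e o' R' T' (g f x) := by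
      simp_rw [Finset.sum_filter]
      rw [Finset.sum_comm]
      refine Finset.sum_congr rfl fun f _ => ?_
      rw [LinearMap.smul_apply, pushQ_e o o' R R' (hg f).hsrc (hg f).le T hx, Finset.sum_filter,
        Finset.smul_sum]
      refine Finset.sum_congr rfl fun T' _ => ?_
      split_ifs
      · rfl
      · rw [smul_zero]
    rw [h1]
    refine Submodule.sum_mem _ fun T' _ => ?_
    rcases Nat.lt_or_ge ν (∑ j ∈ T', n' j) with hlt | hge
    · refine Submodule.sum_mem _ fun f _ => Submodule.smul_mem _ _ (Submodule.subset_span ?_)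
      exact ⟨T', g f x, (hg f).on x hx, hlt, rfl⟩
    · by_cases hex : ∃ f ∈ γ.support.filter (fun f => srcT (src f) T' = T), True
      · obtain ⟨f0, hf0, -⟩ := hex
        rw [Finset.mem_filter] at hf0
        have h2 := wt_srcT_le (hg f0).eq T'
        rw [hf0.2] at h2
        have hw : ∑ i ∈ T, n i = ν := by omega
        have hw' : ∑ j ∈ T', n' j = ν := by omega
        have h3 : γ.support.filter (fun f => srcT (src f) T' = T) =
            γ.support.filter (fun f => Bij (src f) T T') := by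
          refine Finset.filter_congr fun f _ => ?_
          rw [bij_iff (hg f).eq hpos]
          exact ⟨fun h4 => ⟨h4, hw.trans hw'.symm⟩, fun h4 => h4.1⟩
        rw [h3, hgr T T' x hx hw hw']
        exact Submodule.zero_mem _
      · refine Submodule.sum_mem _ fun f hf => ?_
        exact absurd ⟨f, hf, trivial⟩ hex
  have h3 := h2 hz2
  rw [Submodule.mem_comap, LinearMap.sum_apply] at h3
  exact h3

/-! ### conditions 1 and 2 -/

theorem InFil_anti {ν : ℕ} {z : (ι → P) →₀ ℚ} (hz : InFil o R On n (ν + 1) z) :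
    InFil o R On n ν z :=
  ⟨hz.1, fun _ hT => hz.2 _ (Nat.lt_succ_of_lt hT)⟩

theorem InFil_zero {z : (ι → P) →₀ ℚ} : InFil o R On n 0 z ↔ ∀ p ∈ z.support, On p :=
  ⟨fun hz => hz.1, fun hz => ⟨hz, fun _ hT => absurd hT (Nat.not_lt_zero _)⟩⟩

theorem InFil_one (hpos : ∀ j, 0 < n j) (hdeg : ∀ z ∈ R, (z.sum fun _ c => c) = 0)
    {z : (ι → P) →₀ ℚ} :
    InFil o R On n 1 z ↔ (∀ p ∈ z.support, On p) ∧ (z.sum fun _ c => c) = 0 := by
  constructor
  · rintro ⟨h1, h2⟩
    refine ⟨h1, ?_⟩
    have h4 := hdeg _ (h2 ∅ (by simp))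
    rwa [Finsupp.sum_mapDomain_index (fun _ => rfl) (fun _ _ _ => rfl)] at h4
  · rintro ⟨h1, h2⟩
    refine ⟨h1, fun T hT => ?_⟩
    have hT' : T = ∅ := by
      by_contra hne
      obtain ⟨j, hj⟩ := Finset.nonempty_iff_ne_empty.2 hne
      have h3 := Finset.single_le_sum (f := n) (fun _ _ => Nat.zero_le _) hj
      have h4 := hpos j
      omega
    subst hT'
    have h3 : z.mapDomain (prj o ∅) = 0 := by
      rw [Finsupp.mapDomain, Finsupp.sum]
      simp only [prj_empty]
      rw [← Finsupp.single_finsetSum]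
      have h4 : ∑ p ∈ z.support, z p = 0 := h2
      rw [h4, Finsupp.single_zero]
    rw [h3]
    exact R.zero_mem

/-- `Fil 2` -/
theorem InFil_two (hpos : ∀ j, 0 < n j) {z : (ι → P) →₀ ℚ} :
    InFil o R On n 2 z ↔ InFil o R On n 1 z ∧
      ∀ j, n j = 1 → z.mapDomain (prj o {j}) ∈ R := by
  constructor
  · intro h
    exact ⟨InFil_anti o R h, fun j hj => h.2 {j} (by simp [hj])⟩
  · rintro ⟨h1, h2⟩
    refine ⟨h1.1, fun T hT => ?_⟩
    rcases Nat.lt_or_ge (∑ j ∈ T, n j) 1 with h3 | h3
    · exact h1.2 T h3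
    · have h4 : ∑ j ∈ T, n j = 1 := by omega
      have h5 : T.card ≤ 1 := by
        rw [← h4, Finset.card_eq_sum_ones]
        exact Finset.sum_le_sum fun j _ => hpos j
      have h6 : T.Nonempty := by
        rw [Finset.nonempty_iff_ne_empty]
        rintro rfl
        simp at h4
      have h7 : T.card = 1 := le_antisymm h5 (Finset.card_pos.2 h6)
      obtain ⟨j, rfl⟩ := Finset.card_eq_one.1 h7
      rw [Finset.sum_singleton] at h4
      exact h2 j h4

/-- the last step of the filtration -/
theorem InFil_top (hR : ∀ U : Finset ι, R ≤ R.comap (Finsupp.lmapDomain ℚ ℚ (prj o U)))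
    (hon : ∀ z ∈ R, ∀ p ∈ z.support, On p) {z : (ι → P) →₀ ℚ} :
    InFil o R On n ((∑ j, n j) + 1) z ↔ z ∈ R := by
  constructor
  · intro h
    have h1 := h.2 Finset.univ (Nat.lt_succ_self _)
    have h2 : prj o (Finset.univ : Finset ι) = id := funext fun x => prj_univ o x
    rwa [h2, Finsupp.mapDomain_id] at h1
  · intro h
    exact ⟨hon z h, fun T _ => hR T h⟩

theorem InFil_of_mem (hR : ∀ U : Finset ι, R ≤ R.comap (Finsupp.lmapDomain ℚ ℚ (prj o U)))
    (hon : ∀ z ∈ R, ∀ p ∈ z.support, On p) (ν : ℕ) {z : (ι → P) →₀ ℚ} (h : z ∈ R) :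
    InFil o R On n ν z :=
  ⟨hon z h, fun T _ => hR T h⟩

end Pool.Agent.CYC.Formal
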