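import Pool.Agent.CYC.Defs
import Pool.Agent.CYC.Formal
import Pool.Agent.Dess4.Deg

/-!
# Rational equivalence: morphisms, points, degree

The base point is a fixed point of the automorphism, the morphisms map points to points, they map
cycles which are rationally equivalent to zero to such cycles, and these cycles have the degree zero.
-/

set_option autoImplicit false

noncomputable section

namespace Pool.Agent.CYC

open Pool.Agent.ZCyc Pool.Agent.Dess

variable {k : Type} [Field k]

theorem OkW.order_pos {n m a b : ℕ} {F G : MvPolynomial (Fin (n + 1)) k} {ζ : k}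
    {o : Fin (n + 1) → k} (h : OkW n m a b F G ζ o) : 2 ≤ m := by
  rcases h.order with h | h | h | h <;> omega

theorem Vr.on_o (X : Vr k) : X.On X.o := by
  cases X with
  | curve C => exact trivial
  | cover W =>
    refine ⟨W.ok.ne, ?_⟩
    have hm := W.ok.order_pos
    have h := W.ok.zero
    have e1 : ∀ P : MvPolynomial (Fin (W.n + 1)) k,
        MvPolynomial.aeval W.o P = MvPolynomial.eval W.o P := fun P => by
      rw [MvPolynomial.aeval_def, MvPolynomial.eval, Algebra.algebraMap_self]
      rfl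
    change (0 : k) ^ W.m = MvPolynomial.aeval W.o W.F * MvPolynomial.aeval W.o W.G ^ (W.m - 1)
    rw [zero_pow (by omega), e1, e1]
    rcases mul_eq_zero.1 h with h | h
    · rw [h, zero_mul]
    · rw [h, zero_pow (by omega), mul_zero]

theorem map_pow_symm {L : Type} [Field L] [Algebra k L] {σ : L ≃ₐ[k] L} {c : Place k L}
    (h : c.map σ = c) (n : ℕ) : c.map (σ ^ n).symm = c := by
  have h1 : ∀ x, x ∈ c.ring ↔ σ x ∈ c.ring := by
    intro x
    have h2 := Place.mem_map c σ (σ x)
    rw [h, AlgEquiv.symm_apply_apply] at h2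
    exact h2.symm
  have h3 : ∀ (n : ℕ) (x : L), (σ ^ n) x ∈ c.ring ↔ x ∈ c.ring := by
    intro n
    induction n with
    | zero => intro x; rfl
    | succ n ih =>
      intro x
      rw [pow_succ, AlgEquiv.mul_apply, ih, ← h1]
  apply Place.ext
  ext x
  rw [Place.mem_map, AlgEquiv.symm_symm]
  exact h3 n x

theorem Vr.act_o (n : ℕ) (X : Vr k) : X.act n X.o = X.o := by
  cases X with
  | curve C => exact map_pow_symm C.ok.fixed.choose_spec n
  | cover W =>
    change ((W.o, W.ζ ^ n * 0) : (Fin (W.n + 1) → k) × k) = (W.o, 0)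
    rw [mul_zero]

theorem Vr.act_zero (X : Vr k) (p : X.Crd) : X.act 0 p = p := by
  cases X with
  | curve C =>
    change Place.map (p : Place k C.L) (C.σ ^ 0).symm = p
    apply Place.ext
    ext x
    rw [Place.mem_map, AlgEquiv.symm_symm]
    rfl
  | cover W =>
    obtain ⟨x, w⟩ := p
    change ((x, W.ζ ^ 0 * w) : (Fin (W.n + 1) → k) × k) = (x, w)
    rw [pow_zero, one_mul]

theorem Wv.on_act (W : Wv k) {K : Type} [Field K] [Algebra k K] (n : ℕ)
    {p : (Fin (W.n + 1) → K) × K} (hp : W.On p) :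
    W.On (p.1, algebraMap k K (W.ζ ^ n) * p.2) := by
  refine ⟨hp.1, ?_⟩
  change (algebraMap k K (W.ζ ^ n) * p.2) ^ W.m = _
  rw [mul_pow, ← map_pow, ← pow_mul, mul_comm n, pow_mul, W.ok.prim.pow_eq_one, one_pow, map_one,
    one_mul]
  exact hp.2

theorem Vr.on_act (X : Vr k) (n : ℕ) {p : X.Crd} (hp : X.On p) : X.On (X.act n p) := by
  cases X with
  | curve C => exact trivial
  | cover W => exact W.on_act n hp

variable {m m' : ℕ} {X : Fin m → Vr k} {Y : Fin m' → Vr k}

theorem Mor.onP (f : Mor X Y) {x : Pts m k} (hx : OnP X x) : OnP Y (Mor.app f x) := by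
  intro j
  unfold Mor.app
  cases hf : f j with
  | const p hp => exact ⟨rfl, hp⟩
  | fac i h n => exact ⟨(hx i).1.trans h, Vr.on_act _ n (hx i).2⟩

/-- the coordinates of the value of a component -/
def Comp.crd {Z : Vr k} (f : Comp X Z) (p : ∀ i, (X i).Crd) : Z.Crd :=
  match f with
  | .const q _ => q
  | .fac i h n => h ▸ (X i).act n (p i)

theorem Comp.app_crd {Z : Vr k} (f : Comp X Z) (p : ∀ i, (X i).Crd) :
    f.app (fun i => ⟨X i, p i⟩) = ⟨Z, f.crd p⟩ := by
  cases f with
  | const q hq => rfl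
  | fac i h n =>
    cases h
    rfl

section

variable (K : Type) [Field K] [Algebra k K]

/-- a constant morphism -/
def Vr.constF : (X : Vr k) → X.Crd → X.CrdF K
  | .curve _, c => Sum.inr c
  | .cover _, p => (fun i => algebraMap k K (p.1 i), algebraMap k K p.2)

/-- the composition with a power of the automorphism -/
def Vr.actF (n : ℕ) : (X : Vr k) → X.CrdF K → X.CrdF K
  | .curve C, P => Sum.map (fun τ : C.L →ₐ[k] K => τ.comp ((C.σ ^ n : C.L ≃ₐ[k] C.L) : C.L →ₐ[k] C.L))
      (fun c : Place k C.L => Place.map c (C.σ ^ n).symm) P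
  | .cover W, P => (P.1, algebraMap k K (W.ζ ^ n) * P.2)

/-- the composition with a component -/
def Comp.crdF {Z : Vr k} (f : Comp X Z) (P : ∀ i, (X i).CrdF K) : Z.CrdF K :=
  match f with
  | .const q _ => Z.constF K q
  | .fac i h n => h ▸ (X i).actF K n (P i)

variable {K}

theorem Vr.onF_const (Z : Vr k) {q : Z.Crd} (hq : Z.On q) : Z.OnF (Z.constF K q) := by
  cases Z with
  | curve C => exact trivial
  | cover W =>
    obtain ⟨h1, h2⟩ := hq
    refine ⟨?_, ?_⟩
    · intro h3
      apply h1
      funext i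
      have h4 : algebraMap k K (q.1 i) = 0 := congrFun h3 i
      exact (map_eq_zero_iff _ (algebraMap k K).injective).1 h4
    · change (algebraMap k K q.2) ^ W.m = MvPolynomial.aeval (fun i => algebraMap k K (q.1 i)) W.F *
        MvPolynomial.aeval (fun i => algebraMap k K (q.1 i)) W.G ^ (W.m - 1)
      have e1 : ∀ P : MvPolynomial (Fin (W.n + 1)) k,
          MvPolynomial.aeval (fun i => algebraMap k K (q.1 i)) P =
            algebraMap k K (MvPolynomial.aeval q.1 P) := fun P => by
        rw [← MvPolynomial.aeval_algebraMap_apply]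
        rfl
      rw [e1, e1, ← map_pow, ← map_pow, ← map_mul, h2]

theorem Vr.isVal_const (Z : Vr k) (q : Z.Crd) (v : Place k K) : Z.IsVal v (Z.constF K q) q := by
  cases Z with
  | curve C => exact (rfl : q = q)
  | cover W =>
    refine ⟨1, fun i => ?_, ?_⟩
    · change v.At (1 * algebraMap k K (q.1 i)) (q.1 i)
      rw [one_mul]
      exact Place.at_const _
    · change v.At (1 ^ W.e * algebraMap k K q.2) q.2
      rw [one_pow, one_mul]
      exact Place.at_const _

theorem Vr.onF_act (n : ℕ) (Z : Vr k) {P : Z.CrdF K} (hP : Z.OnF P) : Z.OnF (Z.actF K n P) := by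
  cases Z with
  | curve C => exact trivial
  | cover W => exact W.on_act n hP

theorem Vr.isVal_act (n : ℕ) (Z : Vr k) {P : Z.CrdF K} {v : Place k K} {p : Z.Crd}
    (h : Z.IsVal v P p) : Z.IsVal v (Z.actF K n P) (Z.act n p) := by
  cases Z with
  | curve C =>
    rcases P with τ | c
    · have h1 : (p : Place k C.L).ring = v.ring.comap (τ : C.L →+* K) := h
      change (Place.map (p : Place k C.L) (C.σ ^ n).symm).ring =
        v.ring.comap ((τ.comp ((C.σ ^ n : C.L ≃ₐ[k] C.L) : C.L →ₐ[k] C.L) : C.L →ₐ[k] K) : C.L →+* K)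
      ext x
      rw [Place.mem_map, AlgEquiv.symm_symm, h1, ValuationSubring.mem_comap,
        ValuationSubring.mem_comap]
      rfl
    · have h1 : c = (p : Place k C.L) := h
      subst h1
      exact (rfl : Place.map c (C.σ ^ n).symm = Place.map c (C.σ ^ n).symm)
  | cover W =>
    obtain ⟨l, h1, h2⟩ := h
    refine ⟨l, h1, ?_⟩
    change v.At (l ^ W.e * (algebraMap k K (W.ζ ^ n) * P.2)) (W.ζ ^ n * p.2)
    rw [mul_left_comm]
    exact (Place.at_const _).mul h2

theorem Comp.onF {Z : Vr k} (f : Comp X Z) {P : ∀ i, (X i).CrdF K} (hP : ∀ i, (X i).OnF (P i)) :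
    Z.OnF (f.crdF K P) := by
  cases f with
  | const q hq => exact Z.onF_const hq
  | fac i h n =>
    cases h
    exact Vr.onF_act n _ (hP i)

theorem Comp.isVal {Z : Vr k} (f : Comp X Z) {P : ∀ i, (X i).CrdF K} {v : Place k K}
    {p : ∀ i, (X i).Crd} (hp : ∀ i, (X i).IsVal v (P i) (p i)) :
    Z.IsVal v (f.crdF K P) (f.crd p) := by
  cases f with
  | const q hq => exact Z.isVal_const q v
  | fac i h n =>
    cases h
    exact Vr.isVal_act n _ (hp i)

end

theorem Comp.on {Z : Vr k} (f : Comp X Z) {p : ∀ i, (X i).Crd} (hp : ∀ i, (X i).On (p i)) :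
    Z.On (f.crd p) := by
  cases f with
  | const q hq => exact hq
  | fac i h n =>
    cases h
    exact Vr.on_act _ n (hp i)

theorem ratEq_le (f : Mor X Y) :
    ratEq X ≤ (ratEq Y).comap (Finsupp.lmapDomain ℚ ℚ (Mor.app f)) := by
  unfold ratEq
  rw [Submodule.span_le]
  rintro z ⟨K, i1, i2, hK, P, p, g, D, hg, hD, hP, hp, rfl⟩
  refine Submodule.subset_span ⟨K, i1, i2, hK, fun j => (f j).crdF K P, fun v j => (f j).crd (p v),
    g, D, hg, hD, fun j => (f j).onF hP, fun v j => ⟨(f j).on fun i => (hp v i).1,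
      (f j).isVal fun i => (hp v i).2⟩, ?_⟩
  rw [Finsupp.sum, map_sum, Finsupp.sum]
  refine Finset.sum_congr rfl fun v _ => ?_
  rw [Finsupp.lmapDomain_apply, Finsupp.mapDomain_single]
  congr 1
  funext j
  exact (f j).app_crd (p v)

theorem ratEq_on {z : Pts m k →₀ ℚ} (hz : z ∈ ratEq X) : ∀ p ∈ z.support, OnP X p := by
  classical
  unfold ratEq at hz
  induction hz using Submodule.span_induction with
  | mem z hz =>
    obtain ⟨K, i1, i2, hK, P, p, g, D, hg, hD, hP, hp, rfl⟩ := hz
    intro q hq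
    obtain ⟨v, _, hv⟩ := Finset.mem_biUnion.1 (Finsupp.support_sum hq)
    have h1 := Finsupp.support_single_subset hv
    rw [Finset.mem_singleton] at h1
    subst h1
    exact fun i => ⟨rfl, (hp v i).1⟩
  | zero => simp
  | add z w _ _ h1 h2 =>
    intro q hq
    rcases Finset.mem_union.1 (Finsupp.support_add hq) with h | h
    · exact h1 q h
    · exact h2 q h
  | smul c z _ h1 => exact fun q hq => h1 q (Finsupp.support_smul hq)

theorem ratEq_deg [IsAlgClosed k] [CharZero k] {z : Pts m k →₀ ℚ} (hz : z ∈ ratEq X) :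
    (z.sum fun _ c => c) = 0 := by
  classical
  unfold ratEq at hz
  induction hz using Submodule.span_induction with
  | mem z hz =>
    obtain ⟨K, i1, i2, hK, P, p, g, D, hg, hD, hP, hp, rfl⟩ := hz
    have h1 := Dess4.degree_zero hK hg D.support D (fun v _ => hD v) (fun v hv => by
      have h2 := hD v
      rwa [Finsupp.notMem_support_iff.1 hv] at h2)
    rw [Finsupp.sum_sum_index (fun _ => rfl) (fun _ _ _ => rfl)]
    have h3 : ∀ v ∈ D.support, ((Finsupp.single (fun i => (⟨X i, p v i⟩ : Pt k)) (D v : ℚ)).sum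
        fun _ c => c) = (D v : ℚ) := fun v _ => Finsupp.sum_single_index rfl
    rw [Finsupp.sum, Finset.sum_congr rfl h3]
    exact_mod_cast h1
  | zero => simp
  | add z w _ _ h1 h2 =>
    rw [Finsupp.sum_add_index' (fun _ => rfl) (fun _ _ _ => rfl), h1, h2, add_zero]
  | smul c z _ h1 =>
    rw [Finsupp.sum_smul_index' (fun _ => rfl)]
    change (z.sum fun _ a => c * a) = 0
    rw [← Finsupp.mul_sum, h1, mul_zero]

end Pool.Agent.CYC
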