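import Pool.Agent.CYC.Gen
import Pool.Agent.CYC.CoreDef
import Pool.Agent.CYC.Inst

/-!
# The blocks as spaces
-/

set_option autoImplicit false

noncomputable section

namespace Pool.Agent.CYC

open Pool.Agent.ZCyc Pool.Agent.Dess Pool.Agent.TInc
open scoped Classical

variable {k : Type} [Field k]

/-- the order of the automorphism -/
def Vr.ord : Vr k → ℕ
  | .curve C => orderOf C.σ
  | .cover W => W.m

/-- The space of the points of the power `X ^ a`; for a covering only `a = 1` is used. -/
def Spc.bl (a : ℕ) : Vr k → Spc k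
  | .curve C => Spc.cv k C.L a
  | .cover W => Spc.wv k W.n W.m W.e (W.F * W.G ^ (W.m - 1))

/-- the points as tuples -/
def toT (a : ℕ) : (X : Vr k) → (Spc.bl a X).pt → Fin a → X.Crd
  | .curve _, P => P
  | .cover _, p => fun _ => p.1

/-- the points over `F` as tuples -/
def toTF (F : Type) [Field F] [Algebra k F] (a : ℕ) :
    (X : Vr k) → (Spc.bl a X).Pt F → Fin a → X.CrdF F
  | .curve _, P => P
  | .cover _, p => fun _ => p.1

theorem on_toT {a : ℕ} (X : Vr k) (z : (Spc.bl a X).pt) (j : Fin a) : X.On (toT a X z j) := by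
  cases X with
  | curve C => exact trivial
  | cover W =>
    obtain ⟨p, hp, h⟩ := z
    rw [map_mul, map_pow] at h
    exact ⟨hp, h⟩

theorem onF_toTF {a : ℕ} {F : Type} [Field F] [Algebra k F] (X : Vr k) (P : (Spc.bl a X).Pt F)
    (j : Fin a) : X.OnF (toTF F a X P j) := by
  cases X with
  | curve C => exact trivial
  | cover W =>
    obtain ⟨p, hp, h⟩ := P
    rw [map_mul, map_pow] at h
    exact ⟨hp, h⟩

theorem isVal_toT {a : ℕ} {F : Type} [Field F] [Algebra k F] (X : Vr k) {v : Place k F}
    {P : (Spc.bl a X).Pt F} {p : (Spc.bl a X).pt} (h : (Spc.bl a X).Val v P p) (j : Fin a) :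
    X.IsVal v (toTF F a X P j) (toT a X p j) := by
  cases X with
  | curve C => exact h j
  | cover W => exact h

/-- PROOF. For a covering the dimension is `≥ 2`, so `a = 1`, and the tuple is constant. -/
theorem exists_toT {a : ℕ} (ha : 0 < a) {X : Vr k} (hd : 1 < a → X.dim = 1) {x : Fin a → X.Crd}
    (hx : ∀ j, X.On (x j)) : ∃ z : (Spc.bl a X).pt, toT a X z = x := by
  cases X with
  | curve C => exact ⟨x, rfl⟩
  | cover W =>
    have h2 := W.ok.dim
    have ha1 : a = 1 := by
      by_contra h
      have h3 : W.n = 1 := hd (by omega)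
      omega
    subst ha1
    have h0 : W.On (x 0) := hx 0
    refine ⟨⟨x 0, h0.1, ?_⟩, funext fun j => ?_⟩
    · rw [map_mul, map_pow]
      exact h0.2
    · rw [Subsingleton.elim j 0]
      rfl

/-- The conditions for the functions on one block. -/
structure BlS (X : Vr k) (a : ℕ) (t : k) {B V : Type} [AddCommGroup V] [Module k V]
    (Φ : (Spc.bl a X).pt → B → V) : Prop where
  eig : ∀ (z z' : (Spc.bl a X).pt) (j : Fin a),
    toT a X z' = Function.update (toT a X z) j (X.act 1 (toT a X z j)) → ∀ y, Φ z' y = t • Φ z y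
  base : ∀ (z : (Spc.bl a X).pt) (j : Fin a), toT a X z j = X.o → ∀ y, Φ z y = 0
  sym : ∀ (z z' : (Spc.bl a X).pt) (σ : Equiv.Perm (Fin a)),
    (∀ j, toT a X z' j = toT a X z (σ j)) → ∀ y, Φ z' y = Φ z y

/-- the conditions carry over -/
theorem BlS.of_or {X : Vr k} {a : ℕ} {t : k} {A B V : Type} [AddCommGroup V] [Module k V]
    {Φ : (Spc.bl a X).pt → B → V} (h : BlS X a t Φ) {g : A → (Spc.bl a X).pt → V}
    (hg : ∀ x, (∀ z, g x z = 0) ∨ ∃ b, ∀ z, g x z = Φ z b) : BlS X a t fun z x => g x z := by
  refine ⟨fun z z' j hz x => ?_, fun z j hz x => ?_, fun z z' σ hz x => ?_⟩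
  · change g x z' = t • g x z
    rcases hg x with h0 | ⟨b, hb⟩
    · rw [h0, h0, smul_zero]
    · rw [hb, hb]
      exact h.eig z z' j hz b
  · change g x z = 0
    rcases hg x with h0 | ⟨b, hb⟩
    · exact h0 z
    · rw [hb]
      exact h.base z j hz b
  · change g x z' = g x z
    rcases hg x with h0 | ⟨b, hb⟩
    · rw [h0, h0]
    · rw [hb, hb]
      exact h.sym z z' σ hz b

variable {b : ℕ} {X : Fin b → Vr k} {a : Fin b → ℕ} {t : Fin b → k}
  {f : (∀ β, Fin (a β) → (X β).Crd) → k}

/-- one block of points replaced -/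
def upd (x : ∀ β, Fin (a β) → (X β).Crd) (β : Fin b) (z : (Spc.bl (a β) (X β)).pt) :
    ∀ β, Fin (a β) → (X β).Crd :=
  Function.update x β (toT (a β) (X β) z)

theorem upd_on {x : ∀ β, Fin (a β) → (X β).Crd} (hx : OnB X x) (β : Fin b)
    (z : (Spc.bl (a β) (X β)).pt) : OnB X (upd x β z) := by
  intro β' j
  unfold upd
  by_cases h : β' = β
  · subst h
    rw [Function.update_self]
    exact on_toT _ z j
  · rw [Function.update_of_ne h]
    exact hx β' j

/-- PROOF. The relation `h.cf` for the point with the components `toTF P` in the block `β` and the constants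
`Vr.constF (x β' j)` in the other blocks (`Vr.onF_const`, `Vr.isVal_const`), with the values
`upd x β (p v)`. -/
theorem ClsB.cf_one (h : ClsB X a t f) {x : ∀ β, Fin (a β) → (X β).Crd} (hx : OnB X x)
    (β : Fin b) : CF (Y := Spc.bl (a β) (X β)) fun z => f (upd x β z) := by
  intro F _ _ hF P p φ D hφ hD hp
  have h1 := h.cf F hF (Function.update (fun β' j => (X β').constF F (x β' j)) β
    (toTF F (a β) (X β) P)) (fun v => upd x β (p v)) φ D hφ hD (fun β' j => ?_)
    fun v β' j => ⟨upd_on hx β (p v) β' j, ?_⟩
  · simpa only [zsmul_eq_mul] using h1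
  · by_cases h2 : β' = β
    · subst h2
      rw [Function.update_self]
      exact onF_toTF _ P j
    · rw [Function.update_of_ne h2]
      exact Vr.onF_const _ (hx β' j)
  · unfold upd
    by_cases h2 : β' = β
    · subst h2
      rw [Function.update_self, Function.update_self]
      exact isVal_toT _ (hp v) j
    · rw [Function.update_of_ne h2, Function.update_of_ne h2]
      exact Vr.isVal_const _ _ v

/-- PROOF. As `cf_one`. -/
theorem ClsB.cf_two (h : ClsB X a t f) {x : ∀ β, Fin (a β) → (X β).Crd} (hx : OnB X x)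
    {β β' : Fin b} (hne : β ≠ β') :
    CF (Y := (Spc.bl (a β) (X β)).prod (Spc.bl (a β') (X β')))
      fun p => f (upd (upd x β p.1) β' p.2) := by
  intro F _ _ hF P p φ D hφ hD hp
  have h1 := h.cf F hF (Function.update (Function.update
    (fun β'' j => (X β'').constF F (x β'' j)) β (toTF F (a β) (X β) P.1)) β'
    (toTF F (a β') (X β') P.2)) (fun v => upd (upd x β (p v).1) β' (p v).2) φ D hφ hD
    (fun β'' j => ?_) fun v β'' j => ⟨upd_on (upd_on hx β (p v).1) β' (p v).2 β'' j, ?_⟩
  · simpa only [zsmul_eq_mul] using h1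
  · by_cases h2 : β'' = β'
    · subst h2
      rw [Function.update_self]
      exact onF_toTF _ P.2 j
    · rw [Function.update_of_ne h2]
      by_cases h3 : β'' = β
      · subst h3
        rw [Function.update_self]
        exact onF_toTF _ P.1 j
      · rw [Function.update_of_ne h3]
        exact Vr.onF_const _ (hx β'' j)
  · unfold upd
    by_cases h2 : β'' = β'
    · subst h2
      rw [Function.update_self, Function.update_self]
      exact isVal_toT _ (hp v).2 j
    · rw [Function.update_of_ne h2, Function.update_of_ne h2]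
      by_cases h3 : β'' = β
      · subst h3
        rw [Function.update_self, Function.update_self]
        exact isVal_toT _ (hp v).1 j
      · rw [Function.update_of_ne h3, Function.update_of_ne h3]
        exact Vr.isVal_const _ _ v

/-- PROOF. `ClsB.eig`, `ClsB.base`, `ClsB.sym` at the point `upd (x y) β z`; for `sym` take the identity in
the other blocks. -/
theorem ClsB.blS (h : ClsB X a t f) {B : Type} {x : B → ∀ β, Fin (a β) → (X β).Crd}
    (hx : ∀ y, OnB X (x y)) (β : Fin b) : BlS (X β) (a β) (t β) fun z y => f (upd (x y) β z) := by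
  have hself : ∀ y z, upd (x y) β z β = toT (a β) (X β) z := fun y z => by
    unfold upd
    rw [Function.update_self]
  refine ⟨fun z z' j hz y => ?_, fun z j hz y => ?_, fun z z' σ hz y => ?_⟩
  · change f (upd (x y) β z') = t β * f (upd (x y) β z)
    rw [← h.eig _ (upd_on (hx y) β z) β j]
    congr 1
    unfold actB
    rw [hself]
    unfold upd
    rw [Function.update_idem, hz]
  · refine h.base _ (upd_on (hx y) β z) β j ?_
    rw [hself]
    exact hz
  · change f (upd (x y) β z') = f (upd (x y) β z)
    rw [← h.sym _ (upd_on (hx y) β z) (Function.update (fun _ => 1) β σ)]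
    congr 1
    funext β' j
    by_cases h2 : β' = β
    · subst h2
      rw [hself, hself, Function.update_self]
      exact hz j
    · unfold upd
      rw [Function.update_of_ne h2, Function.update_of_ne h2, Function.update_of_ne h2]
      rfl

theorem upd_comm {x : ∀ β, Fin (a β) → (X β).Crd} {β β' : Fin b} (hne : β ≠ β')
    (z : (Spc.bl (a β) (X β)).pt) (z' : (Spc.bl (a β') (X β')).pt) :
    upd (upd x β z) β' z' = upd (upd x β' z') β z := by
  unfold upd
  exact Function.update_comm hne _ _ _

/-- PROOF. `exists_toT` for `x β`; `Function.update_eq_self`. -/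
theorem exists_upd {x : ∀ β, Fin (a β) → (X β).Crd} (hx : OnB X x) (β : Fin b) (ha : 0 < a β)
    (hd : 1 < a β → (X β).dim = 1) : ∃ z, upd x β z = x := by
  obtain ⟨z, hz⟩ := exists_toT ha hd (hx β)
  refine ⟨z, ?_⟩
  unfold upd
  rw [hz, Function.update_eq_self]

end Pool.Agent.CYC
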