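import Pool.Agent.TInc.Ord

/-!
# Spaces, their points over function fields, and class functions

A space is given by its points over `k`, its points over the extensions of `k`, and the values of the
latter at the places. A class function is a function on the points over `k` which is compatible with the
rational equivalence of zero-cycles.
-/

set_option autoImplicit false

noncomputable section

namespace Pool.Agent.CYC

open Pool.Agent.ZCyc Pool.Agent.Dess Pool.Agent.TInc

variable {k : Type} [Field k]

/-- A space. -/
structure Spc (k : Type) [Field k] : Type 1 where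
  /-- the points over `k` -/
  pt : Type
  /-- the points over `F` -/
  Pt : (F : Type) → [Field F] → [Algebra k F] → Type
  /-- the point `P` over `F` has the value `p` at the place -/
  Val : {F : Type} → [Field F] → [Algebra k F] → Place k F → Pt F → pt → Prop
  /-- extension of fields -/
  map : {F F' : Type} → [Field F] → [Algebra k F] → [Field F'] → [Algebra k F'] →
    (F →ₐ[k] F') → Pt F → Pt F'
  /-- constant points -/
  cst : {F : Type} → [Field F] → [Algebra k F] → pt → Pt F
  val_map : ∀ {F F' : Type} [Field F] [Algebra k F] [Field F'] [Algebra k F'] (ι : F →ₐ[k] F')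
    (V : Place k F') (v : Place k F), V.ring.comap (ι : F →+* F') = v.ring → ∀ (P : Pt F) (p : pt),
    Val v P p → Val V (map ι P) p
  val_cst : ∀ {F : Type} [Field F] [Algebra k F] (v : Place k F) (p : pt), Val v (cst p) p

/-- `f` is a class function: the sum over the divisor of a function `φ ≠ 0` on a curve, with values at a
morphism `P` from the curve to the space, is zero. -/
def CF {Y : Spc k} {V : Type*} [AddCommGroup V] (f : Y.pt → V) : Prop :=
  ∀ (F : Type) [Field F] [Algebra k F], IsCurve k F → ∀ (P : Y.Pt F) (p : Place k F → Y.pt) (φ : F)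
    (D : Place k F →₀ ℤ), φ ≠ 0 → (∀ v, HasOrd v φ (D v)) → (∀ v, Y.Val v P (p v)) →
    D.sum (fun v n => n • f (p v)) = 0

/-- the product of two spaces -/
def Spc.prod (A B : Spc k) : Spc k where
  pt := A.pt × B.pt
  Pt F _ _ := A.Pt F × B.Pt F
  Val v P p := A.Val v P.1 p.1 ∧ B.Val v P.2 p.2
  map ι P := (A.map ι P.1, B.map ι P.2)
  cst p := (A.cst p.1, B.cst p.2)
  val_map ι V v h P p hP := ⟨A.val_map ι V v h _ _ hP.1, B.val_map ι V v h _ _ hP.2⟩
  val_cst v p := ⟨A.val_cst v _, B.val_cst v _⟩

/-- The point `p` of the curve with function field `L` is the value of the point `S` over `F`: an embedding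
of `L` in `F` or a constant. -/
def IsV {L F : Type} [Field L] [Algebra k L] [Field F] [Algebra k F] (v : Place k F)
    (S : (L →ₐ[k] F) ⊕ Place k L) (p : Place k L) : Prop :=
  Sum.elim (fun τ : L →ₐ[k] F => p.ring = v.ring.comap (τ : L →+* F)) (fun c => c = p) S

/-- the power `C ^ a` of the curve with function field `L` -/
def Spc.cv (k : Type) [Field k] (L : Type) [Field L] [Algebra k L] (a : ℕ) : Spc k where
  pt := Fin a → Place k L
  Pt F _ _ := Fin a → (L →ₐ[k] F) ⊕ Place k L
  Val v P p := ∀ j, IsV v (P j) (p j)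
  map ι P j := (P j).map (fun τ => ι.comp τ) id
  cst p j := Sum.inr (p j)
  val_map := by
    intro F F' _ _ _ _ ι V v h P p hP j
    have h1 := hP j
    change IsV V (Sum.map (fun τ => ι.comp τ) id (P j)) (p j)
    unfold IsV at h1 ⊢
    generalize P j = S at h1 ⊢
    rcases S with τ | c
    · change (p j).ring = V.ring.comap ((ι.comp τ : L →ₐ[k] F') : L →+* F')
      change (p j).ring = v.ring.comap (τ : L →+* F) at h1
      rw [h1, ← h]
      rfl
    · exact h1
  val_cst _ _ _ := rfl

/-- The covering `w ^ m = f(x)` of the projective space of dimension `n`, `w` has the degree `e`: the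
homogeneous coordinates of its points. -/
def Spc.wv (k : Type) [Field k] (n m e : ℕ) (f : MvPolynomial (Fin (n + 1)) k) : Spc k where
  pt := {x : (Fin (n + 1) → k) × k // x.1 ≠ 0 ∧ x.2 ^ m = MvPolynomial.aeval x.1 f}
  Pt F _ _ := {x : (Fin (n + 1) → F) × F // x.1 ≠ 0 ∧ x.2 ^ m = MvPolynomial.aeval x.1 f}
  Val v P p := ∃ l, (∀ i, v.At (l * P.1.1 i) (p.1.1 i)) ∧ v.At (l ^ e * P.1.2) p.1.2
  map ι P := ⟨(fun i => ι (P.1.1 i), ι P.1.2), by
    refine ⟨fun h => P.2.1 ?_, ?_⟩
    · funext i
      have h1 := congrFun h i
      exact (map_eq_zero ι).1 h1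
    · rw [← map_pow, P.2.2]
      exact MvPolynomial.comp_aeval_apply P.1.1 ι f⟩
  cst p := ⟨(fun i => algebraMap k _ (p.1.1 i), algebraMap k _ p.1.2), by
    refine ⟨fun h => p.2.1 ?_, ?_⟩
    · funext i
      have h1 := congrFun h i
      exact (map_eq_zero (algebraMap k _)).1 h1
    · rw [← map_pow, p.2.2]
      exact (MvPolynomial.aeval_algebraMap_apply _ _ _).symm⟩
  val_map := by
    intro F F' _ _ _ _ ι V v h P p hP
    have key : ∀ (x : F) (c : k), v.At x c → V.At (ι x) c := by
      intro x c hx
      unfold Place.At at hx ⊢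
      rw [Place.vanishes_iff_or] at hx ⊢
      have e1 : ι x - algebraMap k F' c = ι (x - algebraMap k F c) := by
        rw [map_sub, ι.commutes]
      rcases hx with hx | hx
      · left
        rw [e1, hx, map_zero]
      · right
        rw [e1, ← map_inv₀]
        intro h1
        apply hx
        rw [← h]
        exact ValuationSubring.mem_comap.2 h1
    obtain ⟨l, h1, h2⟩ := hP
    refine ⟨ι l, fun i => ?_, ?_⟩
    · have h3 := key _ _ (h1 i)
      rwa [map_mul] at h3
    · have h3 := key _ _ h2
      rwa [map_mul, map_pow] at h3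
  val_cst := by
    intro F _ _ v p
    refine ⟨1, fun i => ?_, ?_⟩
    · rw [one_mul]
      exact Place.at_const _
    · rw [one_pow, one_mul]
      exact Place.at_const _

/-- the homogeneous coordinates `(x, ξ w)`, `ξ ^ m = 1` -/
def tw {n m e : ℕ} {f : MvPolynomial (Fin (n + 1)) k} (ξ : k) (hξ : ξ ^ m = 1)
    (p : (Spc.wv k n m e f).pt) : (Spc.wv k n m e f).pt :=
  ⟨(p.1.1, ξ * p.1.2), p.2.1, by
    change (ξ * p.1.2) ^ m = _
    rw [mul_pow, hξ, one_mul]
    exact p.2.2⟩

end Pool.Agent.CYC
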