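import Pool.Agent.CYC.Rdn
import Pool.Agent.CYU.Main
import Pool.Agent.CYS.Main

/-!
# The pair lemma for the reductions of two blocks
-/

set_option autoImplicit false

noncomputable section

namespace Pool.Agent.CYC

open Pool.Agent.ZCyc Pool.Agent.Dess Pool.Agent.TInc
open scoped Classical

variable {k : Type} [Field k]

theorem tw_pow {n m e : ℕ} {f : MvPolynomial (Fin (n + 1)) k} {V : Type} [AddCommGroup V]
    [Module k V] {t ξ : k} (ht : t ^ m = 1) {g : (Spc.wv k n m e f).pt → V}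
    (h : ∀ x, g (tw t ht x) = ξ • g x) (j : ℕ) :
    ∀ (hj : (t ^ j) ^ m = 1) (x : (Spc.wv k n m e f).pt), g (tw (t ^ j) hj x) = ξ ^ j • g x := by
  induction j with
  | zero =>
    intro hj x
    rw [pow_zero ξ, one_smul]
    congr 1
    apply Subtype.ext
    refine Prod.ext rfl ?_
    change t ^ 0 * x.1.2 = x.1.2
    rw [pow_zero, one_mul]
  | succ j ih =>
    intro hj x
    have hj' : (t ^ j) ^ m = 1 := by rw [← pow_mul, mul_comm, pow_mul, ht, one_pow]
    have e1 : tw (t ^ (j + 1)) hj x = tw t ht (tw (t ^ j) hj' x) := by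
      apply Subtype.ext
      refine Prod.ext rfl ?_
      change t ^ (j + 1) * x.1.2 = t * (t ^ j * x.1.2)
      rw [pow_succ]
      ring
    rw [e1, h, ih hj' x, smul_smul, pow_succ, mul_comm]

variable [IsAlgClosed k] [CharZero k]

/-- both versions of the pair lemma -/
theorem bi_zero {m m' : ℕ} (h : (m = 4 ∧ m' = 4) ∨ ((m = 3 ∨ m = 6) ∧ (m' = 3 ∨ m' = 6)))
    {W : CYU.Cov k m} {W' : CYU.Cov k m'} {V : Type} [AddCommGroup V] [Module k V]
    (G : CYU.Bi (rootsOfUnity m k).subtype (rootsOfUnity m' k).subtype W W' V)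
    (hn : W.e ≤ W.n) (hn' : W'.e ≤ W'.n) (z : CYU.Pt W k) (z' : CYU.Pt W' k) : G.F z z' = 0 := by
  have hinj : ∀ m : ℕ, Function.Injective (rootsOfUnity m k).subtype := fun m =>
    Subgroup.subtype_injective _
  rcases h with ⟨rfl, rfl⟩ | ⟨rfl | rfl, h⟩
  · exact G.main (Or.inr rfl) (hinj _) hn hn' z z'
  · rcases h with rfl | rfl
    · exact G.main (Or.inl rfl) (hinj _) hn hn' z z'
    · refine CYS.main6 G.flip (Or.inl rfl) ?_ ?_ ?_ hn' hn z' z
      · intro a b hab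
        exact hinj _ (inv_injective hab)
      · intro a b hab
        exact hinj _ (inv_injective hab)
      · intro a a' haa
        change (a : kˣ)⁻¹ = (a' : kˣ)⁻¹
        rw [haa]
  · rcases h with rfl | rfl
    · exact CYS.main6 G (Or.inl rfl) (hinj _) (hinj _) (fun a a' haa => haa) hn hn' z z'
    · exact CYS.main6 G (Or.inr rfl) (hinj _) (hinj _) (fun a a' haa => haa) hn hn' z z'

/-- points of the covering -/
def ofPt {m : ℕ} {W : CYU.Cov k m} {K : Type} [Field K] [Algebra k K] (P : CYU.Pt W K) :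
    (Spc.wv k W.n m W.e W.f).Pt K := ⟨(P.x, P.w), P.ne, P.on⟩

/-- points of the covering over `k` -/
def ofPt0 {m : ℕ} {W : CYU.Cov k m} (P : CYU.Pt W k) : (Spc.wv k W.n m W.e W.f).pt :=
  ⟨(P.x, P.w), P.ne, P.on⟩

/-- points of the covering over `k` -/
def toPt0 {n m e : ℕ} {f : MvPolynomial (Fin (n + 1)) k} (hf : f.IsHomogeneous (m * e))
    (he : 0 < e) (x : (Spc.wv k n m e f).pt) : CYU.Pt (⟨n, e, f, hf, he⟩ : CYU.Cov k m) k where
  x := x.1.1
  w := x.1.2
  ne := x.2.1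
  on := x.2.2

theorem tw_mem {n m e : ℕ} {f : MvPolynomial (Fin (n + 1)) k} {V : Type} [AddCommGroup V]
    [Module k V] {t ξ : k} (hm : 0 < m) (ht : IsPrimitiveRoot t m)
    {g : (Spc.wv k n m e f).pt → V} (h : ∀ x, g (tw t ht.pow_eq_one x) = ξ • g x) {a : k}
    (ha : a ^ m = 1) : ∃ j : ℕ, a = t ^ j ∧
      ∀ x : (Spc.wv k n m e f).pt, g (tw a ha x) = ξ ^ j • g x := by
  haveI : NeZero m := ⟨hm.ne'⟩
  obtain ⟨j, -, hj⟩ := ht.eq_pow_of_pow_eq_one ha
  subst hj
  exact ⟨j, rfl, fun x => tw_pow ht.pow_eq_one h j ha x⟩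

/-- **The pair lemma** for two reductions. -/
theorem Rds.pair {B : Type} {Y : Spc k} {V : Type} [AddCommGroup V] [Module k V]
    {Φ : B → Y.pt → V} {b : B} {t : k} (r : Rds Φ b t t) {b' : Y.pt} {t' : k}
    (r' : Rds (Y := Spc.wv k r.n r.m r.e r.f) (fun (z : Y.pt) x => r.g x z) b' t' t'⁻¹)
    (h : (r.m = 4 ∧ r'.m = 4) ∨ ((r.m = 3 ∨ r.m = 6) ∧ (r'.m = 3 ∨ r'.m = 6)))
    (x : (Spc.wv k r.n r.m r.e r.f).pt) : r.g x b' = 0 := by
  have hm : 0 < r.m := lt_of_lt_of_le (by norm_num) r.two_le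
  have hm' : 0 < r'.m := lt_of_lt_of_le (by norm_num) r'.two_le
  let W : CYU.Cov k r.m := ⟨r.n, r.e, r.f, r.hom, r.pos⟩
  let W' : CYU.Cov k r'.m := ⟨r'.n, r'.e, r'.f, r'.hom, r'.pos⟩
  let G : CYU.Bi (rootsOfUnity r.m k).subtype (rootsOfUnity r'.m k).subtype W W' V :=
    { F := fun p p' => r'.g (ofPt0 p') (ofPt0 p)
      rel := fun K _ _ hK P P' p p' hp hp' g hg =>
        r'.cf K hK (ofPt P', ofPt P) (fun v => (ofPt0 (p' v), ofPt0 (p v))) g (dv hK g) hg
          (fun v => ord_hasOrd hK v hg) (fun v => ⟨hp' v, hp v⟩)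
      eq1 := by
        intro a p p'
        have ha : (((a : kˣ) : k)) ^ r.m = 1 := by
          have h1 := CYU.mu_pow k a
          rwa [CYU.mu] at h1
        change r'.g (ofPt0 p') (CYC.tw ((a : kˣ) : k) ha (ofPt0 p)) =
          ((a : kˣ) : k) • r'.g (ofPt0 p') (ofPt0 p)
        rcases r'.or (ofPt0 p') with h1 | ⟨z, h1⟩
        · rw [h1, h1, smul_zero]
        · rw [h1, h1]
          obtain ⟨j, hj, h2⟩ := tw_mem hm r.prim (g := fun x => r.g x z)
            (fun x => r.tw x z) ha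
          rw [h2, hj]
      eq2 := by
        intro a p p'
        have ha : (((a : kˣ) : k)) ^ r'.m = 1 := by
          have h1 := CYU.mu_pow k a
          rwa [CYU.mu] at h1
        change r'.g (CYC.tw ((a : kˣ) : k) ha (ofPt0 p')) (ofPt0 p) =
          (((a⁻¹ : CYU.Mu k r'.m) : kˣ) : k) • r'.g (ofPt0 p') (ofPt0 p)
        obtain ⟨j, hj, h2⟩ := tw_mem hm' r'.prim (g := fun x => r'.g x (ofPt0 p))
          (fun x => r'.tw x (ofPt0 p)) ha
        rw [h2]
        congr 1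
        rw [InvMemClass.coe_inv, Units.val_inv_eq_inv_val, hj, inv_pow] }
  refine r'.base (fun x' y => ?_) x
  exact bi_zero h G r.le r'.le (toPt0 r.hom r.pos y) (toPt0 r'.hom r'.pos x')

end Pool.Agent.CYC
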