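import Pool.Agent.CYC.Dex

/-!
# The numbers in the reduction and the formula of Chevalley and Weil
-/

set_option autoImplicit false

noncomputable section

namespace Pool.Agent.CYC

open Pool.Agent.ZCyc Pool.Agent.Dess Pool.Agent.TInc
open Pool.Agent.WFC (below stb)
open scoped Classical

variable {k L : Type} [Field k] [IsAlgClosed k] [CharZero k] [Field L] [Algebra k L]
  {σ : L ≃ₐ[k] L} [Finite (Subgroup.zpowers σ)]

omit [IsAlgClosed k] [CharZero k] [Finite (Subgroup.zpowers σ)] in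
private theorem dim_at {c : Place k L} (hc : c.map σ = c) {f : L} {b : k} (h : c.At f b) :
    c.At (σ f) b := by
  have h1 := (WFC.at_map_iff c σ f b).2 h
  rwa [hc] at h1

omit [IsAlgClosed k] [CharZero k] in
private theorem dim_zpow {c : Place k L} {f : L} {b : k} (h : c.At f b) (hb : b ≠ 0) (n : ℤ) :
    c.At (f ^ n) (b ^ n) := by
  obtain ⟨l, rfl | rfl⟩ := Int.eq_nat_or_neg n
  · rw [zpow_natCast, zpow_natCast]
    exact h.pow l
  · rw [zpow_neg, zpow_neg, zpow_natCast, zpow_natCast]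
    exact (h.pow l).inv (pow_ne_zero l hb)

private theorem dim_unit (hL : IsCurve k L) {c : Place k L} {f : L} (hf : f ≠ 0)
    (h : ord c f = 0) : ∃ b : k, b ≠ 0 ∧ c.At f b := by
  obtain ⟨h1, h2⟩ := (ord_eq_zero_iff hL hf).1 h
  refine ⟨val c f, ?_, at_val hL h1⟩
  intro h0
  have h3 := at_val hL h1
  rw [h0, Place.at_zero_iff, Place.vanishes_iff_or] at h3
  rcases h3 with h3 | h3
  · exact hf h3
  · exact h3 h2

private theorem dim_unif (hL : IsCurve k L) (c : Place k L) : IsUnif c (EFC.unif c) :=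
  EFC.unif_spec hL c

omit [Finite (Subgroup.zpowers σ)] in
private theorem dim_ord {c : Place k L} (hL : IsCurve k L) (hc : c.map σ = c) (f : L) :
    ord c (σ f) = ord c f := by
  have h1 := WFC.ord_map hL c σ f
  rwa [hc] at h1

omit [Finite (Subgroup.zpowers σ)] in
private theorem dim_rot (hL : IsCurve k L) {c : Place k L} (hc : c.map σ = c) :
    rot σ c ≠ 0 ∧ c.At (σ (EFC.unif c) / EFC.unif c) (rot σ c) := by
  have hπ := dim_unif hL c
  have h0 : σ (EFC.unif c) ≠ 0 := (map_ne_zero σ).2 hπ.1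
  have h1 : ord c (σ (EFC.unif c) / EFC.unif c) = 0 := by
    rw [div_eq_mul_inv, ord_mul hL c h0 (inv_ne_zero hπ.1), ord_inv hL, dim_ord hL hc]
    ring
  obtain ⟨b, hb, h2⟩ := dim_unit hL (div_ne_zero h0 hπ.1) h1
  have h3 : rot σ c = b := val_eq h2
  rw [h3]
  exact ⟨hb, h2⟩

/-- At a fixed point `c` a function `y` with `σ y = λ y` has `rot c ^ ord_c y = λ`. PROOF. `y = π ^
s u`, `π = EFC.unif c` (a uniformizer), `u` a unit at `c`; `σ y / y = (σ π / π) ^ s (σ u / u)`.
Since `c.map σ = c`, the function `σ π` is a uniformizer, `σ π / π` is a unit, and `σ u` has the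
same value as `u` at `c`. (`EFC.val` and `TInc.val` are both characterized by `Place.At`.) -/
theorem rot_pow (hL : IsCurve k L) {c : Place k L} (hc : c.map σ = c) {y : L} (hy : y ≠ 0)
    {lam : k} (h : σ y = algebraMap k L lam * y) : rot σ c ^ ord c y = lam := by
  have hπ := dim_unif hL c
  obtain ⟨hr, hr1⟩ := dim_rot hL hc
  set p := EFC.unif c with hp
  set s := ord c y with hs
  have hps : p ^ s ≠ 0 := zpow_ne_zero s hπ.1
  have hu : ord c (y / p ^ s) = 0 := by
    rw [div_eq_mul_inv, ord_mul hL c hy (inv_ne_zero hps), ord_inv hL, ord_zpow hL,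
      ord_unif hL hπ]
    ring
  obtain ⟨b, hb, h1⟩ := dim_unit hL (div_ne_zero hy hps) hu
  have h2 := dim_at hc h1
  have h3 := h2.mul (h1.inv hb)
  have h4 : c.At (algebraMap k L lam * ((σ p / p) ^ s)⁻¹) (lam * (rot σ c ^ s)⁻¹) :=
    (Place.at_const lam).mul ((dim_zpow hr1 hr s).inv (zpow_ne_zero s hr))
  have h5 : σ (y / p ^ s) * (y / p ^ s)⁻¹ = algebraMap k L lam * ((σ p / p) ^ s)⁻¹ := by
    have hσp : σ p ≠ 0 := (map_ne_zero σ).2 hπ.1
    have hσs : σ p ^ s ≠ 0 := zpow_ne_zero s hσp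
    rw [map_div₀, map_zpow₀, h, div_zpow]
    field_simp
  rw [h5] at h3
  have h6 := h3.unique h4
  have hrs : rot σ c ^ s ≠ 0 := zpow_ne_zero s hr
  rw [mul_inv_cancel₀ hb] at h6
  field_simp at h6
  exact h6

/-- The rotation number at a fixed point is a primitive root of unity of order `orderOf σ`. PROOF.
Let `N = orderOf σ`, `r = rot c`. `σ ^ i π / π` has the value `r ^ i` at `c`, so `r ^ N = 1`. Let `r
^ i = 1`, `τ = σ ^ i`, and assume `τ ≠ 1`; let `M > 1` be the order of `τ`. `∑ j < M, τ ^ j π` has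
the form `M π + ` (terms of order `≥ 2`), so it has order `1` at `c` (characteristic zero). It is
invariant under `τ`, so by `WFC.ord_below` for the group generated by `τ`, whose stabilizer of `c`
has the order `M`, its order is divisible by `M`: a contradiction. So `r ^ i = 1` implies `σ ^ i =
1`, `N ∣ i`. -/
theorem rot_prim (hL : IsCurve k L) (hpos : 0 < orderOf σ) {c : Place k L} (hc : c.map σ = c) :
    IsPrimitiveRoot (rot σ c) (orderOf σ) := by
  have hπ := dim_unif hL c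
  obtain ⟨hr, hr1⟩ := dim_rot hL hc
  have hN : NeZero (orderOf σ) := ⟨hpos.ne'⟩
  have hN' : NeZero ((orderOf σ : ℕ) : k) := ⟨by exact_mod_cast hpos.ne'⟩
  obtain ⟨z, hz⟩ := HasEnoughRootsOfUnity.exists_primitiveRoot k (orderOf σ)
  obtain ⟨y, hy, h1⟩ := exists_y (σ := σ) hpos hz.pow_eq_one
  have h2 := rot_pow hL hc hy h1
  refine ⟨?_, fun i hi => hz.dvd_of_pow_eq_one i ?_⟩
  · have h3 : ∀ i : ℕ, c.At ((σ ^ i) (EFC.unif c) / EFC.unif c) (rot σ c ^ i) := by
      intro i
      induction i with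
      | zero =>
        rw [pow_zero, pow_zero]
        change c.At (EFC.unif c / EFC.unif c) 1
        rw [div_self hπ.1]
        have h4 := Place.at_const (v := c) (1 : k)
        rwa [map_one] at h4
      | succ i ih =>
        have h4 := (dim_at hc ih).mul hr1
        have h5 : σ ((σ ^ i) (EFC.unif c) / EFC.unif c) * (σ (EFC.unif c) / EFC.unif c) =
            (σ ^ (i + 1)) (EFC.unif c) / EFC.unif c := by
          have h6 : (σ ^ (i + 1)) (EFC.unif c) = σ ((σ ^ i) (EFC.unif c)) := by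
            rw [pow_succ']
            rfl
          have h7 : σ (EFC.unif c) ≠ 0 := (map_ne_zero σ).2 hπ.1
          rw [h6, map_div₀]
          field_simp
        rw [h5] at h4
        rw [pow_succ (rot σ c) i]
        exact h4
    have h4 := h3 (orderOf σ)
    rw [pow_orderOf_eq_one] at h4
    change c.At (EFC.unif c / EFC.unif c) _ at h4
    rw [div_self hπ.1] at h4
    have h5 := Place.at_const (v := c) (1 : k)
    rw [map_one] at h5
    exact h4.unique h5
  · rw [← h2, ← zpow_natCast, ← zpow_mul, mul_comm, zpow_mul, zpow_natCast, hi, one_zpow]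

variable {a n : ℕ}

omit [IsAlgClosed k] [CharZero k] [Finite (Subgroup.zpowers σ)] in
private theorem dim_all {c : Place k L} (hc : c.map σ = c) (i : ℕ) : c.map (σ ^ i) = c := by
  induction i with
  | zero => exact WFC.pmap_one c
  | succ i ih =>
    rw [pow_succ', ← WFC.pmap_mul, ih, hc]

omit [IsAlgClosed k] [CharZero k] in
private theorem dim_grp {g : L ≃ₐ[k] L} (hg : g ∈ Subgroup.zpowers σ) : ∃ i : ℕ, σ ^ i = g := by
  have h1 : IsOfFinOrder σ := finite_zpowers.1 (Set.toFinite _)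
  exact (IsOfFinOrder.mem_powers_iff_mem_zpowers h1).2 hg

omit [IsAlgClosed k] [CharZero k] in
private theorem dim_stb {c : Place k L} (hc : c.map σ = c) :
    stb (Subgroup.zpowers σ) c = orderOf σ := by
  rw [← Nat.card_zpowers]
  unfold stb
  refine Nat.card_congr ⟨fun g => g.1, fun g => ⟨g, ?_⟩, fun g => rfl, fun g => rfl⟩
  obtain ⟨i, hi⟩ := dim_grp g.2
  rw [← hi]
  exact dim_all hc i

omit [IsAlgClosed k] [CharZero k] [Finite (Subgroup.zpowers σ)] in
private theorem dim_back {c : Place k L} (h : actP σ 1 c = c) : c.map σ = c := by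
  conv_lhs => rw [← h]
  unfold actP
  rw [pow_one]
  change (c.map (σ⁻¹ : L ≃ₐ[k] L)).map σ = c
  rw [WFC.pmap_mul, mul_inv_cancel]
  exact WFC.pmap_one c

omit [IsAlgClosed k] [CharZero k] [Finite (Subgroup.zpowers σ)] in
private theorem dim_act {c : Place k L} (hc : c.map σ = c) (i : ℕ) : actP σ i c = c := by
  unfold actP
  conv_lhs => rw [← dim_all hc i]
  change (c.map (σ ^ i)).map ((σ ^ i)⁻¹ : L ≃ₐ[k] L) = c
  rw [WFC.pmap_mul, inv_mul_cancel]
  exact WFC.pmap_one c

/-- For a fixed point `c` the number `x = N μ / m`, `N = orderOf σ`, `μ` the number `μ` of the image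
of `c`, is an integer with `0 < x < N` and `rot c ^ x = λ`, if `λ ≠ 1`. PROOF. `stb c = N` (all
powers of `σ` fix `c`), so by `Dat.Ok.ord_yb` for `b = 1`: `m s = N (m A + μ)`, `s = ord_c y`. `rot
c ^ s = λ ≠ 1`, so `N` does not divide `s` (`rot_prim`), hence `μ ≠ 0`. `m (s - N A) = N μ`, `x = s
- N A`, `0 < N μ < N m`, so `0 < x < N`, and `rot c ^ x = rot c ^ s = λ`. -/
theorem Dat.Ok.exists_x {D : Dat σ a n} (h : D.Ok) (hσ : OkC σ) (hlam : D.lam ≠ 1)
    {c : Place k L} (hc : c.map σ = c) :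
    ∃ x : ℕ, 0 < x ∧ x < orderOf σ ∧ D.m * x = orderOf σ *
      D.mu (below (Subgroup.zpowers σ) c) ∧ rot σ c ^ x = D.lam := by
  have hL := h.curve
  have hN := hσ.pos
  have hr := rot_prim hL hN hc
  have hr0 : rot σ c ≠ 0 := (dim_rot hL hc).1
  have h1 := h.ord_yb c (one_ne_zero (α := KK σ))
  have h2 : ord (below (Subgroup.zpowers σ) c) (1 : KK σ) = 0 := by
    have h3 := ord_const h.curveK (below (Subgroup.zpowers σ) c) (1 : k)
    rwa [map_one] at h3
  have h3 : D.y * ((1 : KK σ) : L) = D.y := mul_one D.y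
  rw [h2, h3, dim_stb hc, add_zero] at h1
  have h4 := rot_pow hL hc h.ne h.eig
  have h5 := (h.ord_h (below (Subgroup.zpowers σ) c)).2
  set s := ord c D.y with hs
  set A := D.A (below (Subgroup.zpowers σ) c) with hA
  set μ := D.mu (below (Subgroup.zpowers σ) c) with hμ
  have hm : (0 : ℤ) < D.m := by exact_mod_cast h.pos
  have hN' : (0 : ℤ) < orderOf σ := by exact_mod_cast hN
  have h6 : (D.m : ℤ) * (s - orderOf σ * A) = orderOf σ * μ := by
    rw [mul_sub, h1]
    ring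
  have h7 : rot σ c ^ (s - orderOf σ * A) = D.lam := by
    rw [zpow_sub₀ hr0, zpow_mul, zpow_natCast, hr.pow_eq_one, one_zpow, div_one, h4]
  have h8 : μ ≠ 0 := by
    intro h0
    rw [h0, Nat.cast_zero, mul_zero] at h6
    have h9 := (mul_eq_zero.1 h6).resolve_left hm.ne'
    rw [h9, zpow_zero] at h7
    exact hlam h7.symm
  have h9 : (0 : ℤ) < μ := by exact_mod_cast Nat.pos_of_ne_zero h8
  have h10 : (μ : ℤ) < D.m := by exact_mod_cast h5
  have h11 : 0 < s - orderOf σ * A := by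
    by_contra hcon
    nlinarith [mul_pos hN' h9]
  have h12 : s - orderOf σ * A < orderOf σ := by
    by_contra hcon
    nlinarith
  obtain ⟨x, hx⟩ := Int.eq_ofNat_of_zero_le h11.le
  rw [hx] at h6 h7 h11 h12
  refine ⟨x, by exact_mod_cast h11, by exact_mod_cast h12, by exact_mod_cast h6, ?_⟩
  rwa [zpow_natCast] at h7

/-- PROOF. `Dat.Ok.fixed`: points over `q` with `μ(q) ≠ 0` are fixed points; `exists_x`: fixed
points have `μ ≠ 0`; a fixed point is the only point over its image (`exists_actP`). So the fixed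
points correspond to the elements of `Br`. -/
theorem Dat.Ok.card_Br {D : Dat σ a n} (h : D.Ok) (hσ : OkC σ) (hlam : D.lam ≠ 1)
    (S : Finset (Place k L)) (hS : ∀ c, c ∈ S ↔ c.map σ = c) (g : ℕ → ℕ) :
    ∑ c ∈ S, g (D.mu (below (Subgroup.zpowers σ) c)) = ∑ q ∈ D.Br, g (D.mu q) := by
  refine Finset.sum_bij (fun c _ => below (Subgroup.zpowers σ) c) (fun c hc => ?_)
    (fun c hc c' hc' hcc => ?_) (fun q hq => ?_) (fun c _ => rfl)
  · rw [h.mem_Br]
    obtain ⟨x, hx, -, h1, -⟩ := h.exists_x hσ hlam ((hS c).1 hc)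
    intro h0
    rw [h0, mul_zero] at h1
    have h2 := Nat.mul_pos h.pos hx
    omega
  · obtain ⟨i, hi⟩ := exists_actP h.curve hcc
    rw [hi, dim_act ((hS c).1 hc)]
  · rw [h.mem_Br] at hq
    obtain ⟨c, rfl⟩ := WFC.exists_above_fix (Subgroup.zpowers σ) q
    exact ⟨c, (hS c).2 (dim_back (h.fixed hq)), rfl⟩

private theorem dim_ne {D : Dat σ a n} (h : D.Ok) (hlam : D.lam ≠ 1) : σ ≠ 1 := by
  intro h0
  have h1 := h.eig
  have h2 : σ D.y = D.y := DFunLike.congr_fun h0 D.y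
  rw [h2] at h1
  apply hlam
  apply (algebraMap k L).injective
  rw [map_one]
  refine mul_right_cancel₀ h.ne ?_
  rw [one_mul]
  exact h1.symm

omit [IsAlgClosed k] [CharZero k] [Finite (Subgroup.zpowers σ)] in
private theorem dim_fixN {S : Finset (Place k L)} (hS : ∀ c, c ∈ S ↔ c.map σ = c) (x : ℕ)
    (t : k) : fixN σ x t = ∑ c ∈ S, if rot σ c ^ x = t then 1 else 0 := by
  rw [← Finset.card_filter]
  unfold fixN
  rw [← Nat.card_eq_finsetCard]
  refine Nat.card_congr (Equiv.subtypeEquivRight fun c => ?_)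
  rw [Finset.mem_filter, hS]

omit [IsAlgClosed k] [CharZero k] [Finite (Subgroup.zpowers σ)] in
private theorem dim_sum {S : Finset (Place k L)} (hS : ∀ c, c ∈ S ↔ c.map σ = c) (t : k) :
    ∑ x ∈ Finset.Ico 1 (orderOf σ), (orderOf σ - x) * fixN σ x t =
      ∑ c ∈ S, ∑ x ∈ Finset.Ico 1 (orderOf σ),
        if rot σ c ^ x = t then orderOf σ - x else 0 := by
  rw [Finset.sum_comm]
  refine Finset.sum_congr rfl fun x _ => ?_
  rw [dim_fixN hS, Finset.mul_sum]
  refine Finset.sum_congr rfl fun c _ => ?_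
  rw [mul_ite, mul_one, mul_zero]

omit [IsAlgClosed k] [CharZero k] in
private theorem dim_one {r t : k} {N x : ℕ} (hr : IsPrimitiveRoot r N) (hx : 0 < x)
    (hxN : x < N) (h : r ^ x = t) :
    ∑ z ∈ Finset.Ico 1 N, (if r ^ z = t then N - z else 0) = N - x := by
  rw [Finset.sum_eq_single x]
  · rw [if_pos h]
  · intro z hz hzx
    rw [Finset.mem_Ico] at hz
    rw [if_neg]
    intro h1
    exact hzx (hr.pow_inj hz.2 hxN (h1.trans h.symm))
  · intro h1
    exact absurd (Finset.mem_Ico.2 ⟨hx, hxN⟩) h1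

private theorem dim_pow {D : Dat σ a n} (h : D.Ok) (hσ : OkC σ) (hlam : D.lam ≠ 1) :
    D.lam ^ orderOf σ = 1 := by
  obtain ⟨c, hc⟩ := hσ.fixed
  obtain ⟨x, -, -, -, h1⟩ := h.exists_x hσ hlam hc
  rw [← h1, ← pow_mul, mul_comm, pow_mul, (rot_prim h.curve hσ.pos hc).pow_eq_one, one_pow]

/-- `N e = ∑ (N - x) #{c fixed | rot c ^ x = λ⁻¹}`. PROOF. The right side is the sum over the fixed
points `c` of the sum of the `N - x` over all `0 < x < N` with `rot c ^ x = λ⁻¹`; for the number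
`x_c` of `exists_x` there is only `x = N - x_c` (`rot_prim`), so it is `∑ x_c = ∑ N μ / m = N e`
(`card_Br`, `sum_mu`). -/
theorem Dat.Ok.cw1 {D : Dat σ a n} (h : D.Ok) (hσ : OkC σ) (hlam : D.lam ≠ 1) :
    ∑ x ∈ Finset.Ico 1 (orderOf σ), (orderOf σ - x) * fixN σ x D.lam⁻¹ = orderOf σ * D.e := by
  have hfin := finite_fixed h.curve (dim_ne h hlam)
  have hS : ∀ c, c ∈ hfin.toFinset ↔ c.map σ = c := fun c => by
    rw [Set.Finite.mem_toFinset]
    rfl
  rw [dim_sum hS]
  apply Nat.eq_of_mul_eq_mul_left h.pos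
  rw [Finset.mul_sum]
  have key : ∀ c ∈ hfin.toFinset, D.m * (∑ x ∈ Finset.Ico 1 (orderOf σ),
      if rot σ c ^ x = D.lam⁻¹ then orderOf σ - x else 0) =
      orderOf σ * D.mu (below (Subgroup.zpowers σ) c) := by
    intro c hc
    rw [hS] at hc
    obtain ⟨x, hx, hxN, h1, h2⟩ := h.exists_x hσ hlam hc
    have hr := rot_prim h.curve hσ.pos hc
    have h3 : rot σ c ^ (orderOf σ - x) = D.lam⁻¹ := by
      rw [← h2]
      apply eq_inv_of_mul_eq_one_left
      rw [← pow_add, Nat.sub_add_cancel hxN.le, hr.pow_eq_one]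
    rw [dim_one hr (Nat.sub_pos_of_lt hxN) (Nat.sub_lt hσ.pos hx) h3, ← h1,
      Nat.sub_sub_self hxN.le]
  rw [Finset.sum_congr rfl key, ← Finset.mul_sum, h.card_Br hσ hlam _ hS fun x => x, h.sum_mu]
  ring

/-- PROOF. Here `x = x_c` for every fixed point, and the sum is `∑ (N - x_c) = N #Br - N e`. -/
theorem Dat.Ok.cw2 {D : Dat σ a n} (h : D.Ok) (hσ : OkC σ) (hlam : D.lam ≠ 1) :
    (∑ x ∈ Finset.Ico 1 (orderOf σ), (orderOf σ - x) * fixN σ x D.lam) + orderOf σ * D.e =
      orderOf σ * D.Br.card := by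
  have hfin := finite_fixed h.curve (dim_ne h hlam)
  have hS : ∀ c, c ∈ hfin.toFinset ↔ c.map σ = c := fun c => by
    rw [Set.Finite.mem_toFinset]
    rfl
  rw [dim_sum hS]
  apply Nat.eq_of_mul_eq_mul_left h.pos
  have key : ∀ c ∈ hfin.toFinset, D.m * (∑ x ∈ Finset.Ico 1 (orderOf σ),
      if rot σ c ^ x = D.lam then orderOf σ - x else 0) +
      orderOf σ * D.mu (below (Subgroup.zpowers σ) c) = D.m * orderOf σ := by
    intro c hc
    rw [hS] at hc
    obtain ⟨x, hx, hxN, h1, h2⟩ := h.exists_x hσ hlam hc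
    have hr := rot_prim h.curve hσ.pos hc
    rw [dim_one hr hx hxN h2, ← h1, ← mul_add, Nat.sub_add_cancel hxN.le]
  have h1 := Finset.sum_congr rfl key
  rw [Finset.sum_add_distrib, ← Finset.mul_sum, ← Finset.mul_sum,
    h.card_Br hσ hlam _ hS fun x => x, h.sum_mu] at h1
  have h2 := h.card_Br hσ hlam _ hS fun _ => D.m * orderOf σ
  rw [h2, Finset.sum_const, smul_eq_mul] at h1
  rw [mul_add]
  calc _ = _ := by
        congr 1
        ring
    _ = _ := h1
    _ = _ := by ring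

/-- All `μ(q) ≠ 0` are `1` or `m - 1`. PROOF. `m ∈ {2, 3, 4, 6}` (`λ ≠ 1` and `λ ^ N = 1`, `N =
orderOf σ`, so `m` divides `N`). Let `c` be a point over `q`, a fixed point, `m x = N μ`, `rot c ^ x
= λ` (`exists_x`); `rot c ^ (N / m)` is a primitive `m`-th root of unity and `λ` is its `μ`-th
power, so `μ` is coprime to `m`. -/
theorem Dat.Ok.mu_or {D : Dat σ a n} (h : D.Ok) (hσ : OkC σ) (hlam : D.lam ≠ 1)
    {q : Place k (KK σ)} (hq : D.mu q ≠ 0) : D.mu q = 1 ∨ D.mu q = D.m - 1 := by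
  obtain ⟨c, rfl⟩ := WFC.exists_above_fix (Subgroup.zpowers σ) q
  have hc := dim_back (h.fixed hq)
  obtain ⟨x, hx, hxN, h1, h2⟩ := h.exists_x hσ hlam hc
  have hr := rot_prim h.curve hσ.pos hc
  have h3 := (h.ord_h (below (Subgroup.zpowers σ) c)).2
  set μ := D.mu (below (Subgroup.zpowers σ) c) with hμ
  have h4 : D.m ∣ orderOf σ := h.prim.dvd_of_pow_eq_one _ (dim_pow h hσ hlam)
  obtain ⟨d, hd⟩ := h4
  have hN := hσ.pos
  have hd0 : 0 < d := by
    rcases Nat.eq_zero_or_pos d with h5 | h5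
    · rw [h5, mul_zero] at hd
      omega
    · exact h5
  have h5 : x = d * μ := by
    apply Nat.eq_of_mul_eq_mul_left h.pos
    rw [h1, hd]
    ring
  have h6 : Nat.Coprime D.m μ := by
    have h7 : D.lam ^ (D.m / Nat.gcd D.m μ) = 1 := by
      rw [← h2, h5, ← pow_mul]
      have h8 : d * μ * (D.m / Nat.gcd D.m μ) = orderOf σ * (μ / Nat.gcd D.m μ) := by
        obtain ⟨u, hu⟩ := Nat.gcd_dvd_left D.m μ
        obtain ⟨v, hv⟩ := Nat.gcd_dvd_right D.m μ
        have hg : 0 < Nat.gcd D.m μ := Nat.gcd_pos_of_pos_left _ h.pos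
        have e1 : D.m / Nat.gcd D.m μ = u := Nat.div_eq_of_eq_mul_right hg hu
        have e2 : μ / Nat.gcd D.m μ = v := Nat.div_eq_of_eq_mul_right hg hv
        rw [e1, e2, hd]
        calc d * μ * u = d * (Nat.gcd D.m μ * v) * u := by rw [← hv]
          _ = (Nat.gcd D.m μ * u) * d * v := by ring
          _ = D.m * d * v := by rw [← hu]
      rw [h8, pow_mul, hr.pow_eq_one, one_pow]
    have h8 := h.prim.dvd_of_pow_eq_one _ h7
    have hg : 0 < Nat.gcd D.m μ := Nat.gcd_pos_of_pos_left _ h.pos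
    have h9 : 0 < D.m / Nat.gcd D.m μ :=
      Nat.div_pos (Nat.gcd_le_left _ h.pos) hg
    have h10 := Nat.le_of_dvd h9 h8
    by_contra hcon
    have h11 : 1 < Nat.gcd D.m μ := by
      have : Nat.gcd D.m μ ≠ 1 := hcon
      omega
    have h12 := Nat.div_lt_self h.pos h11
    omega
  have hm1 : D.m ≠ 1 := fun h0 => hlam (by
    have h7 := h.prim.pow_eq_one
    rwa [h0, pow_one] at h7)
  have hm : D.m = 2 ∨ D.m = 3 ∨ D.m = 4 ∨ D.m = 6 := by
    have h7 : D.m ≤ orderOf σ := Nat.le_of_dvd hN ⟨d, hd⟩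
    have h8 : D.m ∣ orderOf σ := ⟨d, hd⟩
    have h9 := h.pos
    rcases hσ.order with h10 | h10 | h10 | h10 | h10 <;> rw [h10] at h7 h8 <;>
      generalize D.m = m at * <;> interval_cases m <;> omega
  have hμ0 : 0 < μ := Nat.pos_of_ne_zero hq
  rcases hm with h7 | h7 | h7 | h7 <;> rw [h7] at h3 h6 ⊢ <;> clear_value μ <;>
    interval_cases μ <;> revert h6 <;> decide

/-- The form `f = F G ^ (m - 1)`. PROOF. `F` is the product of the `lf q` with `μ(q) = 1`, `G` the
product of the others. `e > 0` because there is a fixed point. -/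
theorem Dat.Ok.split {D : Dat σ a n} (h : D.Ok) (hσ : OkC σ) (hlam : D.lam ≠ 1) :
    ∃ (F G : MvPolynomial (Fin (n + 1)) k) (α β : ℕ), F.IsHomogeneous α ∧ G.IsHomogeneous β ∧
      D.f = F * G ^ (D.m - 1) ∧ α + (D.m - 1) * β = D.m * D.e ∧ α + β = D.Br.card ∧ 2 ≤ D.m ∧
      0 < D.e ∧ D.e < D.Br.card := by
  have hm1 : D.m ≠ 1 := fun h0 => hlam (by
    have h7 := h.prim.pow_eq_one
    rwa [h0, pow_one] at h7)
  have hm := h.pos
  obtain ⟨c, hc⟩ := hσ.fixed
  obtain ⟨x, hx, hxN, h1, h2⟩ := h.exists_x hσ hlam hc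
  have hq : D.mu (below (Subgroup.zpowers σ) c) ≠ 0 := by
    intro h0
    rw [h0, mul_zero] at h1
    have h3 := Nat.mul_pos hm hx
    omega
  have hq' := (h.mem_Br _).2 hq
  have h3 : 0 < ∑ q ∈ D.Br, D.mu q :=
    Finset.sum_pos' (fun _ _ => Nat.zero_le _) ⟨_, hq', Nat.pos_of_ne_zero hq⟩
  have h4 : ∑ q ∈ D.Br, D.mu q < ∑ _q ∈ D.Br, D.m :=
    Finset.sum_lt_sum_of_nonempty ⟨_, hq'⟩ fun q _ => (h.ord_h q).2
  rw [h.sum_mu] at h3 h4
  rw [Finset.sum_const, smul_eq_mul, mul_comm D.Br.card] at h4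
  have h5 : ∀ q, (D.lf q).IsHomogeneous 1 := by
    intro q
    refine MvPolynomial.IsHomogeneous.sum _ _ _ fun i _ => ?_
    have h6 := (MvPolynomial.isHomogeneous_C (Fin (n + 1)) (val q (D.φ i))).mul
      (MvPolynomial.isHomogeneous_X k i)
    rwa [zero_add] at h6
  have h6 : ∀ T : Finset (Place k (KK σ)), (∏ q ∈ T, D.lf q).IsHomogeneous T.card := by
    intro T
    have h7 := MvPolynomial.IsHomogeneous.prod T D.lf (fun _ => 1) fun q _ => h5 q
    rwa [Finset.sum_const, smul_eq_mul, mul_one] at h7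
  refine ⟨∏ q ∈ D.Br with D.mu q = 1, D.lf q, ∏ q ∈ D.Br with ¬ D.mu q = 1, D.lf q,
    _, _, h6 _, h6 _, ?_, ?_, ?_, by omega, Nat.pos_of_mul_pos_left h3,
    lt_of_mul_lt_mul_left h4 (Nat.zero_le _)⟩
  · unfold Dat.f
    rw [← Finset.prod_filter_mul_prod_filter_not D.Br fun q => D.mu q = 1, ← Finset.prod_pow]
    congr 1
    · refine Finset.prod_congr rfl fun q hq => ?_
      rw [(Finset.mem_filter.1 hq).2, pow_one]
    · refine Finset.prod_congr rfl fun q hq => ?_
      obtain ⟨h7, h8⟩ := Finset.mem_filter.1 hq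
      rw [(h.mu_or hσ hlam ((h.mem_Br q).1 h7)).resolve_left h8]
  · rw [← h.sum_mu, ← Finset.sum_filter_add_sum_filter_not D.Br fun q => D.mu q = 1]
    congr 1
    · rw [Finset.card_eq_sum_ones]
      exact Finset.sum_congr rfl fun q hq => (Finset.mem_filter.1 hq).2.symm
    · rw [Finset.card_eq_sum_ones, Finset.mul_sum]
      refine Finset.sum_congr rfl fun q hq => ?_
      obtain ⟨h7, h8⟩ := Finset.mem_filter.1 hq
      rw [(h.mu_or hσ hlam ((h.mem_Br q).1 h7)).resolve_left h8, mul_one]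
  · exact Finset.card_filter_add_card_filter_not _

/-- The numbers. PROOF. `cw1`, `cw2` and the definition of `Cv.InD` (`λ⁻¹ ≠ 1`, `λ⁻¹ ^ N = 1`). -/
theorem Dat.Ok.small {C : Cv k} [Finite (Subgroup.zpowers C.σ)] {D : Dat C.σ a n} (h : D.Ok)
    (hlam : D.lam ≠ 1) (ha : 0 < a) :
    (¬ C.InD D.lam⁻¹ (a - 1) → D.e + genusQ C.σ ≤ a) ∧
      (¬ C.InD D.lam (a - 1) → D.Br.card + genusQ C.σ ≤ a + D.e) := by
  have hN := C.ok.pos
  have h1 := dim_pow h C.ok hlam
  have h2 := h.cw1 C.ok hlam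
  have h3 := h.cw2 C.ok hlam
  have ha' : a - 1 + 2 = a + 1 := by omega
  constructor
  · intro h4
    by_contra h5
    apply h4
    refine ⟨by rw [inv_pow, h1, inv_one], fun h6 => absurd (inv_eq_one.1 h6) hlam, fun _ => ?_⟩
    rw [h2, ha', ← mul_add]
    exact Nat.mul_le_mul_left _ (by omega)
  · intro h4
    by_contra h5
    apply h4
    refine ⟨h1, fun h6 => absurd h6 hlam, fun _ => ?_⟩
    rw [ha']
    have h6 : orderOf C.σ * (a + 1 + D.e) ≤ orderOf C.σ * (D.Br.card + genusQ C.σ) :=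
      Nat.mul_le_mul_left _ (by omega)
    rw [mul_add, mul_add _ D.Br.card, ← h3] at h6
    omega

end Pool.Agent.CYC
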