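import Pool.Agent.CYC.Cls
import Pool.Agent.TInc.Riem

/-!
# Finite extensions of function fields: orders
-/

set_option autoImplicit false

noncomputable section

namespace Pool.Agent.CYC

open Pool.Agent.ZCyc Pool.Agent.Dess Pool.Agent.TInc
open scoped Classical

variable {k M N : Type} [Field k] [IsAlgClosed k] [CharZero k] [Field M] [Algebra k M]
  [Field N] [Algebra k N]

/-- a function on `M` whose only pole is the given point -/
private theorem ext_pole (hM : IsCurve k M) (q : Place k M) :
    ∃ φ : M, Transcendental k φ ∧ ∀ v : Place k M, v = q ↔ φ ∉ v.ring := by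
  obtain ⟨g, hg⟩ := exists_genus hM
  obtain ⟨h1, h2⟩ := hg (Finsupp.single q ((g : ℤ) + 1))
  have h3 : deg (Finsupp.single q ((g : ℤ) + 1)) = g + 1 := by
    unfold deg
    rw [Finsupp.sum_single_index rfl]
  rw [h3] at h2
  have h4 : 1 < Module.finrank k (LD hM (Finsupp.single q ((g : ℤ) + 1))) := by omega
  have h5 : ∃ φ ∈ LD hM (Finsupp.single q ((g : ℤ) + 1)), ∀ a : k, φ ≠ algebraMap k M a := by
    by_contra hcon
    push Not at hcon
    have h6 : LD hM (Finsupp.single q ((g : ℤ) + 1)) ≤
        LinearMap.range (Algebra.linearMap k M) := by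
      intro f hf
      obtain ⟨a, ha⟩ := hcon f hf
      exact ⟨a, ha.symm⟩
    have h7 : Module.finrank k (LinearMap.range (Algebra.linearMap k M)) = 1 := by
      rw [LinearMap.finrank_range_of_inj (algebraMap k M).injective, Module.finrank_self]
    have h9 : FiniteDimensional k (LinearMap.range (Algebra.linearMap k M)) :=
      Module.finite_of_finrank_pos (by rw [h7]; exact one_pos)
    have h8 := Submodule.finrank_mono h6
    omega
  obtain ⟨φ, hφ, hc⟩ := h5
  rw [mem_LD] at hφ
  have hφ0 : φ ≠ 0 := by
    intro h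
    apply hc 0
    rw [h, map_zero]
  have h6 : ∀ v : Place k M, v ≠ q → φ ∈ v.ring := by
    intro v hv
    rw [mem_iff_ord hM hφ0]
    have := hφ hφ0 v
    rw [Finsupp.single_apply, if_neg (Ne.symm hv)] at this
    omega
  refine ⟨φ, transc_of_ne hM hc, fun v => ⟨?_, ?_⟩⟩
  · rintro rfl h
    obtain ⟨a, ha⟩ := const_of_regular hM (f := φ) (fun v' => by
      by_cases hv : v' = v
      · rw [hv]; exact h
      · exact h6 v' hv)
    exact hc a ha
  · intro h
    by_contra hv
    exact h (h6 v hv)

omit [IsAlgClosed k] [CharZero k] in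
/-- the degree over a subfield generated by a function of the subfield -/
private theorem ext_deg (ι : M →ₐ[k] N) (φ : M) :
    Module.finrank (IntermediateField.adjoin k {ι φ}) N =
      Module.finrank (IntermediateField.adjoin k {φ}) M * Module.finrank ι.fieldRange N := by
  have h1 : (IntermediateField.adjoin k {φ}).map ι = IntermediateField.adjoin k {ι φ} := by
    rw [IntermediateField.adjoin_map, Set.image_singleton]
  have h3 : IntermediateField.relfinrank (IntermediateField.adjoin k {ι φ}) ι.fieldRange =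
      Module.finrank (IntermediateField.adjoin k {φ}) M := by
    have h4 := IntermediateField.relfinrank_map_map (IntermediateField.adjoin k {φ}) ⊤ ι
    rw [h1, ← AlgHom.fieldRange_eq_map, IntermediateField.relfinrank_top_right] at h4
    exact h4
  have h5 : IntermediateField.adjoin k {ι φ} ≤ ι.fieldRange := by
    rw [IntermediateField.adjoin_le_iff, Set.singleton_subset_iff]
    exact ⟨φ, rfl⟩
  rw [← IntermediateField.relfinrank_mul_finrank_top h5, h3]

omit [IsAlgClosed k] [CharZero k] in
private theorem ext_transc (ι : M →ₐ[k] N) {φ : M} (h : Transcendental k φ) :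
    Transcendental k (ι φ) := by
  intro h1
  exact h ((isAlgebraic_algHom_iff ι ι.injective).1 h1)

omit [IsAlgClosed k] [CharZero k] in
/-- the place below, if some function of `M` is not regular at `u` -/
private theorem ext_below (ι : M →ₐ[k] N) (u : Place k N) {φ : M} (h : ι φ ∉ u.ring) :
    ∃ v : Place k M, u.ring.comap (ι : M →+* N) = v.ring := by
  refine ⟨⟨u.ring.comap (ι : M →+* N), fun c => ?_, fun h1 => h ?_⟩, rfl⟩
  · rw [ValuationSubring.mem_comap]
    have h1 : (ι : M →+* N) (algebraMap k M c) = algebraMap k N c := ι.commutes c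
    rw [h1]
    exact u.const_mem c
  · have h2 : φ ∈ u.ring.comap (ι : M →+* N) := by
      rw [h1]
      exact ValuationSubring.mem_top _
    exact ValuationSubring.mem_comap.1 h2

/-- Let `u` be a place of `N` over the place `v` of `M`. There is a positive integer `e(u)` (the
ramification index) such that the order at `u` of all `φ ∈ M` is `e(u)` times the order at `v`.
PROOF. `e(u)` is the order at `u` of a uniformizer `π` of `M` at `v`; `φ = π ^ n ε` with a unit `ε` at `v`,
which is a unit at `u`. -/
theorem exists_ram (hM : IsCurve k M) (hN : IsCurve k N) (ι : M →ₐ[k] N) (u : Place k N)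
    (v : Place k M) (h : u.ring.comap (ι : M →+* N) = v.ring) :
    ∃ e : ℕ, 0 < e ∧ ∀ φ : M, φ ≠ 0 → ord u (ι φ) = e * ord v φ := by
  have hmem : ∀ x : M, x ∈ v.ring ↔ ι x ∈ u.ring := by
    intro x
    rw [← h]
    exact ValuationSubring.mem_comap
  have hinj : ∀ x : M, x ≠ 0 → ι x ≠ 0 := fun x hx h1 => hx ((map_eq_zero ι).1 h1)
  obtain ⟨w, hw⟩ := exists_unif hM v
  have hw0 : ι w ≠ 0 := hinj w hw.1
  have h1 : ord v w = 1 := ord_unif hM hw
  have h2 : (w⁻¹ : M) ∉ v.ring := by
    intro h
    rw [mem_iff_ord hM (inv_ne_zero hw.1), ord_inv hM, h1] at h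
    omega
  have h3 : 0 < ord u (ι w) := by
    rw [hmem, map_inv₀, mem_iff_ord hN (inv_ne_zero hw0), ord_inv hN] at h2
    omega
  obtain ⟨e, he⟩ := Int.eq_ofNat_of_zero_le h3.le
  refine ⟨e, by omega, fun φ hφ => ?_⟩
  obtain ⟨h4, h5⟩ := ord_unit hM hw hφ
  set n := ord v φ with hn
  have hu0 : ι (φ / w ^ n) ≠ 0 := hinj _ (div_ne_zero hφ (zpow_ne_zero n hw.1))
  rw [hmem] at h4 h5
  have h6 : ord u (ι (φ / w ^ n)) = 0 := by
    rw [ord_eq_zero_iff hN hu0]
    refine ⟨h4, ?_⟩
    rw [map_inv₀] at h5
    exact h5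
  have h7 : ι φ = ι (φ / w ^ n) * (ι w) ^ n := by
    rw [← map_zpow₀, ← map_mul, div_mul_cancel₀]
    exact zpow_ne_zero n hw.1
  rw [h7, ord_mul hN u hu0 (zpow_ne_zero n hw0), h6, ord_zpow hN, he]
  ring

/-- The sum of the ramification indices of the places over a place `v` is the same for all `v`.
PROOF. `N` is a finite extension of `ι(M)`; let `d` be its degree. By Riemann's inequality
(`exists_genus`, see `gord_pole` in `WFC/GOrd.lean`) there is a function `φ ∈ M`, transcendental over `k`, with
the only pole `v`. By `TInc.deg_poles'` for `M` and for `N` (the poles of `ι φ` are the places over `v`):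
`[M : k(φ)] = - ord v φ` and `[N : k(ι φ)] = ∑ - ord u (ι φ) = (∑ e(u)) (- ord v φ)`. Since
`[N : k(ι φ)] = d [M : k(φ)]`, the sum is `d`. (The comparison of the fields `k(φ)` in `M` and in `N`: see
`gord_deg` in `WFC/GOrd.lean`.) -/
theorem exists_deg (hM : IsCurve k M) (hN : IsCurve k N) (ι : M →ₐ[k] N) :
    ∃ d : ℕ, 0 < d ∧ ∀ (v : Place k M) (S : Finset (Place k N)) (e : Place k N → ℕ),
      (∀ u, u ∈ S ↔ u.ring.comap (ι : M →+* N) = v.ring) →
      (∀ u ∈ S, ∀ φ : M, φ ≠ 0 → ord u (ι φ) = e u * ord v φ) → ∑ u ∈ S, e u = d := by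
  have key : ∀ x : N, Transcendental k x →
      0 < Module.finrank (IntermediateField.adjoin k {x}) N := by
    intro x hx
    have hx0 : x ≠ 0 := by
      rintro rfl
      exact hx isAlgebraic_zero
    obtain ⟨u, hu⟩ : ∃ u : Place k N, x ∉ u.ring := by
      by_contra hcon
      push Not at hcon
      obtain ⟨a, ha⟩ := const_of_regular hN hcon
      apply hx
      rw [ha]
      exact isAlgebraic_algebraMap a
    have h1 := deg_poles' hN hx ((finite_ord hN x).toFinset.filter fun u => x ∉ u.ring) (by
      intro v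
      rw [Finset.mem_filter, Set.Finite.mem_toFinset]
      refine ⟨fun h => h.2, fun h => ⟨?_, h⟩⟩
      intro h0
      rw [mem_iff_ord hN hx0, h0] at h
      exact h le_rfl)
    have h2 : 0 < ∑ v ∈ (finite_ord hN x).toFinset.filter (fun u => x ∉ u.ring), -ord v x := by
      apply Finset.sum_pos
      · intro v hv
        have h3 := (Finset.mem_filter.1 hv).2
        rw [mem_iff_ord hN hx0] at h3
        omega
      · refine ⟨u, ?_⟩
        rw [Finset.mem_filter, Set.Finite.mem_toFinset]
        refine ⟨?_, hu⟩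
        intro h0
        rw [mem_iff_ord hN hx0, h0] at hu
        exact hu le_rfl
    rw [h1] at h2
    exact_mod_cast h2
  refine ⟨Module.finrank ι.fieldRange N, ?_, ?_⟩
  · obtain ⟨t, ht, -⟩ := hM
    have h1 := key (ι t) (ext_transc ι ht)
    rw [ext_deg] at h1
    exact Nat.pos_of_mul_pos_left h1
  · intro v S e hS he
    obtain ⟨φ, hφt, hφ⟩ := ext_pole hM v
    have hφ0 : φ ≠ 0 := by
      rintro rfl
      exact hφt isAlgebraic_zero
    have hS' : ∀ u, u ∈ S ↔ ι φ ∉ u.ring := by
      intro u
      rw [hS]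
      constructor
      · intro h1 h2
        have h3 : φ ∈ u.ring.comap (ι : M →+* N) := ValuationSubring.mem_comap.2 h2
        rw [h1] at h3
        exact (hφ v).1 rfl h3
      · intro h1
        obtain ⟨w, hw⟩ := ext_below ι u h1
        have h2 : w = v := by
          rw [hφ, ← hw]
          exact fun h3 => h1 (ValuationSubring.mem_comap.1 h3)
        rw [hw, h2]
    have h1 := deg_poles' hN (ext_transc ι hφt) S hS'
    have h2 := deg_poles' hM hφt {v} (fun w => by rw [Finset.mem_singleton, hφ])
    rw [Finset.sum_singleton] at h2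
    have h3 : ∑ u ∈ S, -ord u (ι φ) = ((∑ u ∈ S, e u : ℕ) : ℤ) * -ord v φ := by
      push_cast
      rw [Finset.sum_mul]
      apply Finset.sum_congr rfl
      intro u hu
      rw [he u hu φ hφ0]
      ring
    rw [h3, h2, ext_deg] at h1
    have h4 : 0 < Module.finrank (IntermediateField.adjoin k {φ}) M := by
      have h5 := key (ι φ) (ext_transc ι hφt)
      rw [ext_deg] at h5
      exact Nat.pos_of_mul_pos_right h5
    have h6 : (∑ u ∈ S, e u) * Module.finrank (IntermediateField.adjoin k {φ}) M =
        Module.finrank ι.fieldRange N * Module.finrank (IntermediateField.adjoin k {φ}) M := by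
      rw [mul_comm (Module.finrank ι.fieldRange N)]
      exact_mod_cast h1
    exact Nat.eq_of_mul_eq_mul_right h4 h6

/-- A relation over a finite extension implies the relation.
PROOF. For the places `v` of `M` in the support of `D` let `S_v` be the finite set of the places over `v`
(finite: they are zeros or poles of `ι φ`). The support of `D'` is contained in the union of these
sets, `D' u = e(u) D v` for `u ∈ S_v` (`ord_eq`), so the sum over `D'` is
`∑ v, (∑ u ∈ S_v, e(u)) D v • G v = d • ∑ v, D v • G v`, and `V` has no torsion because it is a vector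
space over `k`, which has characteristic zero. -/
theorem sum_ext (hM : IsCurve k M) (hN : IsCurve k N) (ι : M →ₐ[k] N) {V : Type*}
    [AddCommGroup V] [Module k V] {φ : M} (hφ : φ ≠ 0) (G : Place k M → V)
    (D : Place k M →₀ ℤ) (hD : ∀ v, HasOrd v φ (D v)) (D' : Place k N →₀ ℤ)
    (hD' : ∀ u, HasOrd u (ι φ) (D' u)) (b : Place k N → Place k M)
    (hb : ∀ u, u.ring.comap (ι : M →+* N) = (b u).ring)
    (h : D'.sum (fun u n => n • G (b u)) = 0) : D.sum (fun v n => n • G v) = 0 := by
  choose e he0 he using fun u : Place k N => exists_ram hM hN ι u (b u) (hb u)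
  have hιφ : ι φ ≠ 0 := fun h1 => hφ ((map_eq_zero ι).1 h1)
  have hDD : ∀ u, D' u = e u * D (b u) := by
    intro u
    rw [← ord_eq hN hιφ (hD' u), ← ord_eq hM hφ (hD (b u))]
    exact he u φ hφ
  have hbv : ∀ (u : Place k N) (v : Place k M),
      u.ring.comap (ι : M →+* N) = v.ring ↔ b u = v := by
    intro u v
    rw [hb]
    exact ⟨fun h1 => Place.ext h1, fun h1 => by rw [h1]⟩
  have hfin : ∀ v : Place k M, {u : Place k N | b u = v}.Finite := by
    intro v
    obtain ⟨ψ, hψt, hψ⟩ := ext_pole hM v
    have hψ0 : ι ψ ≠ 0 := by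
      intro h1
      have h2 : ψ = 0 := (map_eq_zero ι).1 h1
      rw [h2] at hψt
      exact hψt isAlgebraic_zero
    apply (finite_ord hN (ι ψ)).subset
    intro u hu h0
    rw [Set.mem_ofPred_eq] at hu
    have h1 : ψ ∉ (b u).ring := (hψ _).1 hu
    have h2 : ι ψ ∉ u.ring := by
      intro h3
      apply h1
      rw [← hb]
      exact ValuationSubring.mem_comap.2 h3
    rw [mem_iff_ord hN hψ0, h0] at h2
    exact h2 le_rfl
  obtain ⟨d, hd0, hd⟩ := exists_deg hM hN ι
  have hdeg : ∀ v : Place k M, ∑ u ∈ (hfin v).toFinset, e u = d := by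
    intro v
    apply hd v
    · intro u
      rw [Set.Finite.mem_toFinset, Set.mem_ofPred_eq, hbv]
    · intro u hu ψ hψ
      rw [Set.Finite.mem_toFinset, Set.mem_ofPred_eq] at hu
      rw [← hu]
      exact he u ψ hψ
  have hsub : D'.support ⊆ D.support.biUnion fun v => (hfin v).toFinset := by
    intro u hu
    rw [Finsupp.mem_support_iff, hDD] at hu
    rw [Finset.mem_biUnion]
    refine ⟨b u, ?_, ?_⟩
    · rw [Finsupp.mem_support_iff]
      exact right_ne_zero_of_mul hu
    · rw [Set.Finite.mem_toFinset]
      rfl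
  have hdisj : Set.PairwiseDisjoint (D.support : Set (Place k M)) fun v => (hfin v).toFinset := by
    intro v _ w _ hvw
    rw [Function.onFun, Finset.disjoint_left]
    intro u hu hu'
    rw [Set.Finite.mem_toFinset, Set.mem_ofPred_eq] at hu hu'
    exact hvw (hu.symm.trans hu')
  rw [Finsupp.sum_of_support_subset D' hsub (fun u n => n • G (b u)) (fun u _ => zero_smul ℤ _),
    Finset.sum_biUnion hdisj] at h
  have h1 : ∀ v ∈ D.support, ∑ u ∈ (hfin v).toFinset, D' u • G (b u) = d • (D v • G v) := by
    intro v _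
    rw [← hdeg v, Finset.sum_smul]
    apply Finset.sum_congr rfl
    intro u hu
    rw [Set.Finite.mem_toFinset, Set.mem_ofPred_eq] at hu
    rw [hDD, hu, mul_smul, natCast_zsmul]
  rw [Finset.sum_congr rfl h1, ← Finset.smul_sum] at h
  have h2 : (d : k) • D.sum (fun v n => n • G v) = 0 := by
    rw [Nat.cast_smul_eq_nsmul]
    exact h
  rcases smul_eq_zero.1 h2 with h3 | h3
  · exact absurd (Nat.cast_eq_zero.1 h3) hd0.ne'
  · exact h3

end Pool.Agent.CYC
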