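import Pool.Agent.CYC.Cls
import Pool.Agent.GT.OddC

/-!
# A field of definition for finitely many points over `Om k`
-/

set_option autoImplicit false

noncomputable section

namespace Pool.Agent.CYC

open Pool.Agent.ZCyc Pool.Agent.Dess Pool.Agent.TInc
open Pool.Agent.VFP (Om tt)
open scoped Classical

variable {k L M : Type} [Field k] [IsAlgClosed k] [CharZero k] [Field L] [Algebra k L]
  [Field M] [Algebra k M]

private theorem fld_transc : Transcendental k (tt k) := by
  have h : Transcendental k (RatFunc.X : RatFunc k) := RatFunc.transcendental_X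
  have h2 := (transcendental_algebraMap_iff (R := k) (S := RatFunc k) (A := Om k)
    (algebraMap (RatFunc k) (Om k)).injective (a := RatFunc.X)).2 h
  exact h2

/-- a field generated by finitely many elements, which contains `tt k`, is the function field of a
curve -/
private theorem fld_isCurve (S : Set (Om k)) (hS : S.Finite)
    (ht : tt k ∈ IntermediateField.adjoin k S) : IsCurve k (IntermediateField.adjoin k S) := by
  set K : IntermediateField k (Om k) := IntermediateField.adjoin k S with hKdef
  let t : K := ⟨tt k, ht⟩
  have htK : Transcendental k t := by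
    intro h
    apply fld_transc (k := k)
    exact h.algHom K.val
  refine ⟨t, htK, ?_⟩
  have hess : Algebra.EssFiniteType k K := by
    rw [IntermediateField.essFiniteType_iff]
    exact IntermediateField.fg_adjoin_of_finite hS
  have hess2 : Algebra.EssFiniteType (IntermediateField.adjoin k {t}) K :=
    Algebra.EssFiniteType.of_comp k _ K
  have halg : Algebra.IsAlgebraic (IntermediateField.adjoin k {t}) K := by
    refine ⟨fun z => ?_⟩
    have h1 : IsAlgebraic (IntermediateField.adjoin k {tt k}) (K.val z) :=
      (alg_adjoin (fld_transc (k := k))).isAlgebraic _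
    have hmap : (IntermediateField.adjoin k {t}).map K.val =
        IntermediateField.adjoin k {tt k} := by
      rw [IntermediateField.adjoin_map, Set.image_singleton]
      rfl
    have hmem : ∀ e : IntermediateField.adjoin k {t},
        ((K.val : K →+* Om k).comp (algebraMap (IntermediateField.adjoin k {t}) K)) e ∈
          IntermediateField.adjoin k {tt k} := by
      intro e
      rw [← hmap]
      exact ⟨e.1, e.2, rfl⟩
    let f : IntermediateField.adjoin k {t} →+* IntermediateField.adjoin k {tt k} :=
      ((K.val : K →+* Om k).comp (algebraMap (IntermediateField.adjoin k {t}) K)).codRestrict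
        (IntermediateField.adjoin k {tt k}).toSubfield hmem
    refine h1.of_ringHom_of_comp_eq (f := f) (g := (K.val : K →+* Om k)) ?_ ?_ ?_
    · rintro ⟨y, hy⟩
      have hy' := hy
      rw [← hmap] at hy'
      obtain ⟨e, he, rfl⟩ := hy'
      exact ⟨⟨e, he⟩, rfl⟩
    · exact (K.val : K →+* Om k).injective
    · ext x
      rfl
  exact Algebra.finite_of_essFiniteType_of_isAlgebraic

/-- the function field of a curve is finitely generated -/
private theorem fld_gen {K : Type} [Field K] [Algebra k K] (hK : IsCurve k K) :
    ∃ G : Finset K, IntermediateField.adjoin k (G : Set K) = ⊤ := by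
  obtain ⟨t, -, hfin⟩ := hK
  have h1 : Algebra.EssFiniteType k (IntermediateField.adjoin k {t}) := by
    rw [IntermediateField.essFiniteType_iff]
    exact IntermediateField.fg_adjoin_of_finite (Set.finite_singleton t)
  have h2 : Algebra.EssFiniteType (IntermediateField.adjoin k {t}) K := inferInstance
  have h3 : Algebra.EssFiniteType k K :=
    Algebra.EssFiniteType.comp k (IntermediateField.adjoin k {t}) K
  exact IntermediateField.fg_top k K

private theorem fld_mem {K : Type} [Field K] [Algebra k K] {G : Set K}
    (hG : IntermediateField.adjoin k G = ⊤) (σ : K →ₐ[k] Om k) {N : IntermediateField k (Om k)}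
    (h : ∀ g ∈ G, σ g ∈ N) (x : K) : σ x ∈ N := by
  have h1 : (⊤ : IntermediateField k K) ≤ N.comap σ := by
    rw [← hG, IntermediateField.adjoin_le_iff]
    intro g hg
    exact h g hg
  exact h1 IntermediateField.mem_top

/-- an embedding with values in `N` -/
private def cr {K : Type} [Field K] [Algebra k K] {N : IntermediateField k (Om k)}
    (σ : K →ₐ[k] Om k) (h : ∀ x, σ x ∈ N) : K →ₐ[k] N :=
  σ.codRestrict N.toSubalgebra h

private theorem cr_comp {K : Type} [Field K] [Algebra k K] {N : IntermediateField k (Om k)}
    (σ : K →ₐ[k] Om k) (h : ∀ x, σ x ∈ N) : N.val.comp (cr σ h) = σ := by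
  ext x
  rfl

private theorem isV_comp {N : IntermediateField k (Om k)} {V : Place k (Om k)} {u : Place k N}
    (hV : V.ring.comap (N.val : N →+* Om k) = u.ring) (S : (L →ₐ[k] N) ⊕ Place k L)
    (p : Place k L) (h : IsV V (S.map (fun τ => N.val.comp τ) id) p) : IsV u S p := by
  rcases S with τ | c
  · change p.ring = V.ring.comap ((N.val.comp τ : L →ₐ[k] Om k) : L →+* Om k) at h
    change p.ring = u.ring.comap (τ : L →+* N)
    rw [h, ← hV]
    rfl
  · exact h

/-- PROOF. `M` is finite over `k(t)`, `L` is finite over `k(s)`; let `N` be generated over `k` by the images of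
`t`, `s` and of the finitely many generators of `M` and `L` under `ι` and the embeddings among the `P j`. All
elements of `Om k` are algebraic over `k(ι t)` (`TInc.alg_adjoin`), so `N` is a finite extension of
`k(ι t)` (`IntermediateField.finiteDimensional_adjoin`, see also `Dess`/`GT` for similar constructions,
for example `Dess/Closure.lean`, `GT/Fld.lean`), and `ι t` is transcendental. -/
theorem exists_fld (hL : IsCurve k L) (hM : IsCurve k M) (ι : M →ₐ[k] Om k) {a : ℕ}
    (P : Fin a → (L →ₐ[k] Om k) ⊕ Place k L) :
    ∃ N : IntermediateField k (Om k), IsCurve k N ∧ (∀ x, ι x ∈ N) ∧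
      ∀ j τ, P j = Sum.inl τ → ∀ x, τ x ∈ N := by
  obtain ⟨gM, hgM⟩ := fld_gen hM
  obtain ⟨gL, hgL⟩ := fld_gen hL
  set S : Set (Om k) := insert (tt k) ((ι '' (gM : Set M)) ∪ ⋃ j : Fin a,
    Sum.elim (fun τ : L →ₐ[k] Om k => τ '' (gL : Set L)) (fun _ => (∅ : Set (Om k))) (P j)) with hS
  have hfin : S.Finite := by
    refine Set.Finite.insert _ (Set.Finite.union (gM.finite_toSet.image _) ?_)
    refine Set.finite_iUnion fun j => ?_
    rcases P j with τ | c
    · exact gL.finite_toSet.image _
    · exact Set.finite_empty
  have hsub : S ⊆ IntermediateField.adjoin k S := IntermediateField.subset_adjoin k S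
  refine ⟨IntermediateField.adjoin k S, fld_isCurve S hfin (hsub (Set.mem_insert _ _)),
    fun x => fld_mem hgM ι (fun g hg => hsub ?_) x, fun j τ hj x =>
      fld_mem hgL τ (fun g hg => hsub ?_) x⟩
  · exact Set.mem_insert_of_mem _ (Or.inl ⟨g, hg, rfl⟩)
  · refine Set.mem_insert_of_mem _ (Or.inr (Set.mem_iUnion.2 ⟨j, ?_⟩))
    rw [hj]
    exact ⟨g, hg, rfl⟩

/-- The data over `N`: points over `N`, and compatible values at all places.
PROOF. The points `P' j`: the embeddings with values in `N`, or the same constants. For a place `u` of `N` let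
`V` be a place of `Om k` above `u` (`TInc.exists_above` for the inclusion `N → Om k`). The values `p u j`
of `P j` at `V`: `TInc.exists_below` for an embedding, `c` for a constant `c`. The place `b u` of `M` is the
place below `V` (`exists_below` for `ι`). All statements follow from the definitions: the ring of
`p u j` is `V.ring.comap τ = u.ring.comap τ'`. -/
theorem exists_data (hL : IsCurve k L) (hM : IsCurve k M) (ι : M →ₐ[k] Om k) {a : ℕ}
    (P : Fin a → (L →ₐ[k] Om k) ⊕ Place k L) :
    ∃ (N : Type) (_ : Field N) (_ : Algebra k N) (_ : IsCurve k N) (ι' : M →ₐ[k] N)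
      (P' : Fin a → (L →ₐ[k] N) ⊕ Place k L) (V : Place k N → Place k (Om k))
      (p : Place k N → Fin a → Place k L) (b : Place k N → Place k M),
      (∀ u j, IsV u (P' j) (p u j)) ∧ (∀ u j, IsV (V u) (P j) (p u j)) ∧
      (∀ u, u.ring.comap (ι' : M →+* N) = (b u).ring) ∧
      ∀ u, (V u).ring.comap (ι : M →+* Om k) = (b u).ring := by
  obtain ⟨N, hN, hι, hτ⟩ := exists_fld hL hM ι P
  have hP : ∀ j, ∃ S : (L →ₐ[k] N) ⊕ Place k L, S.map (fun τ => N.val.comp τ) id = P j := by
    intro j
    have h1 := hτ j
    rcases hj : P j with τ | c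
    · exact ⟨Sum.inl (cr τ (h1 τ hj)), congrArg Sum.inl (cr_comp τ (h1 τ hj))⟩
    · exact ⟨Sum.inr c, rfl⟩
  choose P' hP' using hP
  choose V hV using fun u : Place k N => exists_above hN u N.val
  have hp : ∀ (u : Place k N) (j : Fin a), ∃ p : Place k L, IsV (V u) (P j) p := by
    intro u j
    rcases P j with τ | c
    · obtain ⟨c, hc⟩ := exists_below hL (V u) τ
      exact ⟨c, hc.symm⟩
    · exact ⟨c, rfl⟩
  choose p hp using hp
  choose b hb using fun u : Place k N => exists_below hM (V u) ι
  refine ⟨N, inferInstance, inferInstance, hN, cr ι hι, P', V, p, b, fun u j => ?_, hp,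
    fun u => ?_, hb⟩
  · refine isV_comp (hV u) (P' j) (p u j) ?_
    rw [hP' j]
    exact hp u j
  · rw [← hb u, ← hV u]
    rfl

end Pool.Agent.CYC
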