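import Pool.Agent.CYC.Zs
import Pool.Agent.CYC.App

/-!
# Specialisation and uniqueness of the zeros of a section
-/

set_option autoImplicit false

noncomputable section

namespace Pool.Agent.CYC

open Pool.Agent.ZCyc Pool.Agent.Dess Pool.Agent.TInc
open scoped Classical

variable {k K : Type} [Field k] [IsAlgClosed k] [CharZero k] [Field K] [Algebra k K] {a n : ℕ}

omit [IsAlgClosed k] [CharZero k] in
private theorem zsp_at_zero {F : Type} [Field F] [Algebra k F] {v : Place k F} :
    v.At (0 : F) 0 := by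
  have h1 := Place.at_const (v := v) (0 : k)
  rwa [_root_.map_zero] at h1

omit [IsAlgClosed k] [CharZero k] in
private theorem zsp_zpow {F : Type} [Field F] [Algebra k F] {v : Place k F} {x : F} {c : k}
    (h : v.At x c) (m : ℤ) (hc : c ≠ 0 ∨ 0 ≤ m) : v.At (x ^ m) (c ^ m) := by
  obtain ⟨r, rfl | rfl⟩ := Int.eq_nat_or_neg m
  · rw [zpow_natCast, zpow_natCast]
    exact h.pow r
  · by_cases hr : r = 0
    · subst hr
      have h1 := h.pow 0
      simpa using h1
    · have hc' : c ≠ 0 := by
        rcases hc with hc | hc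
        · exact hc
        · omega
      rw [zpow_neg, zpow_natCast, zpow_neg, zpow_natCast]
      exact (h.pow r).inv (pow_ne_zero r hc')

/-- the section over `k` as a function -/
private def zspF (φ : Fin (n + 1) → K) (z0 : Fin (n + 1) → k) : K :=
  ∑ i, algebraMap k K (z0 i) * φ i

omit [IsAlgClosed k] [CharZero k] in
private theorem zspF_ne {c : Fin a → Place k K} {φ : Fin (n + 1) → K} (hL : Lin c φ)
    {z0 : Fin (n + 1) → k} (h0 : z0 ≠ 0) : zspF φ z0 ≠ 0 := by
  intro h
  apply h0
  funext i
  refine Fintype.linearIndependent_iff.1 hL.ind z0 ?_ i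
  rw [← h]
  exact Finset.sum_congr rfl fun i _ => Algebra.smul_def _ _

private theorem zspF_at (hK : IsCurve k K) {c : Fin a → Place k K} {φ : Fin (n + 1) → K}
    (hL : Lin c φ) (z0 : Fin (n + 1) → k) {q : Place k K} (hq : ∀ j, c j ≠ q) :
    q.At (zspF φ z0) (lz φ z0 q) := by
  unfold zspF lz
  refine Place.At.sum fun i _ => ?_
  exact (Place.at_const (z0 i)).mul (at_val hK (hL.reg i q hq))

/-- A section `z0 ≠ 0` over `k` has only finitely many zeros outside of the `c j`. PROOF. The
function `∑ z0_i φ_i` is not zero (linear independence), it is regular at the other places `q`,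
and its value there is `lz φ z0 q`; a zero has order `≥ 1`, `TInc.finite_ord`. -/
theorem finite_lz (hK : IsCurve k K) {c : Fin a → Place k K} {φ : Fin (n + 1) → K} (hL : Lin c φ)
    {z0 : Fin (n + 1) → k} (h0 : z0 ≠ 0) :
    {q : Place k K | (∀ j, c j ≠ q) ∧ lz φ z0 q = 0}.Finite := by
  refine (finite_ord hK (zspF φ z0)).subset ?_
  rintro q ⟨hq, hz⟩
  have h1 := zspF_at hK hL z0 hq
  rw [hz, Place.at_zero_iff, vanishes_iff_ord hK (zspF_ne hL h0)] at h1
  exact h1.ne'

omit [IsAlgClosed k] [CharZero k] in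
/-- the value of the section -/
private theorem zsp_lz_at {φ : Fin (n + 1) → K}
    {F : Type} [Field F] [Algebra k F] {v : Place k F} {z : Fin (n + 1) → F} {l : F}
    {z0 : Fin (n + 1) → k} (hz : ∀ i, v.At (l * z i) (z0 i)) (q : Place k K) :
    v.At (l * lz φ z q) (lz φ z0 q) := by
  unfold lz
  rw [Finset.mul_sum]
  refine Place.At.sum fun i _ => ?_
  rw [← mul_assoc]
  exact (hz i).mul (Place.at_const _)

private theorem zsp_sum_ord (hK : IsCurve k K) {b : K} {T : Finset (Place k K)}
    (hT : ∀ q : Place k K, ord q b ≠ 0 → q ∈ T) : ∑ q ∈ T, ord q b = 0 := by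
  have h1 := deg_dv hK b
  unfold deg Finsupp.sum at h1
  rw [← h1]
  symm
  refine Finset.sum_subset ?_ ?_
  · intro q hq
    rw [Finsupp.mem_support_iff, dv_apply] at hq
    exact hT q hq
  · intro q _ hq
    rw [Finsupp.notMem_support_iff, dv_apply] at hq
    rw [dv_apply, hq]

private theorem zsp_weil (hK : IsCurve k K) {c : Fin a → Place k K} {φ : Fin (n + 1) → K}
    {F : Type} [Field F] [Algebra k F] {z : Fin (n + 1) → F} {l : F} (hl : l ≠ 0)
    {S : Fin a → (K →ₐ[k] F) ⊕ Place k K} (h : Zs c φ z S) {b : K} (hb : b ≠ 0)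
    (hc : ∀ j, ord (c j) b = 0) (hS : ∀ j q, S j = Sum.inr q → ord q b = 0)
    {T : Finset (Place k K)} (hT : ∀ q : Place k K, ord q b ≠ 0 → q ∈ T) :
    ∏ j, ev (S j) b = algebraMap k F (∏ j, val (c j) b) * ∏ q ∈ T, (l * lz φ z q) ^ ord q b := by
  rw [h.weil b hb hc hS T hT]
  congr 1
  have h1 : ∏ q ∈ T, (l * lz φ z q) ^ ord q b =
      (∏ q ∈ T, l ^ ord q b) * ∏ q ∈ T, lz φ z q ^ ord q b := by
    rw [← Finset.prod_mul_distrib]
    exact Finset.prod_congr rfl fun q _ => mul_zpow _ _ _
  have h2 : ∀ T' : Finset (Place k K), ∏ q ∈ T', l ^ ord q b = l ^ ∑ q ∈ T', ord q b := by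
    intro T'
    induction T' using Finset.induction_on with
    | empty => simp
    | insert p s hp ih => rw [Finset.prod_insert hp, Finset.sum_insert hp, zpow_add₀ hl, ih]
  rw [h1, h2, zsp_sum_ord hK hT, zpow_zero, one_mul]

private theorem zsp_val_ne (hK : IsCurve k K) {q : Place k K} {b : K} (hb : b ≠ 0)
    (h : ord q b = 0) : val q b ≠ 0 := by
  intro h1
  have h2 := at_val hK ((mem_iff_ord hK (v := q) hb).2 h.ge)
  rw [h1, Place.at_zero_iff, vanishes_iff_ord hK hb] at h2
  omega

private theorem zsp_val_zero (hK : IsCurve k K) {q : Place k K} {b : K} (hb : b ≠ 0)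
    (h : 0 < ord q b) : val q b = 0 := by
  apply val_eq
  rw [Place.at_zero_iff, vanishes_iff_ord hK hb]
  exact h

/-- the values of both sides of the formula of Weil -/
private theorem zsp_key (hK : IsCurve k K) {c : Fin a → Place k K} {φ : Fin (n + 1) → K}
    {F : Type} [Field F] [Algebra k F] {v : Place k F} {z : Fin (n + 1) → F} {l : F} (hl : l ≠ 0)
    {z0 : Fin (n + 1) → k} (hz : ∀ i, v.At (l * z i) (z0 i))
    {S : Fin a → (K →ₐ[k] F) ⊕ Place k K} (h : Zs c φ z S) {S0 : Fin a → Place k K}
    (hS : ∀ j, IsV v (S j) (S0 j)) {b : K} (hb : b ≠ 0)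
    (hc : ∀ j, ord (c j) b = 0) (hS' : ∀ j q, S j = Sum.inr q → ord q b = 0)
    (hr : ∀ j, 0 ≤ ord (S0 j) b)
    {T : Finset (Place k K)} (hT : ∀ q : Place k K, ord q b ≠ 0 → q ∈ T)
    (hne : ∀ q : Place k K, ord q b < 0 → lz φ z0 q ≠ 0) :
    ∏ j, val (S0 j) b = (∏ j, val (c j) b) * ∏ q ∈ T, lz φ z0 q ^ ord q b := by
  have h1 := zsp_weil hK hl h hb hc hS' hT
  have h2 : v.At (∏ j, ev (S j) b) (∏ j, val (S0 j) b) :=
    Place.At.prod fun j _ => IsV.at_ev hK (hS j) ((mem_iff_ord hK hb).2 (hr j))
  rw [h1] at h2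
  refine h2.unique ((Place.at_const _).mul (Place.At.prod fun q _ => ?_))
  refine zsp_zpow (zsp_lz_at hz q) _ ?_
  by_cases hq : 0 ≤ ord q b
  · exact Or.inr hq
  · exact Or.inl (hne q (not_le.1 hq))

/-- the function with the order one at `q` and zero at the bad places -/
private theorem zsp_fn (hK : IsCurve k K) {c : Fin a → Place k K} {φ : Fin (n + 1) → K}
    (hL : Lin c φ) {z0 : Fin (n + 1) → k} (h0 : z0 ≠ 0) (S0 : Fin a → Place k K)
    {q : Place k K} (hq : ∀ j, c j ≠ q) :
    ∃ b : K, b ≠ 0 ∧ ord q b = 1 ∧ (∀ j, ord (c j) b = 0) ∧ (∀ j, S0 j ≠ q → ord (S0 j) b = 0) ∧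
      ∀ p, p ≠ q → ord p b ≠ 0 → lz φ z0 p ≠ 0 := by
  obtain ⟨b, hb, h1⟩ := exists_ords hK
    (insert q (Finset.univ.image c ∪ Finset.univ.image S0 ∪ (finite_lz hK hL h0).toFinset))
    (fun p => if p = q then 1 else 0)
  refine ⟨b, hb, ?_, fun j => ?_, fun j hj => ?_, fun p hp h2 h3 => h2 ?_⟩
  · rw [h1 q (Finset.mem_insert_self _ _), if_pos rfl]
  · rw [h1 (c j) (Finset.mem_insert_of_mem (Finset.mem_union_left _ (Finset.mem_union_left _
      (Finset.mem_image_of_mem c (Finset.mem_univ j))))), if_neg (hq j)]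
  · rw [h1 (S0 j) (Finset.mem_insert_of_mem (Finset.mem_union_left _ (Finset.mem_union_right _
      (Finset.mem_image_of_mem S0 (Finset.mem_univ j))))), if_neg hj]
  · by_cases h4 : ∃ j, c j = p
    · obtain ⟨j, rfl⟩ := h4
      rw [h1 (c j) (Finset.mem_insert_of_mem (Finset.mem_union_left _ (Finset.mem_union_left _
        (Finset.mem_image_of_mem c (Finset.mem_univ j))))), if_neg (hq j)]
    · push Not at h4
      rw [h1 p (Finset.mem_insert_of_mem (Finset.mem_union_right _
        ((Set.Finite.mem_toFinset _).2 ⟨h4, h3⟩))), if_neg hp]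

/-- The zeros of a section over `F` specialise to the zeros of the specialised section.
PROOF. For every place `q` the element `l * lz φ z q = lz φ (l z) q` has the value `lz φ z0 q` at
`v`. Note `∑ ord q b = 0` (`deg_dv`), so in the formula `weil` the `lz φ z q` may be replaced by
`l * lz φ z q` (`l ≠ 0` because `z0 ≠ 0`).
`zero`, left to right: let `q` be different from the `c j`, `lz φ z0 q = 0`, and assume that `q`
is different from all `S0 j`. Choose `b` (`exists_ords`) with `ord q b = 1` and `ord q' b = 0` at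
the places `c j`, `S0 j` and at all zeros `≠ q` of `z0` (`finite_lz`). A constant `S j` is equal
to `S0 j`, so `weil` applies to `b`. The left side has a value `≠ 0` at `v` (`IsV.at_ev`); the
right side has the value `0`: the factor of `q` has the value `0`, for `q' ≠ q` with `ord q' b ≠
0` the value of `l * lz φ z q'` is `lz φ z0 q' ≠ 0`. A contradiction.
`zero`, right to left: let `q` be different from the `c j`, `S0 j = q`, and assume `lz φ z0 q ≠
0`. If `S j` is constant, `S j = q`, then `lz φ z q = 0` (`Zs.zero`), so `lz φ z0 q = 0`. So all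
`S i` with `S0 i = q` are embeddings. Choose `b` with `ord q b = 1` and `ord q' b = 0` at the `c
i`, the `S0 i ≠ q` and all zeros of `z0`. `weil` applies; the left side has the value `0` at `v`
(the factors are regular, `b` vanishes at `q`), the right side has a value `≠ 0`.
`weil`: let `ord (c j) b = 0`, `ord (S0 j) b = 0`. `weil` for `z` applies to `b`. Take values at
`v`: the left side has the value `∏ val (S0 j) b`. For `q` with `ord q b ≠ 0` the value of `l * lz
φ z q` is `lz φ z0 q`, and it is not zero: otherwise `q` is a `S0 j` by the part `zero`. Values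
are unique. -/
theorem Zs.spec (hK : IsCurve k K) {c : Fin a → Place k K} {φ : Fin (n + 1) → K} (hL : Lin c φ)
    {F : Type} [Field F] [Algebra k F] {v : Place k F} {z : Fin (n + 1) → F} {l : F}
    {z0 : Fin (n + 1) → k} (hz : ∀ i, v.At (l * z i) (z0 i)) (h0 : z0 ≠ 0)
    {S : Fin a → (K →ₐ[k] F) ⊕ Place k K} (h : Zs c φ z S) {S0 : Fin a → Place k K}
    (hS : ∀ j, IsV v (S j) (S0 j)) :
    Zs (F := k) c φ z0 (fun j => (Sum.inr (S0 j) : (K →ₐ[k] k) ⊕ Place k K)) := by
  have hl : l ≠ 0 := by
    rintro rfl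
    apply h0
    funext i
    have h1 := hz i
    rw [zero_mul] at h1
    exact h1.unique zsp_at_zero
  have hconst : ∀ j p, S j = Sum.inr p → p = S0 j := by
    intro j p hj
    have h1 := hS j
    rw [hj] at h1
    exact h1
  have hzero : ∀ q : Place k K, (∀ j, c j ≠ q) → (lz φ z0 q = 0 ↔ ∃ j, S0 j = q) := by
    intro q hq
    obtain ⟨b, hb, hb1, hbc, hbS, hbz⟩ := zsp_fn hK hL h0 S0 hq
    have hT : ∀ p : Place k K, ord p b ≠ 0 → p ∈ (finite_ord hK b).toFinset := fun p hp =>
      (Set.Finite.mem_toFinset _).2 hp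
    have hneg : ∀ p : Place k K, ord p b < 0 → lz φ z0 p ≠ 0 := by
      intro p hp
      refine hbz p ?_ hp.ne
      rintro rfl
      omega
    have hreg : ∀ j, 0 ≤ ord (S0 j) b := by
      intro j
      by_cases hj : S0 j = q
      · rw [hj, hb1]
        norm_num
      · exact (hbS j hj).ge
    constructor
    · intro hzq
      by_contra hcon
      push Not at hcon
      have h1 := zsp_key hK hl hz h hS hb hbc (fun j p hj => by
        rw [hconst j p hj]
        exact hbS j (hcon j)) hreg hT hneg
      have h2 : ∏ q' ∈ (finite_ord hK b).toFinset, lz φ z0 q' ^ ord q' b = 0 := by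
        refine Finset.prod_eq_zero (hT q (by rw [hb1]; norm_num)) ?_
        rw [hzq, hb1, zpow_one]
      rw [h2, mul_zero] at h1
      obtain ⟨j, -, hj⟩ := Finset.prod_eq_zero_iff.1 h1
      exact zsp_val_ne hK hb (hbS j (hcon j)) hj
    · rintro ⟨j, hj⟩
      by_contra hzq
      have hSq : ∀ i, S i ≠ Sum.inr q := by
        intro i hi
        apply hzq
        have h1 := (h.zero q hq).2 ⟨i, hi⟩
        have h2 := zsp_lz_at (φ := φ) hz q
        rw [h1, mul_zero] at h2
        exact h2.unique zsp_at_zero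
      have h1 := zsp_key hK hl hz h hS hb hbc (fun i p hi => by
        rw [hconst i p hi]
        refine hbS i fun h3 => hSq i ?_
        rw [hi, hconst i p hi, h3]) hreg hT hneg
      have h2 : ∏ i, val (S0 i) b = 0 := by
        refine Finset.prod_eq_zero (Finset.mem_univ j) ?_
        rw [hj]
        exact zsp_val_zero hK hb (by rw [hb1]; norm_num)
      rw [h2] at h1
      rcases mul_eq_zero.1 h1.symm with h3 | h3
      · obtain ⟨i, -, hi⟩ := Finset.prod_eq_zero_iff.1 h3
        exact zsp_val_ne hK hb (hbc i) hi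
      · obtain ⟨p, hp, hp'⟩ := Finset.prod_eq_zero_iff.1 h3
        have h4 : ord p b ≠ 0 := (Set.Finite.mem_toFinset _).1 hp
        have h5 : lz φ z0 p = 0 := by
          by_contra h6
          exact zpow_ne_zero _ h6 hp'
        by_cases h6 : p = q
        · exact hzq (h6 ▸ h5)
        · exact hbz p h6 h4 h5
  refine ⟨?_, ?_⟩
  · intro b hb hc hS' T hT
    have hS0 : ∀ j, ord (S0 j) b = 0 := fun j => hS' j (S0 j) rfl
    have h1 := zsp_key hK hl hz h hS hb hc (fun j p hj => by
      rw [hconst j p hj]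
      exact hS0 j) (fun j => (hS0 j).ge) hT (fun q hq hq0 => by
        have h2 : ∀ j, c j ≠ q := by
          rintro j rfl
          rw [hc j] at hq
          exact lt_irrefl _ hq
        obtain ⟨j, hj⟩ := (hzero q h2).1 hq0
        rw [← hj, hS0 j] at hq
        exact lt_irrefl _ hq)
    exact h1
  · intro q hq
    rw [hzero q hq]
    constructor
    · rintro ⟨j, hj⟩
      exact ⟨j, by rw [hj]⟩
    · rintro ⟨j, hj⟩
      exact ⟨j, Sum.inr.inj hj⟩

/-- The zeros of a section over `k` are unique up to their order.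
PROOF. Let `q` be a place, `b` the function of `exists_two` for `q` and the set of all `c j`, `S
j`, `S' j`. `weil` for both families: the right sides are the same, so `∏ val (S j) b = ∏ val (S'
j) b`, i.e. `2 ^ #{j | S j = q} = 2 ^ #{j | S' j = q}`. So all fibres have the same number of
elements, and there is a permutation (`Finset`/`Multiset` argument: choose bijections of the
fibres). -/
theorem Zs.unique (hK : IsCurve k K) {c : Fin a → Place k K} {φ : Fin (n + 1) → K}
    {z : Fin (n + 1) → k} {S S' : Fin a → Place k K}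
    (h : Zs (F := k) c φ z (fun j => (Sum.inr (S j) : (K →ₐ[k] k) ⊕ Place k K)))
    (h' : Zs (F := k) c φ z (fun j => (Sum.inr (S' j) : (K →ₐ[k] k) ⊕ Place k K))) :
    ∃ π : Equiv.Perm (Fin a), ∀ j, S' j = S (π j) := by
  have key : ∀ q, (Finset.univ.filter fun j => S j = q).card =
      (Finset.univ.filter fun j => S' j = q).card := by
    intro q
    obtain ⟨b, hb, h1, h2, h3⟩ := exists_two hK
      (Finset.univ.image c ∪ Finset.univ.image S ∪ Finset.univ.image S') q
    have hmc : ∀ j, c j ∈ Finset.univ.image c ∪ Finset.univ.image S ∪ Finset.univ.image S' :=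
      fun j => Finset.mem_union_left _ (Finset.mem_union_left _
        (Finset.mem_image_of_mem c (Finset.mem_univ j)))
    have hmS : ∀ j, S j ∈ Finset.univ.image c ∪ Finset.univ.image S ∪ Finset.univ.image S' :=
      fun j => Finset.mem_union_left _ (Finset.mem_union_right _
        (Finset.mem_image_of_mem S (Finset.mem_univ j)))
    have hmS' : ∀ j, S' j ∈ Finset.univ.image c ∪ Finset.univ.image S ∪ Finset.univ.image S' :=
      fun j => Finset.mem_union_right _ (Finset.mem_image_of_mem S' (Finset.mem_univ j))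
    have hT : ∀ p : Place k K, ord p b ≠ 0 → p ∈ (finite_ord hK b).toFinset := fun p hp =>
      (Set.Finite.mem_toFinset _).2 hp
    have e1 := h.weil b hb (fun j => h1 _ (Finset.mem_insert_of_mem (hmc j)))
      (fun j p hp => by
        rw [← Sum.inr.inj hp]
        exact h1 _ (Finset.mem_insert_of_mem (hmS j))) _ hT
    have e2 := h'.weil b hb (fun j => h1 _ (Finset.mem_insert_of_mem (hmc j)))
      (fun j p hp => by
        rw [← Sum.inr.inj hp]
        exact h1 _ (Finset.mem_insert_of_mem (hmS' j))) _ hT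
    rw [← e2] at e1
    change ∏ j, val (S j) b = ∏ j, val (S' j) b at e1
    have e3 : ∀ R : Fin a → Place k K,
        (∀ j, R j ∈ Finset.univ.image c ∪ Finset.univ.image S ∪ Finset.univ.image S') →
        ∏ j, val (R j) b = (2 : k) ^ (Finset.univ.filter fun j => R j = q).card := by
      intro R hR
      rw [← Finset.prod_const, Finset.prod_filter]
      refine Finset.prod_congr rfl fun j _ => ?_
      by_cases hj : R j = q
      · rw [if_pos hj, hj, h2]
      · rw [if_neg hj, h3 _ (hR j) hj]
    rw [e3 S hmS, e3 S' hmS'] at e1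
    have e4 : ((2 ^ (Finset.univ.filter fun j => S j = q).card : ℕ) : k) =
        ((2 ^ (Finset.univ.filter fun j => S' j = q).card : ℕ) : k) := by
      push_cast
      exact e1
    exact Nat.pow_right_injective (le_refl 2) (Nat.cast_injective e4)
  have hc : ∀ q, Fintype.card {j // S' j = q} = Fintype.card {j // S j = q} := by
    intro q
    rw [Fintype.card_subtype, Fintype.card_subtype, key q]
  refine ⟨Equiv.ofFiberEquiv fun q => Fintype.equivOfCardEq (hc q), fun j => ?_⟩
  exact (Equiv.ofFiberEquiv_map _ j).symm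

end Pool.Agent.CYC
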