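import Pool.Agent.CYC.RlA
import Pool.Agent.CYC.ZsSpec

/-!
# The covering attached to a character: specialisation, uniqueness
-/

set_option autoImplicit false

noncomputable section

namespace Pool.Agent.CYC

open Pool.Agent.ZCyc Pool.Agent.Dess Pool.Agent.TInc
open Pool.Agent.WFC (below stb)
open scoped Classical

variable {k L : Type} [Field k] [IsAlgClosed k] [CharZero k] [Field L] [Algebra k L]
  {σ : L ≃ₐ[k] L} [Finite (Subgroup.zpowers σ)] {a n : ℕ}

omit [IsAlgClosed k] [CharZero k] in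
private theorem rlc_at_zero {F : Type} [Field F] [Algebra k F] {v : Place k F} :
    v.At (0 : F) 0 := by
  have h1 := Place.at_const (v := v) (0 : k)
  rwa [_root_.map_zero] at h1

omit [IsAlgClosed k] [CharZero k] in
private theorem rlc_zpow {F : Type} [Field F] [Algebra k F] {v : Place k F} {x : F} {c : k}
    (h : v.At x c) (m : ℤ) (hc : c ≠ 0 ∨ 0 ≤ m) : v.At (x ^ m) (c ^ m) := by
  obtain ⟨r, rfl | rfl⟩ := Int.eq_nat_or_neg m
  · rw [zpow_natCast, zpow_natCast]
    exact h.pow r
  · by_cases hr : r = 0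
    · subst hr
      have h1 := h.pow 0
      simpa using h1
    · have hc' : c ≠ 0 := by
        rcases hc with hc | hc
        · exact hc
        · omega
      rw [zpow_neg, zpow_natCast, zpow_neg, zpow_natCast]
      exact (h.pow r).inv (pow_ne_zero r hc')

omit [IsAlgClosed k] [CharZero k] [Finite (Subgroup.zpowers σ)] in
/-- the value of the section -/
private theorem rlc_lz_at {φ : Fin (n + 1) → KK σ}
    {F : Type} [Field F] [Algebra k F] {v : Place k F} {z : Fin (n + 1) → F} {l : F}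
    {z0 : Fin (n + 1) → k} (hz : ∀ i, v.At (l * z i) (z0 i)) (q : Place k (KK σ)) :
    v.At (l * lz φ z q) (lz φ z0 q) := by
  unfold lz
  rw [Finset.mul_sum]
  refine Place.At.sum fun i _ => ?_
  rw [← mul_assoc]
  exact (hz i).mul (Place.at_const _)

omit [IsAlgClosed k] [CharZero k] [Finite (Subgroup.zpowers σ)] in
private theorem rlc_prod {F : Type} [Field F] {l : F} (hl : l ≠ 0) (g : Place k (KK σ) → F)
    (r : Place k (KK σ) → ℤ) (T : Finset (Place k (KK σ))) :
    ∏ q ∈ T, (l * g q) ^ r q = l ^ (∑ q ∈ T, r q) * ∏ q ∈ T, g q ^ r q := by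
  have h1 : ∏ q ∈ T, (l * g q) ^ r q = (∏ q ∈ T, l ^ r q) * ∏ q ∈ T, g q ^ r q := by
    rw [← Finset.prod_mul_distrib]
    exact Finset.prod_congr rfl fun q _ => mul_zpow _ _ _
  have h2 : ∀ T' : Finset (Place k (KK σ)), ∏ q ∈ T', l ^ r q = l ^ ∑ q ∈ T', r q := by
    intro T'
    induction T' using Finset.induction_on with
    | empty => simp
    | insert p s hp ih => rw [Finset.prod_insert hp, Finset.sum_insert hp, zpow_add₀ hl, ih]
  rw [h1, h2]

private theorem rlc_sum_ord {K : Type} [Field K] [Algebra k K] (hK : IsCurve k K) {b : K}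
    {T : Finset (Place k K)}
    (hT : ∀ q : Place k K, ord q b ≠ 0 → q ∈ T) : ∑ q ∈ T, ord q b = 0 := by
  have h1 := deg_dv hK b
  unfold deg Finsupp.sum at h1
  rw [← h1]
  symm
  refine Finset.sum_subset ?_ ?_
  · intro q hq
    rw [Finsupp.mem_support_iff, dv_apply] at hq
    exact hT q hq
  · intro q _ hq
    rw [Finsupp.notMem_support_iff, dv_apply] at hq
    rw [dv_apply, hq]

private theorem rlc_val_ne {K : Type} [Field K] [Algebra k K] (hK : IsCurve k K) {q : Place k K}
    {b : K} (hb : b ≠ 0) (h : ord q b = 0) : val q b ≠ 0 := by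
  intro h1
  have h2 := at_val hK ((mem_iff_ord hK (v := q) hb).2 h.ge)
  rw [h1, Place.at_zero_iff, vanishes_iff_ord hK hb] at h2
  omega

omit [IsAlgClosed k] [CharZero k] [Finite (Subgroup.zpowers σ)] in
private theorem rlc_yb_ne {D : Dat σ a n} (hy : D.y ≠ 0) {b : KK σ} (hb : b ≠ 0) :
    D.y * (b : L) ≠ 0 := by
  refine mul_ne_zero hy fun h1 => hb ?_
  exact_mod_cast h1

/-- PROOF. The ring of `below c` is the intersection with `K` (`WFC.mem_below`). -/
theorem isV_res {F : Type} [Field F] [Algebra k F] {v : Place k F} {P : (L →ₐ[k] F) ⊕ Place k L}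
    {c : Place k L} (h : IsV v P c) :
    IsV v (res (σ := σ) P) (below (Subgroup.zpowers σ) c) := by
  rcases P with τ | c'
  · have h1 : c.ring = v.ring.comap (τ : L →+* F) := h
    change (below (Subgroup.zpowers σ) c).ring = v.ring.comap
      ((τ.comp (IntermediateField.fixedField (Subgroup.zpowers σ) :
        IntermediateField k L).val : KK σ →ₐ[k] F) : KK σ →+* F)
    ext f
    rw [WFC.mem_below, h1, ValuationSubring.mem_comap, ValuationSubring.mem_comap]
    rfl
  · have h1 : c' = c := h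
    change below (Subgroup.zpowers σ) c' = below (Subgroup.zpowers σ) c
    rw [h1]

/-- PROOF. `Zs.spec` and `isV_res` for `zs` (note `res (kp Pv j) = Sum.inr (below (Pv j))` by
definition). `eq`: let `y b` have order zero at the `P0 j` and at the `Pv j`. A constant `P j` is
equal to `Pv j`. The formula `eq` for `P`, for the set `T`; `∑ (A(q) + ord q b) = - e` (`sum_A`),
so the right side is `∏ val (P0 j) (y b) * (l ^ e w) * ∏ q ∈ T, (l * lz φ z q) ^ (A(q) + ord q
b)`. Take values at `v`: the left side has the value `∏ val (Pv j) (y b)` (`IsV.at_ev`), `l * lz φ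
z q` has the value `lz φ z0 q`; if `A(q) + ord q b ≠ 0` then `lz φ z0 q ≠ 0`: `q` is not a `c j`
(`ord_yb_zero`), and if `lz φ z0 q = 0` then `q = below (Pv j)` for some `j` by `Zs.zero` for
`z0`, a contradiction to `ord_yb_zero`. -/
theorem Dat.Ok.rl_spec {D : Dat σ a n} (h : D.Ok) {F : Type} [Field F] [Algebra k F]
    {v : Place k F} {z : Fin (n + 1) → F} {w l : F} {z0 : Fin (n + 1) → k} {w0 : k}
    (hz : ∀ i, v.At (l * z i) (z0 i)) (h0 : z0 ≠ 0) (hw : v.At (l ^ D.e * w) w0)
    {P : Fin a → (L →ₐ[k] F) ⊕ Place k L} (hP : D.Rl z w P) {Pv : Fin a → Place k L}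
    (hv : ∀ j, IsV v (P j) (Pv j)) : D.Rl (F := k) z0 w0 (kp Pv) := by
  have hl : l ≠ 0 := by
    rintro rfl
    apply h0
    funext i
    have h1 := hz i
    rw [zero_mul] at h1
    exact h1.unique rlc_at_zero
  have hzs : Zs (F := k) D.c D.φ z0 (fun j => res (σ := σ) (kp Pv j)) :=
    Zs.spec h.curveK h.lin hz h0 hP.zs (fun j => isV_res (hv j))
  refine ⟨hzs, ?_⟩
  intro b hb hc hS T hT
  have hS0 : ∀ j, ord (Pv j) (D.y * (b : L)) = 0 := fun j => hS j (Pv j) rfl
  have hyb := rlc_yb_ne h.ne hb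
  have h1 := hP.eq b hb hc (fun j c hj => by
    have h2 := hv j
    rw [hj] at h2
    have h3 : c = Pv j := h2
    rw [h3]
    exact hS0 j) T hT
  have h2 : v.At (∏ j, ev (P j) (D.y * (b : L))) (∏ j, val (Pv j) (D.y * (b : L))) :=
    Place.At.prod fun j _ => IsV.at_ev h.curve (hv j)
      ((mem_iff_ord h.curve hyb).2 (hS0 j).ge)
  have h3 : algebraMap k F (∏ j, val (D.P0 j) (D.y * (b : L))) * w *
      ∏ q ∈ T, lz D.φ z q ^ (D.A q + ord q b) =
      algebraMap k F (∏ j, val (D.P0 j) (D.y * (b : L))) * (l ^ D.e * w) *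
      ∏ q ∈ T, (l * lz D.φ z q) ^ (D.A q + ord q b) := by
    rw [rlc_prod hl (fun q => lz D.φ z q) (fun q => D.A q + ord q b) T, h.sum_A hb T hT, zpow_neg,
      zpow_natCast]
    have h4 : l ^ D.e ≠ 0 := pow_ne_zero _ hl
    field_simp
  rw [h1, h3] at h2
  refine h2.unique (((Place.at_const _).mul hw).mul (Place.At.prod fun q _ => ?_))
  refine rlc_zpow (rlc_lz_at hz q) _ ?_
  by_cases hq : D.A q + ord q b = 0
  · exact Or.inr hq.ge
  · refine Or.inl fun hq0 => hq ?_
    by_cases hqc : ∃ j, D.c j = q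
    · obtain ⟨j, rfl⟩ := hqc
      exact ((h.ord_yb_zero (D.P0 j) hb).1 (hc j)).2
    · push Not at hqc
      obtain ⟨j, hj⟩ := (hzs.zero q hqc).1 hq0
      have h5 : below (Subgroup.zpowers σ) (Pv j) = q := Sum.inr.inj hj
      rw [← h5]
      exact ((h.ord_yb_zero (Pv j) hb).1 (hS0 j)).2

/-- PROOF. Some `q` with `μ(q) ≠ 0` has `lz φ z q = 0` (`aeval_f`); it is not a `c j` (`unb`), so
it is `below (P j)` for some `j` (`Zs.zero`), and `P j` is a fixed point by `Dat.Ok.fixed`. `m =
1` is impossible because `μ(q) < m`. -/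
theorem Dat.Ok.fixed_of_zero {D : Dat σ a n} (h : D.Ok) {z : Fin (n + 1) → k}
    {P : Fin a → Place k L} (hP : Zs (F := k) D.c D.φ z (fun j => res (σ := σ) (kp P j)))
    (hf : MvPolynomial.aeval z D.f = 0) : ∃ j, actP σ 1 (P j) = P j ∧ 1 < D.m := by
  rw [Dat.aeval_f] at hf
  obtain ⟨q, hq, hq0⟩ := Finset.prod_eq_zero_iff.1 hf
  have hmu : D.mu q ≠ 0 := (h.mem_Br q).1 hq
  have hlz : lz D.φ z q = 0 := (pow_eq_zero_iff hmu).1 hq0
  have hqc : ∀ j, D.c j ≠ q := by
    rintro j rfl
    exact hmu (h.unb j)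
  obtain ⟨j, hj⟩ := (hP.zero q hqc).1 hlz
  have h5 : below (Subgroup.zpowers σ) (P j) = q := Sum.inr.inj hj
  refine ⟨j, h.fixed (by rw [h5]; exact hmu), ?_⟩
  have h6 := (h.ord_h q).2
  omega

/-- PROOF. `Zs.unique` for the images in `B` gives `π` with `below (P' j) = below (P (π j))`,
`exists_actP` gives `i j` with `P' j = actP σ (i j) (P (π j))`. By `fixed_of_zero`'s argument (`w
≠ 0`, so `f(z) ≠ 0`, `lz φ z q ≠ 0` for all `q` with `μ(q) ≠ 0`) and `Zs.zero` the places `below
(P j)` have `μ = 0`. Choose `b` with `A(q) + ord q b = 0` at the `c j` and the `below (P j)`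
(`exists_adm`). The formula `eq` for both tuples: the right sides are the same, so `∏ val (P j) (y
b) = ∏ val (P' j) (y b)`. By `val_actP` and `pow_yb` the right side is `λ ^ (∑ i j) ∏ val (P (π
j)) (y b)`, and these values are not zero. So `λ ^ (∑ i j) = 1` and `m` divides the sum. -/
theorem Dat.Ok.rl_unique {D : Dat σ a n} (h : D.Ok) {z : Fin (n + 1) → k} {w : k}
    (hw : w ^ D.m = MvPolynomial.aeval z D.f) (hw0 : w ≠ 0) {P P' : Fin a → Place k L}
    (hP : D.Rl (F := k) z w (kp P)) (hP' : D.Rl (F := k) z w (kp P')) :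
    ∃ (π : Equiv.Perm (Fin a)) (i : Fin a → ℕ), (∀ j, P' j = actP σ (i j) (P (π j))) ∧
      D.m ∣ ∑ j, i j := by
  have hKc := h.curveK
  obtain ⟨π, hπ⟩ := Zs.unique (S := fun j => below (Subgroup.zpowers σ) (P j))
    (S' := fun j => below (Subgroup.zpowers σ) (P' j)) hKc hP.zs hP'.zs
  have h1 : ∀ j, ∃ i : ℕ, P' j = actP σ i (P (π j)) := fun j => exists_actP h.curve (hπ j).symm
  choose i hi using h1
  refine ⟨π, i, hi, ?_⟩
  have hf0 : MvPolynomial.aeval z D.f ≠ 0 := by
    rw [← hw]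
    exact pow_ne_zero _ hw0
  rw [Dat.aeval_f, Finset.prod_ne_zero_iff] at hf0
  have hmu : ∀ j, D.mu (below (Subgroup.zpowers σ) (P j)) = 0 := by
    intro j
    by_contra hj
    have h2 := hf0 _ ((h.mem_Br _).2 hj)
    have hqc : ∀ j', D.c j' ≠ below (Subgroup.zpowers σ) (P j) := by
      intro j' hj'
      exact hj (by rw [← hj']; exact h.unb j')
    have h3 : lz D.φ z (below (Subgroup.zpowers σ) (P j)) = 0 :=
      (hP.zs.zero _ hqc).2 ⟨j, rfl⟩
    rw [h3, zero_pow hj] at h2
    exact h2 rfl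
  obtain ⟨b, hb, hbT⟩ := h.exists_adm (Finset.univ.image D.c ∪
    Finset.univ.image fun j => below (Subgroup.zpowers σ) (P j))
  have hyb := rlc_yb_ne h.ne hb
  have hc : ∀ j, ord (D.P0 j) (D.y * (b : L)) = 0 := by
    intro j
    rw [h.ord_yb_zero _ hb]
    exact ⟨h.unb j, hbT _ (Finset.mem_union_left _
      (Finset.mem_image_of_mem D.c (Finset.mem_univ j)))⟩
  have hO : ∀ j, ord (P j) (D.y * (b : L)) = 0 := by
    intro j
    rw [h.ord_yb_zero _ hb]
    exact ⟨hmu j, hbT _ (Finset.mem_union_right _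
      (Finset.mem_image_of_mem (fun j => below (Subgroup.zpowers σ) (P j))
        (Finset.mem_univ j)))⟩
  have hO' : ∀ j, ord (P' j) (D.y * (b : L)) = 0 := by
    intro j
    rw [h.ord_yb_zero _ hb, hi j, below_actP]
    exact (h.ord_yb_zero _ hb).1 (hO (π j))
  have hT : ∀ q : Place k (KK σ), D.A q + ord q b ≠ 0 →
      q ∈ (finite_ord hKc D.h).toFinset ∪ (finite_ord hKc b).toFinset := by
    intro q hq
    by_contra hcon
    rw [Finset.mem_union, not_or, Set.Finite.mem_toFinset, Set.Finite.mem_toFinset] at hcon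
    have h2 : ord q D.h = 0 := by
      by_contra h3
      exact hcon.1 h3
    have h3 : ord q b = 0 := by
      by_contra h3
      exact hcon.2 h3
    apply hq
    unfold Dat.A
    rw [h2, h3]
    simp
  have e1 := hP.eq b hb hc (fun j c hj => by
    rw [← Sum.inr.inj hj]
    exact hO j) _ hT
  have e2 := hP'.eq b hb hc (fun j c hj => by
    rw [← Sum.inr.inj hj]
    exact hO' j) _ hT
  rw [← e2] at e1
  change ∏ j, val (P j) (D.y * (b : L)) = ∏ j, val (P' j) (D.y * (b : L)) at e1
  have e3 : ∀ j, val (P' j) (D.y * (b : L)) =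
      D.lam ^ i j * val (P (π j)) (D.y * (b : L)) := by
    intro j
    rw [hi j, val_actP, h.pow_yb]
    exact val_eq ((Place.at_const _).mul (at_val h.curve
      ((mem_iff_ord h.curve hyb).2 (hO (π j)).ge)))
  rw [Finset.prod_congr rfl fun j _ => e3 j, Finset.prod_mul_distrib,
    Equiv.prod_comp π fun j => val (P j) (D.y * (b : L)),
    Finset.prod_pow_eq_pow_sum] at e1
  have e4 : ∏ j, val (P j) (D.y * (b : L)) ≠ 0 :=
    Finset.prod_ne_zero_iff.2 fun j _ => rlc_val_ne h.curve hyb (hO j)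
  have e5 : D.lam ^ (∑ j, i j) = 1 := by
    have e6 : D.lam ^ (∑ j, i j) * ∏ j, val (P j) (D.y * (b : L)) =
        1 * ∏ j, val (P j) (D.y * (b : L)) := by
      rw [← e1, one_mul]
    exact mul_right_cancel₀ e4 e6
  exact h.prim.dvd_of_pow_eq_one _ e5

/-- PROOF. The images in `B` do not change (`below_actP`), so `zs` is the same. `eq`: the value of
`y b` at `actP σ 1 (P j)` is `λ` times the value at `P j` (`val_actP`, `pow_yb`), and `y b` has
order zero at `actP σ 1 (P j)` iff it has order zero at `P j` (`ord_yb_zero`, `below_actP`). -/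
theorem Dat.Ok.rl_shift {D : Dat σ a n} (h : D.Ok) {z : Fin (n + 1) → k} {w : k}
    {P : Fin a → Place k L} (hP : D.Rl (F := k) z w (kp P)) (j : Fin a) :
    D.Rl (F := k) z (D.lam * w) (kp (Function.update P j (actP σ 1 (P j)))) := by
  have hres : ∀ i, below (Subgroup.zpowers σ) (Function.update P j (actP σ 1 (P j)) i) =
      below (Subgroup.zpowers σ) (P i) := by
    intro i
    by_cases hij : i = j
    · subst hij
      rw [Function.update_self, below_actP]
    · rw [Function.update_of_ne hij]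
  have hfun : (fun i => res (σ := σ) (kp (Function.update P j (actP σ 1 (P j))) i)) =
      fun i => res (σ := σ) (kp P i) := by
    funext i
    exact congrArg (Sum.inr (α := KK σ →ₐ[k] k)) (hres i)
  refine ⟨?_, ?_⟩
  · rw [hfun]
    exact hP.zs
  · intro b hb hc hS T hT
    have hyb := rlc_yb_ne h.ne hb
    have hO : ∀ i, ord (P i) (D.y * (b : L)) = 0 := by
      intro i
      have h1 : ord (Function.update P j (actP σ 1 (P j)) i) (D.y * (b : L)) = 0 := hS i _ rfl
      rw [h.ord_yb_zero _ hb, hres i] at h1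
      exact (h.ord_yb_zero _ hb).2 h1
    have e1 := hP.eq b hb hc (fun i c hi => by
      rw [← Sum.inr.inj hi]
      exact hO i) T hT
    have e2 : ∏ i, ev (kp (Function.update P j (actP σ 1 (P j))) i) (D.y * (b : L)) =
        D.lam * ∏ i, ev (kp P i) (D.y * (b : L)) := by
      change ∏ i, val (Function.update P j (actP σ 1 (P j)) i) (D.y * (b : L)) =
        D.lam * ∏ i, val (P i) (D.y * (b : L))
      have e3 : val (actP σ 1 (P j)) (D.y * (b : L)) = D.lam * val (P j) (D.y * (b : L)) := by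
        rw [val_actP, h.pow_yb, pow_one]
        exact val_eq ((Place.at_const _).mul (at_val h.curve
          ((mem_iff_ord h.curve hyb).2 (hO j).ge)))
      rw [← Finset.mul_prod_erase Finset.univ _ (Finset.mem_univ j),
        ← Finset.mul_prod_erase Finset.univ (fun i => val (P i) (D.y * (b : L)))
          (Finset.mem_univ j), Function.update_self, e3, mul_assoc]
      congr 2
      refine Finset.prod_congr rfl fun i hi => ?_
      rw [Function.update_of_ne (Finset.ne_of_mem_erase hi)]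
    rw [e2, e1]
    ring

/-- PROOF. `lz φ (c z) q = c lz φ z q`, `∑ ord q b = 0` and `∑ (A(q) + ord q b) = - e`. -/
theorem Dat.Ok.rl_smul {D : Dat σ a n} (h : D.Ok) {z : Fin (n + 1) → k} {w : k}
    {P : Fin a → Place k L} (hP : D.Rl (F := k) z w (kp P)) {c : k} (hc : c ≠ 0) :
    D.Rl (F := k) (fun i => c * z i) (c ^ D.e * w) (kp P) := by
  have hlz : ∀ q : Place k (KK σ),
      lz D.φ (fun i => c * z i : Fin (n + 1) → k) q = c * lz D.φ z q := by
    intro q
    unfold lz
    rw [Finset.mul_sum]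
    exact Finset.sum_congr rfl fun i _ => mul_assoc _ _ _
  have hpr : ∀ (r : Place k (KK σ) → ℤ) (T : Finset (Place k (KK σ))),
      ∏ q ∈ T, lz D.φ (fun i => c * z i : Fin (n + 1) → k) q ^ r q =
        c ^ (∑ q ∈ T, r q) * ∏ q ∈ T, lz D.φ z q ^ r q := by
    intro r T
    rw [← rlc_prod hc (fun q => lz D.φ z q) r T]
    exact Finset.prod_congr rfl fun q _ => by rw [hlz q]
  refine ⟨⟨?_, ?_⟩, ?_⟩
  · intro b hb hc' hS T hT
    have e1 := hP.zs.weil b hb hc' hS T hT
    rw [hpr, rlc_sum_ord h.curveK hT, zpow_zero, one_mul]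
    exact e1
  · intro q hq
    rw [hlz q, mul_eq_zero, or_iff_right hc]
    exact hP.zs.zero q hq
  · intro b hb hc' hS T hT
    have e1 := hP.eq b hb hc' hS T hT
    rw [hpr, h.sum_A hb T hT, e1, zpow_neg, zpow_natCast]
    have h4 : c ^ D.e ≠ 0 := pow_ne_zero _ hc
    field_simp

private theorem Dat.Ok.lz_base {D : Dat σ a n} (h : D.Ok) (q : Place k (KK σ)) :
    lz D.φ (Pi.single 0 1 : Fin (n + 1) → k) q = 1 := by
  unfold lz
  rw [Finset.sum_eq_single (0 : Fin (n + 1))]
  · rw [Pi.single_eq_same, one_mul, h.lin.one]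
    change val q (1 : KK σ) = 1
    have h1 := Place.at_const (v := q) (1 : k)
    rw [_root_.map_one] at h1
    exact val_eq h1
  · intro i _ hi
    rw [Pi.single_eq_of_ne hi, zero_mul]
  · intro h1
    exact absurd (Finset.mem_univ _) h1

/-- PROOF. `lz φ (1, 0, …, 0) q = val q 1 = 1`. -/
theorem Dat.Ok.rl_base {D : Dat σ a n} (h : D.Ok) :
    D.Rl (F := k) (Pi.single 0 1) 1 (kp D.P0) := by
  have hpr : ∀ (r : Place k (KK σ) → ℤ) (T : Finset (Place k (KK σ))),
      ∏ q ∈ T, lz D.φ (Pi.single 0 1 : Fin (n + 1) → k) q ^ r q = 1 := fun r T =>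
    Finset.prod_eq_one fun q _ => by rw [h.lz_base q, one_zpow]
  refine ⟨⟨?_, ?_⟩, ?_⟩
  · intro b _ _ _ T _
    rw [hpr, mul_one]
    rfl
  · intro q hq
    rw [h.lz_base q]
    constructor
    · intro h1
      exact absurd h1 one_ne_zero
    · rintro ⟨j, hj⟩
      exact absurd (Sum.inr.inj hj) (hq j)
  · intro b _ _ _ T _
    rw [hpr, mul_one, mul_one]
    rfl

/-- PROOF. `aeval_f`, `lz φ (1, 0, …, 0) q = 1`. -/
theorem Dat.Ok.f_base {D : Dat σ a n} (h : D.Ok) :
    MvPolynomial.aeval (Pi.single 0 1 : Fin (n + 1) → k) D.f = 1 := by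
  rw [Dat.aeval_f]
  exact Finset.prod_eq_one fun q _ => by rw [h.lz_base q, one_pow]

end Pool.Agent.CYC
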