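import Pool.Agent.CYC.RlB
import Pool.Agent.CYC.RlC
import Pool.Agent.CYC.Ext
import Pool.Agent.CYC.Fld

/-!
# The reduction of class functions on powers of curves to class functions on cyclic coverings
-/

set_option autoImplicit false

noncomputable section

namespace Pool.Agent.CYC

open Pool.Agent.ZCyc Pool.Agent.Dess Pool.Agent.TInc
open Pool.Agent.WFC (below stb)
open Pool.Agent.VFP (Om tt)
open scoped Classical

variable {k L : Type} [Field k] [IsAlgClosed k] [CharZero k] [Field L] [Algebra k L]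
  {σ : L ≃ₐ[k] L} [Finite (Subgroup.zpowers σ)] {a n : ℕ} {B V : Type*} [AddCommGroup V]
  [Module k V]

/-- `Φ` is a symmetric function of the `a` points, and it belongs to the eigenvalue `lam` of the
automorphism in every point. -/
structure SymE (σ : L ≃ₐ[k] L) (lam : k) (Φ : (Fin a → Place k L) → B → V) : Prop where
  perm : ∀ (P : Fin a → Place k L) (π : Equiv.Perm (Fin a)) (y : B), Φ (fun j => P (π j)) y = Φ P y
  eig : ∀ (P : Fin a → Place k L) (j : Fin a) (y : B),
    Φ (Function.update P j (actP σ 1 (P j))) y = lam • Φ P y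

omit [IsAlgClosed k] [CharZero k] [Finite (Subgroup.zpowers σ)] in
private theorem mem_actP (i : ℕ) (c : Place k L) (x : L) :
    x ∈ (actP σ i c).ring ↔ (σ ^ i) x ∈ c.ring := by
  unfold actP
  rw [Place.mem_map, AlgEquiv.symm_symm]

omit [IsAlgClosed k] [CharZero k] [Finite (Subgroup.zpowers σ)] in
private theorem actP_zero (c : Place k L) : actP σ 0 c = c := by
  apply Place.ext
  ext x
  rw [mem_actP, pow_zero]
  rfl

omit [IsAlgClosed k] [CharZero k] [Finite (Subgroup.zpowers σ)] in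
private theorem actP_succ (i : ℕ) (c : Place k L) :
    actP σ (i + 1) c = actP σ 1 (actP σ i c) := by
  apply Place.ext
  ext x
  rw [mem_actP, mem_actP, mem_actP, pow_one, pow_succ]
  rfl

/-- PROOF. Induction on `∑ i j`; `actP σ (i + 1) c = actP σ 1 (actP σ i c)`. -/
theorem SymE.act {lam : k} {Φ : (Fin a → Place k L) → B → V} (h : SymE σ lam Φ)
    (P : Fin a → Place k L) (i : Fin a → ℕ) (y : B) :
    Φ (fun j => actP σ (i j) (P j)) y = lam ^ (∑ j, i j) • Φ P y := by
  have key : ∀ (N : ℕ) (i : Fin a → ℕ), ∑ j, i j = N →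
      Φ (fun j => actP σ (i j) (P j)) y = lam ^ N • Φ P y := by
    intro N
    induction N with
    | zero =>
      intro i hi
      have h0 : ∀ j, i j = 0 := by simpa using hi
      have h1 : (fun j => actP σ (i j) (P j)) = P := by
        funext j
        rw [h0 j, actP_zero]
      rw [h1, pow_zero, one_smul]
    | succ N ih =>
      intro i hi
      obtain ⟨j₀, -, hj₀⟩ : ∃ j ∈ Finset.univ, i j ≠ 0 := by
        by_contra hcon
        push Not at hcon
        rw [Finset.sum_eq_zero hcon] at hi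
        omega
      obtain ⟨r, hr⟩ := Nat.exists_eq_succ_of_ne_zero hj₀
      have h2 : ∑ j, Function.update i j₀ r j = N := by
        rw [Finset.sum_update_of_mem (Finset.mem_univ j₀)]
        have h3 := Finset.add_sum_erase Finset.univ i (Finset.mem_univ j₀)
        rw [Finset.sdiff_singleton_eq_erase]
        omega
      have h3 : (fun j => actP σ (i j) (P j)) =
          Function.update (fun j => actP σ (Function.update i j₀ r j) (P j)) j₀
            (actP σ 1 (actP σ (Function.update i j₀ r j₀) (P j₀))) := by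
        funext j
        by_cases hj : j = j₀
        · subst hj
          rw [Function.update_self, Function.update_self, ← actP_succ, hr]
        · rw [Function.update_of_ne hj, Function.update_of_ne hj]
      rw [h3]
      have h4 := h.eig (fun j => actP σ (Function.update i j₀ r j) (P j)) j₀ y
      rw [h4, ih _ h2, smul_smul, pow_succ']
  exact key _ i rfl

/-- the class function on the covering -/
def Dat.g (D : Dat σ a n) (Φ : (Fin a → Place k L) → B → V) (x : (Spc.wv k n D.m D.e D.f).pt)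
    (y : B) : V :=
  if h : x.1.2 ≠ 0 ∧ ∃ P : Fin a → Place k L, D.Rl (F := k) x.1.1 x.1.2 (kp P) then
    Φ h.2.choose y else 0

theorem Dat.g_or (D : Dat σ a n) (Φ : (Fin a → Place k L) → B → V)
    (x : (Spc.wv k n D.m D.e D.f).pt) :
    (∀ y, D.g Φ x y = 0) ∨ ∃ P : Fin a → Place k L, ∀ y, D.g Φ x y = Φ P y := by
  unfold Dat.g
  split_ifs with h
  · exact Or.inr ⟨h.2.choose, fun _ => rfl⟩
  · exact Or.inl fun _ => rfl

/-- PROOF. `rl_unique` and `SymE.act`, `SymE.perm`: `P' j = actP σ (i j) (P (π j))`, so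
`Φ P' = λ ^ (∑ i j) Φ (P ∘ π) = Φ P`, because `m` divides the sum and `λ ^ m = 1`. -/
theorem Dat.g_eq {D : Dat σ a n} (hD : D.Ok) {Φ : (Fin a → Place k L) → B → V}
    (hΦ : SymE σ D.lam Φ) {x : (Spc.wv k n D.m D.e D.f).pt} (hx : x.1.2 ≠ 0)
    {P : Fin a → Place k L} (hP : D.Rl (F := k) x.1.1 x.1.2 (kp P)) (y : B) :
    D.g Φ x y = Φ P y := by
  have h : x.1.2 ≠ 0 ∧ ∃ P : Fin a → Place k L, D.Rl (F := k) x.1.1 x.1.2 (kp P) := ⟨hx, P, hP⟩
  unfold Dat.g
  rw [dif_pos h]
  obtain ⟨π, i, h1, h2⟩ := hD.rl_unique x.2.2 hx hP h.2.choose_spec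
  have h3 : h.2.choose = fun j => actP σ (i j) ((fun j => P (π j)) j) := funext h1
  rw [h3, hΦ.act, hΦ.perm]
  obtain ⟨r, hr⟩ := h2
  rw [hr, pow_mul, hD.prim.pow_eq_one, one_pow, one_smul]

/-- Every point of the covering with `w ≠ 0` comes from a tuple.
PROOF. Consider `x` as a point over `Om k` (coordinates `algebraMap k (Om k)`), apply `exists_rl`,
and specialise (`rl_spec`) at an arbitrary place `v` of `Om k` (for example a place with `v.At (tt
k) 0`, `Pool.Agent.ZCyc` `exists_place`), `l = 1`; the values of the `P j` exist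
(`TInc.exists_below`). -/
theorem Dat.exists_P {D : Dat σ a n} (hD : D.Ok) (ha : 0 < a) {x : (Spc.wv k n D.m D.e D.f).pt}
    (hx : x.1.2 ≠ 0) : ∃ P : Fin a → Place k L, D.Rl (F := k) x.1.1 x.1.2 (kp P) := by
  obtain ⟨v, -⟩ := exists_place (VFP.tt_transc (k := k)) (0 : k)
  let X := (Spc.wv k n D.m D.e D.f).cst (F := Om k) x
  have hX0 : X.1.2 ≠ 0 := fun h0 => hx ((map_eq_zero (algebraMap k (Om k))).1 h0)
  obtain ⟨P, hP⟩ := hD.exists_rl ha X.2.1 X.2.2 hX0
  have h1 : ∀ j, ∃ p : Place k L, IsV v (P j) p := by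
    intro j
    rcases P j with τ | c
    · obtain ⟨c, hc⟩ := exists_below hD.curve v τ
      exact ⟨c, hc.symm⟩
    · exact ⟨c, rfl⟩
  choose p hp using h1
  obtain ⟨l, h2, h3⟩ := (Spc.wv k n D.m D.e D.f).val_cst v x
  exact ⟨p, hD.rl_spec h2 x.2.1 h3 hP hp⟩

/-- PROOF. If `w = 0` both sides are zero. Otherwise take `P` with `Rl` (`exists_P`); by `rl_shift`
the tuple with `P 0` replaced by `actP σ 1 (P 0)` belongs to `(z, λ w)`; `g_eq` twice and
`SymE.eig`. -/
theorem Dat.g_tw {D : Dat σ a n} (hD : D.Ok) (ha : 0 < a) {Φ : (Fin a → Place k L) → B → V}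
    (hΦ : SymE σ D.lam Φ) (x : (Spc.wv k n D.m D.e D.f).pt) (y : B) :
    D.g Φ (tw D.lam hD.prim.pow_eq_one x) y = D.lam • D.g Φ x y := by
  have hl : D.lam ≠ 0 := hD.prim.ne_zero hD.pos.ne'
  by_cases hx : x.1.2 = 0
  · have h1 : (tw D.lam hD.prim.pow_eq_one x).1.2 = 0 := by
      change D.lam * x.1.2 = 0
      rw [hx, mul_zero]
    unfold Dat.g
    rw [dif_neg fun h => h.1 h1, dif_neg fun h => h.1 hx, smul_zero]
  · obtain ⟨P, hP⟩ := Dat.exists_P hD ha hx
    have h1 : (tw D.lam hD.prim.pow_eq_one x).1.2 ≠ 0 := mul_ne_zero hl hx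
    rw [Dat.g_eq hD hΦ hx hP, Dat.g_eq hD hΦ h1 (hD.rl_shift hP ⟨0, ha⟩), hΦ.eig]

/-- PROOF. `rl_base`, `g_eq`. -/
theorem Dat.g_base {D : Dat σ a n} (hD : D.Ok) {Φ : (Fin a → Place k L) → B → V}
    (hΦ : SymE σ D.lam Φ) (x : (Spc.wv k n D.m D.e D.f).pt)
    (hx : x.1 = (Pi.single 0 1, 1)) (y : B) : D.g Φ x y = Φ D.P0 y := by
  refine Dat.g_eq hD hΦ ?_ ?_ y
  · rw [hx]
    exact one_ne_zero
  · rw [hx]
    exact hD.rl_base

/-- PROOF. Let `F` be a function field, `(x, Q)` a point over `F`, `p v` values, `φ`, `D'` a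
function and its divisor. If `x.w = 0` then all values have `w = 0` (`l ^ e * 0` has the value `w`),
and `g = 0`. Let `x.w ≠ 0`. Embed `F` in `Om k` (`ι`, `GT.exists_embed`). The point `(ι z, ι w)`
satisfies `(ι w) ^ m = f(ι z)`, `ι z ≠ 0`; let `P` be the tuple of `exists_rl`, and take the data of
`exists_data`. For all places `u` of `N`, `v = b u`: `g (p v) = Φ (p' u, (p v).2)`, where `p' u` are
the values of the `P j` at `V u`: (1) `rl_spec` at `V u` for `ι l`, where `l` is the multiplier for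
`p v` (the values at `V u` of elements `ι x` are the values at `v` of `x`, since `v.ring` is the
preimage of `(V u).ring`), gives `Rl` for the coordinates `(p v).1` and `p' u`. (2) If `w ≠ 0` at `p
v`: `g_eq`. (3) If `w = 0`: `g = 0`, and some `p' u j` is a fixed point, `1 < m` (`fixed_of_zero`),
so `Φ (p' u) = λ Φ (p' u)` by `SymE.eig` (`Function.update_eq_self`), `λ ≠ 1`, so it is zero. Now
the class function `Φ` on `C ^ a × Y` gives the relation over `N` for `ι' φ` and the points `P'`,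
`Y.map ι' Q` with the values `p' u`, `(p (b u)).2` (`Y.val_map`); its divisor exists (`TInc.dv`,
`ord_hasOrd`). `sum_ext`. -/
theorem Dat.g_cf {D : Dat σ a n} (hD : D.Ok) (ha : 0 < a) {Y : Spc k}
    {Φ : (Fin a → Place k L) → Y.pt → V} (hΦ : SymE σ D.lam Φ)
    (hcf : CF (Y := (Spc.cv k L a).prod Y) fun p => Φ p.1 p.2) :
    CF (Y := (Spc.wv k n D.m D.e D.f).prod Y) fun p => D.g Φ p.1 p.2 := by
  intro F _ _ hF P p φ D' hφ hD' hval
  by_cases hX : P.1.1.2 = 0
  · refine Finset.sum_eq_zero fun v _ => ?_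
    obtain ⟨l, -, h1⟩ := (hval v).1
    have h2 : (p v).1.1.2 = 0 := by
      rw [hX, mul_zero] at h1
      have h3 := Place.at_const (v := v) (0 : k)
      rw [map_zero] at h3
      exact Place.At.unique h1 h3
    have h3 : D.g Φ (p v).1 (p v).2 = 0 := by
      unfold Dat.g
      exact dif_neg fun h => h.1 h2
    change D' v • D.g Φ (p v).1 (p v).2 = 0
    rw [h3, smul_zero]
  obtain ⟨t, ht, hfin⟩ := id hF
  obtain ⟨c, -⟩ := exists_place ht (0 : k)
  obtain ⟨ι, -, -⟩ := GT.exists_embed hF c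
  let X := (Spc.wv k n D.m D.e D.f).map ι P.1
  have hX0 : X.1.2 ≠ 0 := fun h0 => hX ((map_eq_zero ι).1 h0)
  obtain ⟨R, hR⟩ := hD.exists_rl ha X.2.1 X.2.2 hX0
  obtain ⟨N, _, _, hN, ι', P', V, p', b, h1, h2, h3, h4⟩ := exists_data hD.curve hF ι R
  have hg : ∀ u, D.g Φ (p (b u)).1 (p (b u)).2 = Φ (p' u) (p (b u)).2 := by
    intro u
    obtain ⟨l, h5, h6⟩ := (Spc.wv k n D.m D.e D.f).val_map ι (V u) (b u) (h4 u) P.1
      (p (b u)).1 (hval (b u)).1
    have hrl := hD.rl_spec h5 (p (b u)).1.2.1 h6 hR (h2 u)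
    by_cases hw : (p (b u)).1.1.2 = 0
    · have h7 : D.g Φ (p (b u)).1 (p (b u)).2 = 0 := by
        unfold Dat.g
        exact dif_neg fun h => h.1 hw
      have h8 : MvPolynomial.aeval (p (b u)).1.1.1 D.f = 0 := by
        rw [← (p (b u)).1.2.2, hw, zero_pow hD.pos.ne']
      obtain ⟨j, h9, h10⟩ := hD.fixed_of_zero hrl.zs h8
      have h11 := hΦ.eig (p' u) j (p (b u)).2
      rw [h9, Function.update_eq_self] at h11
      have h12 : D.lam ≠ 1 := by
        intro h0
        have h13 := hD.prim.unique (h0 ▸ IsPrimitiveRoot.one)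
        omega
      have h13 : (1 - D.lam) • Φ (p' u) (p (b u)).2 = 0 := by
        rw [sub_smul, one_smul, ← h11, sub_self]
      rw [h7]
      exact ((smul_eq_zero.1 h13).resolve_left (sub_ne_zero.2 h12.symm)).symm
    · exact Dat.g_eq hD hΦ hw hrl _
  refine sum_ext hF hN ι' hφ (fun v => D.g Φ (p v).1 (p v).2) D' hD' (dv hN (ι' φ)) ?_ b h3 ?_
  · intro u
    exact ord_hasOrd hN u fun h0 => hφ ((map_eq_zero ι').1 h0)
  · simp only [hg]
    refine hcf N hN (P', Y.map ι' P.2) (fun u => (p' u, (p (b u)).2)) (ι' φ) (dv hN (ι' φ))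
      (fun h0 => hφ ((map_eq_zero ι').1 h0)) ?_ ?_
    · intro u
      exact ord_hasOrd hN u fun h0 => hφ ((map_eq_zero ι').1 h0)
    · intro u
      exact ⟨h1 u, Y.val_map ι' u (b u) (h3 u) _ _ (hval (b u)).2⟩

end Pool.Agent.CYC
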