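import Pool.Agent.CYC.Rdn
import Pool.Agent.CYC.Red
import Pool.Agent.CYC.Dim

/-!
# The reduction for powers of curves
-/

set_option autoImplicit false

noncomputable section

namespace Pool.Agent.CYC

open Pool.Agent.ZCyc Pool.Agent.Dess Pool.Agent.TInc
open Pool.Agent.WFC (below stb)
open scoped Classical

variable {k : Type} [Field k]

/-- if the number of the points is less than the genus of the quotient then no eigenspace is small -/
theorem InD_of_lt {C : Cv k} {a : ℕ} (ha : 0 < a) {t : k} (ht : t ≠ 1)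
    (htN : t ^ orderOf C.σ = 1) (h : a < genusQ C.σ) : C.InD t (a - 1) := by
  refine ⟨htN, fun h1 => absurd h1 ht, fun _ => ?_⟩
  refine le_trans (Nat.mul_le_mul_left _ ?_) (Nat.le_add_right _ _)
  omega

variable [IsAlgClosed k] [CharZero k]

theorem exists_rdn_curve {C : Cv k} {a : ℕ} (ha : 0 < a) {t : k} (ht : t ≠ 1)
    (htN : t ^ orderOf C.σ = 1) {Y : Spc k} {V : Type} [AddCommGroup V] [Module k V]
    {Φ : (Fin a → Place k C.L) → Y.pt → V}
    (hcf : CF (Y := (Spc.cv k C.L a).prod Y) fun p => Φ p.1 p.2) (h : SymE C.σ t Φ)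
    (hs : ¬ C.InD t⁻¹ (a - 1) ∨ ¬ C.InD t (a - 1)) [Finite (Subgroup.zpowers C.σ)]
    (P0 : Fin a → Place k C.L)
    (hP : Function.Injective fun j => below (Subgroup.zpowers C.σ) (P0 j))
    (hfix : ∀ j, (P0 j).map C.σ ≠ P0 j) :
    Nonempty (Rdn Φ P0 t (¬ C.InD t⁻¹ (a - 1)) (¬ C.InD t (a - 1))) := by
  have hpos : 0 < orderOf C.σ := C.ok.pos
  have hag : genusQ C.σ ≤ a := by
    by_contra h1
    rw [not_le] at h1
    rcases hs with hs | hs
    · exact hs (InD_of_lt ha (inv_ne_one.2 ht) (by rw [inv_pow, htN, inv_one]) h1)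
    · exact hs (InD_of_lt ha ht htN h1)
  have hprim : IsPrimitiveRoot t (orderOf t) := IsPrimitiveRoot.orderOf t
  obtain ⟨D, hD, hlam, -, hP0, -⟩ := exists_dat C.ok hprim htN (a := a) (n := a - genusQ C.σ)
    (by omega) P0 hP (fun _ => hfix)
  subst hlam
  subst hP0
  obtain ⟨F, G, α, β, hF, hG, hf, h1, h2, h3, h4, h5⟩ := hD.split C.ok ht
  obtain ⟨h6, h7⟩ := hD.small ht ha
  exact ⟨{
    n := a - genusQ C.σ
    m := D.m
    e := D.e
    e' := D.Br.card - D.e
    α := α
    β := β
    F := F
    G := G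
    f := D.f
    hf := hf
    two_le := h3
    prim := hD.prim
    homF := hF
    homG := hG
    eq := h1
    eq' := by omega
    pos := h4
    pos' := by omega
    g := D.g Φ
    cf := D.g_cf hD ha h hcf
    tw := D.g_tw hD ha h
    or := D.g_or Φ
    base := fun h8 y => by
      have hne : (Pi.single 0 1 : Fin (a - genusQ C.σ + 1) → k) ≠ 0 := fun h0 => by
        have h1 := congrFun h0 0
        rw [Pi.single_eq_same] at h1
        exact one_ne_zero h1
      have h9 := D.g_base hD h ⟨(Pi.single 0 1, 1), hne, by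
        change (1 : k) ^ D.m = _
        rw [one_pow]
        exact hD.f_base.symm⟩ rfl y
      rw [← h9]
      exact h8 _ _
    le := fun h8 => by
      have := h6 h8
      omega
    le' := fun h8 => by
      have := h7 h8
      omega }⟩

end Pool.Agent.CYC
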