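import Pool.Agent.Dess.Defs
import Pool.Agent.EFC.Defs

/-!
# Zero-cycles on products of curves and cyclic coverings with automorphisms: definitions

Let `k` be an algebraically closed field of characteristic `0`. We consider pairs `(X, s)` of a
projective variety `X` over `k` and an automorphism `s` of `X`, of the following two kinds.

(a) `X` is a smooth projective curve and `s` has the order `1`, `2`, `3`, `4` or `6` and a fixed point;
all fixed points of the powers of `s` which are not the identity are fixed points of `s` (this is
automatic for the orders `1`, `2`, `3`). The curve is given by its function field `L`; its points are the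
places of `L` over `k`.

(b) `X` is the cyclic covering `w ^ m = F(x) G(x) ^ (m - 1)` of the projective space of dimension
`n ≥ 2`, `m = 2, 3, 4, 6`, and `s` is the multiplication of `w` by a primitive `m`-th root of unity `ζ`.

We consider products of such varieties, their zero-cycles, and the morphisms between such products
whose components are constant or a factor followed by a power of its automorphism.
-/

set_option autoImplicit false

noncomputable section

namespace Pool.Agent.CYC

open Pool.Agent.ZCyc Pool.Agent.Dess

/-- The conditions for the curves: `s` is given by the pull-back `σ` of functions. (`c.map (σ ^ i)` is the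
image of the point `c` under the inverse of `s ^ i`.) -/
structure OkC {k L : Type} [Field k] [Field L] [Algebra k L] (σ : L ≃ₐ[k] L) : Prop where
  curve : IsCurve k L
  order : orderOf σ = 1 ∨ orderOf σ = 2 ∨ orderOf σ = 3 ∨ orderOf σ = 4 ∨ orderOf σ = 6
  fixed : ∃ c : Place k L, c.map σ = c
  total : ∀ i : ℕ, σ ^ i ≠ 1 → ∀ c : Place k L, c.map (σ ^ i) = c → c.map σ = c

/-- The conditions for the coverings `w ^ m = F G ^ (m - 1)`: `F ≠ 0` and `G ≠ 0` are homogeneous of the
degrees `a` and `b`, the degree `a + (m - 1) b` of the right hand side is positive and divisible by `m`, `ζ`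
is a primitive `m`-th root of unity, and `o` is a zero of `F G`. -/
structure OkW {k : Type} [Field k] (n m a b : ℕ) (F G : MvPolynomial (Fin (n + 1)) k) (ζ : k)
    (o : Fin (n + 1) → k) : Prop where
  dim : 2 ≤ n
  order : m = 2 ∨ m = 3 ∨ m = 4 ∨ m = 6
  homF : F.IsHomogeneous a
  homG : G.IsHomogeneous b
  neF : F ≠ 0
  neG : G ≠ 0
  pos : 0 < a + (m - 1) * b
  dvd : m ∣ a + (m - 1) * b
  prim : IsPrimitiveRoot ζ m
  ne : o ≠ 0
  zero : MvPolynomial.eval o F * MvPolynomial.eval o G = 0

/-- A smooth projective curve `C` over `k` with function field `L`, with an automorphism `s`, which is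
given by the pull-back `σ` of functions. -/
structure Cv (k : Type) [Field k] : Type 1 where
  /-- the function field -/
  L : Type
  [field : Field L]
  [algebra : Algebra k L]
  /-- the pull-back of functions under `s` -/
  σ : L ≃ₐ[k] L
  ok : OkC σ

attribute [instance] Cv.field Cv.algebra

/-- The covering `w ^ m = F G ^ (m - 1)` of the projective space of dimension `n`, with the automorphism
`w ↦ ζ w`. Here `o` is a zero of `F G` (the base point), and `label` is a number without meaning, which
allows to distinguish several copies of one covering. -/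
structure Wv (k : Type) [Field k] : Type where
  /-- the dimension -/
  n : ℕ
  /-- the order of the automorphism -/
  m : ℕ
  /-- the degree of `F` -/
  a : ℕ
  /-- the degree of `G` -/
  b : ℕ
  /-- the form `F` -/
  F : MvPolynomial (Fin (n + 1)) k
  /-- the form `G` -/
  G : MvPolynomial (Fin (n + 1)) k
  /-- the root of unity -/
  ζ : k
  /-- the base point -/
  o : Fin (n + 1) → k
  /-- the label -/
  label : ℕ
  ok : OkW n m a b F G ζ o

/-- The degree of the coordinate `w`. -/
def Wv.e {k : Type} [Field k] (W : Wv k) : ℕ := (W.a + (W.m - 1) * W.b) / W.m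

/-- The pairs `(X, s)`. -/
inductive Vr (k : Type) [Field k] : Type 1
  | curve (C : Cv k) : Vr k
  | cover (W : Wv k) : Vr k

variable {k : Type} [Field k]

/-- the dimension of `X` -/
def Vr.dim : Vr k → ℕ
  | .curve _ => 1
  | .cover W => W.n

/-- The points of a curve are the places of its function field; the points of a covering are given by
homogeneous coordinates `x` and by the coordinate `w` of degree `W.e`. -/
def Vr.Crd : Vr k → Type
  | .curve C => Place k C.L
  | .cover W => (Fin (W.n + 1) → k) × k

/-- The points of `X` with coordinates in the function field `K` of another curve, i.e. morphisms from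
this curve to `X`. If `X` is a curve with function field `L`, then such a morphism is dominant, and
given by an embedding of `L` in `K`, or constant, and given by a point of `X`. -/
def Vr.CrdF (K : Type) [Field K] [Algebra k K] : Vr k → Type
  | .curve C => (C.L →ₐ[k] K) ⊕ Place k C.L
  | .cover W => (Fin (W.n + 1) → K) × K

/-- `w ^ m = F(x) G(x) ^ (m - 1)`, `x ≠ 0` -/
def Wv.On (W : Wv k) {K : Type} [Field K] [Algebra k K] (p : (Fin (W.n + 1) → K) × K) : Prop :=
  p.1 ≠ 0 ∧ p.2 ^ W.m = MvPolynomial.aeval p.1 W.F * MvPolynomial.aeval p.1 W.G ^ (W.m - 1)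

/-- `p` is a point of `X` -/
def Vr.On : (X : Vr k) → X.Crd → Prop
  | .curve _, _ => True
  | .cover W, p => W.On p

/-- `p` is a point of `X` with coordinates in `K` -/
def Vr.OnF {K : Type} [Field K] [Algebra k K] : (X : Vr k) → X.CrdF K → Prop
  | .curve _, _ => True
  | .cover W, p => W.On p

/-- The image of the point `v` of the curve with function field `K` under the morphism `P` to the curve
`C` is the point `p`. -/
def Cv.IsVal (C : Cv k) {K : Type} [Field K] [Algebra k K] (v : Place k K)
    (P : (C.L →ₐ[k] K) ⊕ Place k C.L) (p : Place k C.L) : Prop :=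
  Sum.elim (fun τ : C.L →ₐ[k] K => p.ring = v.ring.comap (τ : C.L →+* K)) (fun c => c = p) P

/-- The value of the point `P` of `W` with coordinates in `K` at the place `v`: homogeneous coordinates
`l x`, `l ^ e w` of `P` have the values `p`. -/
def Wv.IsVal (W : Wv k) {K : Type} [Field K] [Algebra k K] (v : Place k K)
    (P : (Fin (W.n + 1) → K) × K) (p : (Fin (W.n + 1) → k) × k) : Prop :=
  ∃ l : K, (∀ i, v.At (l * P.1 i) (p.1 i)) ∧ v.At (l ^ W.e * P.2) p.2

/-- The morphism `P` from the curve with function field `K` maps the point `v` to `p`. -/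
def Vr.IsVal {K : Type} [Field K] [Algebra k K] (v : Place k K) :
    (X : Vr k) → X.CrdF K → X.Crd → Prop
  | .curve C, P, p => C.IsVal v P p
  | .cover W, P, p => W.IsVal v P p

/-- The image of a point under `s ^ i`. -/
def Vr.act (i : ℕ) : (X : Vr k) → X.Crd → X.Crd
  | .curve C, c => Place.map c (C.σ ^ i).symm
  | .cover W, p => (p.1, W.ζ ^ i * p.2)

/-- The base point, a fixed point of `s`. -/
def Vr.o : (X : Vr k) → X.Crd
  | .curve C => C.ok.fixed.choose
  | .cover W => (W.o, 0)

/-- A point of one of the varieties. -/
abbrev Pt (k : Type) [Field k] : Type 1 := Σ X : Vr k, X.Crd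

variable {m m' : ℕ}

/-- Points for all of the `m` factors. -/
abbrev Pts (m : ℕ) (k : Type) [Field k] : Type 1 := Fin m → Pt k

/-- `x` is a point of the product of the varieties `X i`. -/
def OnP (X : Fin m → Vr k) (x : Pts m k) : Prop := ∀ i, (x i).1 = X i ∧ (x i).1.On (x i).2

/-- The zero-cycles on `X 0 × ⋯ × X (m - 1)` (finite formal combinations of points, given by
coordinates) which are rationally equivalent to zero, with rational coefficients: the span of the
push-forwards of the divisors `D` of all rational functions `f ≠ 0` on all smooth projective curves (with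
function field `K`) by all morphisms `P` to the product. (The constant morphisms show that it contains
the differences of two systems of coordinates of the same point.) -/
def ratEq (X : Fin m → Vr k) : Submodule ℚ (Pts m k →₀ ℚ) :=
  Submodule.span ℚ {z | ∃ (K : Type) (_ : Field K) (_ : Algebra k K) (_ : IsCurve k K)
    (P : ∀ i, (X i).CrdF K) (p : Place k K → ∀ i, (X i).Crd) (f : K) (D : Place k K →₀ ℤ),
    f ≠ 0 ∧ (∀ v, HasOrd v f (D v)) ∧
    (∀ i, (X i).OnF (P i)) ∧ (∀ v i, (X i).On (p v i) ∧ (X i).IsVal v (P i) (p v i)) ∧
    z = D.sum fun v n => Finsupp.single (fun i => ⟨X i, p v i⟩) (n : ℚ)}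

/-- A morphism from `X 0 × ⋯ × X (m - 1)` to the variety `Y`: a constant (a point of `Y`), or the
factor with number `i` (if it is equal to `Y`) followed by the automorphism `s ^ n`. -/
inductive Comp (X : Fin m → Vr k) (Y : Vr k) : Type 1
  | const (p : Y.Crd) (hp : Y.On p) : Comp X Y
  | fac (i : Fin m) (h : X i = Y) (n : ℕ) : Comp X Y

/-- The morphisms between products with such components: projections, diagonals, permutations,
constants, automorphisms of the factors, and everything composed from them. -/
abbrev Mor (X : Fin m → Vr k) (Y : Fin m' → Vr k) : Type 1 := ∀ j, Comp X (Y j)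

variable {X : Fin m → Vr k} {Y : Fin m' → Vr k}

/-- The value of the component at a point. -/
def Comp.app {Z : Vr k} (f : Comp X Z) (x : Pts m k) : Pt k :=
  match f with
  | .const p _ => ⟨Z, p⟩
  | .fac i _ n => ⟨(x i).1, (x i).1.act n (x i).2⟩

/-- The value of the morphism at a point. -/
def Mor.app (f : Mor X Y) (x : Pts m k) : Pts m' k := fun j => (f j).app x

/-- The push-forward of zero-cycles by a combination of morphisms (a correspondence). -/
def pushM (γ : Mor X Y →₀ ℚ) : (Pts m k →₀ ℚ) →ₗ[ℚ] (Pts m' k →₀ ℚ) :=
  γ.sum fun f c => c • Finsupp.lmapDomain ℚ ℚ f.app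

/-- The projection `π_T` of the product for a set `T` of factors: the points of the factors which are
not in `T` are replaced by the base point. -/
def proj (X : Fin m → Vr k) (T : Finset (Fin m)) (x : Pts m k) : Pts m k :=
  fun j => if j ∈ T then x j else ⟨X j, (X j).o⟩

/-- The dimension of the image of `π_T`. -/
def wt (X : Fin m → Vr k) (T : Finset (Fin m)) : ℕ := ∑ j ∈ T, (X j).dim

/-- The filtration: the zero-cycles on the product whose images under all projections `π_T` with an
image of dimension less than `ν` are rationally equivalent to zero. -/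
def Fil (X : Fin m → Vr k) (ν : ℕ) : Submodule ℚ (Pts m k →₀ ℚ) where
  carrier := {z | (∀ p ∈ z.support, OnP X p) ∧
    ∀ T : Finset (Fin m), wt X T < ν → Finsupp.lmapDomain ℚ ℚ (proj X T) z ∈ ratEq X}
  zero_mem' := ⟨by simp, fun T _ => by simp⟩
  add_mem' := by
    classical
    rintro z w ⟨h1, h2⟩ ⟨h3, h4⟩
    refine ⟨fun p hp => ?_, fun T hT => ?_⟩
    · rcases Finset.mem_union.1 (Finsupp.support_add hp) with h | h
      · exact h1 p h
      · exact h3 p h
    · rw [map_add]
      exact Submodule.add_mem _ (h2 T hT) (h4 T hT)
  smul_mem' := by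
    rintro c z ⟨h1, h2⟩
    refine ⟨fun p hp => h1 p (Finsupp.support_smul hp), fun T hT => ?_⟩
    rw [map_smul]
    exact Submodule.smul_mem _ _ (h2 T hT)

/-- The image of a zero-cycle in the factor `j`. -/
def toFac (j : Fin m) : (Pts m k →₀ ℚ) →ₗ[ℚ] (Pts 1 k →₀ ℚ) :=
  Finsupp.lmapDomain ℚ ℚ fun x _ => x j

section forms

variable {L : Type} [Field L] [Algebra k L]

/-- The genus of the quotient of the curve by the automorphism. -/
def genusQ (σ : L ≃ₐ[k] L) : ℕ :=
  EFC.genus k (IntermediateField.fixedField (Subgroup.zpowers σ) : IntermediateField k L)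

/-- the pull-back by `s` multiplies the cotangent vectors at the fixed point `c` by this number -/
def rot (σ : L ≃ₐ[k] L) (c : Place k L) : k := EFC.val c (σ (EFC.unif c) / EFC.unif c)

/-- the number of the fixed points `c` of `s` with `rot σ c ^ x = t` -/
def fixN (σ : L ≃ₐ[k] L) (x : ℕ) (t : k) : ℕ :=
  Nat.card {c : Place k L // c.map σ = c ∧ rot σ c ^ x = t}

end forms

/-- Let `m` be the order of `s`. `C.InD t i` says that `t` is an `m`-th root of unity and that `i < d`, where
`d` is the dimension of the space of the holomorphic differentials `ω` on `C` with `s ^* ω = t ω`: let `g` be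
the genus of the quotient, then `d = g` for `t = 1`, and otherwise (formula of Chevalley and Weil)
`m (d + 1) = m g + ∑ (m - x) #{c fixed point | rot c ^ x = t}`, the sum over `0 < x < m`. -/
def Cv.InD (C : Cv k) (t : k) (i : ℕ) : Prop :=
  t ^ orderOf C.σ = 1 ∧ (t = 1 → i < genusQ C.σ) ∧
    (t ≠ 1 → orderOf C.σ * (i + 2) ≤ orderOf C.σ * genusQ C.σ +
      ∑ x ∈ Finset.Ico 1 (orderOf C.σ), (orderOf C.σ - x) * fixN C.σ x t)

/-- `W.InD t i` says that `t` is an eigenvalue of `s ^*` on the forms of degree `n` on `W` of the following
list and that `i < d`, where `d` is the dimension of the eigenspace: the forms with `t = ζ ^ (- j)`,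
`0 < j < m`, are the `P G ^ (j - 1) / w ^ j ∑ ± x_i dx_0 ⋯ dx_n` (without `dx_i`), `P` homogeneous of degree
`q - n - 1`, `q = (j a + (m - j) b) / m`; the dimension of this space is the binomial coefficient
`(q - 1 over n)`. If `F G = 0` is reduced with normal crossings then these are the holomorphic forms on a
resolution. -/
def Wv.InD (W : Wv k) (t : k) (i : ℕ) : Prop :=
  ∃ j, 0 < j ∧ j < W.m ∧ W.ζ ^ j * t = 1 ∧ i < ((j * W.a + (W.m - j) * W.b) / W.m - 1).choose W.n

/-- `X.InD t i` says that `t` is an eigenvalue of `s ^*` on the forms of degree `dim X` on `X` (the holomorphic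
differentials of a curve, the forms in `Wv.InD` for a covering) and that `i` is less than the dimension of
the eigenspace. -/
def Vr.InD : Vr k → k → ℕ → Prop
  | .curve C, t, i => C.InD t i
  | .cover W, t, i => W.InD t i

/-- The indices of a basis of the forms on the product (the holomorphic forms on a resolution of its
singularities, if `F G = 0` is reduced with normal crossings for all coverings): `ω_(T, t, i)` is the
product, over all `j ∈ T` in their order, of forms `ω_(j, t_j, i_j)` of degree `dim (X j)` on `X j`; the
`ω_(j, t, i)` with `(X j).InD t i` are a basis of these forms on `X j`, and `s ^* ω = t ω`. (We put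
`t_j = 1`, `i_j = 0` if `j` is not in `T`.) -/
def IsForm (X : Fin m → Vr k) (T : Finset (Fin m)) (t : Fin m → k) (i : Fin m → ℕ) : Prop :=
  ∀ j, if j ∈ T then (X j).InD (t j) (i j) else t j = 1 ∧ i j = 0

/-- The number of the factor of a non-constant component. -/
def Comp.src {Z : Vr k} : Comp X Z → Option (Fin m)
  | .const _ _ => none
  | .fac i _ _ => some i

/-- The exponent of the automorphism in a component. -/
def Comp.exp {Z : Vr k} : Comp X Z → ℕ
  | .const _ _ => 0
  | .fac _ _ n => n

open Classical in
/-- The sign in `f^* ω_(T', t', i') = ± … ω_(T, t, i)` which comes from the order of the factors: the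
product of the signs `(-1) ^ (dim (Y j) dim (Y j'))` for all pairs `j < j'` in `T'` for which the numbers of
the factors of the components of `f` are in the inverse order. -/
def koszul (f : Mor X Y) (T' : Finset (Fin m')) : ℤ :=
  ∏ j ∈ T', ∏ j' ∈ T' with j < j' ∧ ∃ i i', (f j).src = some i ∧ (f j').src = some i' ∧ i' < i,
    (-1) ^ ((Y j).dim * (Y j').dim)

open Classical in
/-- The coefficient of `ω_(T, t, i)` in the pull-back of `ω_(T', t', i')` by the morphism `f`. It is
zero if a component of `f` with number `j ∈ T'` is constant, or if two such components have the same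
factor (since the product of two forms of degree `dim X` on `X` is zero). -/
def pullCoef (f : Mor X Y) (T : Finset (Fin m)) (t : Fin m → k) (i : Fin m → ℕ)
    (T' : Finset (Fin m')) (t' : Fin m' → k) (i' : Fin m' → ℕ) : k :=
  if (∀ j ∈ T', ∃ l ∈ T, (f j).src = some l ∧ t l = t' j ∧ i l = i' j) ∧
      ∀ l ∈ T, ∃! j, j ∈ T' ∧ (f j).src = some l then
    (koszul f T' : k) * ∏ j ∈ T', t' j ^ (f j).exp else 0

/-- The correspondence `γ` acts as zero on the `ν`-forms `ω_(T, t, i)`. -/
def KillsForms (γ : Mor X Y →₀ ℚ) (ν : ℕ) : Prop :=
  ∀ (T : Finset (Fin m)) (t : Fin m → k) (i : Fin m → ℕ) (T' : Finset (Fin m'))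
    (t' : Fin m' → k) (i' : Fin m' → ℕ), IsForm X T t i → IsForm Y T' t' i' → wt X T = ν →
      wt Y T' = ν → (γ.sum fun f c => (c : k) * pullCoef f T t i T' t' i') = 0

/-- No covering of dimension `≥ 2` occurs twice (with the same label) among the factors. -/
def NoRep (X : Fin m → Vr k) : Prop := ∀ i j, X i = X j → (X i).dim ≠ 1 → i = j

end Pool.Agent.CYC
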