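import Pool.Agent.CYC.RedW
import Pool.Agent.CYC.Defs

/-!
# The reduction for coverings
-/

set_option autoImplicit false

noncomputable section

namespace Pool.Agent.CYC

open Pool.Agent.ZCyc Pool.Agent.Dess Pool.Agent.TInc
open scoped Classical

variable {k : Type} [Field k]

/-- a primitive root of unity of the order `2`, `3`, `4` or `6` is equal to another one or to its inverse -/
theorem eq_or_inv {z t : k} {m : ℕ} (hz : IsPrimitiveRoot z m) (ht : IsPrimitiveRoot t m)
    (hm : m = 2 ∨ m = 3 ∨ m = 4 ∨ m = 6) : t = z ∨ t = z⁻¹ := by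
  have : NeZero m := ⟨by omega⟩
  obtain ⟨i, hi, hc, rfl⟩ := (hz.isPrimitiveRoot_iff).1 ht
  have h1 : i = 1 ∨ i + 1 = m := by
    rcases hm with rfl | rfl | rfl | rfl
    · interval_cases i
      · exact absurd hc (by decide)
      · exact Or.inl rfl
    · interval_cases i
      · exact absurd hc (by decide)
      · exact Or.inl rfl
      · exact Or.inr rfl
    · interval_cases i
      · exact absurd hc (by decide)
      · exact Or.inl rfl
      · exact absurd hc (by decide)
      · exact Or.inr rfl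
    · interval_cases i
      · exact absurd hc (by decide)
      · exact Or.inl rfl
      · exact absurd hc (by decide)
      · exact absurd hc (by decide)
      · exact absurd hc (by decide)
      · exact Or.inr rfl
  rcases h1 with rfl | h1
  · left
    rw [pow_one]
  · right
    refine eq_inv_of_mul_eq_one_left ?_
    rw [← pow_succ, h1, hz.pow_eq_one]

private theorem rdw_or {m m' : ℕ} (h : m = 2 ∨ m = 3 ∨ m = 4 ∨ m = 6) (hd : m' ∣ m)
    (h2 : 2 ≤ m') : m' = 2 ∨ m' = 3 ∨ m' = 4 ∨ m' = 6 := by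
  have h1 : m' ≤ m := Nat.le_of_dvd (by omega) hd
  obtain ⟨d, hd⟩ := hd
  rcases h with rfl | rfl | rfl | rfl <;> interval_cases m' <;> omega

private theorem rdw_arith {m m' d a b : ℕ} (hm : m = d * m') (hd : 0 < d) (hm' : 2 ≤ m')
    (h : m ∣ a + (m - 1) * b) : ∃ e e' : ℕ, m' * e = a + (m' - 1) * b ∧
      m' * e' = b + (m' - 1) * a ∧ e + e' = a + b ∧ (d * a + (m - d) * b) / m = e ∧
      ((m - d) * a + (m - (m - d)) * b) / m = e' := by
  obtain ⟨r, rfl⟩ : ∃ r, m' = r + 1 := ⟨m' - 1, by omega⟩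
  obtain ⟨s, rfl⟩ : ∃ s, d = s + 1 := ⟨d - 1, by omega⟩
  have h1 : (s + 1) * (r + 1) - 1 = r + s * (r + 1) := by
    have h2 : (s + 1) * (r + 1) = r + s * (r + 1) + 1 := by ring
    omega
  have h2 : (s + 1) * (r + 1) - (s + 1) = (s + 1) * r := by
    have h2 : (s + 1) * (r + 1) = (s + 1) * r + (s + 1) := by ring
    omega
  have h3 : (s + 1) * (r + 1) - (s + 1) * r = s + 1 := by
    have h2 : (s + 1) * (r + 1) = (s + 1) * r + (s + 1) := by ring
    omega
  subst hm
  rw [h1] at h
  have h4 : (r + 1) ∣ a + r * b := by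
    have h5 : (r + 1) ∣ a + (r + s * (r + 1)) * b := (Dvd.intro_left _ rfl).trans h
    have h6 : a + (r + s * (r + 1)) * b = (a + r * b) + (r + 1) * (s * b) := by ring
    rw [h6] at h5
    exact (Nat.dvd_add_iff_left (Dvd.intro _ rfl)).2 h5
  obtain ⟨e, he⟩ := h4
  have h5 : e ≤ a + b := by
    by_contra hcon
    rw [not_le] at hcon
    have h6 : (r + 1) * (a + b + 1) ≤ (r + 1) * e := Nat.mul_le_mul_left _ hcon
    nlinarith
  obtain ⟨e', he'⟩ : ∃ e', a + b = e + e' := Nat.exists_eq_add_of_le h5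
  have h6 : (r + 1) * e' = b + r * a := by
    have h7 : (r + 1) * (a + b) = (r + 1) * (e + e') := by rw [he']
    nlinarith
  simp only [Nat.add_sub_cancel]
  rw [h2, h3]
  refine ⟨e, e', he.symm, h6, he'.symm, ?_, ?_⟩
  · have h7 : (s + 1) * a + (s + 1) * r * b = (s + 1) * (r + 1) * e := by
      rw [mul_assoc (s + 1) (r + 1) e, ← he]
      ring
    rw [h7, Nat.mul_div_cancel_left _ (by positivity)]
  · have h7 : (s + 1) * r * a + (s + 1) * b = (s + 1) * (r + 1) * e' := by
      rw [mul_assoc (s + 1) (r + 1) e', h6]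
      ring
    rw [h7, Nat.mul_div_cancel_left _ (by positivity)]

private theorem rdw_le {W : Wv k} {t : k} {j q : ℕ} (h0 : 0 < j) (hj : j < W.m)
    (ht : W.ζ ^ j * t = 1) (hq : (j * W.a + (W.m - j) * W.b) / W.m = q) (h : ¬ W.InD t 0) :
    q ≤ W.n := by
  by_contra hcon
  rw [not_le] at hcon
  apply h
  refine ⟨j, h0, hj, ht, ?_⟩
  rw [hq]
  exact Nat.choose_pos (by omega)

variable [IsAlgClosed k] [CharZero k]

/-- The reduction for a covering. PROOF. Let `m'` be the order of `t` and `W.m = d m'`; `t` is `ζ ^ d` or its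
inverse. `redG` is a class function on the covering `w' ^ m' = F G ^ (m' - 1)`, which is multiplied by `t` if
`w'` is replaced by `ζ ^ d w'`. If `t = ζ ^ d` this is the reduction. If `t = ζ ^ (- d)`, it is the dual function
`dualF` on the covering `w' ^ m' = G F ^ (m' - 1)`. -/
theorem exists_rdn_cover (W : Wv k) {Y : Spc k} {V : Type} [AddCommGroup V] [Module k V]
    {Φ : (Spc.wv k W.n W.m W.e (W.F * W.G ^ (W.m - 1))).pt → Y.pt → V}
    (hcf : CF (Y := (Spc.wv k W.n W.m W.e (W.F * W.G ^ (W.m - 1))).prod Y) fun p => Φ p.1 p.2)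
    {t : k} (hΦ : ∀ x y, Φ (tw W.ζ W.ok.prim.pow_eq_one x) y = t • Φ x y) (ht : t ^ W.m = 1)
    (ht1 : t ≠ 1) (p : (Spc.wv k W.n W.m W.e (W.F * W.G ^ (W.m - 1))).pt) :
    Nonempty (Rdn Φ p t (¬ W.InD t⁻¹ 0) (¬ W.InD t 0)) := by
  have hm0 : 0 < W.m := by
    have := W.ok.order
    omega
  -- the value at the points with `w = 0`
  have hz : ∀ x y, x.1.2 = 0 → Φ x y = 0 := by
    intro x y hx
    have h1 : tw W.ζ W.ok.prim.pow_eq_one x = x := by
      apply Subtype.ext
      refine Prod.ext rfl ?_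
      change W.ζ * x.1.2 = x.1.2
      rw [hx, mul_zero]
    have h2 := hΦ x y
    rw [h1] at h2
    have h4 : (1 - t) • Φ x y = 0 := by
      rw [sub_smul, one_smul, ← h2, sub_self]
    rcases smul_eq_zero.1 h4 with h5 | h5
    · exact absurd (sub_eq_zero.1 h5).symm ht1
    · exact h5
  -- the orders
  have htp : IsPrimitiveRoot t (orderOf t) := IsPrimitiveRoot.orderOf t
  obtain ⟨d, hd⟩ : orderOf t ∣ W.m := orderOf_dvd_of_pow_eq_one ht
  set m' := orderOf t with hm'def
  have hdm : W.m = d * m' := by rw [hd, mul_comm]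
  have hd0 : 0 < d := by
    rcases Nat.eq_zero_or_pos d with h | h
    · rw [h, mul_zero] at hd
      omega
    · exact h
  have hm1 : m' ≠ 1 := fun h => ht1 (orderOf_eq_one_iff.1 h)
  have hm2 : m' ≠ 0 := by
    intro h
    rw [h, zero_mul] at hd
    omega
  have hm' : 2 ≤ m' := by omega
  have hdvd : m' ∣ W.m := ⟨d, hd⟩
  have hor : m' = 2 ∨ m' = 3 ∨ m' = 4 ∨ m' = 6 := rdw_or W.ok.order hdvd hm'
  have hdlt : d < W.m := by
    rw [hdm]
    nlinarith
  have hz1 : IsPrimitiveRoot (W.ζ ^ d) m' := W.ok.prim.pow hm0 hdm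
  have hζ' : (W.ζ ^ d) ^ m' = 1 := hz1.pow_eq_one
  obtain ⟨e, e', he, he', hee, hq, hq'⟩ := rdw_arith (a := W.a) (b := W.b) hdm hd0 hm' W.ok.dvd
  have hWe : W.m * W.e = W.a + (W.m - 1) * W.b := Nat.mul_div_cancel' W.ok.dvd
  have htm : t ^ m' = 1 := htp.pow_eq_one
  have hab : 0 < W.a + W.b := by
    have h1 := W.ok.pos
    by_contra hcon
    have h2 : W.a = 0 := by omega
    have h3 : W.b = 0 := by omega
    rw [h2, h3, mul_zero] at h1
    omega
  have hepos : 0 < e := by
    by_contra hcon
    have h1 : e = 0 := by omega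
    rw [h1, mul_zero] at he
    have h2 : W.a = 0 := by omega
    have h3 : (m' - 1) * W.b = 0 := by omega
    have h4 : m' - 1 ≠ 0 := by omega
    rcases Nat.mul_eq_zero.1 h3 with h5 | h5
    · exact h4 h5
    · omega
  have hepos' : 0 < e' := by
    by_contra hcon
    have h1 : e' = 0 := by omega
    rw [h1, mul_zero] at he'
    have h2 : W.b = 0 := by omega
    have h3 : (m' - 1) * W.a = 0 := by omega
    have h4 : m' - 1 ≠ 0 := by omega
    rcases Nat.mul_eq_zero.1 h3 with h5 | h5
    · exact h4 h5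
    · omega
  have hgcf := redG_cf W.ok.homF W.ok.homG hdm hd0 hm' hWe he W.ok.prim htm hcf hΦ
  have hgtw := redG_tw (e' := e) hdm hd0 hm' W.ok.prim htm hΦ hζ'
  -- the function is zero if the reduction is zero
  have hbase : (∀ x y, redG (e' := e) hdm hd0 hm' Φ x y = 0) → ∀ y, Φ p y = 0 := by
    intro h y
    by_cases hp : p.1.2 = 0
    · exact hz p y hp
    have h1 : p.1.2 ^ W.m = MvPolynomial.aeval p.1.1 W.F *
        MvPolynomial.aeval p.1.1 W.G ^ (W.m - 1) := by
      have h2 := p.2.2
      rwa [map_mul, map_pow] at h2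
    have hG0 : MvPolynomial.aeval p.1.1 W.G ≠ 0 := by
      intro h2
      rw [h2, zero_pow (by omega), mul_zero] at h1
      exact hp (eq_zero_of_pow_eq_zero h1)
    let q : (Spc.wv k W.n m' e (W.F * W.G ^ (m' - 1))).pt :=
      ⟨(p.1.1, p.1.2 ^ d / MvPolynomial.aeval p.1.1 W.G ^ (d - 1)), p.2.1, by
        change (p.1.2 ^ d / MvPolynomial.aeval p.1.1 W.G ^ (d - 1)) ^ m' =
          MvPolynomial.aeval p.1.1 (W.F * W.G ^ (m' - 1))
        rw [div_pow, ← pow_mul, ← hdm, h1, map_mul, map_pow, ← pow_mul,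
          div_eq_iff (pow_ne_zero _ hG0), mul_assoc, ← pow_add]
        congr 2
        obtain ⟨r, hr⟩ : ∃ r, m' = r + 1 := ⟨m' - 1, by omega⟩
        obtain ⟨s, hs⟩ : ∃ s, d = s + 1 := ⟨d - 1, by omega⟩
        rw [hdm, hr, hs]
        simp only [Nat.add_sub_cancel]
        have h2 : (s + 1) * (r + 1) = r + s * (r + 1) + 1 := by ring
        omega⟩
    rw [redG_eq hdm hd0 hm' W.ok.prim htm hΦ q p rfl (by
      change p.1.2 ^ d = p.1.2 ^ d / MvPolynomial.aeval p.1.1 W.G ^ (d - 1) *
        MvPolynomial.aeval p.1.1 W.G ^ (d - 1)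
      rw [div_mul_cancel₀ _ (pow_ne_zero _ hG0)]) y]
    exact h q y
  rcases eq_or_inv hz1 htp hor with hcase | hcase
  · exact ⟨{
      n := W.n
      m := m'
      e := e
      e' := e'
      α := W.a
      β := W.b
      F := W.F
      G := W.G
      f := W.F * W.G ^ (m' - 1)
      hf := rfl
      two_le := hm'
      prim := htp
      homF := W.ok.homF
      homG := W.ok.homG
      eq := he.symm
      eq' := hee
      pos := hepos
      pos' := hepos'
      g := redG hdm hd0 hm' Φ
      cf := hgcf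
      tw := by
        intro x y
        have h1 : tw t htp.pow_eq_one x = tw (W.ζ ^ d) hζ' x := by
          apply Subtype.ext
          change (x.1.1, t * x.1.2) = (x.1.1, W.ζ ^ d * x.1.2)
          rw [hcase]
        rw [h1]
        exact hgtw x y
      or := fun x => Or.inr ⟨redQ hdm hd0 hm' x, fun y => rfl⟩
      base := hbase
      le := fun h => rdw_le hd0 hdlt (by
        rw [hcase]
        exact mul_inv_cancel₀ (pow_ne_zero _ (W.ok.prim.ne_zero hm0.ne'))) hq h
      le' := fun h => rdw_le (j := W.m - d) (by omega) (by omega) (by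
        rw [hcase, ← pow_add, Nat.sub_add_cancel hdlt.le, W.ok.prim.pow_eq_one]) hq' h }⟩
  · have hz0 : W.ζ ^ d ≠ 0 := pow_ne_zero _ (W.ok.prim.ne_zero hm0.ne')
    have ht0 : t ≠ 0 := by
      rw [hcase]
      exact inv_ne_zero hz0
    have hcase' : W.ζ ^ d = t⁻¹ := by
      rw [hcase, inv_inv]
    have hrz : ∀ (x : (Spc.wv k W.n m' e (W.F * W.G ^ (m' - 1))).pt) (y : Y.pt), x.1.2 = 0 →
        redG hdm hd0 hm' Φ x y = 0 := by
      intro x y hx
      refine hz _ y ?_
      have h1 := redQ_spec (e := W.e) hdm hd0 hm' x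
      rw [hx, zero_mul] at h1
      exact eq_zero_of_pow_eq_zero h1
    exact ⟨{
      n := W.n
      m := m'
      e := e'
      e' := e
      α := W.b
      β := W.a
      F := W.G
      G := W.F
      f := W.G * W.F ^ (m' - 1)
      hf := rfl
      two_le := hm'
      prim := htp
      homF := W.ok.homG
      homG := W.ok.homF
      eq := he'.symm
      eq' := by omega
      pos := hepos'
      pos' := hepos
      g := dualF hm' (redG (e' := e) hdm hd0 hm' Φ)
      cf := dualF_cf hm' W.ok.homF W.ok.homG he.symm hee hrz hgcf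
      tw := by
        intro x y
        have h1 := dualF_tw (e' := e') hm' hζ' ht0 hgtw (tw t htp.pow_eq_one x) y
        have h2 : tw (W.ζ ^ d) hζ' (tw t htp.pow_eq_one x) = x := by
          apply Subtype.ext
          change (x.1.1, W.ζ ^ d * (t * x.1.2)) = x.1
          rw [hcase', ← mul_assoc, inv_mul_cancel₀ ht0, one_mul]
        rw [h2] at h1
        rw [h1, smul_smul, mul_inv_cancel₀ ht0, one_smul]
      or := by
        intro x
        by_cases hx : x.1.2 ≠ 0
        · right
          refine ⟨redQ hdm hd0 hm' (dualPt (e := e) hm' x hx), fun y => ?_⟩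
          unfold dualF
          rw [dif_pos hx]
          rfl
        · left
          intro y
          unfold dualF
          rw [dif_neg hx]
      base := by
        intro h
        refine hbase fun x y => ?_
        by_cases hx : x.1.2 = 0
        · exact hrz x y hx
        · exact dualF_eq hm' h x hx y
      le := fun h => rdw_le (j := W.m - d) (by omega) (by omega) (by
        rw [← hcase', ← pow_add, Nat.sub_add_cancel hdlt.le, W.ok.prim.pow_eq_one]) hq' h
      le' := fun h => rdw_le hd0 hdlt (by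
        rw [hcase', inv_mul_cancel₀ ht0]) hq h }⟩

end Pool.Agent.CYC
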