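import Pool.Agent.CYC.Blk
import Pool.Agent.CYC.RdC
import Pool.Agent.CYC.RdW
import Pool.Agent.CYC.Pair

/-!
# The core theorem: nontrivial eigenvalues
-/

set_option autoImplicit false

noncomputable section

namespace Pool.Agent.CYC

open Pool.Agent.ZCyc Pool.Agent.Dess Pool.Agent.TInc
open Pool.Agent.WFC (below stb)
open scoped Classical

variable {k : Type} [Field k]

/-- the space with one point -/
def Spc.unit (k : Type) [Field k] : Spc k where
  pt := Unit
  Pt _ _ _ := Unit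
  Val _ _ _ := True
  map _ P := P
  cst p := p
  val_map _ _ _ _ _ _ h := h
  val_cst _ _ := trivial

theorem CF.unit {A : Spc k} {V : Type} [AddCommGroup V] {g : A.pt → V} (h : CF (Y := A) g) :
    CF (Y := A.prod (Spc.unit k)) fun p => g p.1 :=
  fun F _ _ hF P p φ D hφ hD hp =>
    h F hF P.1 (fun v => (p v).1) φ D hφ hD fun v => (hp v).1

variable [IsAlgClosed k] [CharZero k]

/-- The reductions exist. -/
theorem exists_rdn (X : Vr k) {a : ℕ} (ha : 0 < a) (hd : 1 < a → X.dim = 1) {t : k} (ht : t ≠ 1)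
    (htN : t ^ X.ord = 1) {Y : Spc k} {V : Type} [AddCommGroup V] [Module k V]
    {Φ : (Spc.bl a X).pt → Y.pt → V} (hcf : CF (Y := (Spc.bl a X).prod Y) fun p => Φ p.1 p.2)
    (h : BlS X a t Φ) (hs : ¬ X.InD t⁻¹ (a - 1) ∨ ¬ X.InD t (a - 1)) :
    ∃ S : Set (Spc.bl a X).pt,
      (∀ b ∈ S, Nonempty (Rdn Φ b t (¬ X.InD t⁻¹ (a - 1)) (¬ X.InD t (a - 1)))) ∧
      ∀ g : (Spc.bl a X).pt → V, CF (Y := Spc.bl a X) g → (∀ b ∈ S, g b = 0) → ∀ b, g b = 0 := by
  cases X with
  | curve C =>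
    have := C.ok.finite
    have hσ : C.σ ≠ 1 := by
      intro h1
      apply ht
      change t ^ orderOf C.σ = 1 at htN
      rwa [h1, orderOf_one, pow_one] at htN
    have hL := C.ok.curve
    have hE : SymE C.σ t Φ :=
      ⟨fun P π y => h.sym P _ π (fun j => rfl) y, fun P j y => h.eig P _ j rfl y⟩
    refine ⟨{P | (∀ j, P j ∉ (finite_fixed hL hσ).toFinset) ∧
      Function.Injective fun j => below (Subgroup.zpowers C.σ) (P j)}, ?_, ?_⟩
    · rintro P0 ⟨h1, h2⟩
      refine exists_rdn_curve ha ht htN hcf hE hs P0 h2 fun j h3 => h1 j ?_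
      exact (Set.Finite.mem_toFinset _).2 h3
    · intro g hg h1 b
      exact of_generic hL hg (finite_fixed hL hσ).toFinset
        (below (Subgroup.zpowers C.σ)) (finite_below hL) (fun P h2 h3 => h1 P ⟨h2, h3⟩) b
  | cover W =>
    have hdim := W.ok.dim
    have ha1 : a = 1 := by
      by_contra h1
      have h2 : W.n = 1 := hd (by omega)
      omega
    subst ha1
    refine ⟨Set.univ, fun b _ => ?_, fun g _ hb b => hb b (Set.mem_univ b)⟩
    refine exists_rdn_cover W hcf (fun x y => ?_) htN ht b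
    refine h.eig x _ 0 ?_ y
    funext j
    have hj : j = 0 := Subsingleton.elim _ _
    subst hj
    rw [Function.update_self]
    change ((x.1.1, W.ζ * x.1.2) : (Fin (W.n + 1) → k) × k) = (x.1.1, W.ζ ^ 1 * x.1.2)
    rw [pow_one]

variable {b : ℕ} {X : Fin b → Vr k} {a : Fin b → ℕ} {t : Fin b → k}
  {f : (∀ β, Fin (a β) → (X β).Crd) → k}

theorem core_one (h : ClsB X a t f) (ha : ∀ β, 0 < a β) (hd : ∀ β, 1 < a β → (X β).dim = 1)
    (htN : ∀ β, t β ^ (X β).ord = 1) {β : Fin b} (ht : t β ≠ 1)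
    (h1 : ¬ (X β).InD (t β)⁻¹ (a β - 1)) (h2 : ¬ (X β).InD (t β) (a β - 1))
    {x : ∀ β, Fin (a β) → (X β).Crd} (hx : OnB X x) : f x = 0 := by
  have hcf := h.cf_one hx β
  obtain ⟨S, hS, hS'⟩ := exists_rdn (X β) (ha β) (hd β) ht (htN β) (Y := Spc.unit k)
    (Φ := fun z _ => f (upd x β z)) (CF.unit hcf) (h.blS (fun _ => hx) β) (Or.inl h1)
  have h3 : ∀ z, f (upd x β z) = 0 := hS' _ hcf fun z hz => by
    obtain ⟨r⟩ := hS z hz
    exact r.single h1 h2 ()
  obtain ⟨z, hz⟩ := exists_upd hx β (ha β) (hd β)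
  rw [← hz]
  exact h3 z

theorem core_two (h : ClsB X a t f) (ha : ∀ β, 0 < a β) (hd : ∀ β, 1 < a β → (X β).dim = 1)
    (htN : ∀ β, t β ^ (X β).ord = 1) {β β' : Fin b} (hne : β ≠ β')
    (hor : (orderOf (t β) = 4 ∧ orderOf (t β') = 4) ∨
      ((orderOf (t β) = 3 ∨ orderOf (t β) = 6) ∧ (orderOf (t β') = 3 ∨ orderOf (t β') = 6)))
    (h1 : ¬ (X β).InD (t β)⁻¹ (a β - 1)) (h2 : ¬ (X β').InD (t β') (a β' - 1))
    {x : ∀ β, Fin (a β) → (X β).Crd} (hx : OnB X x) : f x = 0 := by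
  have ht : t β ≠ 1 := by
    intro h3
    rw [h3, orderOf_one] at hor
    omega
  have ht' : t β' ≠ 1 := by
    intro h3
    rw [h3, orderOf_one] at hor
    omega
  have hcf := h.cf_two hx hne
  have hB : BlS (X β) (a β) (t β) fun z z' => f (upd (upd x β z) β' z') := by
    have h3 := h.blS (B := (Spc.bl (a β') (X β')).pt) (x := fun z' => upd x β' z')
      (fun z' => upd_on hx β' z') β
    simp only [upd_comm hne]
    exact h3
  have hB' : BlS (X β') (a β') (t β') fun z' z => f (upd (upd x β z) β' z') :=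
    h.blS (B := (Spc.bl (a β) (X β)).pt) (x := fun z => upd x β z) (fun z => upd_on hx β z) β'
  obtain ⟨S, hS, hS'⟩ := exists_rdn (X β) (ha β) (hd β) ht (htN β)
    (Y := Spc.bl (a β') (X β')) (Φ := fun z z' => f (upd (upd x β z) β' z')) hcf hB (Or.inl h1)
  have key : ∀ z' z, f (upd (upd x β z) β' z') = 0 := by
    intro z'
    refine hS' _ (CF.fix_right (A := Spc.bl (a β) (X β)) (Y := Spc.bl (a β') (X β'))
      (f := fun z z' => f (upd (upd x β z) β' z')) hcf z') fun z hz => ?_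
    obtain ⟨r⟩ := hS z hz
    refine r.base (fun y => ?_) z'
    obtain ⟨S₁, hS₁, hS₁'⟩ := exists_rdn (X β') (ha β') (hd β') ht' (htN β')
      (Y := Spc.wv k r.n r.m r.e r.f) (Φ := fun z' y => r.g y z') (CF.swap r.cf)
      (hB'.of_or r.or) (Or.inr h2)
    refine hS₁' _ (CF.fix_right (A := Spc.bl (a β') (X β')) (Y := Spc.wv k r.n r.m r.e r.f)
      (f := fun z' y => r.g y z') (CF.swap r.cf) y) fun z'' hz'' => ?_
    obtain ⟨r'⟩ := hS₁ z'' hz''
    obtain ⟨d⟩ := r'.dual h2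
    refine (r.toRds h1).pair d ?_ y
    have e1 : orderOf (t β) = (r.toRds h1).m := (r.toRds h1).prim.eq_orderOf.symm
    have e2 : orderOf (t β') = d.m := d.prim.eq_orderOf.symm
    rwa [e1, e2] at hor
  obtain ⟨z, hz⟩ := exists_upd hx β (ha β) (hd β)
  obtain ⟨z', hz'⟩ := exists_upd hx β' (ha β') (hd β')
  have h4 := key z' z
  rwa [hz, hz'] at h4

end Pool.Agent.CYC
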