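import Pool.Agent.CYC.Cls
import Pool.Agent.CYU.Over
import Pool.Agent.CYU.PtA

/-!
# Invariant class functions are constant along lines
-/

set_option autoImplicit false

noncomputable section

namespace Pool.Agent.CYC

open Pool.Agent.ZCyc Pool.Agent.Dess Pool.Agent.TInc
open Pool.Agent.VFP (Om tt)
open scoped Classical

variable {k : Type} [Field k] [IsAlgClosed k] [CharZero k] {n m e : ℕ}
  {f : MvPolynomial (Fin (n + 1)) k}

/-- PROOF. As `CYU.exists_val` (`GT.exists_scale`): for a suitable `l` the `l x_i` are regular with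
values which are not all zero, and `(l ^ e w) ^ m = f(l x)` is regular, so `l ^ e w` is regular
(`CYU.mem_of_pow`). -/
theorem wv_val (hm : 0 < m) (hf : f.IsHomogeneous (m * e)) {F : Type} [Field F] [Algebra k F]
    (hF : IsCurve k F) (v : Place k F) (P : (Spc.wv k n m e f).Pt F) :
    ∃ p, (Spc.wv k n m e f).Val v P p := by
  have := GT.hasRes_of_isCurve hF
  obtain ⟨l, y, hl, hy, h⟩ := GT.exists_scale v P.1.1 P.2.1
  have h1 : (l ^ e * P.1.2) ^ m = MvPolynomial.aeval (fun i => l * P.1.1 i) f := by
    have h3 := CYU.aeval_hom hf l P.1.1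
    rw [mul_pow, P.2.2, ← pow_mul, mul_comm e m]
    exact h3.symm
  have h2 := CYU.at_aeval f h
  rw [← h1] at h2
  obtain ⟨c, hc⟩ := exists_at hF v (CYU.mem_of_pow v hm.ne' h2.mem)
  exact ⟨⟨(y, c), hy, Place.At.unique (hc.pow m) h2⟩, l, h, hc⟩

/-- the value of a point at a place where the coordinates have the values of the point `x` -/
private theorem line_tw (hm : 0 < m) {F : Type} [Field F] [Algebra k F] (hF : IsCurve k F)
    {v : Place k F} {P : (Spc.wv k n m e f).Pt F} {x : (Spc.wv k n m e f).pt}
    (h : ∀ i, v.At (P.1.1 i) (x.1.1 i)) :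
    ∃ (η : k) (hη : η ^ m = 1), (Spc.wv k n m e f).Val v P (tw η hη x) := by
  have : NeZero m := ⟨hm.ne'⟩
  have h2 := CYU.at_aeval f h
  rw [← P.2.2, ← x.2.2] at h2
  obtain ⟨c, hc⟩ := exists_at hF v (CYU.mem_of_pow v hm.ne' h2.mem)
  obtain ⟨a, ha⟩ := CYU.exists_mu (Place.At.unique (hc.pow m) h2)
  refine ⟨CYU.mu k a, CYU.mu_pow k a, 1, fun i => ?_, ?_⟩
  · rw [one_mul]
    exact h i
  · rw [one_pow, one_mul]
    rw [ha] at hc
    exact hc

private theorem line_zero {K : Type} [Field K] [Algebra k K] (hK : IsCurve k K) {f : K}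
    (hf : Transcendental k f) : ∃ v : Place k K, v.Vanishes f := by
  by_contra hcon
  push Not at hcon
  obtain ⟨a, ha⟩ := const_of_regular hK (f := f⁻¹) (fun v => by
    by_contra h
    exact hcon v ((Place.vanishes_iff_or _ _).2 (Or.inr h)))
  apply hf
  have h2 : f = algebraMap k K a⁻¹ := by
    rw [map_inv₀, ← ha, inv_inv]
  rw [h2]
  exact isAlgebraic_algebraMap _

/-- PROOF. Let `s = tt k ∈ Om k`, `p = (1 - s) o + s x` (the coordinates `algebraMap k _ (o i)`, `x
i`), and `w ∈ Om k` with `w ^ m = f(p)`; let `K` be a function field which contains `s`, `w`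
(`CYU.exists_curve`). `P = (p, w)` is a point of the covering over `K` (`p ≠ 0`: since `s` is
transcendental, `CYU.transc_tt`, the coordinate `o i + s (x i - o i)` is not zero if `o i ≠ 0`).
Values at the places `v` of `K`: if `s - 1` vanishes at `v`, then `p` has the value `x`, `w ^ m` has
the value `f(x) = w_x ^ m`, so `w` is regular and its value is `η w_x`, `η ^ m = 1`
(`CYU.exists_mu`, or directly), the value of `P` is `tw η x` (multiplier `1`). If `s` vanishes at
`v`, it is `tw η o`. For the other places take `wv_val`. The class function relation for `φ = (s -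
1) / s`: at the places where neither `s` nor `s - 1` vanishes we have `ord v φ = 0` (if `s` has a
pole at `v`, then `φ = 1 - s⁻¹` has the value `1`). So the relation is `N1 g(x) - N0 g(o) = 0`, `N1`
the sum of the `ord v φ > 0`, `- N0` the sum of the `ord v φ < 0`; `N1 = N0` (`deg_dv`), and `N1 >
0` since `s - 1` has a zero (see the end of the proof in `CYU/Over.lean` for the same kind of
argument). So `N1 (g x - g o) = 0` in the `k`-vector space `V`. -/
theorem line (hm : 0 < m) (hf : f.IsHomogeneous (m * e)) {V : Type*} [AddCommGroup V]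
    [Module k V] {g : (Spc.wv k n m e f).pt → V} (hg : CF g) {x o : (Spc.wv k n m e f).pt}
    (hx : ∀ (η : k) (h : η ^ m = 1), g (tw η h x) = g x)
    (ho : ∀ (η : k) (h : η ^ m = 1), g (tw η h o) = g o) : g x = g o := by
  obtain ⟨w, hw⟩ := IsAlgClosed.exists_pow_nat_eq (MvPolynomial.aeval (fun i =>
    algebraMap k (Om k) (o.1.1 i) * (1 - tt k) + algebraMap k (Om k) (x.1.1 i) * tt k) f) hm
  obtain ⟨K, hK, hs, hwK⟩ := CYU.exists_curve (k := k) {w} (Set.finite_singleton w)
  let s : K := ⟨tt k, hs⟩
  let w' : K := ⟨w, hwK (Set.mem_singleton w)⟩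
  have hst : Transcendental k s := fun h => CYU.transc_tt (k := k) (h.algHom K.val)
  have hs0 : s ≠ 0 := by
    intro h
    rw [h] at hst
    exact hst isAlgebraic_zero
  have hs1 : s - 1 ≠ 0 := by
    intro h
    rw [sub_eq_zero] at h
    rw [h] at hst
    exact hst isAlgebraic_one
  let q : Fin (n + 1) → K := fun i =>
    algebraMap k K (o.1.1 i) * (1 - s) + algebraMap k K (x.1.1 i) * s
  have hq : q ≠ 0 := by
    intro h
    obtain ⟨i, hi⟩ : ∃ i, o.1.1 i ≠ 0 := by
      by_contra hcon
      push Not at hcon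
      exact o.2.1 (funext hcon)
    have h1 : algebraMap k K (o.1.1 i) * (1 - s) + algebraMap k K (x.1.1 i) * s = 0 :=
      congrFun h i
    by_cases h2 : x.1.1 i = o.1.1 i
    · rw [h2, ← mul_add, sub_add_cancel, mul_one, map_eq_zero] at h1
      exact hi h1
    · have h3 : o.1.1 i - x.1.1 i ≠ 0 := sub_ne_zero.2 fun h => h2 h.symm
      apply hst
      have h4 : s = algebraMap k K (o.1.1 i / (o.1.1 i - x.1.1 i)) := by
        rw [map_div₀, map_sub, eq_div_iff (by
          rw [← map_sub]
          exact fun h => h3 ((map_eq_zero _).1 h))]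
        linear_combination -h1
      rw [h4]
      exact isAlgebraic_algebraMap _
  have hqf : w' ^ m = MvPolynomial.aeval q f := by
    have h1 := MvPolynomial.comp_aeval_apply q K.val f
    have h2 : K.val (w' ^ m) = K.val (MvPolynomial.aeval q f) := by
      rw [h1, map_pow]
      exact hw
    exact K.val.injective h2
  let P : (Spc.wv k n m e f).Pt K := ⟨(q, w'), hq, hqf⟩
  have hval : ∀ v : Place k K, ∃ p, (Spc.wv k n m e f).Val v P p ∧
      (v.At s 1 → g p = g x) ∧ (v.At s 0 → g p = g o) := by
    intro v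
    by_cases h1 : v.At s 1
    · have h2 : ∀ i, v.At (P.1.1 i) (x.1.1 i) := by
        intro i
        have h3 := Place.at_const (v := v) (1 : k)
        rw [map_one] at h3
        have h4 := ((Place.at_const (v := v) (o.1.1 i)).mul (h3.sub h1)).add
          ((Place.at_const (x.1.1 i)).mul h1)
        rwa [sub_self, mul_zero, zero_add, mul_one] at h4
      obtain ⟨η, hη, h3⟩ := line_tw hm hK h2
      exact ⟨_, h3, fun _ => hx η hη, fun h4 => absurd (Place.At.unique h1 h4) one_ne_zero⟩
    · by_cases h0 : v.At s 0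
      · have h2 : ∀ i, v.At (P.1.1 i) (o.1.1 i) := by
          intro i
          have h3 := Place.at_const (v := v) (1 : k)
          rw [map_one] at h3
          have h4 := ((Place.at_const (v := v) (o.1.1 i)).mul (h3.sub h0)).add
            ((Place.at_const (x.1.1 i)).mul h0)
          rwa [sub_zero, mul_zero, add_zero, mul_one] at h4
        obtain ⟨η, hη, h3⟩ := line_tw hm hK h2
        exact ⟨_, h3, fun h4 => absurd h4 h1, fun _ => ho η hη⟩
      · obtain ⟨p, hp⟩ := wv_val hm hf hK v P
        exact ⟨p, hp, fun h => absurd h h1, fun h => absurd h h0⟩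
  choose p hp hp1 hp0 using hval
  set φ : K := (s - 1) / s with hφd
  have hφ : φ ≠ 0 := div_ne_zero hs1 hs0
  have hrel := hg K hK P p φ (dv hK φ) hφ (fun v => ord_hasOrd hK v hφ) hp
  have hpos : ∀ v : Place k K, v.At s 1 → 0 < ord v φ := by
    intro v h1
    rw [← vanishes_iff_ord hK hφ, ← Place.at_zero_iff]
    have h3 := Place.at_const (v := v) (1 : k)
    rw [map_one] at h3
    have h4 := (h1.sub h3).div h1 one_ne_zero
    rwa [sub_self, zero_div] at h4
  have hsupp : ∀ v : Place k K, ord v φ ≠ 0 → ¬ v.At s 1 → v.At s 0 := by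
    intro v h1 h2
    by_contra h0
    apply h1
    by_cases hr : s ∈ v.ring
    · obtain ⟨c, hc⟩ := exists_at hK v hr
      have hc0 : c ≠ 0 := fun h => h0 (h ▸ hc)
      have hc1 : c - 1 ≠ 0 := fun h => h2 (sub_eq_zero.1 h ▸ hc)
      have h3 := Place.at_const (v := v) (1 : k)
      rw [map_one] at h3
      exact ord_of_at hK ((hc.sub h3).div hc hc0) (div_ne_zero hc1 hc0)
    · have hinv : v.At s⁻¹ 0 := by
        rw [Place.at_zero_iff, Place.vanishes_iff_or, inv_inv]
        exact Or.inr hr
      have h3 := Place.at_const (v := v) (1 : k)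
      rw [map_one] at h3
      have h4 := h3.sub hinv
      have h5 : (1 : K) - s⁻¹ = φ := by
        rw [hφd]
        field_simp
      rw [h5, sub_zero] at h4
      exact ord_of_at hK h4 one_ne_zero
  have hdeg := deg_dv hK φ
  unfold deg at hdeg
  rw [Finsupp.sum] at hdeg hrel
  rw [← Finset.sum_filter_add_sum_filter_not _ (fun v => v.At s 1)] at hdeg hrel
  have e1 : ∑ v ∈ (dv hK φ).support with v.At s 1, dv hK φ v • g (p v) =
      (∑ v ∈ (dv hK φ).support with v.At s 1, dv hK φ v) • g x := by
    rw [Finset.sum_smul]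
    refine Finset.sum_congr rfl fun v hv => ?_
    rw [hp1 v (Finset.mem_filter.1 hv).2]
  have e0 : ∑ v ∈ (dv hK φ).support with ¬ v.At s 1, dv hK φ v • g (p v) =
      (∑ v ∈ (dv hK φ).support with ¬ v.At s 1, dv hK φ v) • g o := by
    rw [Finset.sum_smul]
    refine Finset.sum_congr rfl fun v hv => ?_
    obtain ⟨h1, h2⟩ := Finset.mem_filter.1 hv
    rw [hp0 v (hsupp v (Finsupp.mem_support_iff.1 h1) h2)]
  rw [e1, e0] at hrel
  set N : ℤ := ∑ v ∈ (dv hK φ).support with v.At s 1, dv hK φ v with hN
  have h0 : ∑ v ∈ (dv hK φ).support with ¬ v.At s 1, dv hK φ v = -N := by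
    linarith
  rw [h0, neg_smul, ← sub_eq_add_neg, ← smul_sub] at hrel
  have hNpos : 0 < N := by
    apply Finset.sum_pos
    · intro v hv
      exact hpos v (Finset.mem_filter.1 hv).2
    · have h1 : Transcendental k (s - 1) := by
        intro h
        apply hst
        have h2 := h.add (isAlgebraic_one (R := k) (A := K))
        rwa [sub_add_cancel] at h2
      obtain ⟨v, hv⟩ := line_zero hK h1
      have h2 : v.At s 1 := by
        unfold Place.At
        rw [map_one]
        exact hv
      exact ⟨v, Finset.mem_filter.2 ⟨Finsupp.mem_support_iff.2 (hpos v h2).ne', h2⟩⟩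
  rw [← Int.cast_smul_eq_zsmul k] at hrel
  have h3 := (smul_eq_zero.1 hrel).resolve_left (Int.cast_ne_zero.2 hNpos.ne')
  exact sub_eq_zero.1 h3

end Pool.Agent.CYC
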