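import Pool.Agent.CYC.CoreA
import Pool.Agent.CYC.Line

/-!
# The core theorem: trivial eigenvalue
-/

set_option autoImplicit false

noncomputable section

namespace Pool.Agent.CYC

open Pool.Agent.ZCyc Pool.Agent.Dess Pool.Agent.TInc
open Pool.Agent.WFC (below stb)
open scoped Classical

variable {k : Type} [Field k]

/-- the data for the trivial character: the covering is the projective space -/
theorem Dat.Br_of_one {L : Type} [Field L] [Algebra k L] {σ : L ≃ₐ[k] L} {a n : ℕ}
    {D : Dat σ a n} (hm : D.m = 1) : D.Br = ∅ := by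
  have h1 : ∀ q, D.mu q = 0 := by
    intro q
    unfold Dat.mu
    rw [hm, Nat.cast_one, Int.emod_one]
    rfl
  unfold Dat.Br
  split_ifs with h2
  · ext q
    simp [h1 q]
  · rfl

variable [IsAlgClosed k] [CharZero k]

/-- a nonzero vector with a given linear condition -/
theorem exists_kill {n : ℕ} (hn : 0 < n) (c : Fin (n + 1) → k) :
    ∃ z : Fin (n + 1) → k, z ≠ 0 ∧ ∑ i, z i * c i = 0 := by
  have h01 : (0 : Fin (n + 1)) ≠ Fin.last n := by
    intro h
    have := congrArg Fin.val h
    simp at this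
    omega
  by_cases h : c 0 = 0
  · refine ⟨Pi.single 0 1, ?_, ?_⟩
    · intro h1
      have h2 := congrFun h1 0
      rw [Pi.single_eq_same] at h2
      exact one_ne_zero h2
    · rw [Finset.sum_eq_single 0]
      · rw [h, mul_zero]
      · intro i _ hi
        rw [Pi.single_eq_of_ne hi, zero_mul]
      · intro h1
        exact absurd (Finset.mem_univ _) h1
  · refine ⟨Pi.single (Fin.last n) (c 0) - Pi.single 0 (c (Fin.last n)), ?_, ?_⟩
    · intro h1
      have h2 := congrFun h1 (Fin.last n)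
      rw [Pi.sub_apply, Pi.single_eq_same, Pi.single_eq_of_ne (Ne.symm h01), sub_zero] at h2
      exact h h2
    · simp only [Pi.sub_apply, sub_mul, Finset.sum_sub_distrib]
      rw [Finset.sum_eq_single (Fin.last n), Finset.sum_eq_single 0]
      · rw [Pi.single_eq_same, Pi.single_eq_same]
        ring
      · intro i _ hi
        rw [Pi.single_eq_of_ne hi, zero_mul]
      · intro h1
        exact absurd (Finset.mem_univ _) h1
      · intro i _ hi
        rw [Pi.single_eq_of_ne hi, zero_mul]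
      · intro h1
        exact absurd (Finset.mem_univ _) h1

theorem zero_curve {C : Cv k} {a : ℕ} (ha : genusQ C.σ < a) {V : Type} [AddCommGroup V]
    [Module k V] {g : (Fin a → Place k C.L) → V} (hcf : CF (Y := Spc.cv k C.L a) g)
    (h : SymE C.σ 1 fun P (_ : Unit) => g P) {o : Place k C.L} (ho : o.map C.σ = o)
    (hbase : ∀ (P : Fin a → Place k C.L) (j : Fin a), P j = o → g P = 0)
    (P : Fin a → Place k C.L) : g P = 0 := by
  have hfin := C.ok.finite
  have hL := C.ok.curve
  refine of_generic hL hcf {o} (below (Subgroup.zpowers C.σ)) (finite_below hL)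
    (fun P0 h1 h2 => ?_) P
  obtain ⟨D, hD, hlam, hm, hP0, -⟩ := exists_dat C.ok (IsPrimitiveRoot.one (M := k))
    (one_pow _) (a := a) (n := a - genusQ C.σ) (by omega) P0 h2 (fun h3 => absurd rfl h3)
  subst hP0
  have hBr : D.Br = ∅ := Dat.Br_of_one hm
  have hf : D.f = 1 := by
    unfold Dat.f
    rw [hBr, Finset.prod_empty]
  have he : D.e = 0 := by
    unfold Dat.e
    rw [hBr, Finset.sum_empty, Nat.zero_div]
  have hE : SymE C.σ D.lam fun P (_ : Unit) => g P := by
    rw [hlam]
    exact h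
  have hcf' : CF (Y := (Spc.cv k C.L a).prod (Spc.unit k)) fun p => g p.1 := CF.unit hcf
  have hg' := D.g_cf hD (by omega) (Y := Spc.unit k) (Φ := fun P _ => g P) hE hcf'
  have hg : CF (Y := Spc.wv k (a - genusQ C.σ) D.m D.e D.f)
      fun x => D.g (fun P (_ : Unit) => g P) x () := CF.fix_right (Y := Spc.unit k) hg' ()
  -- the two points
  obtain ⟨z, hz, hz0⟩ := exists_kill (n := a - genusQ C.σ) (by omega)
    fun i => val (below (Subgroup.zpowers C.σ) o) (D.φ i)
  have hon : ∀ y : Fin (a - genusQ C.σ + 1) → k, (1 : k) ^ D.m = MvPolynomial.aeval y D.f :=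
    fun y => by rw [hf, map_one, one_pow]
  have hne : (Pi.single 0 1 : Fin (a - genusQ C.σ + 1) → k) ≠ 0 := fun h0 => by
    have h3 := congrFun h0 0
    rw [Pi.single_eq_same] at h3
    exact one_ne_zero h3
  let x0 : (Spc.wv k (a - genusQ C.σ) D.m D.e D.f).pt := ⟨(Pi.single 0 1, 1), hne, hon _⟩
  let x1 : (Spc.wv k (a - genusQ C.σ) D.m D.e D.f).pt := ⟨(z, 1), hz, hon _⟩
  have htw : ∀ (x : (Spc.wv k (a - genusQ C.σ) D.m D.e D.f).pt) (η : k) (hη : η ^ D.m = 1),
      tw η hη x = x := by
    intro x η hη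
    have h3 : η = 1 := by rwa [hm, pow_one] at hη
    apply Subtype.ext
    refine Prod.ext rfl ?_
    change η * x.1.2 = x.1.2
    rw [h3, one_mul]
  have h3 := line (by rw [hm]; exact one_pos) (by
    rw [he, mul_zero, hf]
    exact MvPolynomial.isHomogeneous_one _ _) hg (x := x0) (o := x1)
    (fun η hη => by rw [htw]) (fun η hη => by rw [htw])
  have h4 := D.g_base hD hE x0 rfl ()
  obtain ⟨P', hP'⟩ := D.exists_P hD (by omega) (x := x1) one_ne_zero
  have h5 := D.g_eq hD hE (x := x1) one_ne_zero hP' ()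
  have hq : ∀ j, D.c j ≠ below (Subgroup.zpowers C.σ) o := by
    intro j hj
    obtain ⟨i, hi⟩ := exists_actP hL hj.symm
    apply h1 j
    rw [Finset.mem_singleton, hi]
    exact map_pow_symm ho i
  obtain ⟨j, hj⟩ := (hP'.zs.zero _ hq).1 hz0
  have h6 : below (Subgroup.zpowers C.σ) (P' j) = below (Subgroup.zpowers C.σ) o :=
    Sum.inr.inj hj
  obtain ⟨i, hi⟩ := exists_actP hL h6.symm
  have h7 : P' j = o := by
    rw [hi]
    exact map_pow_symm ho i
  rw [← h4, h3, h5]
  exact hbase P' j h7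

theorem zero_cover {n m e : ℕ} {f : MvPolynomial (Fin (n + 1)) k} (hm : 0 < m)
    (hf : f.IsHomogeneous (m * e)) {V : Type} [AddCommGroup V] [Module k V]
    {g : (Spc.wv k n m e f).pt → V} (hg : CF g) {ζ : k} (hζ : IsPrimitiveRoot ζ m)
    (h : ∀ x, g (tw ζ hζ.pow_eq_one x) = g x) (o : (Spc.wv k n m e f).pt)
    (ho' : g o = 0) (x : (Spc.wv k n m e f).pt) : g x = 0 := by
  have h1 : ∀ (x : (Spc.wv k n m e f).pt) (η : k) (hη : η ^ m = 1), g (tw η hη x) = g x := by
    intro x η hη
    obtain ⟨j, -, hj⟩ := tw_mem hm hζ (ξ := 1) (g := g) (fun x => by rw [h, one_smul]) hη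
    rw [hj, one_pow, one_smul]
  rw [line hm hf hg (h1 x) (h1 o), ho']

end Pool.Agent.CYC
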