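import Pool.Agent.CYC.RlA
import Pool.Agent.CYC.Defs
import Pool.Agent.TInc.Lin
import Pool.Agent.EFC.Util

/-!
# Existence of the data for the reduction
-/

set_option autoImplicit false

noncomputable section

namespace Pool.Agent.CYC

open Pool.Agent.ZCyc Pool.Agent.Dess Pool.Agent.TInc
open Pool.Agent.WFC (below stb)
open scoped Classical

variable {k L : Type} [Field k] [IsAlgClosed k] [CharZero k] [Field L] [Algebra k L]
  {σ : L ≃ₐ[k] L}

theorem OkC.pos (h : OkC σ) : 0 < orderOf σ := by
  rcases h.order with h | h | h | h | h <;> omega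

theorem OkC.finite (h : OkC σ) : Finite (Subgroup.zpowers σ) := by
  have h1 := h.pos
  rw [orderOf_pos_iff] at h1
  exact Set.Finite.to_subtype (finite_zpowers.2 h1)

omit [IsAlgClosed k] [CharZero k] in
/-- PROOF. The automorphisms `σ ^ i`, `i < N = orderOf σ`, are different, so they are linearly independent
over `L` (Dedekind, `linearIndependent_monoidHom`); so there is `x ∈ L` with
`y = ∑ i < N, λ ^ (- i) σ ^ i x ≠ 0`, and `σ y = λ y` because `σ ^ N = 1`, `λ ^ N = 1`. -/
theorem exists_y (hpos : 0 < orderOf σ) {lam : k} (h : lam ^ orderOf σ = 1) :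
    ∃ y : L, y ≠ 0 ∧ σ y = algebraMap k L lam * y := by
  have hl0 : lam ≠ 0 := by
    rintro rfl
    rw [zero_pow hpos.ne'] at h
    exact zero_ne_one h
  set N := orderOf σ with hN
  let c : ℕ → L := fun i => algebraMap k L (lam⁻¹ ^ i)
  have hli := linearIndependent_monoidHom L L
  have hinj : Function.Injective fun i : Fin N => ((σ ^ (i : ℕ) : L ≃ₐ[k] L) : L →* L) := by
    intro i j hij
    have h1 : σ ^ (i : ℕ) = σ ^ (j : ℕ) := by
      ext x
      exact DFunLike.congr_fun hij x
    exact Fin.ext (pow_injOn_Iio_orderOf i.2 j.2 h1)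
  have hli2 := hli.comp _ hinj
  obtain ⟨x, hx⟩ : ∃ x : L, ∑ i : Fin N, c i * (σ ^ (i : ℕ)) x ≠ 0 := by
    by_contra hcon
    push Not at hcon
    have h1 := (Fintype.linearIndependent_iff.1 hli2) (fun i => c i) (by
      funext x
      rw [Finset.sum_apply]
      simpa using hcon x) ⟨0, hpos⟩
    simp [c] at h1
  refine ⟨∑ i : Fin N, c i * (σ ^ (i : ℕ)) x, hx, ?_⟩
  rw [Fin.sum_univ_eq_sum_range (fun i => c i * (σ ^ i) x) N, map_sum, Finset.mul_sum]
  have h2 : ∀ i, σ (c i * (σ ^ i) x) = algebraMap k L lam * (c (i + 1) * (σ ^ (i + 1)) x) := by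
    intro i
    have h3 : σ ((σ ^ i) x) = (σ ^ (i + 1)) x := by
      rw [pow_succ']
      rfl
    rw [map_mul, h3]
    change σ (algebraMap k L (lam⁻¹ ^ i)) * _ =
      algebraMap k L lam * (algebraMap k L (lam⁻¹ ^ (i + 1)) * _)
    rw [AlgEquiv.commutes, ← mul_assoc, ← map_mul]
    congr 2
    rw [pow_succ]
    field_simp
  rw [Finset.sum_congr rfl fun i _ => h2 i, ← Finset.mul_sum, ← Finset.mul_sum]
  congr 1
  have h4 := Finset.sum_range_succ (fun i => c i * (σ ^ i) x) N
  have h5 := Finset.sum_range_succ' (fun i => c i * (σ ^ i) x) N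
  rw [h4] at h5
  have h6 : c N * (σ ^ N) x = c 0 * (σ ^ 0) x := by
    change algebraMap k L (lam⁻¹ ^ N) * (σ ^ N) x = algebraMap k L (lam⁻¹ ^ 0) * (σ ^ 0) x
    rw [inv_pow, h, hN, pow_orderOf_eq_one, pow_zero, pow_zero, inv_one]
  rw [h6] at h5
  exact (add_right_cancel h5).symm

variable [Finite (Subgroup.zpowers σ)]

/-- PROOF. `σ` fixes `y ^ m`, so all powers of `σ` do. -/
theorem exists_h {lam : k} {m : ℕ} (hm : lam ^ m = 1) {y : L}
    (hy : σ y = algebraMap k L lam * y) : ∃ h : KK σ, (h : L) = y ^ m := by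
  have h1 : σ (y ^ m) = y ^ m := by
    rw [map_pow, hy, mul_pow, ← map_pow, hm, map_one, one_mul]
  refine ⟨⟨y ^ m, ?_⟩, rfl⟩
  rw [WFC.mem_fix_iff]
  rintro ⟨g, hg⟩
  have h2 : Subgroup.zpowers σ ≤ MulAction.stabilizer (L ≃ₐ[k] L) (y ^ m) := by
    rw [Subgroup.zpowers_le]
    exact h1
  exact h2 hg

/-- The linear system. PROOF. `TInc.exists_phi` for the function field `KK σ` (`WFC.fix_curve`) and Riemann's
inequality for its genus (`EFC.riemann_genus`, `TInc.exists_genus`; `genusQ σ` is `EFC.genus` of this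
field) gives `n` functions; put the constant `1` in front of them (`Fin.cons`). Linear independence: in a
relation `z 0 + ∑ z_m φ_m = 0` the `z_m` are zero by the last property in `exists_phi`, and then `z 0 = 0`. -/
theorem exists_lin (hL : IsCurve k L) {a n : ℕ} (hn : n + genusQ σ ≤ a)
    (c : Fin a → Place k (KK σ)) (hc : Function.Injective c) :
    ∃ φ : Fin (n + 1) → KK σ, Lin c φ := by
  have hK : IsCurve k (KK σ) := WFC.fix_curve (Subgroup.zpowers σ) hL
  have hR : Riemann hK (genusQ σ) := EFC.riemann_genus (L := KK σ) hK (exists_genus hK)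
  obtain ⟨φ, h1, h2, h3⟩ := exists_phi hR hn c hc
  refine ⟨Fin.cons 1 φ, hc, rfl, ?_, ?_, ?_⟩
  · intro i v hv
    refine Fin.cases ?_ (fun m => ?_) i
    · rw [Fin.cons_zero]
      exact v.ring.one_mem
    · rw [Fin.cons_succ]
      exact h1 m v hv
  · intro i j
    refine Fin.cases ?_ (fun m => ?_) i
    · intro _
      rw [Fin.cons_zero]
      have h4 := ord_const hK (c j) (1 : k)
      rw [map_one] at h4
      rw [h4]
      norm_num
    · rw [Fin.cons_succ]
      exact h2 m j
  · rw [Fintype.linearIndependent_iff]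
    intro z hz
    rw [Fin.sum_univ_succ, Fin.cons_zero] at hz
    simp only [Fin.cons_succ] at hz
    have h5 : (fun m => z (Fin.succ m)) = 0 := by
      by_contra h6
      refine h3 _ h6 (- z 0) ?_
      rw [map_neg, eq_neg_iff_add_eq_zero, add_comm]
      rw [Algebra.smul_def, mul_one] at hz
      simp only [Algebra.smul_def] at hz
      exact hz
    intro i
    refine Fin.cases ?_ (fun m => congrFun h5 m) i
    have h7 : ∑ m : Fin n, z (Fin.succ m) • φ m = 0 :=
      Finset.sum_eq_zero fun m _ => by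
        have h8 : z (Fin.succ m) = 0 := congrFun h5 m
        rw [h8, zero_smul]
    rw [h7, add_zero, Algebra.smul_def, mul_one] at hz
    exact (map_eq_zero _).1 hz

/-- the conditions for `a = 0` -/
private theorem dex_lin0 (c : Fin 0 → Place k (KK σ)) :
    Lin c (fun _ : Fin (0 + 1) => (1 : KK σ)) where
  inj := fun i => i.elim0
  one := rfl
  reg := fun _ v _ => v.ring.one_mem
  pole := fun _ j => j.elim0
  ind := by
    rw [Fintype.linearIndependent_iff]
    intro g hg i
    rw [Fin.sum_univ_one, Algebra.smul_def, mul_one] at hg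
    have h1 := (map_eq_zero (algebraMap k (KK σ))).1 hg
    have h2 : i = 0 := Fin.ext (by omega)
    rw [h2]
    exact h1

private theorem dex_unb (h : OkC σ) {lam : k} {m : ℕ} (hpos : 0 < m)
    (hlam : IsPrimitiveRoot lam m) {y : L} (hy0 : y ≠ 0) (hy : σ y = algebraMap k L lam * y)
    {hh : KK σ} (hhh : (hh : L) = y ^ m) (c : Place k L) (hc : c.map σ ≠ c) :
    (ord (below (Subgroup.zpowers σ) c) hh % (m : ℤ)).toNat = 0 := by
  let D : Dat σ 0 0 := ⟨m, lam, y, hh, fun i => i.elim0, fun _ => 1⟩
  have hD : D.Ok :=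
    { curve := h.curve
      pos := hpos
      prim := hlam
      ne := hy0
      eig := hy
      pow := hhh
      total := h.total
      lin := dex_lin0 _
      unb := fun j => j.elim0 }
  by_contra hne
  have h1 : actP σ 1 c = c := hD.fixed (c := c) hne
  apply hc
  unfold actP at h1
  rw [pow_one] at h1
  conv_lhs => rw [← h1]
  change (c.map (σ⁻¹ : L ≃ₐ[k] L)).map σ = c
  rw [WFC.pmap_mul, mul_inv_cancel]
  exact WFC.pmap_one c

/-- The data exist for general tuples. PROOF. `exists_y`, `exists_h`, `exists_lin`. For `λ = 1` (then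
`m = 1`) take `y = 1`, `h = 1`. `unb`: if `λ ≠ 1` then `μ(c_j) ≠ 0` implies that `P0 j` is a fixed point (the
proof of `Dat.Ok.fixed`, which does not use the fields `lin` and `unb`; repeat it here, or prove it first
for data without these conditions); if `m = 1` then `μ = 0`. -/
theorem exists_dat (h : OkC σ) {lam : k} {m : ℕ} (hlam : IsPrimitiveRoot lam m)
    (hdvd : lam ^ orderOf σ = 1) {a n : ℕ} (hn : n + genusQ σ ≤ a) (P0 : Fin a → Place k L)
    (hP : Function.Injective fun j => below (Subgroup.zpowers σ) (P0 j))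
    (hfix : lam ≠ 1 → ∀ j, (P0 j).map σ ≠ P0 j) :
    ∃ D : Dat σ a n, D.Ok ∧ D.lam = lam ∧ D.m = m ∧ D.P0 = P0 ∧ (lam = 1 → D.h = 1) := by
  obtain ⟨φ, hφ⟩ := exists_lin h.curve hn (fun j => below (Subgroup.zpowers σ) (P0 j)) hP
  by_cases h1 : lam = 1
  · subst h1
    have hm : m = 1 := IsPrimitiveRoot.one_left_iff.1 hlam
    subst hm
    refine ⟨⟨1, 1, 1, 1, P0, φ⟩, ?_, rfl, rfl, rfl, fun _ => rfl⟩
    exact
      { curve := h.curve
        pos := Nat.one_pos
        prim := hlam
        ne := one_ne_zero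
        eig := by simp
        pow := by simp
        total := h.total
        lin := hφ
        unb := fun j => by
          unfold Dat.mu
          simp }
  · have hpos : 0 < m := by
      have h2 : m ∣ orderOf σ := hlam.dvd_of_pow_eq_one _ hdvd
      exact Nat.pos_of_dvd_of_pos h2 h.pos
    obtain ⟨y, hy0, hy⟩ := exists_y h.pos hdvd
    obtain ⟨hh, hhh⟩ := exists_h hlam.pow_eq_one hy
    refine ⟨⟨m, lam, y, hh, P0, φ⟩, ?_, rfl, rfl, rfl, fun h2 => absurd h2 h1⟩
    exact
      { curve := h.curve
        pos := hpos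
        prim := hlam
        ne := hy0
        eig := hy
        pow := hhh
        total := h.total
        lin := hφ
        unb := fun j => dex_unb h hpos hlam hy0 hy hhh (P0 j) (hfix h1 j) }

/-- the fibres of the map to the quotient are finite -/
theorem finite_below (hL : IsCurve k L) (q : Place k (KK σ)) :
    {c : Place k L | below (Subgroup.zpowers σ) c = q}.Finite := by
  by_cases h : ∃ c₀ : Place k L, below (Subgroup.zpowers σ) c₀ = q
  · obtain ⟨c₀, rfl⟩ := h
    refine (Set.finite_range fun g : Subgroup.zpowers σ => c₀.map g.1).subset ?_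
    intro c hc
    obtain ⟨g, hg⟩ := WFC.exists_map_eq (Subgroup.zpowers σ) hL (c := c₀) (c' := c)
      (Eq.symm hc)
    exact ⟨g, hg⟩
  · convert Set.finite_empty
    ext c
    exact ⟨fun hc => h ⟨c, hc⟩, fun hc => absurd hc (Set.notMem_empty c)⟩

/-- An automorphism `≠ 1` has only finitely many fixed points. PROOF. `σ ≠ 1`; let `x ∈ L` with
`σ x ≠ x`, and let `c` be a fixed point where `x` is regular; then `σ x` has the same value as `x` at `c`
(`c.map σ = c`), so `σ x - x ≠ 0` vanishes at `c`; the poles of `x` and the zeros of `σ x - x` are finite in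
number. -/
theorem finite_fixed (hL : IsCurve k L) (h : σ ≠ 1) : {c : Place k L | c.map σ = c}.Finite := by
  obtain ⟨x, hx⟩ : ∃ x : L, σ x ≠ x := by
    by_contra hcon
    push Not at hcon
    exact h (AlgEquiv.ext hcon)
  have hd : σ x - x ≠ 0 := sub_ne_zero.2 hx
  refine ((finite_ord hL (σ x - x)).union (finite_ord hL x)).subset ?_
  intro c hc
  have hc' : c.map σ = c := hc
  by_contra hcon
  have h1 : ord c (σ x - x) = 0 := by
    by_contra h0
    exact hcon (Or.inl h0)
  have h2 : ord c x = 0 := by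
    by_contra h0
    exact hcon (Or.inr h0)
  have hx0 : x ≠ 0 := by
    rintro rfl
    rw [map_zero] at hx
    exact hx rfl
  have hxr : x ∈ c.ring := (mem_iff_ord hL hx0).2 h2.ge
  have h3 := at_val hL hxr
  have h4 : c.At (σ x) (val c x) := by
    have h5 := (WFC.at_map_iff c σ x (val c x)).2 h3
    rwa [hc'] at h5
  have h5 := h4.sub h3
  rw [sub_self, Place.at_zero_iff, vanishes_iff_ord hL hd] at h5
  omega

end Pool.Agent.CYC
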