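import Pool.Agent.CYC.Cls

/-!
# The dual covering

`w ^ m = F G ^ (m - 1)` and `w' ^ m = G F ^ (m - 1)` are related by `w w' = F G`.
-/

set_option autoImplicit false
set_option linter.unusedSectionVars false

noncomputable section

namespace Pool.Agent.CYC

open Pool.Agent.ZCyc Pool.Agent.Dess Pool.Agent.TInc
open scoped Classical

variable {k : Type} [Field k] [IsAlgClosed k] [CharZero k] {n m e e' : ℕ}
  {F G : MvPolynomial (Fin (n + 1)) k}

private theorem dual_aux {K : Type} [Field K] (hm : 2 ≤ m) (f g : K) :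
    (f * g) ^ m = f * g ^ (m - 1) * (g * f ^ (m - 1)) := by
  obtain ⟨r, rfl⟩ : ∃ r, m = r + 1 := ⟨m - 1, by omega⟩
  rw [Nat.add_sub_cancel]
  ring

/-- the point with `w w' = F G` -/
def dualPt (hm : 2 ≤ m) (x : (Spc.wv k n m e' (G * F ^ (m - 1))).pt) (hx : x.1.2 ≠ 0) :
    (Spc.wv k n m e (F * G ^ (m - 1))).pt :=
  ⟨(x.1.1, MvPolynomial.aeval x.1.1 F * MvPolynomial.aeval x.1.1 G / x.1.2), x.2.1, by
    have h1 : x.1.2 ^ m = MvPolynomial.aeval x.1.1 G * MvPolynomial.aeval x.1.1 F ^ (m - 1) := by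
      have h2 := x.2.2
      rwa [map_mul, map_pow] at h2
    have h3 : MvPolynomial.aeval x.1.1 G * MvPolynomial.aeval x.1.1 F ^ (m - 1) ≠ 0 := by
      rw [← h1]
      exact pow_ne_zero _ hx
    change (MvPolynomial.aeval x.1.1 F * MvPolynomial.aeval x.1.1 G / x.1.2) ^ m =
      MvPolynomial.aeval x.1.1 (F * G ^ (m - 1))
    rw [map_mul, map_pow, div_pow, h1, div_eq_iff h3]
    exact dual_aux hm _ _⟩

/-- the class function on the dual covering -/
def dualF {B V : Type*} [AddCommGroup V] (hm : 2 ≤ m)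
    (g : (Spc.wv k n m e (F * G ^ (m - 1))).pt → B → V)
    (x : (Spc.wv k n m e' (G * F ^ (m - 1))).pt) (y : B) : V :=
  if h : x.1.2 ≠ 0 then g (dualPt hm x h) y else 0

/-- PROOF. `ξ w'` corresponds to `ξ⁻¹ w`; apply `hg` to the point `dualPt` of `ξ w'`. -/
theorem dualF_tw {B V : Type*} [AddCommGroup V] [Module k V] (hm : 2 ≤ m)
    {g : (Spc.wv k n m e (F * G ^ (m - 1))).pt → B → V} {ζ ξ : k} (hζ : ζ ^ m = 1) (hξ : ξ ≠ 0)
    (hg : ∀ x y, g (tw ζ hζ x) y = ξ • g x y) (x : (Spc.wv k n m e' (G * F ^ (m - 1))).pt) (y : B) :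
    dualF hm g (tw ζ hζ x) y = ξ⁻¹ • dualF hm g x y := by
  have hζ0 : ζ ≠ 0 := by
    rintro rfl
    rw [zero_pow (by omega)] at hζ
    exact zero_ne_one hζ
  by_cases hx : x.1.2 = 0
  · have h1 : (tw ζ hζ x).1.2 = 0 := by
      change ζ * x.1.2 = 0
      rw [hx, mul_zero]
    unfold dualF
    rw [dif_neg (not_not.2 h1), dif_neg (not_not.2 hx), smul_zero]
  · have h1 : (tw ζ hζ x).1.2 ≠ 0 := mul_ne_zero hζ0 hx
    have h2 : tw ζ hζ (dualPt (e := e) hm (tw ζ hζ x) h1) = dualPt (e := e) hm x hx := by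
      apply Subtype.ext
      refine Prod.ext rfl ?_
      change ζ * (MvPolynomial.aeval x.1.1 F * MvPolynomial.aeval x.1.1 G / (ζ * x.1.2)) =
        MvPolynomial.aeval x.1.1 F * MvPolynomial.aeval x.1.1 G / x.1.2
      field_simp
    unfold dualF
    rw [dif_pos h1, dif_pos hx, ← h2, hg, smul_smul, inv_mul_cancel₀ hξ, one_smul]

/-- the function can be recovered from the dual one -/
theorem dualF_eq {B V : Type*} [AddCommGroup V] (hm : 2 ≤ m)
    {g : (Spc.wv k n m e (F * G ^ (m - 1))).pt → B → V}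
    (h : ∀ x y, dualF (e' := e') hm g x y = 0) (x : (Spc.wv k n m e (F * G ^ (m - 1))).pt)
    (hx : x.1.2 ≠ 0) (y : B) : g x y = 0 := by
  have h1 : MvPolynomial.aeval x.1.1 F * MvPolynomial.aeval x.1.1 G ^ (m - 1) ≠ 0 := by
    have h2 := x.2.2
    rw [map_mul, map_pow] at h2
    rw [← h2]
    exact pow_ne_zero _ hx
  have hF0 : MvPolynomial.aeval x.1.1 F ≠ 0 := left_ne_zero_of_mul h1
  have hG0 : MvPolynomial.aeval x.1.1 G ≠ 0 := by
    intro h2
    rw [h2, zero_pow (by omega), mul_zero] at h1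
    exact h1 rfl
  have h2 : (dualPt (F := G) (G := F) (e := e') hm x hx).1.2 ≠ 0 :=
    div_ne_zero (mul_ne_zero hG0 hF0) hx
  have h3 : dualPt (e := e) hm (dualPt (F := G) (G := F) (e := e') hm x hx) h2 = x := by
    apply Subtype.ext
    refine Prod.ext rfl ?_
    change MvPolynomial.aeval x.1.1 F * MvPolynomial.aeval x.1.1 G /
      (MvPolynomial.aeval x.1.1 G * MvPolynomial.aeval x.1.1 F / x.1.2) = x.1.2
    field_simp
  have h4 := h (dualPt (F := G) (G := F) (e := e') hm x hx) y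
  unfold dualF at h4
  rw [dif_pos h2, h3] at h4
  exact h4

private theorem dual_mv {K : Type} [Field K] [Algebra k K] {v : Place k K} {ι : Type} {u : ι → K}
    {c : ι → k} (h : ∀ i, v.At (u i) (c i)) (f : MvPolynomial ι k) :
    v.At (MvPolynomial.aeval u f) (MvPolynomial.aeval c f) := by
  induction f using MvPolynomial.induction_on with
  | C a =>
    rw [MvPolynomial.aeval_C, MvPolynomial.aeval_C]
    exact Place.at_const a
  | add p q hp hq =>
    rw [map_add, map_add]
    exact hp.add hq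
  | mul_X p i hp =>
    rw [map_mul, map_mul, MvPolynomial.aeval_X, MvPolynomial.aeval_X]
    exact hp.mul (h i)

private theorem dual_hom {K : Type} [Field K] [Algebra k K] {A : MvPolynomial (Fin (n + 1)) k}
    {r : ℕ} (hA : A.IsHomogeneous r) (l : K) (s : Fin (n + 1) → K) :
    MvPolynomial.aeval (fun j => l * s j) A = l ^ r * MvPolynomial.aeval s A := by
  rw [MvPolynomial.aeval_def, MvPolynomial.aeval_def, MvPolynomial.eval₂_eq',
    MvPolynomial.eval₂_eq', Finset.mul_sum]
  refine Finset.sum_congr rfl fun d hd => ?_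
  have h1 : ∑ i, d i = r := by
    have h2 := hA (MvPolynomial.mem_support_iff.1 hd)
    rw [← h2, ← Finsupp.degree_eq_sum, Finsupp.degree_eq_weight_one]
    rfl
  simp only [mul_pow, Finset.prod_mul_distrib]
  rw [Finset.prod_pow_eq_pow_sum, h1]
  ring

private theorem dq_aux (hm : 2 ≤ m) {K : Type} [Field K] [Algebra k K] (z : Fin (n + 1) → K)
    (w : K) (h : w ^ m = MvPolynomial.aeval z (G * F ^ (m - 1))) :
    (MvPolynomial.aeval z F * MvPolynomial.aeval z G / w) ^ m =
      MvPolynomial.aeval z (F * G ^ (m - 1)) := by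
  rw [map_mul, map_pow] at h
  rw [map_mul, map_pow]
  by_cases hw : w = 0
  · rw [hw, div_zero, zero_pow (by omega)]
    rw [hw, zero_pow (by omega)] at h
    rcases mul_eq_zero.1 h.symm with h1 | h1
    · rw [h1, zero_pow (by omega), mul_zero]
    · rw [eq_zero_of_pow_eq_zero h1, zero_mul]
  · have h3 : MvPolynomial.aeval z G * MvPolynomial.aeval z F ^ (m - 1) ≠ 0 := by
      rw [← h]
      exact pow_ne_zero _ hw
    rw [div_pow, h, div_eq_iff h3]
    exact dual_aux hm _ _

private def dq (hm : 2 ≤ m) (x : (Spc.wv k n m e' (G * F ^ (m - 1))).pt) :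
    (Spc.wv k n m e (F * G ^ (m - 1))).pt :=
  ⟨(x.1.1, MvPolynomial.aeval x.1.1 F * MvPolynomial.aeval x.1.1 G / x.1.2), x.2.1,
    dq_aux hm _ _ x.2.2⟩

private theorem dualF_dq {B V : Type*} [AddCommGroup V] (hm : 2 ≤ m)
    {g : (Spc.wv k n m e (F * G ^ (m - 1))).pt → B → V} (h0 : ∀ x y, x.1.2 = 0 → g x y = 0)
    (x : (Spc.wv k n m e' (G * F ^ (m - 1))).pt) (y : B) :
    dualF hm g x y = g (dq hm x) y := by
  unfold dualF
  split_ifs with h
  · rfl
  · symm
    apply h0
    change MvPolynomial.aeval x.1.1 F * MvPolynomial.aeval x.1.1 G / x.1.2 = 0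
    rw [not_not.1 h, div_zero]

/-- PROOF. Let `(z, w')`, `Q` be a point over a function field `K`, with values `p v` for the
multipliers `l = l_v`. If `w' = 0` all values have `w' = 0` and the function is zero there. Let
`w' ≠ 0`, and `w = F(z) G(z) / w'`, a point of the covering `w ^ m = F G ^ (m - 1)` over `K`. Let
`q v` be the point `dualPt` of `p v`, if the coordinate `w'` of `p v` is not zero, and the point
with the coordinates `(p v).z` and `w = 0` otherwise. Claim: `q v` is the value of `(z, w)` at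
`v`, with the multiplier `l`. By the homogeneity `l ^ e w = F(l z) G(l z) / (l ^ e' w')` (as `e +
e'` is the sum of the degrees of `F` and `G`). If the value `w0'` of `l ^ e' w'` is not zero, this
has the value `F(z0) G(z0) / w0'`. If it is zero, then `G(z0) F(z0) ^ (m - 1) = 0`, so `F(z0)
G(z0) = 0`, and `(l ^ e w) ^ m = F(l z) G(l z) ^ (m - 1)` has the value `F(z0) G(z0) ^ (m - 1) =
0` (`2 ≤ m`), so `l ^ e w` vanishes at `v` (`Place.vanishes_of_pow`). The relation for `g` and the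
values `q v`, `Q` is the relation for the dual function: both functions are zero at the points
with `w0' = 0` (`h0`). -/
theorem dualF_cf (hm : 2 ≤ m) {α β : ℕ} (hF : F.IsHomogeneous α) (hG : G.IsHomogeneous β)
    (he : α + (m - 1) * β = m * e) (he' : e + e' = α + β) {Y : Spc k} {V : Type*} [AddCommGroup V]
    {g : (Spc.wv k n m e (F * G ^ (m - 1))).pt → Y.pt → V} (h0 : ∀ x y, x.1.2 = 0 → g x y = 0)
    (hg : CF (Y := (Spc.wv k n m e (F * G ^ (m - 1))).prod Y) fun p => g p.1 p.2) :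
    CF (Y := (Spc.wv k n m e' (G * F ^ (m - 1))).prod Y) fun p => dualF hm g p.1 p.2 := by
  intro K _ _ hK P p φ D hφ hD hval
  simp only [dualF_dq hm h0]
  let Q : (Spc.wv k n m e (F * G ^ (m - 1))).Pt K :=
    ⟨(P.1.1.1, MvPolynomial.aeval P.1.1.1 F * MvPolynomial.aeval P.1.1.1 G / P.1.1.2), P.1.2.1,
      dq_aux hm _ _ P.1.2.2⟩
  refine hg K hK (Q, P.2) (fun v => (dq hm (p v).1, (p v).2)) φ D hφ hD fun v =>
    ⟨?_, (hval v).2⟩
  obtain ⟨l, h1, h2⟩ := (hval v).1
  refine ⟨l, h1, ?_⟩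
  have hl : l ≠ 0 := by
    rintro rfl
    apply (p v).1.2.1
    funext i
    have h3 := h1 i
    rw [zero_mul] at h3
    have h4 := Place.at_const (v := v) (0 : k)
    rw [map_zero] at h4
    exact h3.unique h4
  have hFz := dual_mv h1 F
  have hGz := dual_mv h1 G
  rw [dual_hom hF] at hFz
  rw [dual_hom hG] at hGz
  change v.At (l ^ e * (MvPolynomial.aeval P.1.1.1 F * MvPolynomial.aeval P.1.1.1 G / P.1.1.2))
    (MvPolynomial.aeval (p v).1.1.1 F * MvPolynomial.aeval (p v).1.1.1 G / (p v).1.1.2)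
  by_cases hw : (p v).1.1.2 = 0
  · have h3 : MvPolynomial.aeval (p v).1.1.1 F * MvPolynomial.aeval (p v).1.1.1 G ^ (m - 1) =
        0 := by
      have h4 := dq_aux (F := F) (G := G) hm _ _ (p v).1.2.2
      rw [hw, div_zero, zero_pow (by omega), map_mul, map_pow] at h4
      exact h4.symm
    rw [hw, div_zero, Place.at_zero_iff]
    apply Place.vanishes_of_pow (n := m)
    rw [← Place.at_zero_iff, ← h3]
    have h5 : (l ^ e * (MvPolynomial.aeval P.1.1.1 F * MvPolynomial.aeval P.1.1.1 G /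
        P.1.1.2)) ^ m = l ^ α * MvPolynomial.aeval P.1.1.1 F *
          (l ^ β * MvPolynomial.aeval P.1.1.1 G) ^ (m - 1) := by
      rw [mul_pow, dq_aux hm _ _ P.1.2.2, map_mul, map_pow, ← pow_mul, mul_comm e m, ← he,
        pow_add, mul_pow, ← pow_mul, mul_comm β (m - 1)]
      ring
    rw [h5]
    exact hFz.mul (hGz.pow _)
  · have h3 := (hFz.mul hGz).div h2 hw
    have h4 : l ^ e * (MvPolynomial.aeval P.1.1.1 F * MvPolynomial.aeval P.1.1.1 G / P.1.1.2) =
        l ^ α * MvPolynomial.aeval P.1.1.1 F * (l ^ β * MvPolynomial.aeval P.1.1.1 G) /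
          (l ^ e' * P.1.1.2) := by
      have h5 : l ^ α * MvPolynomial.aeval P.1.1.1 F * (l ^ β * MvPolynomial.aeval P.1.1.1 G) =
          l ^ e' * (l ^ e * (MvPolynomial.aeval P.1.1.1 F * MvPolynomial.aeval P.1.1.1 G)) := by
        have h6 : l ^ α * l ^ β = l ^ e' * l ^ e := by
          rw [← pow_add, ← pow_add, ← he', add_comm]
        linear_combination (MvPolynomial.aeval P.1.1.1 F * MvPolynomial.aeval P.1.1.1 G) * h6
      rw [h5, mul_div_mul_left _ _ (pow_ne_zero _ hl), mul_div_assoc (l ^ e)]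
    rw [h4]
    exact h3

end Pool.Agent.CYC
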