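import Pool.Agent.CYC.Inst

/-!
# The filtration: conditions 1 to 4 from the formal part
-/

set_option autoImplicit false

noncomputable section

namespace Pool.Agent.CYC

open Pool.Agent.ZCyc Pool.Agent.Dess
open Pool.Agent.CYC.Formal

variable {k : Type} [Field k] {m m' : ℕ} {X : Fin m → Vr k} {Y : Fin m' → Vr k}

/-- the base points of the factors -/
def oP (X : Fin m → Vr k) : Pts m k := fun j => ⟨X j, (X j).o⟩

/-- the dimensions of the factors -/
def dimP (X : Fin m → Vr k) : Fin m → ℕ := fun j => (X j).dim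

/-- the numbers of the factors of the components -/
def Mor.srcs (f : Mor X Y) : Fin m' → Option (Fin m) := fun j => (f j).src

theorem proj_eq (T : Finset (Fin m)) : proj X T = prj (oP X) T := rfl

theorem mem_Fil {ν : ℕ} {z : Pts m k →₀ ℚ} :
    z ∈ Fil X ν ↔ InFil (oP X) (ratEq X) (OnP X) (dimP X) ν z := Iff.rfl

theorem Vr.dim_pos (X : Vr k) : 0 < X.dim := by
  cases X with
  | curve C => exact Nat.one_pos
  | cover W => exact lt_of_lt_of_le (by norm_num) W.ok.dim

theorem onP_oP : OnP X (oP X) := fun j => ⟨rfl, (X j).on_o⟩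

theorem onP_prj (T : Finset (Fin m)) {x : Pts m k} (hx : OnP X x) : OnP X (prj (oP X) T x) := by
  intro j
  by_cases h : j ∈ T
  · have h1 : prj (oP X) T x j = x j := if_pos h
    rw [h1]
    exact hx j
  · have h1 : prj (oP X) T x j = oP X j := if_neg h
    rw [h1]
    exact onP_oP j

/-- the projection as a morphism -/
def projM (X : Fin m → Vr k) (T : Finset (Fin m)) : Mor X X := fun j =>
  if j ∈ T then .fac j rfl 0 else .const (X j).o (X j).on_o

theorem projM_app (T : Finset (Fin m)) : (projM X T).app = prj (oP X) T := by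
  funext x j
  unfold Mor.app projM prj
  split_ifs
  · show (⟨(x j).1, (x j).1.act 0 (x j).2⟩ : Pt k) = x j
    rw [Vr.act_zero]
  · rfl

/-- the cycles which are rationally equivalent to zero are stable under the projections -/
theorem ratEq_prj (X : Fin m → Vr k) (U : Finset (Fin m)) :
    ratEq X ≤ (ratEq X).comap (Finsupp.lmapDomain ℚ ℚ (prj (oP X) U)) := by
  rw [← projM_app]
  exact ratEq_le _

theorem Comp.src_eq {Z : Vr k} {f : Comp X Z} {i : Fin m} (h : f.src = some i) : X i = Z := by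
  cases f with
  | const p hp => simp [Comp.src] at h
  | fac i' h' n =>
    simp only [Comp.src, Option.some.injEq] at h
    subst h
    exact h'

theorem Comp.app_fac {Z : Vr k} {f : Comp X Z} {i : Fin m} (h : f.src = some i) (x : Pts m k) :
    f.app x = ⟨(x i).1, (x i).1.act f.exp (x i).2⟩ := by
  cases f with
  | const p hp => simp [Comp.src] at h
  | fac i' h' n =>
    simp only [Comp.src, Option.some.injEq] at h
    subst h
    rfl

theorem Comp.app_none {Z : Vr k} {f : Comp X Z} (h : f.src = none) (x y : Pts m k) :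
    f.app x = f.app y := by
  cases f with
  | const p hp => rfl
  | fac i' h' n => simp [Comp.src] at h

theorem app_oP {Z : Vr k} {f : Comp X Z} {i : Fin m} (h : f.src = some i) {x : Pts m k}
    (hx : x i = ⟨X i, (X i).o⟩) : f.app x = ⟨Z, Z.o⟩ := by
  have h1 := f.src_eq h
  subst h1
  rw [Comp.app_fac h, hx, Vr.act_o]

theorem mem_keep {src : Fin m' → Option (Fin m)} {U : Finset (Fin m)} {j : Fin m'} :
    j ∈ keep src U ↔ ∀ i, src j = some i → i ∈ U := by
  simp [keep]

/-- a morphism is compatible with the projections -/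
theorem Mor.hsrc (f : Mor X Y) : Src (oP X) (oP Y) (OnP X) f.srcs f.app := by
  intro x U _
  funext j
  show (f j).app (prj (oP X) U x) = prj (oP Y) (keep f.srcs U) (f.app x) j
  unfold prj
  cases h : (f j).src with
  | none =>
    have h1 : j ∈ keep f.srcs U := by
      refine mem_keep.2 fun i hi => ?_
      rw [Mor.srcs, h] at hi
      cases hi
    rw [if_pos h1]
    exact Comp.app_none h _ _
  | some i =>
    by_cases hi : i ∈ U
    · have h1 : j ∈ keep f.srcs U := by
        refine mem_keep.2 fun i' hi' => ?_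
        rw [Mor.srcs, h, Option.some.injEq] at hi'
        rw [← hi']
        exact hi
      rw [if_pos h1]
      show (f j).app _ = (f j).app x
      rw [Comp.app_fac h, Comp.app_fac h, if_pos hi]
    · have h1 : j ∉ keep f.srcs U := fun h2 => hi (mem_keep.1 h2 i h)
      rw [if_neg h1]
      refine app_oP h ?_
      rw [if_neg hi]
      rfl

theorem Mor.isMor (f : Mor X Y) : IsMor (oP X) (oP Y) (ratEq X) (ratEq Y) (OnP X) (OnP Y)
    (dimP X) (dimP Y) f.srcs f.app where
  on _ hx := f.onP hx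
  hsrc := f.hsrc
  le := ratEq_le f
  eq _ _ h := congrArg Vr.dim (Comp.src_eq h)

theorem pushM_apply (γ : Mor X Y →₀ ℚ) (z : Pts m k →₀ ℚ) :
    pushM γ z = γ.sum fun f c => c • z.mapDomain f.app := by
  rw [pushM, Finsupp.sum, LinearMap.sum_apply]
  rfl

/-! ### the conditions -/

theorem Fil_ge (X : Fin m → Vr k) (ν : ℕ) : ratEq X ≤ Fil X ν := fun _ hz =>
  InFil_of_mem (oP X) (ratEq X) (ratEq_prj X) (fun _ => ratEq_on) ν hz

theorem Fil_anti (X : Fin m → Vr k) (ν : ℕ) : Fil X (ν + 1) ≤ Fil X ν := fun _ hz =>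
  InFil_anti (oP X) (ratEq X) (mem_Fil.1 hz)

theorem Fil_zero {z : Pts m k →₀ ℚ} : z ∈ Fil X 0 ↔ ∀ p ∈ z.support, OnP X p :=
  InFil_zero (oP X) (ratEq X)

theorem Fil_one [IsAlgClosed k] [CharZero k] {z : Pts m k →₀ ℚ} :
    z ∈ Fil X 1 ↔ (∀ p ∈ z.support, OnP X p) ∧ (z.sum fun _ c => c) = 0 :=
  InFil_one (oP X) (ratEq X) (n := dimP X) (fun j => (X j).dim_pos) (fun _ => ratEq_deg)

theorem Fil_top (X : Fin m → Vr k) : Fil X ((∑ j, (X j).dim) + 1) = ratEq X := by
  ext z
  exact InFil_top (oP X) (ratEq X) (n := dimP X) (ratEq_prj X) (fun _ => ratEq_on)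

/-- the projection to the factor `j` as a morphism -/
def facM (X : Fin m → Vr k) (j : Fin m) : Mor X (fun _ : Fin 1 => X j) := fun _ => .fac j rfl 0

/-- the inclusion of the factor `j` as a morphism -/
def insM (X : Fin m → Vr k) (j : Fin m) : Mor (fun _ : Fin 1 => X j) X := fun i =>
  if h : j = i then .fac 0 (congrArg X h) 0 else .const (X i).o (X i).on_o

theorem toFac_prj (j : Fin m) (z : Pts m k →₀ ℚ) :
    toFac j z = Finsupp.lmapDomain ℚ ℚ (facM X j).app (z.mapDomain (prj (oP X) {j})) := by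
  rw [Finsupp.lmapDomain_apply, ← Finsupp.mapDomain_comp]
  show z.mapDomain (fun x (_ : Fin 1) => x j) = _
  congr 1
  funext x i
  show x j = (⟨(prj (oP X) {j} x j).1, (prj (oP X) {j} x j).1.act 0 (prj (oP X) {j} x j).2⟩ : Pt k)
  rw [Vr.act_zero]
  simp [prj]

theorem prj_toFac (j : Fin m) (z : Pts m k →₀ ℚ) :
    z.mapDomain (prj (oP X) {j}) = Finsupp.lmapDomain ℚ ℚ (insM X j).app (toFac j z) := by
  rw [Finsupp.lmapDomain_apply, toFac, Finsupp.lmapDomain_apply, ← Finsupp.mapDomain_comp]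
  congr 1
  funext x i
  show prj (oP X) {j} x i = (insM X j i).app fun _ => x j
  unfold prj insM
  by_cases h : j = i
  · subst h
    rw [if_pos (Finset.mem_singleton_self j), dif_pos rfl]
    show x j = (⟨(x j).1, (x j).1.act 0 (x j).2⟩ : Pt k)
    rw [Vr.act_zero]
  · rw [if_neg (by rw [Finset.mem_singleton]; exact fun h' => h h'.symm), dif_neg h]
    rfl

theorem Fil_two {z : Pts m k →₀ ℚ} : z ∈ Fil X 2 ↔ z ∈ Fil X 1 ∧
    ∀ j, (X j).dim = 1 → toFac j z ∈ ratEq (fun _ : Fin 1 => X j) := by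
  rw [mem_Fil, mem_Fil, InFil_two (oP X) (ratEq X) (n := dimP X) (fun j => (X j).dim_pos)]
  refine and_congr Iff.rfl (forall_congr' fun j => imp_congr Iff.rfl ⟨fun h => ?_, fun h => ?_⟩)
  · rw [toFac_prj (X := X)]
    exact ratEq_le (facM X j) h
  · rw [prj_toFac]
    exact ratEq_le (insM X j) h

theorem Fil_map (γ : Mor X Y →₀ ℚ) (ν : ℕ) : (Fil X ν).map (pushM γ) ≤ Fil Y ν := by
  rintro _ ⟨z, hz, rfl⟩
  rw [pushM_apply]
  exact InFil_map (oP X) (oP Y) (ratEq X) (ratEq Y) (ratEq_prj X) (ratEq_prj Y)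
    (src := fun f : Mor X Y => f.srcs) (fun f => f.isMor) γ hz

open Classical in
/-- condition 4 -/
theorem Fil_grad (γ : Mor X Y →₀ ℚ) (ν : ℕ)
    (hgr : ∀ (T : Finset (Fin m)) (T' : Finset (Fin m')) (x : Pts m k), OnP X x → wt X T = ν →
      wt Y T' = ν → ∑ f ∈ (γ.support.filter fun f => Bij f.srcs T T'),
        γ f • e (oP Y) (ratEq Y) T' (f.app x) = 0) :
    (Fil X ν).map (pushM γ) ≤ Fil Y (ν + 1) := by
  rintro _ ⟨z, hz, rfl⟩
  rw [pushM_apply]
  exact InFil_grad (oP X) (oP Y) (ratEq X) (ratEq Y) (ratEq_prj X) (ratEq_prj Y)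
    (fun j => (Y j).dim_pos) (src := fun f : Mor X Y => f.srcs) (fun f => f.isMor) γ hgr hz

end Pool.Agent.CYC
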