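import Pool.Agent.TInc.EmbD

/-!
# The reciprocity law of Weil for functions with disjoint divisors
-/

set_option autoImplicit false

noncomputable section

namespace Pool.Agent.CYC

open Pool.Agent.ZCyc Pool.Agent.Dess Pool.Agent.TInc
open Pool.Agent.VFP (Om tt)
open scoped Classical

variable {k F : Type} [Field k] [IsAlgClosed k] [CharZero k] [Field F] [Algebra k F]

private theorem val_const (v : Place k F) (c : k) : val v (algebraMap k F c) = c :=
  val_eq (Place.at_const c)

private theorem val_ne_zero_iff (hF : IsCurve k F) {v : Place k F} {f : F} (hf : f ≠ 0) :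
    val v f ≠ 0 ↔ ord v f = 0 := by
  constructor
  · intro h
    have h1 : ∃ c, v.At f c := by
      by_contra h2
      apply h
      unfold val
      rw [dif_neg h2]
    obtain ⟨c, hc⟩ := h1
    rw [val_eq hc] at h
    exact ord_of_at hF hc h
  · intro h h0
    have h1 : f ∈ v.ring := (mem_iff_ord hF hf).2 h.ge
    have h2 := at_val hF h1
    rw [h0] at h2
    have h3 := (vanishes_iff_ord hF hf).1 (Place.at_zero_iff.1 h2)
    omega

private abbrev Emb (f : F) (τ : Om k) : Type := {σ : F →ₐ[k] Om k // σ f = τ}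

private theorem finite_Emb (hF : IsCurve k F) {f : F} (hf : Transcendental k f) {τ : Om k}
    (hτ : Transcendental k τ) : Finite (Emb f τ) :=
  (card_emb hF hf hτ).1.to_subtype

private theorem emb_prod (hF : IsCurve k F) {f : F} (hf : Transcendental k f) {τ : Om k}
    (hτ : Transcendental k τ) [Fintype (Emb f τ)] (q : F) :
    ∏ σ ∈ (card_emb hF hf hτ).1.toFinset, σ q = ∏ σ : Emb f τ, σ.1 q :=
  Finset.prod_subtype (p := fun σ : F →ₐ[k] Om k => σ f = τ) _
    (fun _ => (card_emb hF hf hτ).1.mem_toFinset) fun σ => σ q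

private theorem card_over (hF : IsCurve k F) {f : F} (hf : Transcendental k f) {τ : Om k}
    (hτ : Transcendental k τ) [Fintype (Emb f τ)] {v : Place k (Om k)} {b : k} (hv : v.At τ b)
    {R : Place k F} (hR : R.At f b) :
    ((Finset.univ.filter fun σ : Emb f τ =>
      v.ring.comap (σ.1 : F →+* Om k) = R.ring).card : ℤ) = ord R (f - algebraMap k F b) := by
  rw [← TInc.card_over hF hf hτ hv hR, ← Set.ncard_coe_finset,
    ← Set.ncard_image_of_injective _ Subtype.val_injective]
  congr 2
  ext σ
  constructor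
  · rintro ⟨σ', h1, rfl⟩
    exact ⟨σ'.2, (Finset.mem_filter.1 (Finset.mem_coe.1 h1)).2⟩
  · rintro ⟨h1, h2⟩
    exact ⟨⟨σ, h1⟩, Finset.mem_coe.2 (Finset.mem_filter.2 ⟨Finset.mem_univ _, h2⟩), rfl⟩

private theorem wr_val_one {v : Place k (Om k)} {x : Om k} (h1 : x ∈ v.ring)
    (h2 : x⁻¹ ∈ v.ring) (hx : x ≠ 0) : v.ring.valuation x = 1 := by
  have h3 := (v.ring.valuation_le_one_iff x).2 h1
  have h4 := (v.ring.valuation_le_one_iff x⁻¹).2 h2
  rw [map_inv₀] at h4
  have h5 : v.ring.valuation x ≠ 0 := (Valuation.ne_zero_iff _).2 hx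
  exact le_antisymm h3 ((inv_le_one₀ (zero_lt_iff.2 h5)).1 h4)

private theorem wr_val_at {v : Place k (Om k)} {x : Om k} {a : k} (h : v.At x a)
    (ha : a ≠ 0) : v.ring.valuation x = 1 := by
  refine wr_val_one h.mem (h.inv ha).mem ?_
  rintro rfl
  exact ha (h.unique (by simpa using Place.at_const (v := v) (0 : k)))

private theorem wr_mem {v : Place k (Om k)} {c : Place k F} {σ : F →ₐ[k] Om k}
    (hv : v.ring.comap (σ : F →+* Om k) = c.ring) (g : F) : g ∈ c.ring ↔ σ g ∈ v.ring := by
  rw [← hv]
  exact ValuationSubring.mem_comap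

private theorem wr_ne {M : Type} [Field M] [Algebra k M] {φ : M} (hφ : Transcendental k φ)
    (a : k) : φ - algebraMap k M a ≠ 0 := by
  intro h
  exact hφ (sub_eq_zero.1 h ▸ isAlgebraic_algebraMap a)

private theorem wr_at {φ : F} {ψ : Om k} {v : Place k (Om k)} {a : k} (ha : v.At ψ a)
    {c : Place k F} {σ : F →ₐ[k] Om k} (hσ : σ φ = ψ)
    (hv : v.ring.comap (σ : F →+* Om k) = c.ring) : c.At φ a := by
  unfold Place.At at ha ⊢
  rw [Place.vanishes_iff_or] at ha ⊢
  have h1 : σ (φ - algebraMap k F a) = ψ - algebraMap k (Om k) a := by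
    rw [map_sub, hσ, AlgHom.commutes]
  rw [← h1] at ha
  rcases ha with ha | ha
  · exact Or.inl ((map_eq_zero σ).1 ha)
  · refine Or.inr fun h => ha ?_
    rw [← map_inv₀]
    exact (wr_mem hv _).1 h

private theorem wr_at_zpow {M : Type} [Field M] [Algebra k M] {v : Place k M} {x : M} {a : k}
    (h : v.At x a) (ha : a ≠ 0) (n : ℤ) : v.At (x ^ n) (a ^ n) := by
  obtain ⟨l, hl | hl⟩ := Int.eq_nat_or_neg n
  · rw [hl, zpow_natCast, zpow_natCast]
    exact h.pow l
  · rw [hl, zpow_neg, zpow_neg, zpow_natCast, zpow_natCast]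
    exact (h.pow l).inv (pow_ne_zero _ ha)

private theorem wr_zpow {G ι : Type*} [CommGroupWithZero G] {w : G} (hw : w ≠ 0)
    {C : Finset ι} {n : ι → ℤ} : ∏ c ∈ C, w ^ n c = w ^ ∑ c ∈ C, n c := by
  classical
  induction C using Finset.induction_on with
  | empty => simp
  | insert c C hc ih => rw [Finset.prod_insert hc, Finset.sum_insert hc, zpow_add₀ hw, ih]

private theorem wr_sum (hF : IsCurve k F) (q : F) :
    ∑ R ∈ (dv hF q).support, ord R q = 0 := by
  have h := deg_dv hF q
  unfold deg Finsupp.sum at h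
  exact h

private theorem wr_inv {M : Type} [Field M] [Algebra k M] {φ : M} (hφ : Transcendental k φ) :
    Transcendental k φ⁻¹ := fun h => hφ (by simpa using h.inv)

private theorem norm_at (hF : IsCurve k F) {f : F} (hf : Transcendental k f) {τ : Om k}
    (hτ : Transcendental k τ) [Fintype (Emb f τ)] {v : Place k (Om k)} {b : k} (hv : v.At τ b)
    {q : F} (hq : q ≠ 0) {S : Finset (Place k F)}
    (hS : ∀ R : Place k F, R ∈ S ↔ R.At f b)
    (h : ∀ R ∈ S, ord R q = 0) :
    v.At (∏ σ : Emb f τ, σ.1 q) (∏ R ∈ S, val R q ^ ord R (f - algebraMap k F b)) := by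
  choose β hβ using fun σ : F →ₐ[k] Om k => exists_below hF v σ
  have hmaps : ∀ σ : Emb f τ, β σ.1 ∈ S := fun σ => (hS _).2 (wr_at hv σ.2 (hβ σ.1))
  have h1 : ∏ R ∈ S, val R q ^ ord R (f - algebraMap k F b) =
      ∏ σ : Emb f τ, val (β σ.1) q := by
    rw [← Finset.prod_fiberwise_of_maps_to (t := S) (g := fun σ : Emb f τ => β σ.1)
      (fun σ _ => hmaps σ)]
    refine Finset.prod_congr rfl fun R hR => ?_
    rw [← card_over hF hf hτ hv ((hS R).1 hR), zpow_natCast]
    have h2 : ∀ σ ∈ Finset.univ.filter (fun σ : Emb f τ => β σ.1 = R),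
        val (β σ.1) q = val R q := by
      intro σ hσ
      rw [(Finset.mem_filter.1 hσ).2]
    rw [Finset.prod_congr rfl h2, Finset.prod_const]
    congr 2
    ext σ
    rw [Finset.mem_filter, Finset.mem_filter, hβ σ.1]
    exact and_congr_right fun _ => ⟨fun h => Place.ext h, fun h => by rw [h]⟩
  rw [h1]
  refine Place.At.prod fun σ _ => ?_
  exact over_at hF (U := Set.univ) (S := Sum.inl σ.1) (hβ σ.1)
    ((ord_eq_zero_iff hF hq).1 (h _ (hmaps σ))).1

private theorem wr_left (hF : IsCurve k F) {f : F} (hf : Transcendental k f) {τ : Om k}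
    (hτ : Transcendental k τ) [Fintype (Emb f τ)] {v : Place k (Om k)} {a : k} (ha : v.At τ a)
    {q : F} (hq : q ≠ 0) {C : Finset (Place k F)} (hC : ∀ c, c ∈ C ↔ c.At f a) :
    v.ring.valuation (∏ σ : Emb f τ, σ.1 q) =
      v.ring.valuation (τ - algebraMap k (Om k) a) ^ ∑ c ∈ C, ord c q := by
  choose β hβ using fun σ : F →ₐ[k] Om k => exists_below hF v σ
  have hmaps : ∀ σ : Emb f τ, β σ.1 ∈ C := fun σ => (hC _).2 (wr_at ha σ.2 (hβ σ.1))
  set w := v.ring.valuation (τ - algebraMap k (Om k) a) with hw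
  have hw0 : w ≠ 0 := (Valuation.ne_zero_iff _).2 (wr_ne hτ a)
  have hφa := wr_ne hf a
  rw [map_prod, ← Finset.prod_fiberwise_of_maps_to (t := C) (g := fun σ : Emb f τ => β σ.1)
    (fun σ _ => hmaps σ)]
  rw [← wr_zpow hw0]
  refine Finset.prod_congr rfl fun c hc => ?_
  have hcat := (hC c).1 hc
  have hpos : 0 < ord c (f - algebraMap k F a) := (vanishes_iff_ord hF hφa).1 hcat
  obtain ⟨e, he⟩ := Int.eq_ofNat_of_zero_le hpos.le
  have he' : (e : ℤ) = ord c (f - algebraMap k F a) := he.symm
  have he0 : e ≠ 0 := by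
    rintro rfl
    rw [he] at hpos
    exact absurd hpos (lt_irrefl _)
  have hcard : (Finset.univ.filter fun σ : Emb f τ => β σ.1 = c).card = e := by
    have h1 := card_over hF hf hτ ha hcat
    rw [← he'] at h1
    rw [← Int.natCast_inj.1 h1]
    congr 1
    ext σ
    rw [Finset.mem_filter, Finset.mem_filter, hβ σ.1]
    exact and_congr_right fun _ => ⟨fun h => by rw [h], fun h => Place.ext h⟩
  refine (pow_left_inj₀ zero_le zero_le he0).1 ?_
  have h1 : ∀ σ ∈ Finset.univ.filter (fun σ : Emb f τ => β σ.1 = c),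
      v.ring.valuation (σ.1 q) ^ e = w ^ ord c q := by
    intro σ hσ
    obtain ⟨-, h3⟩ := Finset.mem_filter.1 hσ
    have h4 := emb_pow_unit hF hf σ.2 (h3 ▸ hβ σ.1) hq he'
    rw [map_pow, map_zpow₀] at h4
    exact h4
  rw [← Finset.prod_pow, Finset.prod_congr rfl h1, Finset.prod_const, hcard]

private theorem norm_form (hF : IsCurve k F) {f : F} (hf : Transcendental k f) {τ : Om k}
    (hτ : Transcendental k τ) [Fintype (Emb f τ)] {q : F} (hq : q ≠ 0)
    (h : ∀ R : Place k F, ord R q ≠ 0 → f ∈ R.ring) :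
    ∃ κ : k, κ ≠ 0 ∧ ∏ σ : Emb f τ, σ.1 q = algebraMap k (Om k) κ *
      ∏ R ∈ (dv hF q).support, (τ - algebraMap k (Om k) (val R f)) ^ ord R q := by
  set T := (dv hF q).support with hT
  have hTm : ∀ R, R ∈ T ↔ ord R q ≠ 0 := fun R => by
    rw [hT, Finsupp.mem_support_iff, dv_apply]
  set A := ∏ σ : Emb f τ, σ.1 q with hA
  set B := ∏ R ∈ T, (τ - algebraMap k (Om k) (val R f)) ^ ord R q with hB
  have hA0 : A ≠ 0 := Finset.prod_ne_zero_iff.2 fun σ _ => (map_ne_zero σ.1).2 hq
  have hB0 : B ≠ 0 := Finset.prod_ne_zero_iff.2 fun R _ => zpow_ne_zero _ (wr_ne hτ _)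
  have hvals : ∀ v : Place k (Om k), v.ring.valuation A = v.ring.valuation B := by
    intro v
    by_cases hτv : τ ∈ v.ring
    · obtain ⟨a, ha⟩ := DCI57.exists_at v hτv
      have hfin := finite_at hF hf a
      have hCm : ∀ c, c ∈ hfin.toFinset ↔ c.At f a := fun c => hfin.mem_toFinset
      rw [hA, wr_left hF hf hτ ha hq hCm, hB, map_prod]
      set w := v.ring.valuation (τ - algebraMap k (Om k) a) with hw
      have hw0 : w ≠ 0 := (Valuation.ne_zero_iff _).2 (wr_ne hτ a)
      have h2 : ∀ R ∈ T, v.ring.valuation ((τ - algebraMap k (Om k) (val R f)) ^ ord R q) =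
          w ^ (if val R f = a then ord R q else 0) := by
        intro R _
        rw [map_zpow₀]
        split_ifs with h
        · rw [h]
        · have h3 := ha.sub (Place.at_const (v := v) (val R f))
          rw [wr_val_at h3 (sub_ne_zero.2 (Ne.symm h)), one_zpow, zpow_zero]
      rw [Finset.prod_congr rfl h2, wr_zpow hw0]
      congr 1
      rw [← Finset.sum_filter]
      symm
      refine Finset.sum_subset (fun R hR => ?_) fun R hR hR' => ?_
      · obtain ⟨h3, h4⟩ := Finset.mem_filter.1 hR
        rw [hCm, ← h4]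
        exact at_val hF (h R ((hTm R).1 h3))
      · by_contra h3
        exact hR' (Finset.mem_filter.2 ⟨(hTm R).2 h3, val_eq ((hCm R).1 hR)⟩)
    · have h1 : v.ring.valuation A = 1 := by
        rw [hA, map_prod]
        refine Finset.prod_eq_one fun σ _ => ?_
        obtain ⟨c, hc⟩ := exists_below hF v σ.1
        have h2 : f ∉ c.ring := fun h3 => hτv (by
          rw [← σ.2]
          exact (wr_mem hc f).1 h3)
        have h3 : ord c q = 0 := by
          by_contra h4
          exact h2 (h c h4)
        obtain ⟨h4, h5⟩ := (ord_eq_zero_iff hF hq).1 h3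
        exact wr_val_one ((wr_mem hc q).1 h4)
          (by rw [← map_inv₀]; exact (wr_mem hc _).1 h5) ((map_ne_zero σ.1).2 hq)
      have hτ0 : τ ≠ 0 := by
        rintro rfl
        exact hτ isAlgebraic_zero
      have hti : v.At τ⁻¹ 0 := by
        rw [Place.at_zero_iff, Place.vanishes_iff_or, inv_inv]
        exact Or.inr hτv
      have h2 : ∀ c : k, v.ring.valuation (τ - algebraMap k (Om k) c) =
          v.ring.valuation τ := by
        intro c
        have h3 : τ - algebraMap k (Om k) c = τ * (algebraMap k (Om k) 1 -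
            algebraMap k (Om k) c * τ⁻¹) := by
          rw [map_one]
          field_simp
        have h4 : v.At (algebraMap k (Om k) 1 - algebraMap k (Om k) c * τ⁻¹) (1 - c * 0) :=
          (Place.at_const 1).sub ((Place.at_const c).mul hti)
        rw [mul_zero, sub_zero] at h4
        rw [h3, map_mul, wr_val_at h4 one_ne_zero, mul_one]
      rw [h1, hB, map_prod]
      have h3 : ∀ R ∈ T, v.ring.valuation ((τ - algebraMap k (Om k) (val R f)) ^ ord R q) =
          v.ring.valuation τ ^ ord R q := by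
        intro R _
        rw [map_zpow₀, h2]
      rw [Finset.prod_congr rfl h3, wr_zpow ((Valuation.ne_zero_iff _).2 hτ0), hT, wr_sum hF q,
        zpow_zero]
  obtain ⟨c, hc⟩ := const_om (u := A / B) fun v => by
    rw [← v.ring.valuation_le_one_iff, map_div₀, hvals v,
      div_self ((Valuation.ne_zero_iff _).2 hB0)]
  refine ⟨c, ?_, ?_⟩
  · rintro rfl
    rw [map_zero] at hc
    exact div_ne_zero hA0 hB0 hc
  · rw [← hc, div_mul_cancel₀ _ hB0]

/-- PROOF. This is `GHB.weil` (`Pool/Agent/GHB/WR.lean`), stated there for the field of complex numbers.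
Copy the proofs of `GHB/Val.lean` (the needed lemmas), `GHB/Emb.lean` and `GHB/WR.lean` with `ℂ` replaced by
`k` (as private theorems in this file; nothing special about the complex numbers is used). -/
theorem weil (hF : IsCurve k F) {f q : F} (hf : f ≠ 0) (hq : q ≠ 0)
    (h : ∀ R : Place k F, ord R f = 0 ∨ ord R q = 0) :
    (dv hF q).prod (fun R n => val R f ^ n) = (dv hF f).prod (fun R n => val R q ^ n) := by
  by_cases hc : ∃ c : k, f = algebraMap k F c
  · obtain ⟨c, rfl⟩ := hc
    have hc0 : c ≠ 0 := by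
      rintro rfl
      exact hf (map_zero _)
    have h1 : dv hF (algebraMap k F c) = 0 := by
      ext R
      rw [dv_apply, ord_const hF]
      rfl
    rw [h1, Finsupp.prod_zero_index]
    unfold Finsupp.prod
    have h2 : ∀ R ∈ (dv hF q).support, val R (algebraMap k F c) ^ (dv hF q) R =
        c ^ ord R q := by
      intro R _
      rw [val_const, dv_apply]
    rw [Finset.prod_congr rfl h2, wr_zpow hc0, wr_sum hF q, zpow_zero]
  · push Not at hc
    have hft : Transcendental k f := transc_of_ne hF hc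
    have hτ : Transcendental k (tt k) := Pool.Agent.VFP.tt_transc
    have hτ0 : tt k ≠ 0 := by
      intro h0
      rw [h0] at hτ
      exact hτ isAlgebraic_zero
    have hfi := wr_inv hft
    have hτi := wr_inv hτ
    have hF1 := finite_Emb hF hft hτ
    have hF2 := finite_Emb hF hfi hτi
    let _ : Fintype (Emb f (tt k)) := Fintype.ofFinite _
    let _ : Fintype (Emb f⁻¹ (tt k)⁻¹) := Fintype.ofFinite _
    have hval : ∀ R ∈ (dv hF q).support, f ∈ R.ring ∧ val R f ≠ 0 := by
      intro R hR
      rw [Finsupp.mem_support_iff, dv_apply] at hR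
      have h1 : ord R f = 0 := (h R).resolve_right hR
      exact ⟨((ord_eq_zero_iff hF hf).1 h1).1, (val_ne_zero_iff hF hf).2 h1⟩
    obtain ⟨κ, hκ0, hκ⟩ := norm_form hF hft hτ hq fun R hR => by
      exact (hval R (by rwa [Finsupp.mem_support_iff, dv_apply])).1
    set L := (dv hF q).prod (fun R n => val R f ^ n) with hL
    have hLe : L = ∏ R ∈ (dv hF q).support, val R f ^ ord R q := rfl
    have hfin0 := finite_at hF hft 0
    have hfini := finite_at hF hfi 0
    set S0 := hfin0.toFinset with hS0
    set Si := hfini.toFinset with hSi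
    have hS0m : ∀ R : Place k F, R ∈ S0 ↔ R.At f 0 := fun R => hfin0.mem_toFinset
    have hSim : ∀ R : Place k F, R ∈ Si ↔ R.At f⁻¹ 0 := fun R => hfini.mem_toFinset
    have hS0o : ∀ R : Place k F, R ∈ S0 ↔ 0 < ord R f := fun R => by
      rw [hS0m, Place.at_zero_iff, vanishes_iff_ord hF hf]
    have hSio : ∀ R : Place k F, R ∈ Si ↔ ord R f < 0 := fun R => by
      rw [hSim, Place.at_zero_iff, vanishes_iff_ord hF (inv_ne_zero hf), ord_inv hF]
      omega
    -- the value where `τ` vanishes
    have hA0 : ∏ R ∈ S0, val R q ^ ord R f = κ * L := by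
      obtain ⟨v, hv⟩ := exists_place hτ 0
      have h1 := norm_at hF hft hτ hv hq hS0m (fun R hR => (h R).resolve_left
        ((hS0o R).1 hR).ne')
      rw [map_zero, sub_zero, hκ] at h1
      have h2 : v.At (algebraMap k (Om k) κ * ∏ R ∈ (dv hF q).support,
          (tt k - algebraMap k (Om k) (val R f)) ^ ord R q)
          (κ * ∏ R ∈ (dv hF q).support, (0 - val R f) ^ ord R q) := by
        refine (Place.at_const κ).mul (Place.At.prod fun R hR => ?_)
        refine wr_at_zpow (hv.sub (Place.at_const _)) ?_ _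
        rw [zero_sub, neg_ne_zero]
        exact (hval R hR).2
      rw [h1.unique h2, hLe]
      congr 1
      have h3 : ∀ R ∈ (dv hF q).support, (0 - val R f) ^ ord R q =
          (-1 : k) ^ ord R q * val R f ^ ord R q := by
        intro R _
        rw [zero_sub, ← mul_zpow, neg_one_mul]
      rw [Finset.prod_congr rfl h3, Finset.prod_mul_distrib,
        wr_zpow (neg_ne_zero.2 one_ne_zero), wr_sum hF q, zpow_zero, one_mul]
    -- the value where `τ` has a pole
    have hAi : ∏ R ∈ Si, val R q ^ (-ord R f) = κ := by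
      obtain ⟨v, hv⟩ := exists_place hτi 0
      have h1 := norm_at hF hfi hτi hv hq hSim (fun R hR => (h R).resolve_left
        ((hSio R).1 hR).ne)
      rw [map_zero, sub_zero] at h1
      have h4 : ∏ σ : Emb f⁻¹ (tt k)⁻¹, σ.1 q = ∏ σ : Emb f (tt k), σ.1 q := by
        refine Fintype.prod_equiv (Equiv.subtypeEquivRight fun σ => ?_) _ _ fun σ => rfl
        rw [map_inv₀, inv_inj]
      rw [h4, hκ] at h1
      have h5 : ∏ R ∈ (dv hF q).support, (tt k - algebraMap k (Om k) (val R f)) ^ ord R q =
          ∏ R ∈ (dv hF q).support, (algebraMap k (Om k) 1 -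
            algebraMap k (Om k) (val R f) * (tt k)⁻¹) ^ ord R q := by
        have h6 : ∀ R ∈ (dv hF q).support,
            (tt k - algebraMap k (Om k) (val R f)) ^ ord R q = tt k ^ ord R q *
              (algebraMap k (Om k) 1 - algebraMap k (Om k) (val R f) * (tt k)⁻¹) ^ ord R q := by
          intro R _
          rw [← mul_zpow, map_one, mul_sub, mul_one, mul_left_comm, mul_inv_cancel₀ hτ0, mul_one]
        rw [Finset.prod_congr rfl h6, Finset.prod_mul_distrib, wr_zpow hτ0, wr_sum hF q,
          zpow_zero, one_mul]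
      rw [h5] at h1
      have h2 : v.At (algebraMap k (Om k) κ * ∏ R ∈ (dv hF q).support,
          (algebraMap k (Om k) 1 - algebraMap k (Om k) (val R f) * (tt k)⁻¹) ^ ord R q)
          (κ * ∏ R ∈ (dv hF q).support, (1 - val R f * 0) ^ ord R q) := by
        refine (Place.at_const κ).mul (Place.At.prod fun R hR => ?_)
        refine wr_at_zpow ((Place.at_const 1).sub ((Place.at_const _).mul hv)) ?_ _
        rw [mul_zero, sub_zero]
        exact one_ne_zero
      have h7 := h1.unique h2
      simp only [mul_zero, sub_zero, one_zpow, Finset.prod_const_one, mul_one, ord_inv hF] at h7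
      exact h7
    have hsupp : (dv hF f).support = S0 ∪ Si := by
      ext R
      rw [Finsupp.mem_support_iff, dv_apply, Finset.mem_union, hS0o, hSio]
      omega
    have hdisj : Disjoint S0 Si := by
      rw [Finset.disjoint_left]
      intro R h1 h2
      rw [hS0o] at h1
      rw [hSio] at h2
      omega
    have hR : (dv hF f).prod (fun R n => val R q ^ n) =
        ∏ R ∈ (dv hF f).support, val R q ^ ord R f := rfl
    rw [hR, hsupp, Finset.prod_union hdisj, hA0]
    have h8 : (∏ R ∈ Si, val R q ^ ord R f) * κ = 1 := by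
      rw [← hAi, ← Finset.prod_mul_distrib]
      refine Finset.prod_eq_one fun R hR => ?_
      have h9 : ord R q = 0 := (h R).resolve_left ((hSio R).1 hR).ne
      rw [← zpow_add₀ ((val_ne_zero_iff hF hq).2 h9), add_neg_cancel, zpow_zero]
    rw [mul_comm κ L, mul_assoc, mul_comm κ, h8, mul_one]

end Pool.Agent.CYC
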