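import Pool.Agent.CYC.Zs
import Pool.Agent.CYC.Weil
import Pool.Agent.CYC.BCa
import Pool.Agent.CYC.BCc

/-!
# Existence of the zeros of a section over an algebraically closed extension
-/

set_option autoImplicit false

noncomputable section

namespace Pool.Agent.CYC

open Pool.Agent.ZCyc Pool.Agent.Dess Pool.Agent.TInc
open scoped Classical

variable {k K : Type} [Field k] [IsAlgClosed k] [CharZero k] [Field K] [Algebra k K] {a n : ℕ}

private theorem gm_val_ne (hK : IsCurve k K) {v : Place k K} {f : K} (hf : f ≠ 0)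
    (h0 : ord v f = 0) : val v f ≠ 0 := by
  intro h
  have h1 : f ∈ v.ring := (mem_iff_ord hK hf).2 h0.ge
  have h2 := at_val hK h1
  rw [h] at h2
  have h3 := (vanishes_iff_ord hK hf).1 (Place.at_zero_iff.1 h2)
  omega

/-- an effective divisor of degree `a` is the sum of `a` points -/
private theorem gm_points {X : Type} : ∀ (a : ℕ) (E : X →₀ ℤ), (∀ x, 0 ≤ E x) →
    (E.sum fun _ n => n) = (a : ℤ) → ∃ S : Fin a → X, E = ∑ j, Finsupp.single (S j) 1 := by
  intro a
  induction a with
  | zero =>
    intro E hE h0
    refine ⟨Fin.elim0, ?_⟩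
    rw [Finset.univ_eq_empty, Finset.sum_empty]
    unfold Finsupp.sum at h0
    rw [Nat.cast_zero, Finset.sum_eq_zero_iff_of_nonneg fun x _ => hE x] at h0
    ext x
    by_cases hx : x ∈ E.support
    · exact h0 x hx
    · exact Finsupp.notMem_support_iff.1 hx
  | succ a ih =>
    intro E hE h0
    have h1 : ∃ x, 0 < E x := by
      by_contra hcon
      push Not at hcon
      unfold Finsupp.sum at h0
      have h2 : ∑ x ∈ E.support, E x ≤ 0 := Finset.sum_nonpos fun x _ => hcon x
      rw [h0] at h2
      push_cast at h2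
      omega
    obtain ⟨x, hx⟩ := h1
    have h3 : (Finsupp.sum (E - Finsupp.single x 1) fun _ n => n) = (a : ℤ) := by
      have h4 := Finsupp.sum_sub_index (f := E) (g := Finsupp.single x (1 : ℤ))
        (h := fun _ n => n) (fun _ _ _ => rfl)
      rw [h4, h0, Finsupp.sum_single_index rfl]
      push_cast
      ring
    obtain ⟨S, hS⟩ := ih (E - Finsupp.single x 1) (fun y => by
      rw [Finsupp.sub_apply, Finsupp.single_apply]
      split_ifs with h
      · rw [← h]
        omega
      · have := hE y
        omega) h3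
    refine ⟨Fin.cons x S, ?_⟩
    rw [Fin.sum_univ_succ, Fin.cons_zero]
    simp only [Fin.cons_succ]
    rw [← hS]
    abel

/-- PROOF. Let `ι : K → K'` be the base change to `Ω` (`exists_bc`), `K'` is the function field of
a curve over `Ω` (`BC.curve`). `s = ∑ z_i ι(φ_i) ∈ K'` is not zero (`BC.indep`). For a place `q`
of `K` let `q'` be the place in `BC.exists_place` (unique by `BC.dichotomy`). Let `D'` be the sum
of the `(c j)'`. The divisor `E = dv s + D'` is effective: at a place `Q` of `K'` where all
elements of `ι K` are regular (first case of `BC.dichotomy`) `s` is regular and `D'(Q) = 0`; at `Q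
= q'` the order of `ι(φ_i)` is the order of `φ_i` at `q`, at least `-1` if `q` is a `c j` and at
least `0` otherwise, and the orders of elements of `Ω` are zero. `E` has the degree `a` (`deg_dv`,
the `(c j)'` are different). So `E` is the sum of `a` places `S' j`. Let `S j` be the embedding `K
→ Ω` in the first case of the dichotomy for `S' j`, or the place `q` with `q' = S' j`.

`weil`: let `b` be as in the assumption. `CYC.weil` for `f = ι b` and `q = s`: a place `R` with
`ord R (ι b) ≠ 0` is not in the first case (there `ι b` has the value `s(b) ≠ 0`), so `R = q'`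
with `ord q b ≠ 0` and `q` is not a `c j`; if moreover `ord R s ≠ 0` then `E(R) > 0`, `R = S' j`,
`S j = q`, a contradiction to `ord q b = 0`. So the divisors are disjoint. The product over `dv s`
of the values of `ι b` is the product over `E` divided by the product over `D'`: `∏ ev (S j) b / ∏
val (c j) b` (all these values are not zero). The product over `dv (ι b)` of the values of `s` is
`∏ q ∈ T, lz φ z q ^ ord q b`: `s` has the value `lz φ z q` at `q'` because the `φ_i` are regular
at `q`.

`zero`: for `q` different from the `c j` the function `s` is regular at `q'` with the value `lz φ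
z q`; it is zero iff `E(q') > 0` iff some `S' j = q'` iff some `S j = q`. -/
theorem exists_zeros (hK : IsCurve k K) {c : Fin a → Place k K} {φ : Fin (n + 1) → K}
    (hL : Lin c φ) {Ω : Type} [Field Ω] [IsAlgClosed Ω] [CharZero Ω] [Algebra k Ω]
    {z : Fin (n + 1) → Ω} (hz : z ≠ 0) : ∃ S : Fin a → (K →ₐ[k] Ω) ⊕ Place k K, Zs c φ z S := by
  obtain ⟨K', iK, iA, ι, hB⟩ := exists_bc (k := k) (K := K) (Ω := Ω)
  have hK' : IsCurve Ω K' := hB.curve hK
  choose P hP1 hP2 hP3 using fun q : Place k K => hB.exists_place hK q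
  have hPinj : Function.Injective P := by
    intro q r hqr
    apply Place.ext
    ext b
    rw [hP1, hP1, hqr]
  have hdic : ∀ Q : Place Ω K', ∃ T : (K →ₐ[k] Ω) ⊕ Place k K,
      (∀ τ, T = Sum.inl τ → ∀ b, Q.At (ι b) (τ b)) ∧ (∀ q, T = Sum.inr q → P q = Q) := by
    intro Q
    rcases hB.dichotomy hK Q with ⟨s, h1, h2⟩ | ⟨q, hq⟩
    · refine ⟨Sum.inl { s with commutes' := h1 }, ?_, ?_⟩
      · intro τ hτ b
        rw [← Sum.inl.inj hτ]
        exact h2 b
      · intro q hq
        cases hq
    · refine ⟨Sum.inr q, ?_, ?_⟩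
      · intro τ hτ
        cases hτ
      · intro r hr
        rw [← Sum.inr.inj hr]
        exact hq (P q) (hP1 q)
  have hexc : ∀ (q : Place k K) (τ : K → Ω), ¬ ∀ b, (P q).At (ι b) (τ b) := by
    intro q τ h
    apply q.ne_top
    rw [eq_top_iff]
    intro b _
    rw [hP1]
    exact (h b).mem
  choose Tq hT1 hT2 using hdic
  set s : K' := ∑ i, algebraMap Ω K' (z i) * ι (φ i) with hs
  have hs0 : s ≠ 0 := fun h => hz (hB.indep _ φ z hL.ind h)
  -- values of the section
  have hlz : ∀ q, (∀ j, c j ≠ q) → (P q).At s (lz φ z q) := by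
    intro q hq
    exact Place.At.sum fun i _ =>
      (Place.at_const (z i)).mul (hP2 q _ _ (at_val hK (hL.reg i q hq)))
  have hord1 : ∀ q, (∀ j, c j ≠ q) → 0 ≤ ord (P q) s := fun q hq =>
    (mem_iff_ord hK' hs0).1 (hlz q hq).mem
  have hord2 : ∀ j, -1 ≤ ord (P (c j)) s := by
    intro j
    obtain ⟨π, hπ⟩ := exists_unif hK (c j)
    have hπ' : ι π ≠ 0 := (map_ne_zero ι).2 hπ.1
    have h1 : s * ι π ∈ (P (c j)).ring := by
      rw [hs, Finset.sum_mul]
      refine sum_mem fun i _ => ?_
      rw [mul_assoc, ← map_mul]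
      refine mul_mem ((P (c j)).const_mem _) ((hP1 _ _).1 ?_)
      by_cases h0 : φ i = 0
      · rw [h0, zero_mul]
        exact zero_mem _
      · rw [mem_iff_ord hK (mul_ne_zero h0 hπ.1), ord_mul hK _ h0 hπ.1, ord_unif hK hπ]
        have := hL.pole i j h0
        omega
    rw [mem_iff_ord hK' (mul_ne_zero hs0 hπ'), ord_mul hK' _ hs0 hπ', hP3 _ _ hπ.1,
      ord_unif hK hπ] at h1
    omega
  have hord3 : ∀ Q : Place Ω K', (∀ b, ∃ x, Q.At (ι b) x) → 0 ≤ ord Q s := by
    intro Q hQ
    rw [← mem_iff_ord hK' hs0, hs]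
    refine sum_mem fun i _ => mul_mem (Q.const_mem _) ?_
    obtain ⟨x, hx⟩ := hQ (φ i)
    exact hx.mem
  -- the divisor of the zeros
  set D : Place Ω K' →₀ ℤ := ∑ j, Finsupp.single (P (c j)) 1 with hD
  have hD0 : ∀ Q, (∀ j, P (c j) ≠ Q) → D Q = 0 := by
    intro Q hQ
    rw [hD, Finsupp.finsetSum_apply]
    refine Finset.sum_eq_zero fun j _ => ?_
    rw [Finsupp.single_apply, if_neg (hQ j)]
  have hD1 : ∀ j, D (P (c j)) = 1 := by
    intro j
    rw [hD, Finsupp.finsetSum_apply, Finset.sum_eq_single j]
    · rw [Finsupp.single_apply, if_pos rfl]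
    · intro i _ hij
      rw [Finsupp.single_apply, if_neg]
      exact fun h => hij (hL.inj (hPinj h))
    · intro h
      exact absurd (Finset.mem_univ j) h
  set E : Place Ω K' →₀ ℤ := dv hK' s + D with hE
  have hEv : ∀ Q, E Q = ord Q s + D Q := by
    intro Q
    rw [hE, Finsupp.add_apply, dv_apply]
  have hE0 : ∀ Q, 0 ≤ E Q := by
    intro Q
    rw [hEv]
    rcases hTQ : Tq Q with τ | q
    · have h1 := hT1 Q τ hTQ
      have h2 := hord3 Q fun b => ⟨_, h1 b⟩
      rw [hD0 Q ?_]
      · omega
      · intro j hj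
        apply hexc (c j) τ
        rw [hj]
        exact h1
    · have h1 := hT2 Q q hTQ
      rw [← h1]
      by_cases hq : ∃ j, c j = q
      · obtain ⟨j, rfl⟩ := hq
        rw [hD1]
        have := hord2 j
        omega
      · push Not at hq
        rw [hD0 _ fun j h => hq j (hPinj h)]
        have := hord1 q hq
        omega
  have hEdeg : (E.sum fun _ n => n) = (a : ℤ) := by
    have h1 : (E.sum fun _ n => n) = ((dv hK' s).sum fun _ n => n) + D.sum fun _ n => n :=
      Finsupp.sum_add_index' (fun _ => rfl) (fun _ _ _ => rfl)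
    have h2 : (D.sum fun _ n => n) = ∑ j : Fin a, (1 : ℤ) := by
      rw [hD, ← Finsupp.sum_finsetSum_index (fun _ => rfl) (fun _ _ _ => rfl)]
      exact Finset.sum_congr rfl fun j _ => Finsupp.sum_single_index rfl
    have h3 : ((dv hK' s).sum fun _ n => n) = 0 := deg_dv hK' s
    rw [h1, h2, h3]
    simp
  obtain ⟨S', hS'⟩ := gm_points a E hE0 hEdeg
  have hES : ∀ Q, E Q ≠ 0 ↔ ∃ j, S' j = Q := by
    intro Q
    rw [hS', Finsupp.finsetSum_apply]
    constructor
    · intro h
      obtain ⟨j, -, hj⟩ := Finset.exists_ne_zero_of_sum_ne_zero h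
      refine ⟨j, ?_⟩
      by_contra h1
      exact hj (by rw [Finsupp.single_apply, if_neg h1])
    · rintro ⟨j, rfl⟩ h
      rw [Finset.sum_eq_zero_iff_of_nonneg] at h
      · have := h j (Finset.mem_univ j)
        rw [Finsupp.single_apply, if_pos rfl] at this
        exact one_ne_zero this
      · intro i _
        rw [Finsupp.single_apply]
        split_ifs
        · exact zero_le_one
        · exact le_rfl
  refine ⟨fun j => Tq (S' j), ?_, ?_⟩
  · intro b hb hc hS T hT
    have hb' : ι b ≠ 0 := (map_ne_zero ι).2 hb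
    have hdis : ∀ R : Place Ω K', ord R (ι b) = 0 ∨ ord R s = 0 := by
      intro R
      rcases hTR : Tq R with τ | q
      · left
        exact ord_of_at hK' (hT1 R τ hTR b) ((map_ne_zero τ).2 hb)
      · have h1 := hT2 R q hTR
        by_cases h2 : ord q b = 0
        · left
          rw [← h1, hP3 _ _ hb, h2]
        · right
          have h3 : ∀ j, P (c j) ≠ R := by
            intro j h4
            rw [← h1] at h4
            exact h2 (hPinj h4 ▸ hc j)
          have h4 := hEv R
          rw [hD0 R h3, add_zero] at h4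
          rw [← h4]
          by_contra h5
          obtain ⟨j, hj⟩ := (hES R).1 h5
          apply h2
          refine hS j q ?_
          show Tq (S' j) = Sum.inr q
          rw [hj, hTR]
    have hw := weil hK' hb' hs0 hdis
    -- the right side
    have hR : (dv hK' (ι b)).prod (fun R n => val R s ^ n) = ∏ q ∈ T, lz φ z q ^ ord q b := by
      have hsub : (dv hK' (ι b)).support ⊆ T.image P := by
        intro R hR
        rw [Finsupp.mem_support_iff, dv_apply] at hR
        rcases hTR : Tq R with τ | q
        · exact absurd (ord_of_at hK' (hT1 R τ hTR b) ((map_ne_zero τ).2 hb)) hR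
        · have h1 := hT2 R q hTR
          rw [← h1, hP3 _ _ hb] at hR
          exact Finset.mem_image.2 ⟨q, hT q hR, h1⟩
      rw [Finsupp.prod_of_support_subset _ hsub _ fun _ _ => zpow_zero _,
        Finset.prod_image fun x _ y _ h => hPinj h]
      refine Finset.prod_congr rfl fun q _ => ?_
      rw [dv_apply, hP3 _ _ hb]
      by_cases h1 : ord q b = 0
      · rw [h1, zpow_zero, zpow_zero]
      · rw [val_eq (hlz q fun j hj => h1 (hj ▸ hc j))]
    -- the left side
    let w : Place Ω K' → Ω := fun R => if val R (ι b) = 0 then 1 else val R (ι b)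
    have hw0 : ∀ R, w R ≠ 0 := by
      intro R
      show (if val R (ι b) = 0 then 1 else val R (ι b)) ≠ 0
      split_ifs with h
      · exact one_ne_zero
      · exact h
    have hww : ∀ R, val R (ι b) ≠ 0 → w R = val R (ι b) := fun R h => if_neg h
    have hadd : ∀ (R : Place Ω K') (m n : ℤ), w R ^ (m + n) = w R ^ m * w R ^ n :=
      fun R m n => zpow_add₀ (hw0 R) m n
    have hL1 : (dv hK' s).prod (fun R n => val R (ι b) ^ n) =
        (dv hK' s).prod fun R n => w R ^ n := by
      refine Finset.prod_congr rfl fun R hR => ?_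
      rw [Finsupp.mem_support_iff, dv_apply] at hR
      have h1 : ord R (ι b) = 0 := (hdis R).resolve_right hR
      show val R (ι b) ^ _ = w R ^ _
      rw [hww R (gm_val_ne hK' hb' h1)]
    have hL2 : E.prod (fun R n => w R ^ n) =
        (dv hK' s).prod (fun R n => w R ^ n) * D.prod fun R n => w R ^ n :=
      Finsupp.prod_add_index' (fun _ => zpow_zero _) hadd
    have hL3 : E.prod (fun R n => w R ^ n) = ∏ j, w (S' j) := by
      rw [hS', ← Finsupp.prod_finsetSum_index (fun _ => zpow_zero _) hadd]
      refine Finset.prod_congr rfl fun j _ => ?_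
      rw [Finsupp.prod_single_index (zpow_zero _), zpow_one]
    have hL4 : D.prod (fun R n => w R ^ n) = ∏ j, w (P (c j)) := by
      rw [hD, ← Finsupp.prod_finsetSum_index (fun _ => zpow_zero _) hadd]
      refine Finset.prod_congr rfl fun j _ => ?_
      rw [Finsupp.prod_single_index (zpow_zero _), zpow_one]
    have hval : ∀ q, ord q b = 0 → w (P q) = algebraMap k Ω (val q b) := by
      intro q hq
      have h1 : val (P q) (ι b) = algebraMap k Ω (val q b) :=
        val_eq (hP2 q _ _ (at_val hK ((mem_iff_ord hK hb).2 hq.ge)))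
      rw [hww _ ?_, h1]
      rw [h1]
      exact (map_ne_zero _).2 (gm_val_ne hK hb hq)
    have hL5 : ∀ j, w (S' j) = ev (Tq (S' j)) b := by
      intro j
      rcases hTR : Tq (S' j) with τ | q
      · have h1 : val (S' j) (ι b) = τ b := val_eq (hT1 _ τ hTR b)
        rw [hww _ ?_, h1]
        · rfl
        · rw [h1]
          exact (map_ne_zero τ).2 hb
      · have h1 := hT2 _ q hTR
        rw [← h1, hval q (hS j q hTR)]
        rfl
    have hL6 : ∏ j, w (P (c j)) = algebraMap k Ω (∏ j, val (c j) b) := by
      rw [map_prod]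
      exact Finset.prod_congr rfl fun j _ => hval _ (hc j)
    rw [← hR, ← hw, hL1, ← hL6, ← hL4, mul_comm, ← hL2, hL3]
    exact Finset.prod_congr rfl fun j _ => (hL5 j).symm
  · intro q hq
    have h1 := hlz q hq
    have h2 : lz φ z q = 0 ↔ E (P q) ≠ 0 := by
      rw [hEv, hD0 _ fun j h => hq j (hPinj h), add_zero]
      constructor
      · intro h
        rw [h] at h1
        exact ((vanishes_iff_ord hK' hs0).1 (Place.at_zero_iff.1 h1)).ne'
      · intro h
        by_contra h3
        exact h (ord_of_at hK' h1 h3)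
    rw [h2, hES]
    refine exists_congr fun j => ⟨fun h => ?_, fun h => ?_⟩
    · show Tq (S' j) = Sum.inr q
      rcases hTR : Tq (S' j) with τ | r
      · exfalso
        apply hexc q τ
        rw [← h]
        exact hT1 _ τ hTR
      · rw [hPinj ((hT2 _ r hTR).trans h)]
    · exact (hT2 _ q h).symm

end Pool.Agent.CYC
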