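import Pool.Agent.CYC.App
import Pool.Agent.CYC.Cls

/-!
# General tuples of points suffice
-/

set_option autoImplicit false

noncomputable section

namespace Pool.Agent.CYC

open Pool.Agent.ZCyc Pool.Agent.Dess Pool.Agent.TInc
open scoped Classical

variable {k L : Type} [Field k] [IsAlgClosed k] [CharZero k] [Field L] [Algebra k L] {a : ℕ}
  {V : Type*} [AddCommGroup V]

/-- A class function on `C ^ a`, as a function of one of the points, is zero if it is zero outside of a
finite set. PROOF. Let `c ∈ S` (otherwise nothing is to prove). By `exists_ords` there is `h ∈ L`, `h ≠ 0`, with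
`ord c h = 1` and `ord v h = 0` for the other `v ∈ S`. The class function relation for the field `L`, the
point with the identity of `L` in the coordinate `i` and the constants `P j` for `j ≠ i`, the values
`Function.update P i v` at the place `v` (`IsV`: the ring of `v` is its preimage under the identity), the
function `h` and its divisor `dv hL h` (`ord_hasOrd`): in the sum all terms are zero except the term of
`c`, which is `Φ (Function.update P i c)`. -/
theorem move_one (hL : IsCurve k L) {Φ : (Fin a → Place k L) → V} (hcf : CF (Y := Spc.cv k L a) Φ)
    (P : Fin a → Place k L) (i : Fin a) (S : Finset (Place k L))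
    (h : ∀ c, c ∉ S → Φ (Function.update P i c) = 0) (c : Place k L) :
    Φ (Function.update P i c) = 0 := by
  by_cases hc : c ∈ S
  swap
  · exact h c hc
  obtain ⟨b, hb0, hb⟩ := exists_ords hL S (fun v => if v = c then 1 else 0)
  have key := hcf L hL (Function.update (fun j => Sum.inr (P j)) i (Sum.inl (AlgHom.id k L)))
    (fun v => Function.update P i v) b (dv hL b) hb0 (fun v => ord_hasOrd hL v hb0) (by
      intro v j
      by_cases hj : j = i
      · subst hj
        rw [Function.update_self]
        change IsV v (Sum.inl (AlgHom.id k L)) (Function.update P j v j)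
        rw [Function.update_self]
        rfl
      · rw [Function.update_of_ne hj]
        change IsV v (Sum.inr (P j)) (Function.update P i v j)
        rw [Function.update_of_ne hj]
        rfl)
  rw [Finsupp.sum, Finset.sum_eq_single c] at key
  · rw [dv_apply, hb c hc, if_pos rfl, one_smul] at key
    exact key
  · intro v _ hv
    by_cases hvS : v ∈ S
    · rw [dv_apply, hb v hvS, if_neg hv, zero_smul]
    · rw [h v hvS, smul_zero]
  · intro hc'
    rw [Finsupp.notMem_support_iff] at hc'
    rw [hc', zero_smul]

/-- PROOF. By induction on `i ≤ a`: if the `P j`, `i ≤ j`, are not in `S` and have different images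
`r (P j)`, then `Φ P = 0`. For `i = 0` this is the assumption `h`. Step from `i` to `i + 1`: let the `P j`,
`i + 1 ≤ j`, satisfy the condition. For `c` outside of the finite set of the elements of `S` and of the
fibres of `r` over the `r (P j)`, `j ≥ i + 1`, the tuple `Function.update P i c` satisfies the condition for
`i`, so `Φ` vanishes; by `move_one` it vanishes for all `c`, in particular for `c = P i`
(`Function.update_eq_self`). -/
theorem of_generic (hL : IsCurve k L) {Φ : (Fin a → Place k L) → V}
    (hcf : CF (Y := Spc.cv k L a) Φ) (S : Finset (Place k L)) {κ : Type*} (r : Place k L → κ)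
    (hr : ∀ q, {c | r c = q}.Finite)
    (h : ∀ P : Fin a → Place k L, (∀ j, P j ∉ S) → Function.Injective (fun j => r (P j)) → Φ P = 0)
    (P : Fin a → Place k L) : Φ P = 0 := by
  have key : ∀ n : ℕ, ∀ P : Fin a → Place k L, (∀ j : Fin a, n ≤ (j : ℕ) → P j ∉ S) →
      (∀ j j' : Fin a, n ≤ (j : ℕ) → n ≤ (j' : ℕ) → r (P j) = r (P j') → j = j') → Φ P = 0 := by
    intro n
    induction n with
    | zero =>
      intro P h1 h2
      exact h P (fun j => h1 j (Nat.zero_le _))
        fun j j' hj => h2 j j' (Nat.zero_le _) (Nat.zero_le _) hj
    | succ n ih =>
      intro P h1 h2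
      by_cases hn : n < a
      · have h3 := move_one hL hcf P ⟨n, hn⟩
          (S ∪ Finset.univ.biUnion fun j : Fin a => (hr (r (P j))).toFinset) (by
            intro c hc
            have hcS : c ∉ S := fun h => hc (Finset.mem_union_left _ h)
            have hcr : ∀ j : Fin a, r c ≠ r (P j) := fun j h => hc (Finset.mem_union_right _
              (Finset.mem_biUnion.2 ⟨j, Finset.mem_univ _, (Set.Finite.mem_toFinset _).2 h⟩))
            have hne : ∀ j : Fin a, j ≠ ⟨n, hn⟩ → n ≤ (j : ℕ) → n + 1 ≤ (j : ℕ) := by
              intro j hj hnj
              have : (j : ℕ) ≠ n := fun h => hj (Fin.ext h)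
              omega
            refine ih _ ?_ ?_
            · intro j hj
              by_cases hji : j = ⟨n, hn⟩
              · rw [hji, Function.update_self]
                exact hcS
              · rw [Function.update_of_ne hji]
                exact h1 j (hne j hji hj)
            · intro j j' hj hj' hjj
              by_cases hji : j = ⟨n, hn⟩ <;> by_cases hji' : j' = ⟨n, hn⟩
              · rw [hji, hji']
              · rw [hji, Function.update_self, Function.update_of_ne hji'] at hjj
                exact absurd hjj (hcr j')
              · rw [hji', Function.update_self, Function.update_of_ne hji] at hjj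
                exact absurd hjj.symm (hcr j)
              · rw [Function.update_of_ne hji, Function.update_of_ne hji'] at hjj
                exact h2 j j' (hne j hji hj) (hne j' hji' hj') hjj) (P ⟨n, hn⟩)
        rwa [Function.update_eq_self] at h3
      · refine ih P (fun j hj => ?_) fun j j' hj _ _ => ?_
        · exact absurd (lt_of_le_of_lt hj j.2) hn
        · exact absurd (lt_of_le_of_lt hj j.2) hn
  exact key a P (fun j hj => absurd j.2 (not_lt.2 hj)) fun j j' hj _ _ => absurd j.2 (not_lt.2 hj)

/-- If one coordinate of a product is fixed, a class function remains a class function. -/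
theorem CF.fix_right {A Y : Spc k} {f : A.pt → Y.pt → V}
    (h : CF (Y := A.prod Y) fun p => f p.1 p.2) (y : Y.pt) : CF (Y := A) fun x => f x y :=
  fun F _ _ hF P p φ D hφ hD hp =>
    h F hF (P, Y.cst y) (fun v => (p v, y)) φ D hφ hD fun v => ⟨hp v, Y.val_cst v y⟩

/-- Exchange of the factors. -/
theorem CF.swap {A Y : Spc k} {f : A.pt → Y.pt → V}
    (h : CF (Y := A.prod Y) fun p => f p.1 p.2) : CF (Y := Y.prod A) fun p => f p.2 p.1 :=
  fun F _ _ hF P p φ D hφ hD hp =>
    h F hF (P.2, P.1) (fun v => ((p v).2, (p v).1)) φ D hφ hD fun v => ⟨(hp v).2, (hp v).1⟩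

end Pool.Agent.CYC
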