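import Pool.Agent.CYC.Zs
import Pool.Agent.WFC.GOrd

/-!
# The covering attached to a character of an automorphism: definitions

`L` is the function field of a curve `C` with the automorphism given by `σ`, `K` the field of the
invariant functions, i.e. the function field of the quotient `B`. `y ∈ L` is a function with
`σ y = λ y`, `λ` a primitive `m`-th root of unity, `h = y ^ m ∈ K`. Let `ord q h = m A(q) + μ(q)` for the
points `q` of `B`, `0 ≤ μ(q) < m`. To a tuple of points `P j` of `C` whose images in `B` are the zeros of a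
section `z` we attach the number `w = ∏ y(P j)`, suitably corrected by the law of reciprocity, so that
`w ^ m = f(z)`, where `f` is the product of the linear forms `z ↦ z(q)` with the exponents `μ(q)`.
-/

set_option autoImplicit false

noncomputable section

namespace Pool.Agent.CYC

open Pool.Agent.ZCyc Pool.Agent.Dess Pool.Agent.TInc
open Pool.Agent.WFC (below)
open scoped Classical

variable {k L : Type} [Field k] [Field L] [Algebra k L]

/-- the field of the invariant functions -/
abbrev KK (σ : L ≃ₐ[k] L) : Type :=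
  (IntermediateField.fixedField (Subgroup.zpowers σ) : IntermediateField k L)

/-- the data -/
structure Dat (σ : L ≃ₐ[k] L) (a n : ℕ) : Type where
  /-- the order of `lam` -/
  m : ℕ
  /-- the root of unity `λ` -/
  lam : k
  /-- the function `y` -/
  y : L
  /-- the function `y ^ m` -/
  h : KK σ
  /-- the base points -/
  P0 : Fin a → Place k L
  /-- the sections -/
  φ : Fin (n + 1) → KK σ

variable {σ : L ≃ₐ[k] L} {a n : ℕ}

/-- the integral part of `ord q h / m` -/
def Dat.A (D : Dat σ a n) (q : Place k (KK σ)) : ℤ := ord q D.h / (D.m : ℤ)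

/-- the remainder of `ord q h` modulo `m` -/
def Dat.mu (D : Dat σ a n) (q : Place k (KK σ)) : ℕ := (ord q D.h % (D.m : ℤ)).toNat

/-- the places with `μ(q) ≠ 0` -/
def Dat.Br (D : Dat σ a n) : Finset (Place k (KK σ)) :=
  if h : {q : Place k (KK σ) | D.mu q ≠ 0}.Finite then h.toFinset else ∅

/-- the degree of the coordinate `w` -/
def Dat.e (D : Dat σ a n) : ℕ := (∑ q ∈ D.Br, D.mu q) / D.m

/-- the linear form `z ↦ z(q)` -/
def Dat.lf (D : Dat σ a n) (q : Place k (KK σ)) : MvPolynomial (Fin (n + 1)) k :=
  ∑ i, MvPolynomial.C (val q (D.φ i)) * MvPolynomial.X i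

/-- the form `f` -/
def Dat.f (D : Dat σ a n) : MvPolynomial (Fin (n + 1)) k := ∏ q ∈ D.Br, D.lf q ^ D.mu q

section

variable [IsAlgClosed k] [CharZero k] [Finite (Subgroup.zpowers σ)]

/-- the images of the base points in `B` -/
def Dat.c (D : Dat σ a n) (j : Fin a) : Place k (KK σ) := below (Subgroup.zpowers σ) (D.P0 j)

/-- the conditions -/
structure Dat.Ok (D : Dat σ a n) : Prop where
  curve : IsCurve k L
  pos : 0 < D.m
  prim : IsPrimitiveRoot D.lam D.m
  ne : D.y ≠ 0
  eig : σ D.y = algebraMap k L D.lam * D.y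
  pow : (D.h : L) = D.y ^ D.m
  total : ∀ i : ℕ, σ ^ i ≠ 1 → ∀ c : Place k L, c.map (σ ^ i) = c → c.map σ = c
  lin : Lin D.c D.φ
  unb : ∀ j, D.mu (D.c j) = 0

/-- the image in `B` of a point of `C` over `F` -/
def res {F : Type} [Field F] [Algebra k F] (P : (L →ₐ[k] F) ⊕ Place k L) :
    (KK σ →ₐ[k] F) ⊕ Place k (KK σ) :=
  P.map (fun τ => τ.comp
    (IntermediateField.fixedField (Subgroup.zpowers σ) : IntermediateField k L).val)
    (below (Subgroup.zpowers σ))

/-- The relation between the point `(z, w)` of the covering and the tuple `P` of points of `C`. -/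
structure Dat.Rl (D : Dat σ a n) {F : Type} [Field F] [Algebra k F] (z : Fin (n + 1) → F) (w : F)
    (P : Fin a → (L →ₐ[k] F) ⊕ Place k L) : Prop where
  zs : Zs D.c D.φ z (fun j => res (σ := σ) (P j))
  eq : ∀ b : KK σ, b ≠ 0 → (∀ j, ord (D.P0 j) (D.y * (b : L)) = 0) →
    (∀ j c, P j = Sum.inr c → ord c (D.y * (b : L)) = 0) →
    ∀ T : Finset (Place k (KK σ)), (∀ q, D.A q + ord q b ≠ 0 → q ∈ T) →
      ∏ j, ev (P j) (D.y * (b : L)) = algebraMap k F (∏ j, val (D.P0 j) (D.y * (b : L))) * w *
        ∏ q ∈ T, lz D.φ z q ^ (D.A q + ord q b)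

/-- the image of a point of `C` under the `i`-th power of the automorphism -/
def actP (σ : L ≃ₐ[k] L) (i : ℕ) (c : Place k L) : Place k L := c.map (σ ^ i).symm

/-- constant points over `k` -/
def kp (P : Fin a → Place k L) (j : Fin a) : (L →ₐ[k] k) ⊕ Place k L := Sum.inr (P j)

end

end Pool.Agent.CYC
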