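import Pool.Agent.CYC.Sgl
import Pool.Agent.CYC.Dual
import Pool.Agent.CYC.Gen

/-!
# Reductions to cyclic coverings, and their use

`Rdn Φ b t s1 s2`: a class function `g` on a covering `w ^ m = F G ^ (m - 1)` with the eigenvalue `t`, which
takes only values of `Φ` or `0` and controls the value of `Φ` at `b`.
-/

set_option autoImplicit false

noncomputable section

namespace Pool.Agent.CYC

open Pool.Agent.ZCyc Pool.Agent.Dess Pool.Agent.TInc
open scoped Classical

variable {k : Type} [Field k]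

/-- A reduction of `Φ` at `b`. The propositions `s1`, `s2` stand for the smallness of `Φ` for the signs
`-1` and `1`. -/
structure Rdn {B : Type} {Y : Spc k} {V : Type} [AddCommGroup V] [Module k V]
    (Φ : B → Y.pt → V) (b : B) (t : k) (s1 s2 : Prop) : Type where
  n : ℕ
  m : ℕ
  e : ℕ
  e' : ℕ
  α : ℕ
  β : ℕ
  F : MvPolynomial (Fin (n + 1)) k
  G : MvPolynomial (Fin (n + 1)) k
  f : MvPolynomial (Fin (n + 1)) k
  hf : f = F * G ^ (m - 1)
  two_le : 2 ≤ m
  prim : IsPrimitiveRoot t m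
  homF : F.IsHomogeneous α
  homG : G.IsHomogeneous β
  eq : α + (m - 1) * β = m * e
  eq' : e + e' = α + β
  pos : 0 < e
  pos' : 0 < e'
  g : (Spc.wv k n m e f).pt → Y.pt → V
  cf : CF (Y := (Spc.wv k n m e f).prod Y) fun p => g p.1 p.2
  tw : ∀ x y, g (tw t prim.pow_eq_one x) y = t • g x y
  or : ∀ x, (∀ y, g x y = 0) ∨ ∃ b', ∀ y, g x y = Φ b' y
  base : (∀ x y, g x y = 0) → ∀ y, Φ b y = 0
  le : s1 → e ≤ n
  le' : s2 → e' ≤ n

/-- One side of the pair lemma: a covering `w ^ m = f` of degree `m e`, `0 < e ≤ n`, and a class function on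
it with `g(t w) = ξ g(w)`. -/
structure Rds {B : Type} {Y : Spc k} {V : Type} [AddCommGroup V] [Module k V]
    (Φ : B → Y.pt → V) (b : B) (t ξ : k) : Type where
  n : ℕ
  m : ℕ
  e : ℕ
  f : MvPolynomial (Fin (n + 1)) k
  two_le : 2 ≤ m
  prim : IsPrimitiveRoot t m
  hom : f.IsHomogeneous (m * e)
  pos : 0 < e
  le : e ≤ n
  g : (Spc.wv k n m e f).pt → Y.pt → V
  cf : CF (Y := (Spc.wv k n m e f).prod Y) fun p => g p.1 p.2
  tw : ∀ x y, g (tw t prim.pow_eq_one x) y = ξ • g x y
  or : ∀ x, (∀ y, g x y = 0) ∨ ∃ b', ∀ y, g x y = Φ b' y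
  base : (∀ x y, g x y = 0) → ∀ y, Φ b y = 0

variable {B : Type} {Y : Spc k} {V : Type} [AddCommGroup V] [Module k V]
  {Φ : B → Y.pt → V} {b : B} {t : k} {s1 s2 : Prop}

/-- PROOF. If `w = 0` then `tw t x = x`, so `g x y = t • g x y`, `t ≠ 1`. -/
theorem Rdn.zero (r : Rdn Φ b t s1 s2) (x : (Spc.wv k r.n r.m r.e r.f).pt) (y : Y.pt)
    (hx : x.1.2 = 0) : r.g x y = 0 := by
  have h1 : Pool.Agent.CYC.tw t r.prim.pow_eq_one x = x := by
    apply Subtype.ext
    refine Prod.ext rfl ?_
    change t * x.1.2 = x.1.2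
    rw [hx, mul_zero]
  have h2 := r.tw x y
  rw [h1] at h2
  have h3 : t ≠ 1 := r.prim.ne_one (lt_of_lt_of_le one_lt_two r.two_le)
  have h4 : (1 - t) • r.g x y = 0 := by
    rw [sub_smul, one_smul, ← h2, sub_self]
  rcases smul_eq_zero.1 h4 with h5 | h5
  · exact absurd (sub_eq_zero.1 h5).symm h3
  · exact h5

/-- the reduction itself -/
def Rdn.toRds (r : Rdn Φ b t s1 s2) (h : s1) : Rds Φ b t t where
  n := r.n
  m := r.m
  e := r.e
  f := r.f
  two_le := r.two_le
  prim := r.prim
  hom := by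
    have h1 := r.homF.mul (r.homG.pow (r.m - 1))
    rw [← r.hf] at h1
    have h2 : r.α + r.β * (r.m - 1) = r.m * r.e := by
      rw [mul_comm r.β]
      exact r.eq
    rwa [h2] at h1
  pos := r.pos
  le := r.le h
  g := r.g
  cf := r.cf
  tw := r.tw
  or := r.or
  base := r.base

variable [IsAlgClosed k] [CharZero k]

private theorem rdn_arith {m e e' α β : ℕ} (hm : 2 ≤ m) (eq : α + (m - 1) * β = m * e)
    (eq' : e + e' = α + β) : β + (m - 1) * α = m * e' := by
  obtain ⟨M, rfl⟩ : ∃ M, m = M + 1 := ⟨m - 1, by omega⟩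
  rw [Nat.add_sub_cancel] at *
  have h1 : (M + 1) * (e + e') = (M + 1) * (α + β) := by rw [eq']
  nlinarith

private theorem rdn_arith' {m e e' α β : ℕ} (hm : 2 ≤ m) (eq : α + (m - 1) * β = m * e)
    (eq' : e + e' = α + β) (h : β ≤ α) :
    ∃ d, e = d + β ∧ α = m * d + β ∧ e' = (m - 1) * d + β := by
  obtain ⟨M, rfl⟩ : ∃ M, m = M + 1 := ⟨m - 1, by omega⟩
  rw [Nat.add_sub_cancel] at *
  have h1 : β ≤ e := by
    by_contra hcon
    push Not at hcon
    have h2 : (M + 1) * (e + 1) ≤ (M + 1) * β := Nat.mul_le_mul_left _ hcon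
    nlinarith
  obtain ⟨d, rfl⟩ : ∃ d, e = d + β := ⟨e - β, by omega⟩
  have h2 : α = (M + 1) * d + β := by nlinarith
  refine ⟨d, rfl, h2, ?_⟩
  nlinarith

/-- The dual reduction. PROOF. `dualF` of `Dual.lean` on the covering `w ^ m = G F ^ (m - 1)` of degree
`m e'`: `β + (m - 1) α = m e'` follows from `eq`, `eq'`; `dualF_cf`, `dualF_tw`, `dualF_eq`, and `Rdn.zero`. -/
theorem Rdn.dual (r : Rdn Φ b t s1 s2) (h : s2) : Nonempty (Rds Φ b t t⁻¹) := by
  have hz := r.zero
  obtain ⟨n, m, e, e', α, β, F, G, f, hf, two_le, prim, homF, homG, eq, eq', pos, pos', g, cf,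
    tw, or, base, le, le'⟩ := r
  subst hf
  have hz' : ∀ (x : (Spc.wv k n m e (F * G ^ (m - 1))).pt) (y : Y.pt), x.1.2 = 0 → g x y = 0 :=
    fun x y hx => hz x y hx
  have ht : t ≠ 0 := prim.ne_zero (by omega)
  exact ⟨{
    n := n
    m := m
    e := e'
    f := G * F ^ (m - 1)
    two_le := two_le
    prim := prim
    hom := by
      have h1 := homG.mul (homF.pow (m - 1))
      have h2 : β + α * (m - 1) = m * e' := by
        rw [mul_comm α]
        exact rdn_arith two_le eq eq'
      rwa [h2] at h1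
    pos := pos'
    le := le' h
    g := dualF two_le g
    cf := dualF_cf two_le homF homG eq eq' hz' cf
    tw := fun x y => dualF_tw two_le prim.pow_eq_one ht tw x y
    or := by
      intro x
      by_cases hx : x.1.2 ≠ 0
      · rcases or (dualPt two_le x hx) with h1 | ⟨b', h1⟩
        · left
          intro y
          unfold dualF
          rw [dif_pos hx]
          exact h1 y
        · right
          refine ⟨b', fun y => ?_⟩
          unfold dualF
          rw [dif_pos hx]
          exact h1 y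
      · left
        intro y
        unfold dualF
        rw [dif_neg hx]
    base := by
      intro h1
      apply base
      intro x y
      by_cases hx : x.1.2 = 0
      · exact hz' x y hx
      · exact dualF_eq two_le h1 x hx y }⟩

/-- PROOF. `single` (Lemma A) for the function `fun x => g x y` (`CF.fix_right`), `ζ = ξ = t`, if `β ≤ α`:
put `d = e - β`, `α = m d + β`, `e = d + β`, `e' = (m - 1) d + β ≤ n`. If `α < β` take the dual function `dualF`
(`Dual.lean`) with the roles of `F` and `G`, `e` and `e'` exchanged, `ζ = t`, `ξ = t⁻¹`. -/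
theorem Rdn.single (r : Rdn Φ b t s1 s2) (h1 : s1) (h2 : s2) (y : Y.pt) : Φ b y = 0 := by
  have hz := r.zero
  obtain ⟨n, m, e, e', α, β, F, G, f, hf, two_le, prim, homF, homG, eq, eq', pos, pos', g, cf,
    tw, or, base, le, le'⟩ := r
  subst hf
  have hz' : ∀ (x : (Spc.wv k n m e (F * G ^ (m - 1))).pt) (y : Y.pt), x.1.2 = 0 → g x y = 0 :=
    fun x y hx => hz x y hx
  have ht0 : t ≠ 0 := prim.ne_zero (by omega)
  have ht1 : t ≠ 1 := prim.ne_one (by omega)
  have ht : t ^ m = 1 := prim.pow_eq_one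
  refine base ?_ y
  rcases Nat.le_total β α with hba | hab
  · obtain ⟨d, rfl, rfl, hd⟩ := rdn_arith' two_le eq eq' hba
    intro x y
    have hn : m * d + β ≤ n + d := by
      have h3 := le' h2
      rw [hd] at h3
      obtain ⟨M, rfl⟩ : ∃ M, m = M + 1 := ⟨m - 1, by omega⟩
      rw [Nat.add_sub_cancel] at h3
      nlinarith
    exact Pool.Agent.CYC.single homF homG pos two_le hn (cf.fix_right y) prim ht ht1
      (fun x => tw x y) x
  · have eq2 := rdn_arith two_le eq eq'
    have eq3 : e' + e = β + α := by omega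
    have hcf := dualF_cf two_le homF homG eq eq' hz' cf
    obtain ⟨d, rfl, rfl, hd⟩ := rdn_arith' two_le eq2 eq3 hab
    intro x y
    by_cases hx : x.1.2 = 0
    · exact hz' x y hx
    have hn : m * d + α ≤ n + d := by
      have h3 := le h1
      rw [hd] at h3
      obtain ⟨M, rfl⟩ : ∃ M, m = M + 1 := ⟨m - 1, by omega⟩
      rw [Nat.add_sub_cancel] at h3
      nlinarith
    refine dualF_eq (e' := d + α) two_le (fun x y => ?_) x hx y
    refine Pool.Agent.CYC.single homG homF pos' two_le hn (hcf.fix_right y) prim (ξ := t⁻¹)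
      (by rw [inv_pow, ht, inv_one]) (fun h3 => ht1 (inv_eq_one.1 h3)) (fun x => ?_) x
    exact dualF_tw two_le ht ht0 tw x y

end Pool.Agent.CYC
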