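import Pool.Agent.CYC.Root
import Pool.Agent.CYC.Rdn

/-!
# Class functions on a covering which belong to a character of smaller order

`W` is the covering `w ^ m = F G ^ (m - 1)`, `m = d m'`; the function `g` on `W × Y` is multiplied by `t`,
`t ^ m' = 1`, if `w` is replaced by `ζ w`. So it is a function of `(x, w ^ d)`, and it is a class function on
the covering `w' ^ m' = F G ^ (m' - 1)`, where `w ^ d = w' G(x) ^ (d - 1)`.
-/

set_option autoImplicit false

noncomputable section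

namespace Pool.Agent.CYC

open Pool.Agent.ZCyc Pool.Agent.Dess Pool.Agent.TInc
open scoped Classical

variable {k : Type} [Field k] {n m e a b m' d e' : ℕ} {F G : MvPolynomial (Fin (n + 1)) k}
  {V : Type*} [AddCommGroup V] [Module k V]

private theorem rw_on (hm : m = d * m') (hd : 0 < d) (hm' : 2 ≤ m') {K : Type} [Field K]
    [Algebra k K] {x : Fin (n + 1) → K} {w' w : K}
    (h : w' ^ m' = MvPolynomial.aeval x (F * G ^ (m' - 1)))
    (hw : w ^ d = w' * MvPolynomial.aeval x G ^ (d - 1)) :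
    w ^ m = MvPolynomial.aeval x (F * G ^ (m - 1)) := by
  subst hm
  rw [map_mul, map_pow] at h ⊢
  obtain ⟨r, rfl⟩ : ∃ r, m' = r + 1 := ⟨m' - 1, by omega⟩
  obtain ⟨s, rfl⟩ : ∃ s, d = s + 1 := ⟨d - 1, by omega⟩
  have h1 : (s + 1) * (r + 1) - 1 = r + s * (r + 1) := by
    have h2 : (s + 1) * (r + 1) = r + s * (r + 1) + 1 := by ring
    omega
  simp only [Nat.add_sub_cancel] at *
  rw [pow_mul, hw, mul_pow, h, h1, ← pow_mul, pow_add, mul_assoc]

private theorem rw_pow {h : (Spc.wv k n m e (F * G ^ (m - 1))).pt → V} {ζ c : k}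
    (hζ : ζ ^ m = 1) (hh : ∀ x, h (tw ζ hζ x) = c • h x) (i : ℕ)
    (x y : (Spc.wv k n m e (F * G ^ (m - 1))).pt) (hy : y.1 = (x.1.1, ζ ^ i * x.1.2)) :
    h y = c ^ i • h x := by
  induction i generalizing y with
  | zero =>
    have h1 : y = x := by
      apply Subtype.ext
      rw [hy, pow_zero, one_mul]
    rw [h1, pow_zero, one_smul]
  | succ i ih =>
    have hp : (ζ ^ i) ^ m = 1 := by
      rw [← pow_mul, mul_comm, pow_mul, hζ, one_pow]
    have h1 : y = tw ζ hζ (tw (ζ ^ i) hp x) := by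
      apply Subtype.ext
      rw [hy]
      change (x.1.1, ζ ^ (i + 1) * x.1.2) = (x.1.1, ζ * (ζ ^ i * x.1.2))
      rw [pow_succ', mul_assoc]
    rw [h1, hh, ih (tw (ζ ^ i) hp x) rfl, smul_smul, pow_succ']

section alg

variable [IsAlgClosed k]

/-- a point of `W` over the point of the covering of smaller order -/
def redQ (hm : m = d * m') (hd : 0 < d) (hm' : 2 ≤ m')
    (x : (Spc.wv k n m' e' (F * G ^ (m' - 1))).pt) : (Spc.wv k n m e (F * G ^ (m - 1))).pt :=
  ⟨(x.1.1, (IsAlgClosed.exists_pow_nat_eq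
    (x.1.2 * MvPolynomial.aeval x.1.1 G ^ (d - 1)) hd).choose), x.2.1,
    rw_on hm hd hm' x.2.2 (IsAlgClosed.exists_pow_nat_eq
      (x.1.2 * MvPolynomial.aeval x.1.1 G ^ (d - 1)) hd).choose_spec⟩

theorem redQ_spec (hm : m = d * m') (hd : 0 < d) (hm' : 2 ≤ m')
    (x : (Spc.wv k n m' e' (F * G ^ (m' - 1))).pt) :
    (redQ (e := e) hm hd hm' x).1.2 ^ d = x.1.2 * MvPolynomial.aeval x.1.1 G ^ (d - 1) :=
  (IsAlgClosed.exists_pow_nat_eq (x.1.2 * MvPolynomial.aeval x.1.1 G ^ (d - 1)) hd).choose_spec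

/-- the function on the covering of smaller order -/
def redG {B V : Type*} (hm : m = d * m') (hd : 0 < d) (hm' : 2 ≤ m')
    (g : (Spc.wv k n m e (F * G ^ (m - 1))).pt → B → V)
    (x : (Spc.wv k n m' e' (F * G ^ (m' - 1))).pt) (y : B) : V :=
  g (redQ hm hd hm' x) y

/-- Independence of the choice. If `w₁ ^ d = w ^ d ≠ 0` then `w₁ = ξ w`, `ξ ^ d = 1`, so `ξ` is a power of
`ζ ^ m'`, and `g` is multiplied by a power of `t ^ m' = 1`. -/
theorem redG_eq {B : Type*} (hm : m = d * m') (hd : 0 < d) (hm' : 2 ≤ m')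
    {g : (Spc.wv k n m e (F * G ^ (m - 1))).pt → B → V} {ζ t : k} (hζ : IsPrimitiveRoot ζ m)
    (ht : t ^ m' = 1) (h1 : ∀ x y, g (tw ζ hζ.pow_eq_one x) y = t • g x y)
    (x : (Spc.wv k n m' e' (F * G ^ (m' - 1))).pt) (p : (Spc.wv k n m e (F * G ^ (m - 1))).pt)
    (hp : p.1.1 = x.1.1) (hp2 : p.1.2 ^ d = x.1.2 * MvPolynomial.aeval x.1.1 G ^ (d - 1)) (y : B) :
    g p y = redG hm hd hm' g x y := by
  have hq := redQ_spec (e := e) hm hd hm' x
  set q := redQ (e := e) hm hd hm' x with hqdef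
  change g p y = g q y
  have hq1 : q.1.1 = x.1.1 := rfl
  have hm0 : 0 < m := by
    rw [hm]
    exact Nat.mul_pos hd (by omega)
  by_cases h0 : q.1.2 = 0
  · have h2 : p.1.2 = 0 := by
      rw [← hq, h0, zero_pow hd.ne'] at hp2
      exact eq_zero_of_pow_eq_zero hp2
    have h3 : p = q := Subtype.ext (Prod.ext (hp.trans hq1.symm) (h2.trans h0.symm))
    rw [h3]
  · have h2 : (p.1.2 / q.1.2) ^ d = 1 := by
      rw [div_pow, hp2, hq]
      refine div_self ?_
      rw [← hq]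
      exact pow_ne_zero _ h0
    have h3 : IsPrimitiveRoot (ζ ^ m') d := hζ.pow hm0 (by rw [hm, mul_comm])
    have : NeZero d := ⟨hd.ne'⟩
    obtain ⟨i, -, hi⟩ := h3.eq_pow_of_pow_eq_one h2
    have h4 := rw_pow (h := fun x => g x y) hζ.pow_eq_one (fun x => h1 x y) (m' * i) q p (by
      refine Prod.ext (hp.trans hq1.symm) ?_
      change p.1.2 = ζ ^ (m' * i) * q.1.2
      rw [pow_mul, hi, div_mul_cancel₀ _ h0])
    rw [pow_mul, ht, one_pow, one_smul] at h4
    exact h4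

/-- `(ζ w) ^ d = ζ ^ d w ^ d` -/
theorem redG_tw {B : Type*} (hm : m = d * m') (hd : 0 < d) (hm' : 2 ≤ m')
    {g : (Spc.wv k n m e (F * G ^ (m - 1))).pt → B → V} {ζ t : k} (hζ : IsPrimitiveRoot ζ m)
    (ht : t ^ m' = 1) (h1 : ∀ x y, g (tw ζ hζ.pow_eq_one x) y = t • g x y)
    (hζ' : (ζ ^ d) ^ m' = 1) (x : (Spc.wv k n m' e' (F * G ^ (m' - 1))).pt) (y : B) :
    redG hm hd hm' g (tw (ζ ^ d) hζ' x) y = t • redG hm hd hm' g x y := by
  have h2 := redG_eq hm hd hm' hζ ht h1 (tw (ζ ^ d) hζ' x)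
    (tw ζ hζ.pow_eq_one (redQ (e := e) hm hd hm' x)) rfl (by
      change (ζ * (redQ (e := e) hm hd hm' x).1.2) ^ d =
        ζ ^ d * x.1.2 * MvPolynomial.aeval x.1.1 G ^ (d - 1)
      rw [mul_pow, redQ_spec, mul_assoc]) y
  rw [← h2]
  exact h1 _ _

end alg

private theorem rw_at {K N : Type} [Field K] [Algebra k K] [Field N] [Algebra k N]
    (ι : K →ₐ[k] N) (u : Place k N) (v : Place k K) (h : u.ring.comap (ι : K →+* N) = v.ring)
    {x : K} {c : k} (hx : v.At x c) : u.At (ι x) c := by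
  unfold Place.At at hx ⊢
  rw [Place.vanishes_iff_or] at hx ⊢
  have e1 : ι x - algebraMap k N c = ι (x - algebraMap k K c) := by
    rw [map_sub, ι.commutes]
  rcases hx with hx | hx
  · left
    rw [e1, hx, map_zero]
  · right
    rw [e1, ← map_inv₀]
    intro h1
    apply hx
    rw [← h]
    exact ValuationSubring.mem_comap.2 h1

private theorem rw_mv {K : Type} [Field K] [Algebra k K] {v : Place k K} {ι : Type} {u : ι → K}
    {c : ι → k} (h : ∀ i, v.At (u i) (c i)) (f : MvPolynomial ι k) :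
    v.At (MvPolynomial.aeval u f) (MvPolynomial.aeval c f) := by
  induction f using MvPolynomial.induction_on with
  | C a =>
    rw [MvPolynomial.aeval_C, MvPolynomial.aeval_C]
    exact Place.at_const a
  | add p q hp hq =>
    rw [map_add, map_add]
    exact hp.add hq
  | mul_X p i hp =>
    rw [map_mul, map_mul, MvPolynomial.aeval_X, MvPolynomial.aeval_X]
    exact hp.mul (h i)

private theorem rw_hom {K : Type} [Field K] [Algebra k K] {A : MvPolynomial (Fin (n + 1)) k}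
    {r : ℕ} (hA : A.IsHomogeneous r) (l : K) (s : Fin (n + 1) → K) :
    MvPolynomial.aeval (fun j => l * s j) A = l ^ r * MvPolynomial.aeval s A := by
  rw [MvPolynomial.aeval_def, MvPolynomial.aeval_def, MvPolynomial.eval₂_eq',
    MvPolynomial.eval₂_eq', Finset.mul_sum]
  refine Finset.sum_congr rfl fun d hd => ?_
  have h1 : ∑ i, d i = r := by
    have h2 := hA (MvPolynomial.mem_support_iff.1 hd)
    rw [← h2, ← Finsupp.degree_eq_sum, Finsupp.degree_eq_weight_one]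
    rfl
  simp only [mul_pow, Finset.prod_mul_distrib]
  rw [Finset.prod_pow_eq_pow_sum, h1]
  ring

private theorem rw_arith (hm : m = d * m') (hd : 0 < d) (hm' : 2 ≤ m')
    (he : m * e = a + (m - 1) * b) (he' : m' * e' = a + (m' - 1) * b) :
    e * d = e' + b * (d - 1) := by
  obtain ⟨r, rfl⟩ : ∃ r, m' = r + 1 := ⟨m' - 1, by omega⟩
  obtain ⟨s, rfl⟩ : ∃ s, d = s + 1 := ⟨d - 1, by omega⟩
  subst hm
  have h1 : (s + 1) * (r + 1) - 1 = r + s * (r + 1) := by
    have h2 : (s + 1) * (r + 1) = r + s * (r + 1) + 1 := by ring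
    omega
  rw [h1] at he
  simp only [Nat.add_sub_cancel] at he' ⊢
  have h3 : (r + 1) * (e * (s + 1)) = (r + 1) * (e' + b * s) := by
    nlinarith
  exact Nat.eq_of_mul_eq_mul_left (Nat.succ_pos r) h3

variable [IsAlgClosed k] [CharZero k]

/-- PROOF. Let `((X, w'), Q)` be a point over `M`, with the values `p v`. Let `N`, `ι'`, `w`, `b` be as in
`exists_root` for the element `w' G(X) ^ (d - 1)` of `M`. `(ι' X, w)` is a point of `W` over `N`. Let `u` be a
place of `N`, `v = b u`, and `l` the factor for the value `(x, w'₀)` of `(X, w')` at `v`: the `d`-th power of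
`(ι' l) ^ e w` is the image of `l ^ e' w' (l ^ b G(X)) ^ (d - 1)`, because `d e = e' + (d - 1) b`; this has the
value `w'₀ G(x) ^ (d - 1)`. So `(ι' l) ^ e w` is regular and has a value `w₀`, `w₀ ^ d = w'₀ G(x) ^ (d - 1)`,
and `g'(x, w'₀) = g(x, w₀)` (`redG_eq`). The class function `g` gives the relation for `ι' φ` over `N`;
`sum_ext`. -/
theorem redG_cf (hF : F.IsHomogeneous a) (hG : G.IsHomogeneous b) (hm : m = d * m')
    (hd : 0 < d) (hm' : 2 ≤ m') (he : m * e = a + (m - 1) * b) (he' : m' * e' = a + (m' - 1) * b)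
    {ζ t : k} (hζ : IsPrimitiveRoot ζ m) (ht : t ^ m' = 1) {Y : Spc k}
    {g : (Spc.wv k n m e (F * G ^ (m - 1))).pt → Y.pt → V}
    (hg : CF (Y := (Spc.wv k n m e (F * G ^ (m - 1))).prod Y) fun p => g p.1 p.2)
    (h1 : ∀ x y, g (tw ζ hζ.pow_eq_one x) y = t • g x y) :
    CF (Y := (Spc.wv k n m' e' (F * G ^ (m' - 1))).prod Y) fun p => redG hm hd hm' g p.1 p.2 := by
  intro M _ _ hM P p φ D hφ hD hval
  obtain ⟨N, _, _, hN, ι', w, bb, hw, hb⟩ := exists_root hM hd
    (P.1.1.2 * MvPolynomial.aeval P.1.1.1 G ^ (d - 1))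
  have hPw := P.1.2.2
  have hon : w ^ m = MvPolynomial.aeval (fun i => ι' (P.1.1.1 i)) (F * G ^ (m - 1)) := by
    refine rw_on (w' := ι' P.1.1.2) hm hd hm' ?_ ?_
    · rw [← map_pow, hPw]
      exact MvPolynomial.comp_aeval_apply P.1.1.1 ι' _
    · rw [hw, map_mul, map_pow]
      congr 2
      exact MvPolynomial.comp_aeval_apply P.1.1.1 ι' _
  let Q : (Spc.wv k n m e (F * G ^ (m - 1))).Pt N :=
    ⟨(fun i => ι' (P.1.1.1 i), w), by
      refine ⟨fun h => P.1.2.1 ?_, hon⟩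
      funext i
      exact (map_eq_zero ι').1 (congrFun h i)⟩
  have key : ∀ u : Place k N, ∃ q : (Spc.wv k n m e (F * G ^ (m - 1))).pt,
      (Spc.wv k n m e (F * G ^ (m - 1))).Val u Q q ∧
        ∀ y, g q y = redG hm hd hm' g (p (bb u)).1 y := by
    intro u
    obtain ⟨l, hl1, hl2⟩ := (hval (bb u)).1
    have hl3 : ∀ i, u.At (ι' l * ι' (P.1.1.1 i)) ((p (bb u)).1.1.1 i) := fun i => by
      rw [← map_mul]
      exact rw_at ι' u (bb u) (hb u) (hl1 i)
    have hGv := rw_mv hl1 G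
    rw [rw_hom hG] at hGv
    have h2 : u.At ((ι' l ^ e * w) ^ d)
        ((p (bb u)).1.1.2 * MvPolynomial.aeval (p (bb u)).1.1.1 G ^ (d - 1)) := by
      have h3 : (ι' l ^ e * w) ^ d = ι' ((l ^ e' * P.1.1.2) *
          (l ^ b * MvPolynomial.aeval P.1.1.1 G) ^ (d - 1)) := by
        rw [mul_pow, hw, ← map_pow, ← map_pow, ← map_mul]
        congr 1
        rw [← pow_mul, rw_arith hm hd hm' he he', mul_pow, ← pow_mul, pow_add]
        ring
      rw [h3]
      exact rw_at ι' u (bb u) (hb u) (hl2.mul (hGv.pow _))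
    have hreg : ι' l ^ e * w ∈ u.ring := by
      have h3 : (ι' l ^ e * w) ^ d ∈ u.ring := h2.mem
      have h4 : IsIntegral u.ring (ι' l ^ e * w) := by
        refine IsIntegral.of_pow hd ?_
        exact isIntegral_algebraMap (R := u.ring) (x := ⟨_, h3⟩)
      obtain ⟨y, hy⟩ := IsIntegrallyClosed.isIntegral_iff.1 h4
      rw [← hy]
      exact y.2
    obtain ⟨w0, h3⟩ : ∃ c, u.At (ι' l ^ e * w) c := ⟨_, at_val hN hreg⟩
    have h4 : w0 ^ d =
        (p (bb u)).1.1.2 * MvPolynomial.aeval (p (bb u)).1.1.1 G ^ (d - 1) :=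
      (h3.pow d).unique h2
    refine ⟨⟨((p (bb u)).1.1.1, w0), (p (bb u)).1.2.1,
      rw_on hm hd hm' (p (bb u)).1.2.2 h4⟩, ⟨ι' l, hl3, h3⟩, fun y => ?_⟩
    exact redG_eq hm hd hm' hζ ht h1 _ _ rfl h4 y
  choose q hq1 hq2 using key
  have hιφ : ι' φ ≠ 0 := fun h => hφ ((map_eq_zero ι').1 h)
  have h2 := hg N hN (Q, Y.map ι' P.2) (fun u => (q u, (p (bb u)).2)) (ι' φ) (dv hN (ι' φ)) hιφ
    (fun u => ord_hasOrd hN u hιφ) fun u => ⟨hq1 u, Y.val_map ι' u (bb u) (hb u) _ _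
      (hval (bb u)).2⟩
  refine sum_ext hM hN ι' hφ (fun v => redG hm hd hm' g (p v).1 (p v).2) D hD (dv hN (ι' φ))
    (fun u => ord_hasOrd hN u hιφ) bb hb ?_
  rw [← h2]
  refine Finsupp.sum_congr fun u _ => ?_
  simp only [hq2]

end Pool.Agent.CYC
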