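import Pool.Agent.CYC.Rdef
import Pool.Agent.CYC.App

/-!
# The covering attached to a character: orders
-/

set_option autoImplicit false

noncomputable section

namespace Pool.Agent.CYC

open Pool.Agent.ZCyc Pool.Agent.Dess Pool.Agent.TInc
open Pool.Agent.WFC (below stb)
open scoped Classical

variable {k L : Type} [Field k] [IsAlgClosed k] [CharZero k] [Field L] [Algebra k L]
  {σ : L ≃ₐ[k] L} [Finite (Subgroup.zpowers σ)] {a n : ℕ}

/-- PROOF. `WFC.fix_curve` (the predicates `Dess.IsCurve` and `EFC.IsCurve` are the same by unfolding). -/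
theorem Dat.Ok.curveK {D : Dat σ a n} (h : D.Ok) : IsCurve k (KK σ) := by
  exact WFC.fix_curve (Subgroup.zpowers σ) h.curve

theorem Dat.Ok.h_ne {D : Dat σ a n} (h : D.Ok) : D.h ≠ 0 := by
  intro h0
  have h1 := h.pow
  rw [h0] at h1
  exact pow_ne_zero D.m h.ne h1.symm

/-- division with remainder -/
theorem Dat.Ok.ord_h {D : Dat σ a n} (h : D.Ok) (q : Place k (KK σ)) :
    ord q D.h = D.m * D.A q + D.mu q ∧ D.mu q < D.m := by
  have hm : (0 : ℤ) < D.m := by exact_mod_cast h.pos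
  have h1 : ((D.mu q : ℕ) : ℤ) = ord q D.h % (D.m : ℤ) :=
    Int.toNat_of_nonneg (Int.emod_nonneg _ hm.ne')
  refine ⟨?_, ?_⟩
  · rw [h1]
    exact (Int.mul_ediv_add_emod (ord q D.h) (D.m : ℤ)).symm
  · have h2 := Int.emod_lt_of_pos (ord q D.h) hm
    rw [← h1] at h2
    exact_mod_cast h2

/-- PROOF. The places with `ord q h ≠ 0` are finite in number (`TInc.finite_ord`). -/
theorem Dat.Ok.mem_Br {D : Dat σ a n} (h : D.Ok) (q : Place k (KK σ)) : q ∈ D.Br ↔ D.mu q ≠ 0 := by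
  have hfin : {q : Place k (KK σ) | D.mu q ≠ 0}.Finite := by
    refine (TInc.finite_ord h.curveK D.h).subset fun q hq h0 => hq ?_
    unfold Dat.mu
    rw [h0, Int.zero_emod]
    rfl
  unfold Dat.Br
  rw [dif_pos hfin, Set.Finite.mem_toFinset]
  rfl

private theorem rla_deg {M : Type} [Field M] [Algebra k M] (hM : IsCurve k M) (f : M) :
    ∑ q ∈ (TInc.finite_ord hM f).toFinset, ord q f = 0 := by
  refine Eq.trans ?_ (deg_dv hM f)
  unfold deg Finsupp.sum
  refine Finset.sum_congr ?_ fun q _ => rfl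
  ext q
  rw [Set.Finite.mem_toFinset, Finsupp.mem_support_iff]
  rfl

private theorem rla_sum {D : Dat σ a n} (h : D.Ok) :
    (D.m : ℤ) * ∑ q ∈ (TInc.finite_ord h.curveK D.h).toFinset, D.A q +
      ∑ q ∈ D.Br, (D.mu q : ℤ) = 0 := by
  refine Eq.trans ?_ (rla_deg h.curveK D.h)
  rw [Finset.mul_sum]
  have h1 : ∑ q ∈ D.Br, (D.mu q : ℤ) =
      ∑ q ∈ (TInc.finite_ord h.curveK D.h).toFinset, (D.mu q : ℤ) := by
    refine Finset.sum_subset (fun q hq => ?_) fun q _ hq => ?_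
    · rw [h.mem_Br] at hq
      rw [Set.Finite.mem_toFinset]
      intro h0
      apply hq
      unfold Dat.mu
      rw [h0, Int.zero_emod]
      rfl
    · rw [h.mem_Br, not_not] at hq
      rw [hq, Nat.cast_zero]
  rw [h1, ← Finset.sum_add_distrib]
  exact Finset.sum_congr rfl fun q _ => (h.ord_h q).1.symm

private theorem rla_pow {g : L ≃ₐ[k] L} (hg : g ∈ Subgroup.zpowers σ) : ∃ i : ℕ, σ ^ i = g := by
  have h1 : IsOfFinOrder σ := finite_zpowers.1 (Set.toFinite _)
  exact (IsOfFinOrder.mem_powers_iff_mem_zpowers h1).2 hg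

/-- PROOF. `(y b) ^ m = h b ^ m` and `WFC.ord_below`; `stb` is the order of the stabilizer of `c`, a positive
number (`WFC.stb_pos`). -/
theorem Dat.Ok.ord_yb {D : Dat σ a n} (h : D.Ok) (c : Place k L) {b : KK σ} (hb : b ≠ 0) :
    (D.m : ℤ) * ord c (D.y * (b : L)) = stb (Subgroup.zpowers σ) c *
      (D.m * (D.A (below (Subgroup.zpowers σ) c) + ord (below (Subgroup.zpowers σ) c) b) +
        D.mu (below (Subgroup.zpowers σ) c)) := by
  have hbL : (b : L) ≠ 0 := fun h0 => hb (Subtype.ext h0)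
  have e : (D.y * (b : L)) ^ D.m = ((D.h * b ^ D.m : KK σ) : L) := by
    rw [mul_pow, ← h.pow]
    rfl
  have h1 : ord c ((D.y * (b : L)) ^ D.m) = D.m * ord c (D.y * (b : L)) := ord_pow h.curve c _ _
  rw [← h1, e, WFC.ord_below (Subgroup.zpowers σ) h.curve c (mul_ne_zero h.h_ne (pow_ne_zero _ hb)),
    ord_mul h.curveK _ h.h_ne (pow_ne_zero _ hb), ord_pow h.curveK, (h.ord_h _).1]
  ring

/-- PROOF. `ord_yb`, and `0 ≤ μ < m`: `m (A + ord b) + μ = 0` iff `μ = 0` and `A + ord b = 0`. -/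
theorem Dat.Ok.ord_yb_zero {D : Dat σ a n} (h : D.Ok) (c : Place k L) {b : KK σ} (hb : b ≠ 0) :
    ord c (D.y * (b : L)) = 0 ↔ D.mu (below (Subgroup.zpowers σ) c) = 0 ∧
      D.A (below (Subgroup.zpowers σ) c) + ord (below (Subgroup.zpowers σ) c) b = 0 := by
  have h1 := h.ord_yb c hb
  have hm : (0 : ℤ) < D.m := by exact_mod_cast h.pos
  have hs : (0 : ℤ) < stb (Subgroup.zpowers σ) c := by
    exact_mod_cast WFC.stb_pos (Subgroup.zpowers σ) c
  have h2 := (h.ord_h (below (Subgroup.zpowers σ) c)).2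
  have h3 : (D.mu (below (Subgroup.zpowers σ) c) : ℤ) < D.m := by exact_mod_cast h2
  constructor
  · intro h0
    rw [h0, mul_zero] at h1
    have h4 := (mul_eq_zero.1 h1.symm).resolve_left hs.ne'
    have h5 : D.A (below (Subgroup.zpowers σ) c) + ord (below (Subgroup.zpowers σ) c) b = 0 := by
      by_contra h6
      rcases lt_or_gt_of_ne h6 with h7 | h7
      · nlinarith
      · nlinarith
    refine ⟨?_, h5⟩
    rw [h5, mul_zero, zero_add] at h4
    exact_mod_cast h4
  · rintro ⟨h4, h5⟩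
    rw [h4, h5, mul_zero, Nat.cast_zero, zero_add, mul_zero] at h1
    exact (mul_eq_zero.1 h1).resolve_left hm.ne'

/-- PROOF. `exists_ords` for the function field `KK σ` and `- A(q)`. -/
theorem Dat.Ok.exists_adm {D : Dat σ a n} (h : D.Ok) (T : Finset (Place k (KK σ))) :
    ∃ b : KK σ, b ≠ 0 ∧ ∀ q ∈ T, D.A q + ord q b = 0 := by
  obtain ⟨b, hb, h1⟩ := exists_ords h.curveK T fun q => - D.A q
  exact ⟨b, hb, fun q hq => by rw [h1 q hq]; ring⟩

/-- PROOF. `∑ ord q h = 0` (`deg_dv`), `∑ ord q h = m ∑ A(q) + ∑ μ(q)`, so `∑ μ(q)` is divisible by `m`. -/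
theorem Dat.Ok.sum_mu {D : Dat σ a n} (h : D.Ok) : ∑ q ∈ D.Br, D.mu q = D.m * D.e := by
  have hdvd : D.m ∣ ∑ q ∈ D.Br, D.mu q := by
    have h1 := rla_sum h
    have h2 : ((∑ q ∈ D.Br, D.mu q : ℕ) : ℤ) =
        (D.m : ℤ) * - ∑ q ∈ (TInc.finite_ord h.curveK D.h).toFinset, D.A q := by
      push_cast
      linarith
    exact Int.natCast_dvd_natCast.1 ⟨_, h2⟩
  unfold Dat.e
  exact (Nat.mul_div_cancel' hdvd).symm

/-- PROOF. `m ∑ A(q) = - ∑ μ(q) = - m e` and `∑ ord q b = 0`. (Outside of a finite set `ord q h = 0`, so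
`A(q) = 0`, `μ(q) = 0`.) -/
theorem Dat.Ok.sum_A {D : Dat σ a n} (h : D.Ok) {b : KK σ} (hb : b ≠ 0)
    (T : Finset (Place k (KK σ))) (hT : ∀ q, D.A q + ord q b ≠ 0 → q ∈ T) :
    ∑ q ∈ T, (D.A q + ord q b) = - (D.e : ℤ) := by
  have hm : (D.m : ℤ) ≠ 0 := by exact_mod_cast h.pos.ne'
  have h1 := rla_sum h
  have h2 : ((∑ q ∈ D.Br, (D.mu q : ℤ))) = D.m * D.e := by exact_mod_cast h.sum_mu
  set S := (TInc.finite_ord h.curveK D.h).toFinset with hS
  set S' := (TInc.finite_ord h.curveK b).toFinset with hS'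
  have h3 : ∑ q ∈ T, (D.A q + ord q b) = ∑ q ∈ T ∪ (S ∪ S'), (D.A q + ord q b) := by
    refine Finset.sum_subset Finset.subset_union_left fun q _ hq => ?_
    by_contra h0
    exact hq (hT q h0)
  have h4 : ∑ q ∈ T ∪ (S ∪ S'), D.A q = ∑ q ∈ S, D.A q := by
    refine (Finset.sum_subset ?_ fun q _ hq => ?_).symm
    · exact Finset.subset_union_left.trans Finset.subset_union_right
    · have h5 : ord q D.h = 0 := by
        by_contra h0
        exact hq ((Set.Finite.mem_toFinset _).2 h0)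
      unfold Dat.A
      rw [h5, Int.zero_ediv]
  have h5 : ∑ q ∈ T ∪ (S ∪ S'), ord q b = 0 := by
    rw [← rla_deg h.curveK b]
    refine (Finset.sum_subset ?_ fun q _ hq => ?_).symm
    · exact Finset.subset_union_right.trans Finset.subset_union_right
    · by_contra h0
      exact hq ((Set.Finite.mem_toFinset _).2 h0)
  rw [h3, Finset.sum_add_distrib, h4, h5, add_zero]
  apply mul_left_cancel₀ hm
  linarith

/-- PROOF. `map_prod`, `map_pow`, `map_sum`, `MvPolynomial.aeval_C`, `aeval_X`. -/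
theorem Dat.aeval_f (D : Dat σ a n) {F : Type} [Field F] [Algebra k F] (z : Fin (n + 1) → F) :
    MvPolynomial.aeval z D.f = ∏ q ∈ D.Br, lz D.φ z q ^ D.mu q := by
  unfold Dat.f Dat.lf lz
  simp only [map_prod, map_pow, map_sum, map_mul, MvPolynomial.aeval_C, MvPolynomial.aeval_X]
  refine Finset.prod_congr rfl fun q _ => ?_
  congr 1
  exact Finset.sum_congr rfl fun i _ => mul_comm _ _

/-- PROOF. `c.map (σ ^ i).symm` has the ring `{g | σ ^ i g ∈ c.ring}` (`Place.mem_map`). -/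
theorem val_actP (i : ℕ) (c : Place k L) (g : L) : val (actP σ i c) g = val c ((σ ^ i) g) := by
  have h1 : ∀ a : k, (actP σ i c).At g a ↔ c.At ((σ ^ i) g) a := by
    intro a
    have h2 := WFC.at_map_iff c (σ ^ i).symm ((σ ^ i) g) a
    rwa [AlgEquiv.symm_apply_apply] at h2
  by_cases h3 : ∃ a, c.At ((σ ^ i) g) a
  · obtain ⟨a, ha⟩ := h3
    rw [val_eq ha, val_eq ((h1 a).2 ha)]
  · unfold val
    rw [dif_neg h3, dif_neg fun h4 => h3 (h4.imp fun a => (h1 a).1)]

theorem ord_actP (hL : IsCurve k L) (i : ℕ) (c : Place k L) (g : L) :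
    ord (actP σ i c) g = ord c ((σ ^ i) g) := by
  have h2 := WFC.ord_map hL c (σ ^ i).symm ((σ ^ i) g)
  rwa [AlgEquiv.symm_apply_apply] at h2

/-- PROOF. `WFC.below_map`. -/
theorem below_actP (i : ℕ) (c : Place k L) :
    below (Subgroup.zpowers σ) (actP σ i c) = below (Subgroup.zpowers σ) c := by
  exact WFC.below_map (Subgroup.zpowers σ)
    ⟨(σ ^ i)⁻¹, inv_mem (pow_mem (Subgroup.mem_zpowers σ) i)⟩ c

/-- PROOF. `WFC.exists_map_eq` gives an element of the group of the powers of `σ`; the group is finite, so it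
is `(σ ^ i) ^ (-1)` with a natural number `i`. -/
theorem exists_actP (hL : IsCurve k L) {c c' : Place k L}
    (h : below (Subgroup.zpowers σ) c = below (Subgroup.zpowers σ) c') :
    ∃ i : ℕ, c' = actP σ i c := by
  obtain ⟨g, hg⟩ := WFC.exists_map_eq (Subgroup.zpowers σ) hL h
  obtain ⟨i, hi⟩ := rla_pow (inv_mem g.2)
  refine ⟨i, ?_⟩
  unfold actP
  rw [← hg]
  congr 1
  have h1 : g.1 = (σ ^ i)⁻¹ := by rw [hi, inv_inv]
  rw [h1]
  rfl

/-- PROOF. `σ y = λ y`, `λ ∈ k`, `σ b = b`. -/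
theorem Dat.Ok.pow_yb {D : Dat σ a n} (h : D.Ok) (i : ℕ) (b : KK σ) :
    (σ ^ i) (D.y * (b : L)) = algebraMap k L (D.lam ^ i) * (D.y * (b : L)) := by
  induction i with
  | zero => simp
  | succ i ih =>
    have h1 : (σ ^ (i + 1)) (D.y * (b : L)) = σ ((σ ^ i) (D.y * (b : L))) := by
      rw [pow_succ']
      rfl
    have h2 : σ (b : L) = b :=
      (WFC.mem_fix_iff (Subgroup.zpowers σ) (b : L)).1 b.2 ⟨σ, Subgroup.mem_zpowers σ⟩
    rw [h1, ih, map_mul, map_mul, AlgEquiv.commutes, h.eig, h2, pow_succ, map_mul]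
    ring

/-- The points over `q` with `μ(q) ≠ 0` are fixed points.
PROOF. Assume that `c` is not a fixed point of `σ`. Then its stabilizer is trivial: an element of it is `σ ^ i`
with a natural number `i`, use `total`. So `stb c = 1`, and `m ord c y = ord c h = ord q h` by
`ord_below`, so `μ(q) = 0`. -/
theorem Dat.Ok.fixed {D : Dat σ a n} (h : D.Ok) {c : Place k L}
    (hc : D.mu (below (Subgroup.zpowers σ) c) ≠ 0) : actP σ 1 c = c := by
  by_contra hne
  have h1 : ∀ i : ℕ, σ ^ i ≠ 1 → c.map (σ ^ i) ≠ c := by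
    intro i hi h2
    have h3 := h.total i hi c h2
    apply hne
    unfold actP
    rw [pow_one]
    conv_lhs => rw [← h3]
    change (c.map σ).map (σ⁻¹ : L ≃ₐ[k] L) = c
    rw [WFC.pmap_mul, inv_mul_cancel]
    exact WFC.pmap_one c
  have h4 : stb (Subgroup.zpowers σ) c = 1 := by
    have h5 : Subsingleton {g : Subgroup.zpowers σ // c.map g.1 = c} := by
      refine ⟨fun g g' => ?_⟩
      have key : ∀ g : {g : Subgroup.zpowers σ // c.map g.1 = c}, g.1.1 = 1 := by
        intro g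
        obtain ⟨i, hi⟩ := rla_pow g.1.2
        by_contra h6
        exact h1 i (by rw [hi]; exact h6) (by rw [hi]; exact g.2)
      exact Subtype.ext (Subtype.ext ((key g).trans (key g').symm))
    have h6 := WFC.stb_pos (Subgroup.zpowers σ) c
    have h7 : stb (Subgroup.zpowers σ) c ≤ 1 := Finite.card_le_one_iff_subsingleton.2 h5
    omega
  have h5 := h.ord_yb c one_ne_zero
  have h6 : ord (below (Subgroup.zpowers σ) c) (1 : KK σ) = 0 := by
    have h7 := ord_const h.curveK (below (Subgroup.zpowers σ) c) (1 : k)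
    rwa [map_one] at h7
  rw [h4, h6, Nat.cast_one, one_mul, add_zero] at h5
  have h7 := (h.ord_h (below (Subgroup.zpowers σ) c)).2
  have h8 : (D.m : ℤ) ∣ (D.mu (below (Subgroup.zpowers σ) c) : ℤ) := by
    refine ⟨ord c (D.y * ((1 : KK σ) : L)) - D.A (below (Subgroup.zpowers σ) c), ?_⟩
    linarith
  have h9 : D.m ∣ D.mu (below (Subgroup.zpowers σ) c) := Int.natCast_dvd_natCast.1 h8
  exact hc (Nat.eq_zero_of_dvd_of_lt h9 h7)

end Pool.Agent.CYC
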