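import Pool.Agent.CYC.RlA
import Pool.Agent.CYC.Gam

/-!
# The covering attached to a character: existence of the points over `Om k`
-/

set_option autoImplicit false

noncomputable section

namespace Pool.Agent.CYC

open Pool.Agent.ZCyc Pool.Agent.Dess Pool.Agent.TInc
open Pool.Agent.WFC (below stb)
open Pool.Agent.VFP (Om tt)
open scoped Classical

variable {k L : Type} [Field k] [IsAlgClosed k] [CharZero k] [Field L] [Algebra k L]
  {σ : L ≃ₐ[k] L} [Finite (Subgroup.zpowers σ)] {a n : ℕ}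

/-! ### values -/

private def pick (p : k → Prop) : k := if h : ∃ a, p a then h.choose else 0

private theorem val_bel (c : Place k L) (b : KK σ) :
    val (below (Subgroup.zpowers σ) c) b = val c (b : L) := by
  change pick (fun a => (below (Subgroup.zpowers σ) c).At b a) = pick (fun a => c.At (b : L) a)
  congr 1
  funext a
  exact propext (WFC.at_below (Subgroup.zpowers σ) c b a)

private theorem val_mul' (hL : IsCurve k L) {c : Place k L} {f g : L} (hf : f ∈ c.ring)
    (hg : g ∈ c.ring) : val c (f * g) = val c f * val c g :=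
  val_eq ((at_val hL hf).mul (at_val hL hg))

private theorem val_pow' (hL : IsCurve k L) {c : Place k L} {f : L} (hf : f ∈ c.ring) (m : ℕ) :
    val c (f ^ m) = val c f ^ m :=
  val_eq ((at_val hL hf).pow m)

private theorem val_ne' (hL : IsCurve k L) {c : Place k L} {f : L} (hf0 : f ≠ 0)
    (hf : ord c f = 0) : val c f ≠ 0 := by
  obtain ⟨h1, h2⟩ := (ord_eq_zero_iff hL hf0).1 hf
  have h3 := (at_val hL h1).mul (at_val hL h2)
  rw [mul_inv_cancel₀ hf0] at h3
  have h4 := Place.at_const (v := c) (1 : k)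
  rw [_root_.map_one] at h4
  intro h5
  rw [h5, zero_mul] at h3
  exact zero_ne_one (h3.unique h4)

section

variable {F : Type} [Field F] [Algebra k F]

private theorem mem_of_ord (hL : IsCurve k L) {c : Place k L} {f : L} (hf0 : f ≠ 0)
    (hf : ord c f = 0) : f ∈ c.ring := ((ord_eq_zero_iff hL hf0).1 hf).1

private theorem ev_mul' (hL : IsCurve k L) (P : (L →ₐ[k] F) ⊕ Place k L) {f g : L}
    (hf : ∀ c, P = Sum.inr c → f ∈ c.ring) (hg : ∀ c, P = Sum.inr c → g ∈ c.ring) :
    ev P (f * g) = ev P f * ev P g := by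
  rcases P with τ | c
  · exact map_mul τ f g
  · change algebraMap k F (val c (f * g)) = algebraMap k F (val c f) * algebraMap k F (val c g)
    rw [val_mul' hL (hf c rfl) (hg c rfl), map_mul]

private theorem ev_pow' (hL : IsCurve k L) (P : (L →ₐ[k] F) ⊕ Place k L) {f : L}
    (hf : ∀ c, P = Sum.inr c → f ∈ c.ring) (m : ℕ) : ev P (f ^ m) = ev P f ^ m := by
  rcases P with τ | c
  · exact map_pow τ f m
  · change algebraMap k F (val c (f ^ m)) = algebraMap k F (val c f) ^ m
    rw [val_pow' hL (hf c rfl), map_pow]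

private theorem ev_ne' (hL : IsCurve k L) (P : (L →ₐ[k] F) ⊕ Place k L) {f : L} (hf0 : f ≠ 0)
    (hf : ∀ c, P = Sum.inr c → ord c f = 0) : ev P f ≠ 0 := by
  rcases P with τ | c
  · exact (map_ne_zero_iff τ (RingHom.injective (τ : L →+* F))).2 hf0
  · exact (map_ne_zero_iff _ (algebraMap k F).injective).2 (val_ne' hL hf0 (hf c rfl))

private theorem prod_eq' {ι : Type} (g : ι → F) (e : ι → ℤ) {T U : Finset ι}
    (hT : ∀ q, e q ≠ 0 → q ∈ T) (hU : ∀ q, e q ≠ 0 → q ∈ U) :
    ∏ q ∈ T, g q ^ e q = ∏ q ∈ U, g q ^ e q := by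
  have h1 : ∀ {T : Finset ι}, (∀ q, e q ≠ 0 → q ∈ T) →
      ∏ q ∈ T, g q ^ e q = ∏ q ∈ T ∪ U, g q ^ e q := by
    intro T hT
    refine Finset.prod_subset Finset.subset_union_left fun q _ hq => ?_
    have h2 : e q = 0 := by
      by_contra h3
      exact hq (hT q h3)
    rw [h2, zpow_zero]
  rw [h1 hT, h1 hU, Finset.union_self]
  symm
  refine Finset.prod_subset Finset.subset_union_right fun q _ hq => ?_
  have h2 : e q = 0 := by
    by_contra h3
    exact hq (hU q h3)
  rw [h2, zpow_zero]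

end

/-- Lifting of a point. PROOF. `WFC.exists_ext_fix`, `WFC.exists_above_fix`. -/
theorem exists_lift (S : (KK σ →ₐ[k] Om k) ⊕ Place k (KK σ)) :
    ∃ P : (L →ₐ[k] Om k) ⊕ Place k L, res (σ := σ) P = S := by
  rcases S with τ | q
  · obtain ⟨τ', hτ'⟩ := WFC.exists_ext_fix (Subgroup.zpowers σ) τ
    exact ⟨Sum.inl τ', congrArg Sum.inl (AlgHom.ext fun f => hτ' f)⟩
  · obtain ⟨c, hc⟩ := WFC.exists_above_fix (Subgroup.zpowers σ) q
    exact ⟨Sum.inr c, congrArg Sum.inr hc⟩

/-- For an element of `K` the value at `P` is the value at the image of `P`. PROOF. For a constant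
point
`WFC.val_below` (there for `EFC.val`; the proof with `WFC.at_below` is the same for `TInc.val`). -/
theorem ev_res {F : Type} [Field F] [Algebra k F] (P : (L →ₐ[k] F) ⊕ Place k L) (b : KK σ) :
    ev (res (σ := σ) P) b = ev P (b : L) := by
  rcases P with τ | c
  · rfl
  · change algebraMap k F (val (below (Subgroup.zpowers σ) c) b) = algebraMap k F (val c (b : L))
    rw [val_bel]

/-- The formula `eq` for one admissible `b₀` implies the formula for all admissible `b`.
PROOF. `β = b / b₀` has the order zero at the `c j` and at the constant `res (P j)`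
(`Dat.Ok.ord_yb_zero`). Apply `Zs.weil` to `β`; `ev (P j) (y b) = ev (P j) (y b₀) ev (P j) β` (for
constant
`P j` both functions are regular at `P j`), `val (P0 j) (y b) = val (P0 j) (y b₀) val (c j) β`, and
`ord q b = ord q b₀ + ord q β`; the factors `lz φ z q` with a nonzero exponent are not zero: if
`A(q) + ord q b₀ ≠ 0` then `q` is not a `c j` and not a constant `res (P j)` with `μ(q) = 0`; use
that
`res (P j) = Sum.inr q` and admissibility imply `A(q) + ord q b₀ = 0`, so `lz φ z q ≠ 0` by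
`Zs.zero`; the same for `b`. -/
theorem Dat.Ok.rl_of_one {D : Dat σ a n} (h : D.Ok) {F : Type} [Field F] [Algebra k F]
    {z : Fin (n + 1) → F} {w : F} {P : Fin a → (L →ₐ[k] F) ⊕ Place k L}
    (hz : Zs D.c D.φ z (fun j => res (σ := σ) (P j))) {b₀ : KK σ} (hb₀ : b₀ ≠ 0)
    (h1 : ∀ j, ord (D.P0 j) (D.y * (b₀ : L)) = 0)
    (h2 : ∀ j c, P j = Sum.inr c → ord c (D.y * (b₀ : L)) = 0)
    (h3 : ∀ T : Finset (Place k (KK σ)), (∀ q, D.A q + ord q b₀ ≠ 0 → q ∈ T) →
      ∏ j, ev (P j) (D.y * (b₀ : L)) = algebraMap k F (∏ j, val (D.P0 j) (D.y * (b₀ : L))) * w *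
        ∏ q ∈ T, lz D.φ z q ^ (D.A q + ord q b₀)) : D.Rl z w P := by
  refine ⟨hz, fun b hb hb1 hb2 T hT => ?_⟩
  have hL := h.curve
  have hK := h.curveK
  have hyb : ∀ {b : KK σ}, b ≠ 0 → D.y * (b : L) ≠ 0 := fun hb =>
    mul_ne_zero h.ne fun h5 => hb (Subtype.ext h5)
  -- orders at the base points and at the constant points
  have hc : ∀ {b : KK σ}, b ≠ 0 → (∀ j, ord (D.P0 j) (D.y * (b : L)) = 0) → ∀ j,
      D.A (D.c j) + ord (D.c j) b = 0 := fun hb h5 j => ((h.ord_yb_zero (D.P0 j) hb).1 (h5 j)).2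
  have hr : ∀ {b : KK σ}, b ≠ 0 → (∀ j c, P j = Sum.inr c → ord c (D.y * (b : L)) = 0) →
      ∀ j q, res (σ := σ) (P j) = Sum.inr q → D.A q + ord q b = 0 := by
    intro b hb h5 j q hq
    rcases hP : P j with τ | c
    · rw [hP] at hq
      cases hq
    · rw [hP] at hq
      have h6 : below (Subgroup.zpowers σ) c = q := Sum.inr.inj hq
      rw [← h6]
      exact ((h.ord_yb_zero c hb).1 (h5 j c hP)).2
  set β : KK σ := b / b₀ with hβ
  have hβ0 : β ≠ 0 := div_ne_zero hb hb₀
  have hbβ : b = b₀ * β := by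
    rw [hβ]
    field_simp
  have hord : ∀ q, ord q b = ord q b₀ + ord q β := fun q => by
    rw [hbβ, ord_mul hK q hb₀ hβ0]
  have hyβ : D.y * (b : L) = D.y * (b₀ : L) * (β : L) := by
    have h5 : (b : L) = (b₀ : L) * (β : L) := congrArg Subtype.val hbβ
    rw [h5, mul_assoc]
  have hβc : ∀ j, ord (D.c j) β = 0 := fun j => by
    have h5 := hc hb hb1 j
    have h6 := hc hb₀ h1 j
    have h7 := hord (D.c j)
    omega
  have hβr : ∀ j q, res (σ := σ) (P j) = Sum.inr q → ord q β = 0 := fun j q hq => by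
    have h5 := hr hb hb2 j q hq
    have h6 := hr hb₀ h2 j q hq
    have h7 := hord q
    omega
  set U : Finset (Place k (KK σ)) := T ∪ (finite_ord hK β).toFinset with hU
  have hU1 : ∀ q, ord q β ≠ 0 → q ∈ U := fun q hq =>
    Finset.mem_union_right _ ((Set.Finite.mem_toFinset _).2 hq)
  have hU2 : ∀ q, D.A q + ord q b ≠ 0 → q ∈ U := fun q hq => Finset.mem_union_left _ (hT q hq)
  have hU3 : ∀ q, D.A q + ord q b₀ ≠ 0 → q ∈ U := fun q hq => by
    by_cases h5 : ord q β = 0
    · apply hU2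
      rw [hord q, h5, add_zero]
      exact hq
    · exact hU1 q h5
  have e1 := h3 U hU3
  have e2 := hz.weil β hβ0 hβc (fun j q hq => hβr j q hq) U hU1
  -- the product of the values
  have e3 : ∏ j, ev (P j) (D.y * (b : L)) =
      (∏ j, ev (P j) (D.y * (b₀ : L))) * ∏ j, ev (res (σ := σ) (P j)) β := by
    rw [← Finset.prod_mul_distrib]
    refine Finset.prod_congr rfl fun j _ => ?_
    rw [ev_res, hyβ]
    refine ev_mul' hL _ (fun c hcP => mem_of_ord hL (hyb hb₀) (h2 j c hcP)) fun c hcP => ?_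
    have h5 : ord (below (Subgroup.zpowers σ) c) β = 0 := by
      apply hβr j
      rw [hcP]
      rfl
    rw [← WFC.mem_below (Subgroup.zpowers σ) c β]
    exact ((ord_eq_zero_iff hK hβ0).1 h5).1
  have e4 : ∏ j, val (D.P0 j) (D.y * (b : L)) =
      (∏ j, val (D.P0 j) (D.y * (b₀ : L))) * ∏ j, val (D.c j) β := by
    rw [← Finset.prod_mul_distrib]
    refine Finset.prod_congr rfl fun j _ => ?_
    have h5 : val (D.c j) β = val (D.P0 j) (β : L) := val_bel _ _
    rw [h5, hyβ]
    refine val_mul' hL (mem_of_ord hL (hyb hb₀) (h1 j)) ?_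
    rw [← WFC.mem_below (Subgroup.zpowers σ) (D.P0 j) β]
    exact ((ord_eq_zero_iff hK hβ0).1 (hβc j)).1
  have e5 : ∏ q ∈ U, lz D.φ z q ^ (D.A q + ord q b) =
      (∏ q ∈ U, lz D.φ z q ^ (D.A q + ord q b₀)) * ∏ q ∈ U, lz D.φ z q ^ ord q β := by
    rw [← Finset.prod_mul_distrib]
    refine Finset.prod_congr rfl fun q _ => ?_
    by_cases h5 : lz D.φ z q = 0
    · have h6 : D.A q + ord q b = 0 ∧ D.A q + ord q b₀ = 0 := by
        by_cases h7 : ∀ j, D.c j ≠ q
        · obtain ⟨j, hj⟩ := (hz.zero q h7).1 h5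
          exact ⟨hr hb hb2 j q hj, hr hb₀ h2 j q hj⟩
        · push Not at h7
          obtain ⟨j, rfl⟩ := h7
          exact ⟨hc hb hb1 j, hc hb₀ h1 j⟩
      have h8 : ord q β = 0 := by
        have h7 := hord q
        omega
      rw [h6.1, h6.2, h8, zpow_zero, one_mul]
    · rw [← zpow_add₀ h5, hord q, add_assoc]
  rw [prod_eq' (fun q => lz D.φ z q) (fun q => D.A q + ord q b) hT hU2, e3, e4, e5, e1, e2,
    map_mul]
  ring

/-- PROOF. `exists_zeros` for `KK σ`, `D.c`, `D.φ`, `z` gives `S`, and `exists_lift` gives `P' j`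
with
`res (P' j) = S j`. No `S j` is a constant `q` with `μ(q) ≠ 0`: otherwise `lz φ z q = 0` (`Zs.zero`,
`q` is not a `c j` by `unb`), so `f(z) = 0` (`aeval_f`), `w = 0`. Choose `b₀` with `A(q) + ord q b₀
= 0` at the
`c j` and the constant `S j` (`exists_adm`); so `y b₀` has order zero at the `P0 j` and at the
constant
`P' j` (`ord_yb_zero`). Let `l = ∏ ev (P' j) (y b₀)` and
`r = ∏ val (P0 j) (y b₀) * w * ∏ q ∈ T, lz φ z q ^ (A(q) + ord q b₀)`. Both are not zero (as in
`rl_of_one` the factors with exponent `≠ 0` are not zero). `l ^ m = r ^ m`: `(y b₀) ^ m = h b₀ ^ m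
∈ K`,
`ev_res`, `Zs.weil` for `h b₀ ^ m`, whose order at `q` is `m (A(q) + ord q b₀) + μ(q)`, and
`∏ lz φ z q ^ μ(q) = f(z) = w ^ m`. So `l = λ ^ t r` with a natural number `t` (`λ` is a primitive
`m`-th root of
unity). Replace `P' 0` (here `0 < a` is used) by its image under the power `σ ^ (-t)`: for an
embedding `τ`
take `τ ∘ σ ^ i`, `i + t = 0` modulo the order of `σ`; then `ev` of `y b₀` is multiplied by `λ ^
i`; for
a place `actP σ i`. The image in `B` does not change. Now `l = r`, and `rl_of_one` applies. -/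
theorem Dat.Ok.exists_rl {D : Dat σ a n} (h : D.Ok) (ha : 0 < a) {z : Fin (n + 1) → Om k}
    (hz : z ≠ 0) {w : Om k} (hw : w ^ D.m = MvPolynomial.aeval z D.f) (hw0 : w ≠ 0) :
    ∃ P : Fin a → (L →ₐ[k] Om k) ⊕ Place k L, D.Rl z w P := by
  have hL := h.curve
  have hK := h.curveK
  have hm : D.m ≠ 0 := h.pos.ne'
  obtain ⟨S, hS⟩ := exists_zeros hK h.lin hz
  choose P' hP' using fun j => exists_lift (S j)
  have hSP : S = fun j => res (σ := σ) (P' j) := funext fun j => (hP' j).symm
  -- linear forms at the branch points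
  have hbr : ∀ q, D.mu q ≠ 0 → lz D.φ z q ≠ 0 := by
    intro q hq h1
    have h2 : MvPolynomial.aeval z D.f = 0 := by
      rw [D.aeval_f]
      refine Finset.prod_eq_zero ((h.mem_Br q).2 hq) ?_
      rw [h1, zero_pow hq]
    rw [h2] at hw
    exact hw0 (pow_eq_zero_iff hm |>.1 hw)
  have hSq : ∀ j q, S j = Sum.inr q → D.mu q = 0 := by
    intro j q hq
    by_contra h1
    refine hbr q h1 ((hS.zero q fun i hi => ?_).2 ⟨j, hq⟩)
    rw [← hi] at h1
    exact h1 (h.unb i)
  -- the admissible function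
  obtain ⟨b₀, hb₀, hb₀1⟩ := h.exists_adm (Finset.univ.image D.c ∪
    Finset.univ.biUnion fun j => Sum.elim (fun _ => (∅ : Finset (Place k (KK σ))))
      (fun q => {q}) (S j))
  have hAc : ∀ j, D.A (D.c j) + ord (D.c j) b₀ = 0 := fun j =>
    hb₀1 _ (Finset.mem_union_left _ (Finset.mem_image_of_mem _ (Finset.mem_univ j)))
  have hAS : ∀ j q, S j = Sum.inr q → D.A q + ord q b₀ = 0 := by
    intro j q hq
    refine hb₀1 _ (Finset.mem_union_right _ (Finset.mem_biUnion.2 ⟨j, Finset.mem_univ _, ?_⟩))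
    rw [hq]
    exact Finset.mem_singleton_self q
  have hlz : ∀ q, D.A q + ord q b₀ ≠ 0 → lz D.φ z q ≠ 0 := by
    intro q hq h1
    by_cases h2 : ∀ j, D.c j ≠ q
    · obtain ⟨j, hj⟩ := (hS.zero q h2).1 h1
      exact hq (hAS j q hj)
    · push Not at h2
      obtain ⟨j, rfl⟩ := h2
      exact hq (hAc j)
  set f : L := D.y * (b₀ : L) with hf
  have hf0 : f ≠ 0 := mul_ne_zero h.ne fun h5 => hb₀ (Subtype.ext h5)
  have h1 : ∀ j, ord (D.P0 j) f = 0 := fun j =>
    (h.ord_yb_zero (D.P0 j) hb₀).2 ⟨h.unb j, hAc j⟩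
  have h2' : ∀ j (c : Place k L), S j = Sum.inr (below (Subgroup.zpowers σ) c) → ord c f = 0 :=
    fun j c hj => (h.ord_yb_zero c hb₀).2 ⟨hSq j _ hj, hAS j _ hj⟩
  have h2 : ∀ j c, P' j = Sum.inr c → ord c f = 0 := fun j c hj => by
    apply h2' j
    rw [← hP' j, hj]
    rfl
  -- the function `h b₀ ^ m`
  set B : KK σ := D.h * b₀ ^ D.m with hB
  have hB0 : B ≠ 0 := mul_ne_zero h.h_ne (pow_ne_zero _ hb₀)
  have hBf : (B : L) = f ^ D.m := by
    rw [hf, mul_pow, ← h.pow]
    rfl
  have hBo : ∀ q, ord q B = D.m * (D.A q + ord q b₀) + D.mu q := fun q => by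
    rw [hB, ord_mul hK q h.h_ne (pow_ne_zero _ hb₀), ord_pow hK, (h.ord_h q).1]
    ring
  set U : Finset (Place k (KK σ)) := (finite_ord hK B).toFinset with hU
  have hU1 : ∀ q, ord q B ≠ 0 → q ∈ U := fun q hq => (Set.Finite.mem_toFinset _).2 hq
  have hzero : ∀ q, ord q B = 0 → D.A q + ord q b₀ = 0 ∧ D.mu q = 0 := by
    intro q hq
    rw [hBo q] at hq
    have h3 := (h.ord_h q).2
    have h4 : (D.mu q : ℤ) < D.m := by exact_mod_cast h3
    have h5 : (0 : ℤ) < D.m := by exact_mod_cast h.pos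
    have h6 : D.A q + ord q b₀ = 0 := by
      by_contra h7
      rcases lt_or_gt_of_ne h7 with h8 | h8
      · nlinarith
      · nlinarith
    rw [h6, mul_zero, zero_add] at hq
    exact ⟨h6, by exact_mod_cast hq⟩
  have hU2 : ∀ q, D.A q + ord q b₀ ≠ 0 → q ∈ U := fun q hq => hU1 q fun h3 => hq (hzero q h3).1
  have hU3 : ∀ q, D.mu q ≠ 0 → q ∈ U := fun q hq => hU1 q fun h3 => hq (hzero q h3).2
  set l : Om k := ∏ j, ev (P' j) f with hl
  set r : Om k := algebraMap k (Om k) (∏ j, val (D.P0 j) f) * w *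
    ∏ q ∈ U, lz D.φ z q ^ (D.A q + ord q b₀) with hr
  have hr0 : r ≠ 0 := by
    refine mul_ne_zero (mul_ne_zero ?_ hw0) ?_
    · refine (map_ne_zero_iff _ (algebraMap k (Om k)).injective).2 ?_
      exact Finset.prod_ne_zero_iff.2 fun j _ => val_ne' hL hf0 (h1 j)
    · refine Finset.prod_ne_zero_iff.2 fun q _ => ?_
      by_cases h3 : D.A q + ord q b₀ = 0
      · rw [h3, zpow_zero]
        exact one_ne_zero
      · exact zpow_ne_zero _ (hlz q h3)
  have hBc : ∀ j, ord (D.c j) B = 0 := fun j => by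
    have h3 : D.mu (D.c j) = 0 := h.unb j
    rw [hBo, hAc j, h3]
    simp
  have hBS : ∀ j q, S j = Sum.inr q → ord q B = 0 := fun j q hq => by
    rw [hBo, hAS j q hq, hSq j q hq]
    simp
  have hlr : l ^ D.m = r ^ D.m := by
    have e1 := hS.weil B hB0 hBc hBS U hU1
    have e2 : l ^ D.m = ∏ j, ev (S j) B := by
      rw [hl, ← Finset.prod_pow]
      refine Finset.prod_congr rfl fun j _ => ?_
      rw [← hP' j, ev_res, hBf]
      exact (ev_pow' hL _ (fun c hc => mem_of_ord hL hf0 (h2 j c hc)) _).symm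
    have e3 : ∏ j, val (D.c j) B = (∏ j, val (D.P0 j) f) ^ D.m := by
      rw [← Finset.prod_pow]
      refine Finset.prod_congr rfl fun j _ => ?_
      have h5 : val (D.c j) B = val (D.P0 j) (B : L) := val_bel _ _
      rw [h5, hBf]
      exact val_pow' hL (mem_of_ord hL hf0 (h1 j)) _
    have e4 : ∏ q ∈ U, lz D.φ z q ^ ord q B =
        (∏ q ∈ U, lz D.φ z q ^ (D.A q + ord q b₀)) ^ D.m * ∏ q ∈ U, lz D.φ z q ^ D.mu q := by
      rw [← Finset.prod_pow, ← Finset.prod_mul_distrib]
      refine Finset.prod_congr rfl fun q _ => ?_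
      by_cases h5 : lz D.φ z q = 0
      · have h6 : D.A q + ord q b₀ = 0 := by
          by_contra h7
          exact hlz q h7 h5
        have h7 : D.mu q = 0 := by
          by_contra h7
          exact hbr q h7 h5
        rw [hBo q, h6, h7]
        simp
      · rw [hBo q, zpow_add₀ h5, zpow_natCast, mul_comm (D.m : ℤ), zpow_mul, zpow_natCast]
    have e5 : ∏ q ∈ U, lz D.φ z q ^ D.mu q = w ^ D.m := by
      rw [hw, D.aeval_f]
      symm
      refine Finset.prod_subset (fun q hq => hU3 q ((h.mem_Br q).1 hq)) fun q _ hq => ?_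
      have h5 : D.mu q = 0 := by
        by_contra h6
        exact hq ((h.mem_Br q).2 h6)
      rw [h5, pow_zero]
    rw [e2, e1, e3, e4, e5, hr, map_pow]
    ring
  -- the root of unity
  have hprim : IsPrimitiveRoot (algebraMap k (Om k) D.lam) D.m :=
    h.prim.map_of_injective (algebraMap k (Om k)).injective
  have hNZ : NeZero D.m := ⟨hm⟩
  obtain ⟨t, -, ht⟩ := hprim.eq_pow_of_pow_eq_one (ξ := l / r) (by
    rw [div_pow, hlr, div_self (pow_ne_zero _ hr0)])
  have hlt : l = algebraMap k (Om k) D.lam ^ t * r := by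
    rw [ht, div_mul_cancel₀ _ hr0]
  set i : ℕ := (D.m - 1) * t with hi
  have hit : algebraMap k (Om k) D.lam ^ i * algebraMap k (Om k) D.lam ^ t = 1 := by
    rw [← pow_add]
    have h5 : i + t = D.m * t := by
      rw [hi]
      have h6 : D.m - 1 + 1 = D.m := Nat.sub_add_cancel h.pos
      calc (D.m - 1) * t + t = (D.m - 1 + 1) * t := by ring
        _ = D.m * t := by rw [h6]
    rw [h5, pow_mul, hprim.pow_eq_one, one_pow]
  -- the new point
  let act : (L →ₐ[k] Om k) ⊕ Place k L → (L →ₐ[k] Om k) ⊕ Place k L :=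
    Sum.map (fun τ => τ.comp ((σ ^ i : L ≃ₐ[k] L) : L →ₐ[k] L)) (actP σ i)
  have hact : ∀ P, res (σ := σ) (act P) = res (σ := σ) P := by
    rintro (τ | c)
    · change Sum.inl _ = Sum.inl _
      congr 1
      ext g
      have h5 : (σ ^ i) (g : L) = (g : L) :=
        (IntermediateField.mem_fixedField_iff _ _).1 g.2 _
          (Subgroup.pow_mem _ (Subgroup.mem_zpowers σ) i)
      exact congrArg τ h5
    · exact congrArg Sum.inr (below_actP i c)
  have hevact : ∀ P, (∀ c, P = Sum.inr c → ord c f = 0) →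
      ev (act P) f = algebraMap k (Om k) D.lam ^ i * ev P f := by
    rintro (τ | c) hP
    · change τ ((σ ^ i) f) = algebraMap k (Om k) D.lam ^ i * τ f
      rw [h.pow_yb i b₀, map_mul, AlgHom.commutes, map_pow]
    · change algebraMap k (Om k) (val (actP σ i c) f) =
        algebraMap k (Om k) D.lam ^ i * algebraMap k (Om k) (val c f)
      rw [val_actP, h.pow_yb i b₀, ← map_pow, ← map_mul]
      congr 1
      exact val_eq ((Place.at_const _).mul (at_val hL (mem_of_ord hL hf0 (hP c rfl))))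
  set j₀ : Fin a := ⟨0, ha⟩ with hj₀
  refine ⟨Function.update P' j₀ (act (P' j₀)), ?_⟩
  have hres : ∀ j, res (σ := σ) (Function.update P' j₀ (act (P' j₀)) j) = S j := by
    intro j
    by_cases hj : j = j₀
    · rw [hj, Function.update_self, hact, hP']
    · rw [Function.update_of_ne hj, hP']
  refine h.rl_of_one (b₀ := b₀) ?_ hb₀ h1 ?_ ?_
  · have h5 : (fun j => res (σ := σ) (Function.update P' j₀ (act (P' j₀)) j)) = S := funext hres
    rw [h5]
    exact hS
  · intro j c hj
    apply h2' j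
    rw [← hres j, hj]
    rfl
  · intro T hT
    rw [prod_eq' (fun q => lz D.φ z q) (fun q => D.A q + ord q b₀) hT hU2]
    change _ = r
    have h5 : ∏ j, ev (Function.update P' j₀ (act (P' j₀)) j) f =
        algebraMap k (Om k) D.lam ^ i * l := by
      rw [hl, ← Finset.mul_prod_erase _ _ (Finset.mem_univ j₀),
        ← Finset.mul_prod_erase _ (fun j => ev (P' j) f) (Finset.mem_univ j₀),
        Function.update_self, hevact _ (fun c hc => h2 j₀ c hc), mul_assoc]
      congr 2
      refine Finset.prod_congr rfl fun j hj => ?_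
      rw [Function.update_of_ne (Finset.ne_of_mem_erase hj)]
    rw [h5, hlt, ← mul_assoc, hit, one_mul]

end Pool.Agent.CYC
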