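import Pool.Agent.CYC.Ext
import Pool.Agent.CYC.Fld
import Pool.Agent.CYU.Over

/-!
# Adjoining a root to the function field of a curve

Proof of `exists_root`. Let `ι : M → Om k` be an embedding (`GT.exists_embed`; a place of `M` exists,
`exists_place`), `w ∈ Om k` with `w ^ d = ι x`, `L` a curve in `Om k` which contains `w`
(`CYU.exists_curve`). `exists_fld` for `L.val` gives `N`, which contains the image of `ι` and `w`; `ι'` is `ι`
with values in `N`. Let `u` be a place of `N`, `V` a place of `Om k` above `u` (`exists_above` for `N.val`) and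
`b u` the place of `M` below `V` (`exists_below` for `ι`).
-/

set_option autoImplicit false

noncomputable section

namespace Pool.Agent.CYC

open Pool.Agent.ZCyc Pool.Agent.Dess Pool.Agent.TInc
open Pool.Agent.VFP (Om tt)

variable {k : Type} [Field k] [IsAlgClosed k] [CharZero k]

theorem exists_root {M : Type} [Field M] [Algebra k M] (hM : IsCurve k M) {d : ℕ} (hd : 0 < d)
    (x : M) : ∃ (N : Type) (_ : Field N) (_ : Algebra k N) (_ : IsCurve k N) (ι' : M →ₐ[k] N)
      (w : N) (b : Place k N → Place k M), w ^ d = ι' x ∧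
        ∀ u : Place k N, u.ring.comap (ι' : M →+* N) = (b u).ring := by
  have hM' := hM
  obtain ⟨t, ht, -⟩ := hM'
  obtain ⟨v0, -⟩ := exists_place ht 0
  obtain ⟨ι, -⟩ := GT.exists_embed hM v0
  obtain ⟨w, hw⟩ := IsAlgClosed.exists_pow_nat_eq (ι x) hd
  obtain ⟨L, hL, -, hwL⟩ := CYU.exists_curve (k := k) {w} (Set.finite_singleton w)
  obtain ⟨N, hN, hι, hτ⟩ := exists_fld hL hM ι (a := 1) (fun _ => Sum.inl L.val)
  have hwN : w ∈ N := hτ 0 L.val rfl ⟨w, hwL rfl⟩
  let ι' : M →ₐ[k] N := ι.codRestrict N.toSubalgebra hι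
  choose V hV using fun u : Place k N => exists_above hN u N.val
  choose b hb using fun u : Place k N => exists_below hM (V u) ι
  refine ⟨N, inferInstance, inferInstance, hN, ι', ⟨w, hwN⟩, b, ?_, fun u => ?_⟩
  · apply Subtype.ext
    exact hw
  · rw [← hb u, ← hV u]
    rfl

end Pool.Agent.CYC
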