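import Pool.Agent.CYC.Cls
import Pool.Agent.ZIso.Krull
import Pool.Agent.GT.OddC

/-!
# Class functions on one cyclic covering (Lemma A)

`W` is the covering `w ^ m = F(x) G(x) ^ (m - 1)`, `deg G = β`, `deg F = m d + β = N`, `w` has the degree
`d + β`. If `N ≤ n + d` then the class functions on `W` with a nontrivial character are zero.
-/

set_option autoImplicit false
set_option linter.unusedSectionVars false

noncomputable section

namespace Pool.Agent.CYC

open Pool.Agent.ZCyc Pool.Agent.Dess Pool.Agent.TInc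
open Pool.Agent.VFP (Om tt)
open Polynomial (X C)
open scoped Classical

variable {k : Type} [Field k] [IsAlgClosed k] [CharZero k] {n m d β : ℕ}
  {F G : MvPolynomial (Fin (n + 1)) k}

/-- the line through `x0` in the direction `x1` -/
def ln (x0 x1 : Fin (n + 1) → k) (i : Fin (n + 1)) : Polynomial k := C (x0 i) + C (x1 i) * X

/-! ### Krull -/

/-- The polynomial with constant coefficient `c` and the other coefficients `v`. -/
private def kq {S : Type} [CommRing S] [Algebra k S] (c : k) (m : ℕ) (v : Fin m → S) :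
    Polynomial S :=
  C (algebraMap k S c) + ∑ i : Fin m, C (v i) * X ^ (i.val + 1)

private theorem kq_natDegree {S : Type} [CommRing S] [Algebra k S] (c : k) (m : ℕ)
    (v : Fin m → S) : (kq c m v).natDegree ≤ m := by
  unfold kq
  refine Polynomial.natDegree_add_le_of_degree_le (by simp) ?_
  refine Polynomial.natDegree_sum_le_of_forall_le _ _ fun i _ => ?_
  exact (Polynomial.natDegree_C_mul_X_pow_le _ _).trans i.2

private theorem kq_coeff_zero (c : k) (m : ℕ) (v : Fin m → k) : (kq c m v).coeff 0 = c := by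
  unfold kq
  simp [Polynomial.coeff_zero_eq_eval_zero, Polynomial.eval_finsetSum]

private theorem kq_map {S T : Type} [CommRing S] [Algebra k S] [CommRing T] [Algebra k T]
    (f : S →ₐ[k] T) (c : k) (m : ℕ) (v : Fin m → S) :
    Polynomial.mapAlgHom f (kq c m v) = kq c m fun i => f (v i) := by
  unfold kq
  simp [Polynomial.map_sum]

private theorem kq_zero (c : k) (m : ℕ) : kq c m (fun _ => (0 : k)) = C c := by
  unfold kq
  simp

private theorem kq_const {c c' : k} {m : ℕ} {v : Fin m → k} (h : kq c m v = C c') :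
    ∀ i, v i = 0 := by
  intro i
  have h1 := congrArg (fun p => p.coeff (i.val + 1)) h
  simp only [kq, Polynomial.coeff_add, Polynomial.coeff_C_succ, Polynomial.finsetSum_coeff,
    Polynomial.coeff_C_mul, Polynomial.coeff_X_pow] at h1
  rw [zero_add, Finset.sum_eq_single i] at h1
  · simpa using h1
  · intro j _ hj
    rw [if_neg, mul_zero]
    intro h2
    exact hj (Fin.ext (by omega))
  · intro h2
    exact absurd (Finset.mem_univ _) h2

private theorem natDegree_line {M : Type} [Field M] [Algebra k M] {ι : Type} [Fintype ι]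
    {f : MvPolynomial ι k} {d : ℕ} (hf : f.IsHomogeneous d) (x₀ x₁ : ι → M) :
    (MvPolynomial.aeval (fun i => C (x₀ i) + C (x₁ i) * X) f).natDegree ≤ d := by
  rw [MvPolynomial.aeval_def, MvPolynomial.eval₂_eq']
  refine Polynomial.natDegree_sum_le_of_forall_le _ _ fun m hm => ?_
  have hd : ∑ i, m i = d := by
    have h3 := hf (MvPolynomial.mem_support_iff.1 hm)
    rw [← h3, Finsupp.weight_apply, Finsupp.sum_fintype]
    · simp
    · simp
  refine (Polynomial.natDegree_C_mul_le _ _).trans ?_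
  rw [← hd]
  refine (Polynomial.natDegree_prod_le _ _).trans (Finset.sum_le_sum fun i _ => ?_)
  have := Polynomial.natDegree_pow_le_of_le (p := C (x₀ i) + C (x₁ i) * X) (m := 1) (m i)
    (by compute_degree)
  simpa using this

/-- the indices of the unknowns -/
private abbrev KI (n d : ℕ) (i₀ : Fin (n + 1)) : Type := {i : Fin (n + 1) // i ≠ i₀} ⊕ Fin d

/-- the direction -/
private def kd {S : Type} [CommRing S] {i₀ : Fin (n + 1)} (x : KI n d i₀ → S)
    (i : Fin (n + 1)) : S :=
  if h : i = i₀ then 0 else x (Sum.inl ⟨i, h⟩)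

/-- the equation -/
private def kE (F G : MvPolynomial (Fin (n + 1)) k) (m : ℕ) (x0 : Fin (n + 1) → k) (u0 : k)
    {S : Type} [CommRing S] [Algebra k S] {i₀ : Fin (n + 1)} (x : KI n d i₀ → S) :
    Polynomial S :=
  MvPolynomial.aeval (fun i => C (algebraMap k S (x0 i)) + C (kd x i) * X) F -
    kq u0 d (fun j => x (Sum.inr j)) ^ m *
      MvPolynomial.aeval (fun i => C (algebraMap k S (x0 i)) + C (kd x i) * X) G

private theorem kE_map (m : ℕ) (x0 : Fin (n + 1) → k) (u0 : k) {S T : Type} [CommRing S]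
    [Algebra k S] [CommRing T] [Algebra k T] (f : S →ₐ[k] T) {i₀ : Fin (n + 1)}
    (x : KI n d i₀ → S) :
    Polynomial.mapAlgHom f (kE F G m x0 u0 x) = kE F G m x0 u0 fun i => f (x i) := by
  have h1 : ∀ H : MvPolynomial (Fin (n + 1)) k, Polynomial.mapAlgHom f
      (MvPolynomial.aeval (fun i => C (algebraMap k S (x0 i)) + C (kd x i) * X) H) =
      MvPolynomial.aeval (fun i => C (algebraMap k T (x0 i)) +
        C (kd (fun i => f (x i)) i) * X) H := fun H => by
    rw [MvPolynomial.comp_aeval_apply]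
    congr 2
    funext i
    have h2 : f (kd x i) = kd (fun i => f (x i)) i := by
      unfold kd
      split
      · exact map_zero f
      · rfl
    rw [map_add, map_mul, ← h2]
    simp
  unfold kE
  rw [map_sub, map_mul, map_pow, h1, h1, kq_map]

/-- Krull. PROOF. Let `x0 i₀ ≠ 0`. Unknowns: `x1 i` for `i ≠ i₀` (and `x1 i₀ = 0`) and the coefficients
`u_1, …, u_d` of `U = u0 + u_1 X + … + u_d X ^ d`; these are `n + d` unknowns. The polynomial
`F(ln) - U ^ m G(ln)` has degree at most `N = m d + β` and its constant coefficient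
`F(x0) - u0 ^ m G(x0)` is zero. The coefficients of `X, …, X ^ (N - 1)` are `N - 1 < n + d` polynomials in the
unknowns, which vanish at the origin (there `F(ln) - U ^ m G(ln)` is the constant zero).
`ZIso.exists_ne_zero`. (`0 < N`, since for `N = 0` we have `d = β = 0`.) -/
theorem sgl_krull (hF : F.IsHomogeneous (m * d + β)) (hG : G.IsHomogeneous β) (he : 0 < d + β)
    (hm : 2 ≤ m) (hn : m * d + β ≤ n + d) {x0 : Fin (n + 1) → k} (hx : x0 ≠ 0) {u0 : k}
    (h0 : MvPolynomial.aeval x0 F = u0 ^ m * MvPolynomial.aeval x0 G) :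
    ∃ (i₀ : Fin (n + 1)) (x1 : Fin (n + 1) → k) (U : Polynomial k) (c : k), x0 i₀ ≠ 0 ∧
      x1 i₀ = 0 ∧ U.natDegree ≤ d ∧ U.coeff 0 = u0 ∧ (x1 ≠ 0 ∨ U ≠ C u0) ∧
      MvPolynomial.aeval (ln x0 x1) F - U ^ m * MvPolynomial.aeval (ln x0 x1) G =
        C c * X ^ (m * d + β) := by
  obtain ⟨i₀, hi₀⟩ : ∃ i, x0 i ≠ 0 := by
    by_contra hcon
    push Not at hcon
    exact hx (funext hcon)
  have hN : 0 < m * d + β := by
    rcases Nat.eq_zero_or_pos d with h | h
    · rw [h] at he ⊢
      omega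
    · have := Nat.mul_pos (show 0 < m by omega) h
      omega
  have hcard : Fintype.card (KI n d i₀) = n + d := by
    rw [Fintype.card_sum, Fintype.card_fin, Fintype.card_subtype_compl]
    simp
  have hE0 : kE F G m x0 u0 (0 : KI n d i₀ → k) = 0 := by
    have h1 : ∀ H : MvPolynomial (Fin (n + 1)) k,
        MvPolynomial.aeval (fun i => C (algebraMap k k (x0 i)) +
          C (kd (0 : KI n d i₀ → k) i) * X) H = C (MvPolynomial.aeval x0 H) := fun H => by
      have h2 : (fun i => C (algebraMap k k (x0 i)) + C (kd (0 : KI n d i₀ → k) i) * X) =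
          fun i => (Algebra.ofId k (Polynomial k)) (x0 i) := by
        funext i
        have : kd (0 : KI n d i₀ → k) i = 0 := by
          unfold kd
          split <;> rfl
        rw [this, Polynomial.C_0, zero_mul, add_zero]
        rfl
      rw [h2, ← MvPolynomial.comp_aeval_apply]
      rfl
    unfold kE
    rw [h1, h1]
    have h3 : kq u0 d (fun j => (0 : KI n d i₀ → k) (Sum.inr j)) = C u0 := kq_zero u0 d
    rw [h3, h0, ← Polynomial.C_pow, ← Polynomial.C_mul, sub_self]
  have hcoef : ∀ (y : KI n d i₀ → k) (j : ℕ), MvPolynomial.eval y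
      ((kE F G m x0 u0 (fun i => (MvPolynomial.X i : MvPolynomial (KI n d i₀) k))).coeff j) =
      (kE F G m x0 u0 y).coeff j := fun y j => by
    have h1 := kE_map (F := F) (G := G) m x0 u0 (MvPolynomial.aeval y)
      (fun i => (MvPolynomial.X i : MvPolynomial (KI n d i₀) k))
    simp only [MvPolynomial.aeval_X] at h1
    have h2 := congrArg (fun P => Polynomial.coeff P j) h1
    simp only [Polynomial.coe_mapAlgHom, Polynomial.coeff_map] at h2
    rw [← h2, ← MvPolynomial.aeval_eq_eval]
    rfl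
  obtain ⟨x, hx0, hxz⟩ := Pool.Agent.ZIso.exists_ne_zero (K := k) (ι := KI n d i₀)
    (κ := Fin (m * d + β - 1)) (by rw [hcard, Fintype.card_fin]; omega)
    (fun j => (kE F G m x0 u0 (fun i => (MvPolynomial.X i : MvPolynomial (KI n d i₀) k))).coeff
      (j.val + 1)) (fun j => by rw [hcoef, hE0, Polynomial.coeff_zero])
  have hline : ∀ H : MvPolynomial (Fin (n + 1)) k,
      MvPolynomial.aeval (fun i => C (algebraMap k k (x0 i)) + C (kd x i) * X) H =
      MvPolynomial.aeval (ln x0 (kd x)) H := fun H => rfl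
  have hE : kE F G m x0 u0 x = MvPolynomial.aeval (ln x0 (kd x)) F -
      kq u0 d (fun j => x (Sum.inr j)) ^ m * MvPolynomial.aeval (ln x0 (kd x)) G := rfl
  have hdeg : (kE F G m x0 u0 x).natDegree ≤ m * d + β := by
    rw [hE]
    refine (Polynomial.natDegree_sub_le _ _).trans (max_le (natDegree_line hF x0 (kd x)) ?_)
    refine Polynomial.natDegree_mul_le.trans (Nat.add_le_add ?_ (natDegree_line hG x0 (kd x)))
    exact Polynomial.natDegree_pow_le.trans (Nat.mul_le_mul_left _ (kq_natDegree _ _ _))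
  have hU0 : (kq u0 d (fun j => x (Sum.inr j))).coeff 0 = u0 := kq_coeff_zero _ _ _
  refine ⟨i₀, kd x, kq u0 d (fun j => x (Sum.inr j)), (kE F G m x0 u0 x).coeff (m * d + β), hi₀,
    ?_, kq_natDegree _ _ _, hU0, ?_, ?_⟩
  · unfold kd
    rw [dif_pos rfl]
  · by_contra hcon
    push Not at hcon
    obtain ⟨h1, h2⟩ := hcon
    apply hx0
    funext i
    rcases i with ⟨i, hi⟩ | j
    · have h3 := congrFun h1 i
      unfold kd at h3
      rwa [dif_neg hi] at h3
    · exact kq_const h2 j
  · rw [← hE]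
    ext j
    rw [Polynomial.coeff_C_mul, Polynomial.coeff_X_pow]
    rcases lt_trichotomy j (m * d + β) with hj | hj | hj
    · rw [if_neg hj.ne, mul_zero]
      rcases Nat.eq_zero_or_pos j with h1 | h1
      · rw [h1, hE, Polynomial.coeff_sub, Polynomial.coeff_zero_eq_eval_zero,
          Polynomial.coeff_zero_eq_eval_zero, Polynomial.eval_mul, Polynomial.eval_pow,
          ← Polynomial.coeff_zero_eq_eval_zero (kq u0 d fun j => x (Sum.inr j)), hU0]
        have h2 : ∀ H : MvPolynomial (Fin (n + 1)) k,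
            (MvPolynomial.aeval (ln x0 (kd x)) H).eval 0 = MvPolynomial.aeval x0 H := fun H => by
          have h3 := MvPolynomial.comp_aeval_apply (ln x0 (kd x)) (Polynomial.aeval (0 : k)) H
          rw [Polynomial.coe_aeval_eq_eval] at h3
          rw [h3]
          congr 2
          funext i
          simp [ln]
        rw [h2, h2, h0, sub_self]
      · have h2 := hxz ⟨j - 1, by omega⟩
        rw [hcoef] at h2
        have h3 : j - 1 + 1 = j := by omega
        simpa only [h3] using h2
    · rw [if_pos hj, mul_one, hj]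
    · rw [if_neg hj.ne', mul_zero]
      exact Polynomial.coeff_eq_zero_of_natDegree_lt (hdeg.trans_lt hj)

/-! ### Values -/

private theorem at_mv {M : Type} [Field M] [Algebra k M] {v : Place k M} {σ : Type} {f : σ → M}
    {c : σ → k} (h : ∀ i, v.At (f i) (c i)) (F : MvPolynomial σ k) :
    v.At (MvPolynomial.aeval f F) (MvPolynomial.aeval c F) := by
  induction F using MvPolynomial.induction_on with
  | C a =>
    rw [MvPolynomial.aeval_C, MvPolynomial.aeval_C]
    exact Place.at_const a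
  | add p q hp hq =>
    rw [map_add, map_add]
    exact hp.add hq
  | mul_X p i hp =>
    rw [map_mul, map_mul, MvPolynomial.aeval_X, MvPolynomial.aeval_X]
    exact hp.mul (h i)

private theorem hom_scale {A : Type} [Field A] [Algebra k A] {ι : Type} [Fintype ι]
    {f : MvPolynomial ι k} {N : ℕ} (hf : f.IsHomogeneous N) (l : A) (x : ι → A) :
    MvPolynomial.aeval (fun i => l * x i) f = l ^ N * MvPolynomial.aeval x f := by
  rw [MvPolynomial.aeval_def, MvPolynomial.aeval_def, MvPolynomial.eval₂_eq',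
    MvPolynomial.eval₂_eq', Finset.mul_sum]
  refine Finset.sum_congr rfl fun m hm => ?_
  have hd : ∑ i, m i = N := by
    have h3 := hf (MvPolynomial.mem_support_iff.1 hm)
    rw [← h3, Finsupp.weight_apply, Finsupp.sum_fintype]
    · simp
    · simp
  simp only [mul_pow]
  rw [Finset.prod_mul_distrib, Finset.prod_pow_eq_pow_sum, hd]
  ring

section Curve

variable {M : Type} [Field M] [Algebra k M]

private theorem mem_of_pow' (hM : IsCurve k M) {v : Place k M} {f : M} {r : ℕ} (hr : 0 < r)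
    (h : f ^ r ∈ v.ring) : f ∈ v.ring := by
  by_cases hf : f = 0
  · rw [hf]
    exact zero_mem _
  · rw [mem_iff_ord hM hf]
    rw [mem_iff_ord hM (pow_ne_zero _ hf), ord_pow hM] at h
    have h2 : (0 : ℤ) < r := by exact_mod_cast hr
    by_contra hcon
    push Not at hcon
    nlinarith

/-- the coordinates of the moving point -/
private def pm (x0 x1 : Fin (n + 1) → k) (s : M) (i : Fin (n + 1)) : M :=
  algebraMap k M (x0 i) + algebraMap k M (x1 i) * s

private theorem pm_aeval (x0 x1 : Fin (n + 1) → k) (s : M) (H : MvPolynomial (Fin (n + 1)) k) :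
    MvPolynomial.aeval (pm x0 x1 s) H =
      Polynomial.aeval s (MvPolynomial.aeval (ln x0 x1) H) := by
  rw [MvPolynomial.comp_aeval_apply]
  congr 2
  funext i
  simp [pm, ln]

/-- The values of the moving point at all places. -/
private theorem vals (hM : IsCurve k M) {e : ℕ} {f : MvPolynomial (Fin (n + 1)) k}
    (hf : f.IsHomogeneous (m * e)) (hm : 0 < m) {x0 x1 : Fin (n + 1) → k} {i₀ : Fin (n + 1)}
    (hi : x0 i₀ ≠ 0) (hi' : x1 i₀ = 0) {s w : M}
    (P : (Spc.wv k n m e f).Pt M) (hP1 : P.1.1 = pm x0 x1 s) (hP2 : P.1.2 = w)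
    (v : Place k M) :
    ∃ q : (Spc.wv k n m e f).pt, (Spc.wv k n m e f).Val v P q ∧
      (∀ b, v.At s b → q.1.1 = (fun i => x0 i + x1 i * b) ∧ v.At w q.1.2) ∧
      (s ∉ v.ring → x1 ≠ 0 → q.1.1 = x1 ∧ v.At ((s⁻¹) ^ e * w) q.1.2) := by
  have hw : w ^ m = MvPolynomial.aeval (pm x0 x1 s) f := by
    rw [← hP1, ← hP2]
    exact P.2.2
  -- a general way to obtain a value
  have key : ∀ (l : M) (c : Fin (n + 1) → k), c ≠ 0 →
      (∀ i, v.At (l * pm x0 x1 s i) (c i)) →
      ∃ q : (Spc.wv k n m e f).pt, (Spc.wv k n m e f).Val v P q ∧ q.1.1 = c ∧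
        v.At (l ^ e * w) q.1.2 := by
    intro l c hc h
    have h1 : (l ^ e * w) ^ m = MvPolynomial.aeval (fun i => l * pm x0 x1 s i) f := by
      rw [hom_scale hf, mul_pow, hw, ← pow_mul, mul_comm e m]
    have h2 : v.At ((l ^ e * w) ^ m) (MvPolynomial.aeval c f) := by
      rw [h1]
      exact at_mv h f
    have h3 : l ^ e * w ∈ v.ring := mem_of_pow' hM hm h2.mem
    have h4 := at_val hM h3
    have h5 : val v (l ^ e * w) ^ m = MvPolynomial.aeval c f := (h4.pow m).unique h2
    refine ⟨⟨(c, val v (l ^ e * w)), hc, h5⟩, ⟨l, fun i => ?_, ?_⟩, rfl, h4⟩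
    · rw [hP1]
      exact h i
    · rw [hP2]
      exact h4
  by_cases hs : s ∈ v.ring
  · obtain ⟨q, h1, h2, h3⟩ := key 1 (fun i => x0 i + x1 i * val v s) (fun h => hi (by
        have h4 := congrFun h i₀
        simpa [hi'] using h4)) (fun i => by
        rw [one_mul]
        exact (Place.at_const _).add ((Place.at_const _).mul (at_val hM hs)))
    rw [one_pow, one_mul] at h3
    refine ⟨q, h1, fun b hb => ?_, fun h => absurd hs h⟩
    rw [h2, val_eq hb]
    exact ⟨rfl, h3⟩
  · by_cases hx1 : x1 = 0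
    · obtain ⟨q, h1, h2, h3⟩ := key 1 x0 (fun h => hi (by rw [h]; rfl)) (fun i => by
        have : pm x0 x1 s i = algebraMap k M (x0 i) := by
          rw [pm, hx1, Pi.zero_apply, map_zero, zero_mul, add_zero]
        rw [one_mul, this]
        exact Place.at_const _)
      exact ⟨q, h1, fun b hb => absurd hb.mem hs, fun _ h => absurd hx1 h⟩
    · have hs0 : s ≠ 0 := fun h => hs (h ▸ zero_mem _)
      have h0 : v.At s⁻¹ 0 := by
        rw [Place.at_zero_iff, Place.vanishes_iff_or, inv_inv]
        exact Or.inr hs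
      obtain ⟨q, h1, h2, h3⟩ := key s⁻¹ x1 hx1 (fun i => by
        have h4 := (h0.mul (Place.at_const (v := v) (x0 i))).add (Place.at_const (v := v) (x1 i))
        rw [zero_mul, zero_add] at h4
        have h5 : s⁻¹ * pm x0 x1 s i = s⁻¹ * algebraMap k M (x0 i) + algebraMap k M (x1 i) := by
          rw [pm]
          field_simp
        rw [h5]
        exact h4)
      exact ⟨q, h1, fun b hb => absurd hb.mem hs, fun _ _ => ⟨h2, h3⟩⟩

/-- The end of the argument. -/
private theorem conclude (hM : IsCurve k M) {s : M} (hs : Transcendental k s) {V : Type*}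
    [AddCommGroup V] [Module k V] {y : V} (T : Place k M → V) (S : Finset (Place k M))
    (hS : ∀ v, ord v s ≠ 0 → v ∈ S) {N : ℕ} (hN : 0 < N)
    (h1 : ∀ v, 0 < ord v s → T v = ((N * ord v s : ℤ) : k) • y)
    (h2 : ∀ v, ¬ 0 < ord v s → T v = 0) (h : ∑ v ∈ S, T v = 0) : y = 0 := by
  have hs0 : s ≠ 0 := by
    rintro rfl
    exact hs isAlgebraic_zero
  set S' := S.filter fun v => 0 < ord v s with hS'
  have h3 : ∑ v ∈ S', T v = 0 := by
    rw [← h]
    refine Finset.sum_subset (Finset.filter_subset _ _) fun v hv hv' => h2 v fun h4 => hv' ?_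
    exact Finset.mem_filter.2 ⟨hv, h4⟩
  rw [Finset.sum_congr rfl fun v hv => h1 v (Finset.mem_filter.1 hv).2, ← Finset.sum_smul] at h3
  have h4 : ∑ v ∈ S', ord v s = Module.finrank (IntermediateField.adjoin k {s}) M := by
    refine deg_zeros' hM hs S' fun v => ?_
    rw [vanishes_iff_ord hM hs0, Finset.mem_filter]
    exact ⟨fun h => h.2, fun h => ⟨hS v h.ne', h⟩⟩
  have h5 : (0 : ℤ) < Module.finrank (IntermediateField.adjoin k {s}) M := by
    have h6 : FiniteDimensional (IntermediateField.adjoin k {s}) M :=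
      Pool.Agent.Dess.fin_adjoin hM hs
    exact_mod_cast Module.finrank_pos
  have h6 : ((∑ v ∈ S', ((N * ord v s : ℤ) : k)) : k) ≠ 0 := by
    rw [← Int.cast_sum, ← Finset.mul_sum, h4, Int.cast_ne_zero]
    exact (mul_pos (by exact_mod_cast hN) h5).ne'
  exact (smul_eq_zero.1 h3).resolve_left h6

/-- the equation of class functions as a sum over a large finite set -/
private theorem cf_sum (hM : IsCurve k M) {Y : Spc k} {V : Type*} [AddCommGroup V] {g : Y.pt → V}
    (hg : CF g) (P : Y.Pt M) (p : Place k M → Y.pt) (hp : ∀ v, Y.Val v P (p v)) {φ : M}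
    (hφ : φ ≠ 0) (S : Finset (Place k M)) (hS : ∀ v, ord v φ ≠ 0 → v ∈ S) :
    ∑ v ∈ S, ord v φ • g (p v) = 0 := by
  have h1 := hg M hM P p φ (dv hM φ) hφ (fun v => ord_hasOrd hM v hφ) hp
  have h2 : (dv hM φ).support ⊆ S := fun v hv => hS v (Finsupp.mem_support_iff.1 hv)
  rw [Finsupp.sum_of_support_subset (dv hM φ) h2 (fun v n => n • g (p v))
    (fun v _ => zero_smul _ _)] at h1
  exact h1

end Curve

section Arith

private theorem sum_xi {ξ : k} (hξm : ξ ^ m = 1) (hξ1 : ξ ≠ 1) :
    ∑ l ∈ Finset.range m, ξ ^ l = 0 := by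
  have h1 := geom_sum_mul ξ m
  rw [hξm, sub_self] at h1
  exact (mul_eq_zero.1 h1).resolve_right (sub_ne_zero.2 hξ1)

private theorem sum_const' {ξ : k} (hξm : ξ ^ m = 1) (hξ1 : ξ ≠ 1) {t : ℕ → ℤ} {a : ℤ}
    (h : ∀ l < m, t l = a) : ∑ l ∈ Finset.range m, ξ ^ l * (t l : k) = 0 := by
  have h1 : ∑ l ∈ Finset.range m, ξ ^ l * (t l : k) =
      (∑ l ∈ Finset.range m, ξ ^ l) * (a : k) := by
    rw [Finset.sum_mul]
    exact Finset.sum_congr rfl fun l hl => by rw [h l (Finset.mem_range.1 hl)]
  rw [h1, sum_xi hξm hξ1, zero_mul]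

private theorem sum_one {ξ : k} (hξm : ξ ^ m = 1) (hξ1 : ξ ≠ 1) {t : ℕ → ℤ} {a δ : ℤ} {l₀ : ℕ}
    (hl₀ : l₀ < m) (h0 : t l₀ = a + δ) (h : ∀ l < m, l ≠ l₀ → t l = a) :
    ∑ l ∈ Finset.range m, ξ ^ l * (t l : k) = ξ ^ l₀ * (δ : k) := by
  have h1 : ∑ l ∈ Finset.range m, ξ ^ l * (t l : k) =
      ∑ l ∈ Finset.range m, (ξ ^ l * (a : k) + if l = l₀ then ξ ^ l₀ * (δ : k) else 0) := by
    refine Finset.sum_congr rfl fun l hl => ?_
    by_cases h2 : l = l₀
    · rw [if_pos h2, h2, h0]
      push_cast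
      ring
    · rw [if_neg h2, h l (Finset.mem_range.1 hl) h2, add_zero]
  rw [h1, Finset.sum_add_distrib, Finset.sum_ite_eq' , if_pos (Finset.mem_range.2 hl₀),
    ← Finset.sum_mul, sum_xi hξm hξ1, zero_mul, zero_add]

private theorem sum_int {t : ℕ → ℤ} {a δ : ℤ} {l₀ : ℕ}
    (hl₀ : l₀ < m) (h0 : t l₀ = a + δ) (h : ∀ l < m, l ≠ l₀ → t l = a) :
    ∑ l ∈ Finset.range m, t l = m * a + δ := by
  have h1 : ∑ l ∈ Finset.range m, t l =
      ∑ l ∈ Finset.range m, (a + if l = l₀ then δ else 0) := by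
    refine Finset.sum_congr rfl fun l hl => ?_
    by_cases h2 : l = l₀
    · rw [if_pos h2, h2, h0]
    · rw [if_neg h2, h l (Finset.mem_range.1 hl) h2, add_zero]
  rw [h1, Finset.sum_add_distrib, Finset.sum_ite_eq', if_pos (Finset.mem_range.2 hl₀),
    Finset.sum_const, Finset.card_range, nsmul_eq_mul]

private theorem prod_zeta {M : Type} [Field M] {ζ : M} (hζ : IsPrimitiveRoot ζ m) (hm : 0 < m)
    (u y : M) : ∏ l ∈ Finset.range m, (u - ζ ^ l * y) = u ^ m - y ^ m := by
  have : NeZero m := ⟨hm.ne'⟩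
  rw [hζ.pow_sub_pow_eq_prod_sub_mul u y hm]
  have h1 : Polynomial.nthRootsFinset m (1 : M) = (Finset.range m).image fun l => ζ ^ l := by
    symm
    refine Finset.eq_of_subset_of_card_le (fun z hz => ?_) ?_
    · obtain ⟨l, -, rfl⟩ := Finset.mem_image.1 hz
      rw [Polynomial.mem_nthRootsFinset hm, ← pow_mul, mul_comm, pow_mul, hζ.pow_eq_one, one_pow]
    · rw [hζ.card_nthRootsFinset, Finset.card_image_of_injOn, Finset.card_range]
      intro i hi j hj h
      exact hζ.pow_inj (Finset.mem_range.1 hi) (Finset.mem_range.1 hj) h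
  rw [h1, Finset.prod_image]
  intro i hi j hj h
  exact hζ.pow_inj (Finset.mem_range.1 hi) (Finset.mem_range.1 hj) h

end Arith

/-- the action of the powers of `ζ` -/
private theorem tw_pow {e : ℕ} {f : MvPolynomial (Fin (n + 1)) k} {V : Type*} [AddCommGroup V]
    [Module k V] {g : (Spc.wv k n m e f).pt → V} {ζ ξ : k} (hζ : IsPrimitiveRoot ζ m)
    (hξ : ∀ x, g (tw ζ hζ.pow_eq_one x) = ξ • g x) (l : ℕ) (q q' : (Spc.wv k n m e f).pt)
    (h1 : q'.1.1 = q.1.1) (h2 : q'.1.2 = ζ ^ l * q.1.2) : g q' = ξ ^ l • g q := by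
  induction l generalizing q with
  | zero =>
    have : q' = q := Subtype.ext (Prod.ext h1 (by rw [h2, pow_zero, one_mul]))
    rw [this, pow_zero, one_smul]
  | succ l ih =>
    have h3 := ih (tw ζ hζ.pow_eq_one q) h1 (by
      rw [h2, pow_succ, mul_assoc]
      rfl)
    rw [h3, hξ, smul_smul, pow_succ]

private theorem sg_transc : Transcendental k (tt k) := by
  have h : Transcendental k (RatFunc.X : RatFunc k) := RatFunc.transcendental_X
  have h2 := (transcendental_algebraMap_iff (R := k) (S := RatFunc k) (A := Om k)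
    (algebraMap (RatFunc k) (Om k)).injective (a := RatFunc.X)).2 h
  exact h2

/-- a field generated by finitely many elements, which contains `tt k`, is the function field of a
curve -/
private theorem sg_isCurve (S : Set (Om k)) (hS : S.Finite)
    (ht : tt k ∈ IntermediateField.adjoin k S) : IsCurve k (IntermediateField.adjoin k S) := by
  set K : IntermediateField k (Om k) := IntermediateField.adjoin k S with hKdef
  let t : K := ⟨tt k, ht⟩
  have htK : Transcendental k t := by
    intro h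
    apply sg_transc (k := k)
    exact h.algHom K.val
  refine ⟨t, htK, ?_⟩
  have hess : Algebra.EssFiniteType k K := by
    rw [IntermediateField.essFiniteType_iff]
    exact IntermediateField.fg_adjoin_of_finite hS
  have hess2 : Algebra.EssFiniteType (IntermediateField.adjoin k {t}) K :=
    Algebra.EssFiniteType.of_comp k _ K
  have halg : Algebra.IsAlgebraic (IntermediateField.adjoin k {t}) K := by
    refine ⟨fun z => ?_⟩
    have h1 : IsAlgebraic (IntermediateField.adjoin k {tt k}) (K.val z) :=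
      (alg_adjoin (sg_transc (k := k))).isAlgebraic _
    have hmap : (IntermediateField.adjoin k {t}).map K.val =
        IntermediateField.adjoin k {tt k} := by
      rw [IntermediateField.adjoin_map, Set.image_singleton]
      rfl
    have hmem : ∀ e : IntermediateField.adjoin k {t},
        ((K.val : K →+* Om k).comp (algebraMap (IntermediateField.adjoin k {t}) K)) e ∈
          IntermediateField.adjoin k {tt k} := by
      intro e
      rw [← hmap]
      exact ⟨e.1, e.2, rfl⟩
    let f : IntermediateField.adjoin k {t} →+* IntermediateField.adjoin k {tt k} :=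
      ((K.val : K →+* Om k).comp (algebraMap (IntermediateField.adjoin k {t}) K)).codRestrict
        (IntermediateField.adjoin k {tt k}).toSubfield hmem
    refine h1.of_ringHom_of_comp_eq (f := f) (g := (K.val : K →+* Om k)) ?_ ?_ ?_
    · rintro ⟨y, hy⟩
      have hy' := hy
      rw [← hmap] at hy'
      obtain ⟨e, he, rfl⟩ := hy'
      exact ⟨⟨e, he⟩, rfl⟩
    · exact (K.val : K →+* Om k).injective
    · ext x
      rfl
  exact Algebra.finite_of_essFiniteType_of_isAlgebraic

/-- a curve with a root of a rational function -/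
private theorem exists_curve (A B : Polynomial k) (hB : B ≠ 0) (hm : 0 < m) :
    ∃ (M : Type) (_ : Field M) (_ : Algebra k M) (s y : M), IsCurve k M ∧ Transcendental k s ∧
      y ^ m * Polynomial.aeval s B = Polynomial.aeval s A := by
  have : IsAlgClosed (Om k) := inferInstance
  obtain ⟨y₀, hy₀⟩ := IsAlgClosed.exists_pow_nat_eq
    (Polynomial.aeval (tt k) A / Polynomial.aeval (tt k) B) hm
  have hB' : Polynomial.aeval (tt k) B ≠ 0 := fun h => sg_transc ⟨B, hB, h⟩
  rw [eq_div_iff hB'] at hy₀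
  set N := IntermediateField.adjoin k ({tt k, y₀} : Set (Om k)) with hN
  have ht : tt k ∈ N := IntermediateField.subset_adjoin k _ (by simp)
  have hy : y₀ ∈ N := IntermediateField.subset_adjoin k _ (by simp)
  refine ⟨N, inferInstance, inferInstance, ⟨tt k, ht⟩, ⟨y₀, hy⟩,
    sg_isCurve _ (by simp) ht, fun h => sg_transc (k := k) (h.algHom N.val), ?_⟩
  have h1 : ∀ Q : Polynomial k, N.val (Polynomial.aeval (⟨tt k, ht⟩ : N) Q) =
      Polynomial.aeval (tt k) Q := fun Q => (Polynomial.aeval_algHom_apply N.val _ Q).symm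
  have h2 : N.val ((⟨y₀, hy⟩ : N) ^ m * Polynomial.aeval (⟨tt k, ht⟩ : N) B) =
      N.val (Polynomial.aeval (⟨tt k, ht⟩ : N) A) := by
    rw [map_mul, map_pow, h1, h1]
    exact hy₀
  exact Subtype.ext h2

/-- The case `c = 0`: the rational curve `(p(s), U(s) G(p(s)))`, `p = ln x0 x1`, lies on `W`.
PROOF. Let `W(s) = U G(p) ∈ k[s]`, `W(0) = u0 G(x0) = w0 ≠ 0`. Consider the function field `k(s) ⊆ Om k`,
`s = tt k` (or `RatFunc k`), and the point `P = (p(s), W(s))` on it; `W ^ m = F(p) G(p) ^ (m - 1)`. The value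
at the place `s = b` is `(p(b), W(b))` with the multiplier `1` (`p(b) ≠ 0` because of the coordinate `i₀`).
(1) If `W` has a root `b` (then `b ≠ 0`): the function `s / (s - b)` has the divisor `[0] - [b]`, so
`g(x0, w0) = g(p(b), 0) = 0`. (2) Otherwise `W = w0` is constant. If `x1 = 0` then `F(x0) = U ^ m G(x0)`,
so `U` is constant, a contradiction to `hne`. So `x1 ≠ 0`, and the value at `s = ∞` is `(x1, 0)` with the
multiplier `1 / s` (`0 < d + β`). The function `s` has the divisor `[0] - [∞]`, so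
`g(x0, w0) = g(x1, 0) = 0`. (At the other places any value may be taken; the existence: `p(b)` etc.) -/
theorem sgl_zero (hF : F.IsHomogeneous (m * d + β)) (hG : G.IsHomogeneous β) (he : 0 < d + β)
    (hm : 2 ≤ m) {V : Type*} [AddCommGroup V] [Module k V]
    {g : (Spc.wv k n m (d + β) (F * G ^ (m - 1))).pt → V} (hg : CF g)
    (hg0 : ∀ x, x.1.2 = 0 → g x = 0) (x : (Spc.wv k n m (d + β) (F * G ^ (m - 1))).pt)
    (hw : x.1.2 ≠ 0) {i₀ : Fin (n + 1)} {x1 : Fin (n + 1) → k} {U : Polynomial k}
    (hi : x.1.1 i₀ ≠ 0) (hi' : x1 i₀ = 0) (hU : U.natDegree ≤ d)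
    (hU0 : U.coeff 0 * MvPolynomial.aeval x.1.1 G = x.1.2) (hne : x1 ≠ 0 ∨ U ≠ C (U.coeff 0))
    (h : MvPolynomial.aeval (ln x.1.1 x1) F = U ^ m * MvPolynomial.aeval (ln x.1.1 x1) G) :
    g x = 0 := by
  obtain ⟨M, i1, i2, s, -, hM, hs, -⟩ := exists_curve (m := m) (k := k) 1 1 one_ne_zero (by omega)
  have hs0 : s ≠ 0 := by
    rintro rfl
    exact hs isAlgebraic_zero
  set x0 := x.1.1 with hx0
  set Gp := MvPolynomial.aeval (ln x0 x1) G with hGp
  set Fp := MvPolynomial.aeval (ln x0 x1) F with hFp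
  set W := U * Gp with hW
  have hf : (F * G ^ (m - 1)).IsHomogeneous (m * (d + β)) := by
    have h1 := hF.mul (hG.pow (m - 1))
    have e : m * d + β + β * (m - 1) = m * (d + β) := by
      obtain ⟨r, rfl⟩ : ∃ r, m = r + 1 := ⟨m - 1, by omega⟩
      rw [Nat.add_sub_cancel]
      ring
    rwa [e] at h1
  have hmm : m - 1 + 1 = m := by omega
  have heq : (Polynomial.aeval s W) ^ m = MvPolynomial.aeval (pm x0 x1 s) (F * G ^ (m - 1)) := by
    rw [pm_aeval, ← map_pow]
    congr 1
    rw [map_mul, map_pow, ← hFp, ← hGp, h, hW, mul_pow, mul_assoc, ← pow_succ', hmm]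
  have hne0 : pm x0 x1 s ≠ 0 := fun h0 => hi (by
    have h1 := congrFun h0 i₀
    simpa [pm, hi'] using h1)
  let P : (Spc.wv k n m (d + β) (F * G ^ (m - 1))).Pt M :=
    ⟨(pm x0 x1 s, Polynomial.aeval s W), hne0, heq⟩
  choose p hp1 hp2 hp3 using fun v : Place k M =>
    vals hM hf (by omega) hi hi' P rfl rfl v
  -- the value at the zeros of `s`
  have hG0 : Gp.eval 0 = MvPolynomial.aeval x0 G := by
    have h3 := MvPolynomial.comp_aeval_apply (ln x0 x1) (Polynomial.aeval (0 : k)) G
    rw [Polynomial.coe_aeval_eq_eval] at h3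
    rw [hGp, h3]
    congr 2
    funext i
    simp [ln]
  have hW0 : W.eval 0 = x.1.2 := by
    rw [hW, Polynomial.eval_mul, ← Polynomial.coeff_zero_eq_eval_zero U, hG0, hU0]
  have hzero : ∀ v : Place k M, 0 < ord v s → p v = x := fun v hv => by
    have h1 : v.At s 0 := Place.at_zero_iff.2 ((vanishes_iff_ord hM hs0).2 hv)
    obtain ⟨h2, h3⟩ := hp2 v 0 h1
    have h4 : v.At (Polynomial.aeval s W) (W.eval 0) := h1.aeval W
    apply Subtype.ext
    refine Prod.ext ?_ ?_
    · rw [h2]
      funext i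
      simp [hx0]
    · rw [← hW0]
      exact h3.unique h4
  by_cases hroot : ∃ b, W.IsRoot b
  · obtain ⟨b, hb⟩ := hroot
    have hb0 : b ≠ 0 := by
      rintro rfl
      exact hw (hW0.symm.trans hb)
    set r := s - algebraMap k M b with hr
    have hr0 : r ≠ 0 := fun h0 => by
      apply hs
      rw [sub_eq_zero.1 h0]
      exact isAlgebraic_algebraMap b
    have hφ : s / r ≠ 0 := div_ne_zero hs0 hr0
    set S := (dv hM (s / r)).support ∪ (dv hM s).support with hS
    refine conclude hM hs (fun v => ord v (s / r) • g (p v)) S (N := 1) (fun v hv => ?_) one_pos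
      (fun v hv => ?_) (fun v hv => ?_) (cf_sum hM hg P p hp1 hφ S fun v hv => ?_)
    · exact Finset.mem_union_right _ (Finsupp.mem_support_iff.2 hv)
    · have h1 : v.At s 0 := Place.at_zero_iff.2 ((vanishes_iff_ord hM hs0).2 hv)
      have h2 : v.At r (0 - b) := h1.sub (Place.at_const b)
      have h3 : ord v r = 0 := ord_of_at hM h2 (by simpa using hb0)
      have h4 : ord v (s / r) = ord v s := by
        rw [div_eq_mul_inv, ord_mul hM v hs0 (inv_ne_zero hr0), ord_inv hM, h3]
        ring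
      rw [h4, hzero v hv]
      simp only [Nat.cast_one, one_mul]
      rw [Int.cast_smul_eq_zsmul]
    · by_cases h1 : ord v (s / r) = 0
      · rw [h1, zero_smul]
      · -- then `s` has the value `b`
        have h2 : v.At s b := by
          change v.Vanishes (s - algebraMap k M b)
          rw [← hr, vanishes_iff_ord hM hr0]
          have h4 : ord v (s / r) = ord v s - ord v r := by
            rw [div_eq_mul_inv, ord_mul hM v hs0 (inv_ne_zero hr0), ord_inv hM]
            ring
          by_contra h5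
          apply h1
          rw [h4]
          by_cases h6 : ord v s = 0
          · have h7 : s ∈ v.ring := (mem_iff_ord hM hs0).2 h6.ge
            have h8 : r ∈ v.ring := sub_mem h7 (v.const_mem b)
            rw [mem_iff_ord hM hr0] at h8
            omega
          · have h7 : ord v s < 0 := by omega
            have h8 := (ord_add_eq hM (v := v) (f := s) (g := -algebraMap k M b) hs0 (fun _ => by
              rw [ord_neg hM, ord_const hM]
              exact h7)).2
            rw [← sub_eq_add_neg, ← hr] at h8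
            omega
        obtain ⟨-, h3⟩ := hp2 v b h2
        have h4 : v.At (Polynomial.aeval s W) (W.eval b) := h2.aeval W
        have h5 : (p v).1.2 = 0 := by
          rw [h3.unique h4]
          exact hb
        rw [hg0 _ h5, smul_zero]
    · exact Finset.mem_union_left _ (Finsupp.mem_support_iff.2 hv)
  · have hWc : W = C x.1.2 := by
      have h1 : W.degree = 0 := by
        by_contra h1
        obtain ⟨b, hb⟩ := IsAlgClosed.exists_root W h1
        exact hroot ⟨b, hb⟩
      rw [Polynomial.eq_C_of_degree_eq_zero h1, Polynomial.coeff_zero_eq_eval_zero, hW0]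
    have hx1 : x1 ≠ 0 := by
      intro hx1
      rcases hne with h1 | h1
      · exact h1 hx1
      · apply h1
        have h2 : Gp = C (MvPolynomial.aeval x0 G) := by
          have h3 : ln x0 x1 = fun i => (Algebra.ofId k (Polynomial k)) (x0 i) := by
            funext i
            rw [ln, hx1, Pi.zero_apply, Polynomial.C_0, zero_mul, add_zero]
            rfl
          rw [hGp, h3, ← MvPolynomial.comp_aeval_apply]
          rfl
        have h3 : MvPolynomial.aeval x0 G ≠ 0 := fun h3 => hw (by rw [← hU0, h3, mul_zero])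
        have h4 : U.natDegree = 0 := by
          have h5 : W.natDegree = U.natDegree := by
            rw [hW, h2, Polynomial.natDegree_mul_C h3]
          rw [← h5, hWc, Polynomial.natDegree_C]
        exact Polynomial.eq_C_of_natDegree_eq_zero h4
    set S := (dv hM s).support with hS
    refine conclude hM hs (fun v => ord v s • g (p v)) S (N := 1) (fun v hv => ?_) one_pos
      (fun v hv => ?_) (fun v hv => ?_) (cf_sum hM hg P p hp1 hs0 S fun v hv => ?_)
    · exact Finsupp.mem_support_iff.2 hv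
    · simp only [Nat.cast_one, one_mul]
      rw [hzero v hv, Int.cast_smul_eq_zsmul]
    · by_cases h1 : ord v s = 0
      · rw [h1, zero_smul]
      · have h2 : s ∉ v.ring := fun h2 => by
          rw [mem_iff_ord hM hs0] at h2
          omega
        obtain ⟨-, h3⟩ := hp3 v h2 hx1
        have h4 : v.At s⁻¹ 0 := by
          rw [Place.at_zero_iff, Place.vanishes_iff_or, inv_inv]
          exact Or.inr h2
        have h5 : v.At (s⁻¹ ^ (d + β) * Polynomial.aeval s W) 0 := by
          have h6 := (h4.pow (d + β)).mul (Place.at_const (v := v) x.1.2)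
          rw [zero_pow he.ne', zero_mul] at h6
          rw [hWc, Polynomial.aeval_C]
          exact h6
        rw [hg0 _ (h3.unique h5), smul_zero]
    · exact Finsupp.mem_support_iff.2 hv

/-- The case `c ≠ 0`. PROOF. Let `s = tt k ∈ Om k`, `p = p(s)`, `u = U(s)`, and `y ∈ Om k` with
`y ^ m = F(p) / G(p)` (`F(x0)`, `G(x0)` are not zero because `w0 ≠ 0`, so `F(p)`, `G(p)` are not zero), and
let `M = k(s, y)`, the function field of a curve. `P = (p, y G(p))` is a point of `W` over `M`. The
functions `ζ ^ l y - u`, `l < m`, are not zero: `∏_l (ζ ^ l y - u) = ± (y ^ m - u ^ m) = ± c s ^ N / G(p)`.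
Values `P_v` of `P` at all places `v` exist: if `s` is regular at `v`, `s(v) = b`, the multiplier is `1` and the
coordinates of `P` are regular (`(y G(p)) ^ m = F(p) G(p) ^ (m - 1)`), and `p(b) ≠ 0` because of the
coordinate `i₀`; if `s` has a pole: the multiplier is `1 / s` if `x1 ≠ 0` (values `x1`, and
`(y G(p) / s ^ (d + β)) ^ m` is regular), and `1` if `x1 = 0`.
Class function: `∑_v t_(l, v) g(P_v) = 0`, `t_(l, v) = ord_v (ζ ^ l y - u)`. Multiply by `ξ ^ l` and add:
`∑_v (∑_l ξ ^ l t_(l, v)) g(P_v) = 0`. Let `a = ord_v y`, `b = ord_v u`. If `a ≠ b` all `t_(l, v)` are equal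
to the minimum, and the inner sum is zero, since `∑ ξ ^ l = 0` (`ξ ^ m = 1`, `ξ ≠ 1`). Let `a = b`. The
`t_(l, v) ≥ a`, and at most one is larger (the difference `(ζ ^ l - ζ ^ l') y` of two of the functions has
the order `a`). Let `t_(l₀, v) = a + δ`, `δ > 0`, then
`m a + δ = N ord_v s - ord_v G(p)` and `m a = ord_v F(p) - ord_v G(p)`, so `δ = N ord_v s - ord_v F(p)`. If
`ord_v s = 0`, then `δ = - ord_v F(p) ≤ 0`; if `ord_v s < 0` then `ord_v F(p) ≥ N ord_v s` (a polynomial of
degree `≤ N` in `s`), so `δ ≤ 0`: contradictions. So the inner sum is zero for all `v` with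
`ord_v s ≤ 0`. Let `ord_v s > 0`. `F(p)` has the value `F(x0) ≠ 0`, `y` has a value `y(v) ≠ 0`, `P_v` is (up to
a change of coordinates of the same point, which does not change `g`, or with the multiplier `1`)
`(x0, y(v) G(x0))`, `y(v) ^ m = u0 ^ m`, so `ζ ^ l₀ y(v) = u0` for one `l₀ < m`, and the other
`t_(l, v)` are `0`, `t_(l₀, v) = N ord_v s`. The contribution is
`ξ ^ l₀ N ord_v s g(x0, y(v) G(x0)) = N ord_v s g(x0, ζ ^ l₀ y(v) G(x0)) = N ord_v s g(x)` (`hξ`). The sum of
these contributions is zero, and `∑ N ord_v s`, over the zeros of `s`, is a positive integer (`s` is not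
constant, so it has zeros). So `g(x) = 0`. -/
theorem sgl_ne (hF : F.IsHomogeneous (m * d + β)) (hG : G.IsHomogeneous β) (he : 0 < d + β)
    (hm : 2 ≤ m) {V : Type*} [AddCommGroup V] [Module k V]
    {g : (Spc.wv k n m (d + β) (F * G ^ (m - 1))).pt → V} (hg : CF g) {ζ ξ : k}
    (hζ : IsPrimitiveRoot ζ m) (hξm : ξ ^ m = 1) (hξ1 : ξ ≠ 1)
    (hξ : ∀ x, g (tw ζ hζ.pow_eq_one x) = ξ • g x)
    (x : (Spc.wv k n m (d + β) (F * G ^ (m - 1))).pt)
    (hw : x.1.2 ≠ 0) {i₀ : Fin (n + 1)} {x1 : Fin (n + 1) → k} {U : Polynomial k}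
    (hi : x.1.1 i₀ ≠ 0) (hi' : x1 i₀ = 0) (hU : U.natDegree ≤ d)
    (hU0 : U.coeff 0 * MvPolynomial.aeval x.1.1 G = x.1.2) {c : k} (hc : c ≠ 0)
    (h : MvPolynomial.aeval (ln x.1.1 x1) F - U ^ m * MvPolynomial.aeval (ln x.1.1 x1) G =
      C c * X ^ (m * d + β)) : g x = 0 := by
  have hm0 : 0 < m := by omega
  set N := m * d + β with hN
  have hN0 : 0 < N := by
    rcases Nat.eq_zero_or_pos d with h1 | h1
    · rw [hN, h1]
      rw [h1] at he
      omega
    · have := Nat.mul_pos hm0 h1
      omega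
  set x0 := x.1.1 with hx0
  set Gp := MvPolynomial.aeval (ln x0 x1) G with hGp
  set Fp := MvPolynomial.aeval (ln x0 x1) F with hFp
  have hev : ∀ H : MvPolynomial (Fin (n + 1)) k,
      (MvPolynomial.aeval (ln x0 x1) H).eval 0 = MvPolynomial.aeval x0 H := fun H => by
    have h3 := MvPolynomial.comp_aeval_apply (ln x0 x1) (Polynomial.aeval (0 : k)) H
    rw [Polynomial.coe_aeval_eq_eval] at h3
    rw [h3]
    congr 2
    funext i
    simp [ln]
  have hG0 : MvPolynomial.aeval x0 G ≠ 0 := fun h3 => hw (by rw [← hU0, h3, mul_zero])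
  have hu0 : U.coeff 0 ≠ 0 := fun h3 => hw (by rw [← hU0, h3, zero_mul])
  have hF0 : MvPolynomial.aeval x0 F ≠ 0 := fun h3 => by
    have h4 := x.2.2
    rw [map_mul, ← hx0, h3, zero_mul] at h4
    exact hw ((pow_eq_zero_iff hm0.ne').1 h4)
  have hGp0 : Gp ≠ 0 := fun h3 => hG0 (by rw [← hev, ← hGp, h3, Polynomial.eval_zero])
  have hFp0 : Fp ≠ 0 := fun h3 => hF0 (by rw [← hev, ← hFp, h3, Polynomial.eval_zero])
  have hFG : MvPolynomial.aeval x0 F = U.coeff 0 ^ m * MvPolynomial.aeval x0 G := by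
    have h3 := congrArg (fun Q => Polynomial.eval 0 Q) h
    simp only [Polynomial.eval_sub, Polynomial.eval_mul, Polynomial.eval_pow, Polynomial.eval_C,
      Polynomial.eval_X, zero_pow hN0.ne', mul_zero] at h3
    rw [hGp, hFp, hev, hev, ← Polynomial.coeff_zero_eq_eval_zero U] at h3
    exact sub_eq_zero.1 h3
  obtain ⟨M, i1, i2, s, y, hM, hs, hy⟩ := exists_curve (m := m) Fp Gp hGp0 hm0
  have hs0 : s ≠ 0 := by
    rintro rfl
    exact hs isAlgebraic_zero
  have hsv : ∀ Q : Polynomial k, Q ≠ 0 → Polynomial.aeval s Q ≠ 0 := fun Q hQ h0 => hs ⟨Q, hQ, h0⟩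
  set Gs := Polynomial.aeval s Gp with hGs
  set Fs := Polynomial.aeval s Fp with hFs
  set u := Polynomial.aeval s U with hu
  have hGs0 : Gs ≠ 0 := hsv _ hGp0
  have hFs0 : Fs ≠ 0 := hsv _ hFp0
  have hus0 : u ≠ 0 := hsv _ fun h3 => hu0 (by rw [h3, Polynomial.coeff_zero])
  have hy0 : y ≠ 0 := by
    rintro rfl
    rw [zero_pow hm0.ne', zero_mul] at hy
    exact hFs0 hy.symm
  have hcM : algebraMap k M c ≠ 0 := (map_ne_zero _).2 hc
  have hid : (y ^ m - u ^ m) * Gs = algebraMap k M c * s ^ N := by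
    have h3 := congrArg (Polynomial.aeval s) h
    rw [map_sub, map_mul, map_mul, map_pow, map_pow, Polynomial.aeval_X, Polynomial.aeval_C,
      ← hFs, ← hGs, ← hu] at h3
    rw [← h3, ← hy]
    ring
  have hd0 : y ^ m - u ^ m ≠ 0 := fun h0 => by
    rw [h0, zero_mul] at hid
    exact mul_ne_zero hcM (pow_ne_zero _ hs0) hid.symm
  have hζM : IsPrimitiveRoot (algebraMap k M ζ) m :=
    hζ.map_of_injective (algebraMap k M).injective
  set φ : ℕ → M := fun l => u - algebraMap k M ζ ^ l * y with hφ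
  have hprod : ∏ l ∈ Finset.range m, φ l = u ^ m - y ^ m := prod_zeta hζM hm0 u y
  have hφ0 : ∀ l < m, φ l ≠ 0 := fun l hl h0 => by
    have h3 : ∏ l ∈ Finset.range m, φ l = 0 := Finset.prod_eq_zero (Finset.mem_range.2 hl) h0
    rw [hprod] at h3
    apply hd0
    linear_combination -h3
  have hf : (F * G ^ (m - 1)).IsHomogeneous (m * (d + β)) := by
    have h1 := hF.mul (hG.pow (m - 1))
    have e : m * d + β + β * (m - 1) = m * (d + β) := by
      obtain ⟨r, rfl⟩ : ∃ r, m = r + 1 := ⟨m - 1, by omega⟩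
      rw [Nat.add_sub_cancel]
      ring
    rw [← hN] at e
    rwa [e] at h1
  have hmm : m - 1 + 1 = m := by omega
  have heq : (y * Gs) ^ m = MvPolynomial.aeval (pm x0 x1 s) (F * G ^ (m - 1)) := by
    rw [map_mul, map_pow, pm_aeval, pm_aeval, ← hFp, ← hGp, ← hFs, ← hGs, ← hy, mul_pow,
      mul_assoc, ← pow_succ', hmm]
  have hne0 : pm x0 x1 s ≠ 0 := fun h0 => hi (by
    have h1 := congrFun h0 i₀
    simpa [pm, hi'] using h1)
  let P : (Spc.wv k n m (d + β) (F * G ^ (m - 1))).Pt M :=
    ⟨(pm x0 x1 s, y * Gs), hne0, heq⟩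
  choose p hp1 hp2 hp3 using fun v : Place k M =>
    vals hM hf hm0 hi hi' P rfl rfl v
  -- the orders at one place
  have hzt : ∀ (v : Place k M) (l : ℕ), ord v (algebraMap k M ζ ^ l * y) = ord v y := fun v l => by
    have h3 : algebraMap k M ζ ^ l = algebraMap k M (ζ ^ l) := (map_pow _ _ _).symm
    have h4 : algebraMap k M (ζ ^ l) ≠ 0 :=
      (map_ne_zero _).2 (pow_ne_zero _ (hζ.ne_zero hm0.ne'))
    rw [h3, ord_mul hM v h4 hy0, ord_const hM, zero_add]
  have hzy : ∀ l, -(algebraMap k M ζ ^ l * y) ≠ 0 := fun l =>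
    neg_ne_zero.2 (mul_ne_zero (pow_ne_zero _ (hζM.ne_zero hm0.ne')) hy0)
  have hsum : ∀ v : Place k M, ∑ l ∈ Finset.range m, ord v (φ l) = N * ord v s - ord v Gs :=
    fun v => by
    rw [← ord_prod hM v _ φ fun l hl => hφ0 l (Finset.mem_range.1 hl), hprod]
    have h3 : u ^ m - y ^ m = -(y ^ m - u ^ m) := by ring
    have h4 := congrArg (ord v) hid
    rw [ord_mul hM v hd0 hGs0, ord_mul hM v hcM (pow_ne_zero _ hs0), ord_const hM, ord_pow hM] at h4
    rw [h3, ord_neg hM]
    omega
  have hma : ∀ v : Place k M, (m : ℤ) * ord v y = ord v Fs - ord v Gs := fun v => by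
    have h4 := congrArg (ord v) hy
    rw [ord_mul hM v (pow_ne_zero _ hy0) hGs0, ord_pow hM] at h4
    omega
  -- if one order is larger
  have hlarge : ∀ (v : Place k M) (l₀ : ℕ), l₀ < m → ord v y < ord v (φ l₀) →
      (∀ l < m, l ≠ l₀ → ord v (φ l) = ord v y) ∧
      ord v (φ l₀) = ord v y + (N * ord v s - ord v Fs) := fun v l₀ hl₀ hlt => by
    have h3 : ∀ l < m, l ≠ l₀ → ord v (φ l) = ord v y := fun l hl hne => by
      have h4 : algebraMap k M ζ ^ l₀ - algebraMap k M ζ ^ l ≠ 0 := fun h5 =>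
        hne (hζM.pow_inj hl hl₀ (sub_eq_zero.1 h5).symm)
      have h5 : algebraMap k M ζ ^ l₀ - algebraMap k M ζ ^ l =
          algebraMap k M (ζ ^ l₀ - ζ ^ l) := by
        rw [map_sub, map_pow, map_pow]
      have h6 : ord v ((algebraMap k M ζ ^ l₀ - algebraMap k M ζ ^ l) * y) = ord v y := by
        rw [ord_mul hM v h4 hy0, h5, ord_const hM, zero_add]
      have h7 := (ord_add_eq hM (v := v)
        (f := (algebraMap k M ζ ^ l₀ - algebraMap k M ζ ^ l) * y) (g := φ l₀)
        (mul_ne_zero h4 hy0) (fun _ => by rw [h6]; exact hlt)).2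
      rw [h6] at h7
      rw [← h7]
      congr 1
      simp only [hφ]
      ring
    refine ⟨h3, ?_⟩
    have h4 := sum_int (m := m) (t := fun l => ord v (φ l)) (a := ord v y)
      (δ := ord v (φ l₀) - ord v y) hl₀ (by ring) h3
    have h5 := hsum v
    have h6 := hma v
    change ∑ l ∈ Finset.range m, ord v (φ l) = _ at h4
    rw [h5] at h4
    linarith
  -- the contributions
  have hbad : ∀ v : Place k M, ¬ 0 < ord v s →
      ∑ l ∈ Finset.range m, ξ ^ l * ((ord v (φ l) : ℤ) : k) = 0 := fun v hv => by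
    have hFle : (N : ℤ) * ord v s ≤ ord v Fs := by
      by_cases h3 : ord v s = 0
      · have h4 : s ∈ v.ring := (mem_iff_ord hM hs0).2 h3.ge
        have h5 : Fs ∈ v.ring := by
          rw [hFs, hFp, ← pm_aeval]
          exact (at_mv (c := fun i => x0 i + x1 i * val v s) (fun i =>
            (Place.at_const _).add ((Place.at_const _).mul (at_val hM h4))) F).mem
        rw [mem_iff_ord hM hFs0] at h5
        rw [h3, mul_zero]
        exact h5
      · have h4 : s ∉ v.ring := fun h4 => by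
          rw [mem_iff_ord hM hs0] at h4
          omega
        have h5 : v.At s⁻¹ 0 := by
          rw [Place.at_zero_iff, Place.vanishes_iff_or, inv_inv]
          exact Or.inr h4
        have h6 : s⁻¹ ^ N * Fs ∈ v.ring := by
          rw [hFs, hFp, ← pm_aeval, ← hom_scale hF]
          refine (at_mv (c := x1) (fun i => ?_) F).mem
          have h7 := (h5.mul (Place.at_const (v := v) (x0 i))).add (Place.at_const (v := v) (x1 i))
          rw [zero_mul, zero_add] at h7
          have h8 : s⁻¹ * pm x0 x1 s i = s⁻¹ * algebraMap k M (x0 i) + algebraMap k M (x1 i) := by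
            rw [pm]
            field_simp
          rw [h8]
          exact h7
        rw [mem_iff_ord hM (mul_ne_zero (pow_ne_zero _ (inv_ne_zero hs0)) hFs0),
          ord_mul hM v (pow_ne_zero _ (inv_ne_zero hs0)) hFs0, ord_pow hM, ord_inv hM] at h6
        linarith
    have hno : ∀ l < m, ¬ ord v y < ord v (φ l) := fun l hl hlt => by
      have := (hlarge v l hl hlt).2
      omega
    rcases lt_trichotomy (ord v y) (ord v u) with hab | hab | hab
    · refine sum_const' hξm hξ1 (t := fun l => ord v (φ l)) (a := ord v y) fun l _ => ?_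
      have h3 := (ord_add_eq hM (v := v) (f := -(algebraMap k M ζ ^ l * y)) (g := u) (hzy l)
        (fun _ => by rw [ord_neg hM, hzt]; exact hab)).2
      rw [ord_neg hM, hzt] at h3
      rw [← h3]
      congr 1
      simp only [hφ]
      ring
    · refine sum_const' hξm hξ1 (t := fun l => ord v (φ l)) (a := ord v y) fun l hl => ?_
      have h3 : ord v y ≤ ord v (u + -(algebraMap k M ζ ^ l * y)) := by
        refine le_ord_add hM ?_ (fun _ => hab.le) (fun _ => by rw [ord_neg hM, hzt])
        rw [← sub_eq_add_neg]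
        exact hφ0 l hl
      rw [← sub_eq_add_neg] at h3
      exact le_antisymm (not_lt.1 (hno l hl)) h3
    · refine sum_const' hξm hξ1 (t := fun l => ord v (φ l)) (a := ord v u) fun l _ => ?_
      have h3 := (ord_add_eq hM (v := v) (f := u) (g := -(algebraMap k M ζ ^ l * y)) hus0
        (fun _ => by rw [ord_neg hM, hzt]; exact hab)).2
      rw [← h3, ← sub_eq_add_neg]
  have hgood : ∀ v : Place k M, 0 < ord v s → ∃ l₀, ∑ l ∈ Finset.range m,
      ξ ^ l * ((ord v (φ l) : ℤ) : k) = ξ ^ l₀ * ((N * ord v s : ℤ) : k) ∧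
      g x = ξ ^ l₀ • g (p v) := fun v hv => by
    have h1 : v.At s 0 := Place.at_zero_iff.2 ((vanishes_iff_ord hM hs0).2 hv)
    have hAF : v.At Fs (MvPolynomial.aeval x0 F) := by
      have h3 := h1.aeval Fp
      rwa [hFp, hev, ← hFp] at h3
    have hAG : v.At Gs (MvPolynomial.aeval x0 G) := by
      have h3 := h1.aeval Gp
      rwa [hGp, hev, ← hGp] at h3
    have hAu : v.At u (U.coeff 0) := by
      have h3 := h1.aeval U
      rwa [← Polynomial.coeff_zero_eq_eval_zero] at h3
    have hoF := ord_of_at hM hAF hF0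
    have hoG := ord_of_at hM hAG hG0
    have hoy : ord v y = 0 := by
      have h3 := hma v
      rw [hoF, hoG, sub_zero] at h3
      rcases mul_eq_zero.1 h3 with h4 | h4
      · exact absurd h4 (by exact_mod_cast hm0.ne')
      · exact h4
    have hyr : y ∈ v.ring := (mem_iff_ord hM hy0).2 hoy.ge
    have hAy := at_val hM hyr
    set y₀ := val v y with hy₀
    have hy₀0 : y₀ ≠ 0 := fun h3 => by
      rw [h3, Place.at_zero_iff, vanishes_iff_ord hM hy0] at hAy
      omega
    have hpow : y₀ ^ m = U.coeff 0 ^ m := by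
      have h3 := (hAy.pow m).mul hAG
      rw [hy] at h3
      have h4 := h3.unique hAF
      rw [hFG] at h4
      exact mul_right_cancel₀ hG0 h4
    have : NeZero m := ⟨hm0.ne'⟩
    obtain ⟨l₀, hl₀, hl⟩ := hζ.eq_pow_of_pow_eq_one (ξ := U.coeff 0 / y₀) (by
      rw [div_pow, hpow, div_self (pow_ne_zero _ hu0)])
    have hl' : ζ ^ l₀ * y₀ = U.coeff 0 := by
      rw [hl, div_mul_cancel₀ _ hy₀0]
    have hAφ : v.At (φ l₀) 0 := by
      have h3 := hAu.sub ((Place.at_const (v := v) (ζ ^ l₀)).mul hAy)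
      rw [hl', sub_self, map_pow] at h3
      exact h3
    have hlt : ord v y < ord v (φ l₀) := by
      rw [hoy, ← vanishes_iff_ord hM (hφ0 l₀ hl₀)]
      exact Place.at_zero_iff.1 hAφ
    obtain ⟨h3, h4⟩ := hlarge v l₀ hl₀ hlt
    refine ⟨l₀, ?_, ?_⟩
    · rw [hoF, sub_zero] at h4
      exact sum_one hξm hξ1 (t := fun l => ord v (φ l)) hl₀ h4 h3
    · obtain ⟨h5, h6⟩ := hp2 v 0 h1
      refine tw_pow hζ hξ l₀ (p v) x ?_ ?_
      · rw [h5]
        funext i
        simp [hx0]
      · rw [h6.unique (hAy.mul hAG), ← mul_assoc, hl', hU0]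
  -- the sum
  set S := (Finset.range m).biUnion (fun l => (dv hM (φ l)).support) ∪ (dv hM s).support with hS
  have hcf : ∀ l < m, ∑ v ∈ S, ord v (φ l) • g (p v) = 0 := fun l hl =>
    cf_sum hM hg P p hp1 (hφ0 l hl) S fun v hv => Finset.mem_union_left _
      (Finset.mem_biUnion.2 ⟨l, Finset.mem_range.2 hl, Finsupp.mem_support_iff.2 hv⟩)
  refine conclude hM hs (fun v => (∑ l ∈ Finset.range m,
    ξ ^ l * ((ord v (φ l) : ℤ) : k)) • g (p v)) S (N := N) (fun v hv => ?_) hN0
    (fun v hv => ?_) (fun v hv => ?_) ?_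
  · exact Finset.mem_union_right _ (Finsupp.mem_support_iff.2 hv)
  · obtain ⟨l₀, h3, h4⟩ := hgood v hv
    change (∑ l ∈ Finset.range m, ξ ^ l * ((ord v (φ l) : ℤ) : k)) • g (p v) = _
    rw [h3, h4, smul_smul, mul_comm]
  · change (∑ l ∈ Finset.range m, ξ ^ l * ((ord v (φ l) : ℤ) : k)) • g (p v) = _
    rw [hbad v hv, zero_smul]
  · have h3 : ∑ v ∈ S, (∑ l ∈ Finset.range m, ξ ^ l * ((ord v (φ l) : ℤ) : k)) • g (p v) =
        ∑ l ∈ Finset.range m, ξ ^ l • ∑ v ∈ S, ord v (φ l) • g (p v) := by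
      simp only [Finset.sum_smul, Finset.smul_sum]
      rw [Finset.sum_comm]
      refine Finset.sum_congr rfl fun l _ => Finset.sum_congr rfl fun v _ => ?_
      rw [mul_smul, Int.cast_smul_eq_zsmul]
    rw [h3]
    exact Finset.sum_eq_zero fun l hl => by
      rw [hcf l (Finset.mem_range.1 hl), smul_zero]

/-- **Lemma A**. PROOF. If `w = 0` then `tw ζ x = x`, so `g x = ξ • g x`, `g x = 0`. Let `w ≠ 0`; then
`F(x0)`, `G(x0)` are not zero (`2 ≤ m`; for `G(x0)`: `w ^ m = F(x0) G(x0) ^ (m - 1)`, `m - 1 ≥ 1`).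
`u0 = w / G(x0)`, `u0 ^ m G(x0) = F(x0)`. `sgl_krull`, then `sgl_zero` or `sgl_ne`. -/
theorem single (hF : F.IsHomogeneous (m * d + β)) (hG : G.IsHomogeneous β) (he : 0 < d + β)
    (hm : 2 ≤ m) (hn : m * d + β ≤ n + d) {V : Type*} [AddCommGroup V] [Module k V]
    {g : (Spc.wv k n m (d + β) (F * G ^ (m - 1))).pt → V} (hg : CF g) {ζ ξ : k}
    (hζ : IsPrimitiveRoot ζ m) (hξm : ξ ^ m = 1) (hξ1 : ξ ≠ 1)
    (hξ : ∀ x, g (tw ζ hζ.pow_eq_one x) = ξ • g x)
    (x : (Spc.wv k n m (d + β) (F * G ^ (m - 1))).pt) : g x = 0 := by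
  have hm0 : 0 < m := by omega
  have hg0 : ∀ x, x.1.2 = 0 → g x = 0 := fun x hx => by
    have h1 := tw_pow hζ hξ 1 x x rfl (by rw [hx, mul_zero])
    rw [pow_one] at h1
    have h2 : (ξ - 1) • g x = 0 := by rw [sub_smul, one_smul, ← h1, sub_self]
    exact (smul_eq_zero.1 h2).resolve_left (sub_ne_zero.2 hξ1)
  by_cases hw : x.1.2 = 0
  · exact hg0 x hw
  have hmm : m - 1 ≠ 0 := by omega
  have hG0 : MvPolynomial.aeval x.1.1 G ≠ 0 := fun h3 => by
    have h4 := x.2.2
    rw [map_mul, map_pow, h3, zero_pow hmm, mul_zero] at h4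
    exact hw ((pow_eq_zero_iff hm0.ne').1 h4)
  have h0 : MvPolynomial.aeval x.1.1 F = (x.1.2 / MvPolynomial.aeval x.1.1 G) ^ m *
      MvPolynomial.aeval x.1.1 G := by
    have h4 := x.2.2
    rw [map_mul, map_pow] at h4
    have h7 : MvPolynomial.aeval x.1.1 G ^ m = MvPolynomial.aeval x.1.1 G ^ (m - 1) *
        MvPolynomial.aeval x.1.1 G := (pow_sub_one_mul hm0.ne' _).symm
    rw [div_pow, h4, h7]
    field_simp
  obtain ⟨i₀, x1, U, c, h1, h2, h3, h4, h5, h6⟩ := sgl_krull hF hG he hm hn x.2.1 h0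
  have hU0 : U.coeff 0 * MvPolynomial.aeval x.1.1 G = x.1.2 := by
    rw [h4, div_mul_cancel₀ _ hG0]
  by_cases hc : c = 0
  · rw [hc, Polynomial.C_0, zero_mul, sub_eq_zero] at h6
    refine sgl_zero hF hG he hm hg hg0 x hw h1 h2 h3 hU0 ?_ h6
    rw [h4]
    exact h5
  · exact sgl_ne hF hG he hm hg hζ hξm hξ1 hξ x hw h1 h2 h3 hU0 hc h6

end Pool.Agent.CYC
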