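import Pool.Agent.CYC.Cls

/-!
# Zeros of the sections of a linear system: definitions

`K` is the function field of a curve, `c j` are `a` different places, `φ i` are functions with at most
simple poles at the `c j` and no other poles. For `z` in `F ^ (n + 1)`, `F` an extension of `k`, the section
`∑ z_i φ_i` has `a` zeros, which are points `S j` of the curve over `F`.
-/

set_option autoImplicit false

noncomputable section

namespace Pool.Agent.CYC

open Pool.Agent.ZCyc Pool.Agent.Dess Pool.Agent.TInc

variable {k K : Type} [Field k] [Field K] [Algebra k K] {a n : ℕ}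

/-- the value of a function at a point over `F` -/
def ev {F : Type} [Field F] [Algebra k F] (S : (K →ₐ[k] F) ⊕ Place k K) (b : K) : F :=
  Sum.elim (fun τ : K →ₐ[k] F => τ b) (fun q => algebraMap k F (val q b)) S

/-- The conditions on the places and functions. -/
structure Lin (c : Fin a → Place k K) (φ : Fin (n + 1) → K) : Prop where
  inj : Function.Injective c
  one : φ 0 = 1
  reg : ∀ i v, (∀ j, c j ≠ v) → φ i ∈ v.ring
  pole : ∀ i j, φ i ≠ 0 → -1 ≤ ord (c j) (φ i)
  ind : LinearIndependent k φ

/-- the value of the section `z` at the place `q` (which is not one of the `c j`) -/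
def lz (φ : Fin (n + 1) → K) {F : Type} [Field F] [Algebra k F] (z : Fin (n + 1) → F)
    (q : Place k K) : F := ∑ i, z i * algebraMap k F (val q (φ i))

/-- The `S j` are the zeros of the section `z`: the reciprocity law of Weil holds for the section and the
functions `b` on the curve, and the constant `S j` are the constant zeros. -/
structure Zs (c : Fin a → Place k K) (φ : Fin (n + 1) → K) {F : Type} [Field F] [Algebra k F]
    (z : Fin (n + 1) → F) (S : Fin a → (K →ₐ[k] F) ⊕ Place k K) : Prop where
  weil : ∀ b : K, b ≠ 0 → (∀ j, ord (c j) b = 0) → (∀ j q, S j = Sum.inr q → ord q b = 0) →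
    ∀ T : Finset (Place k K), (∀ q, ord q b ≠ 0 → q ∈ T) →
      ∏ j, ev (S j) b = algebraMap k F (∏ j, val (c j) b) * ∏ q ∈ T, lz φ z q ^ ord q b
  zero : ∀ q, (∀ j, c j ≠ q) → (lz φ z q = 0 ↔ ∃ j, S j = Sum.inr q)

/-- PROOF. `TInc.over_at` is the same statement for `F = Om k` (adapt its proof: for an embedding `τ` the ring
of `p` is the preimage of `v.ring`, so `f - val p f` vanishes at `p`, i.e. it is zero or its inverse is
not in the ring of `p`, and the same holds for its image). -/
theorem IsV.at_ev [IsAlgClosed k] [CharZero k] (hK : IsCurve k K) {F : Type} [Field F] [Algebra k F]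
    {v : Place k F} {S : (K →ₐ[k] F) ⊕ Place k K} {p : Place k K} (h : IsV v S p) {f : K}
    (hf : f ∈ p.ring) : v.At (ev S f) (val p f) := by
  rcases S with τ | c
  · have h1 : p.ring = v.ring.comap (τ : K →+* F) := h
    have h2 := at_val hK hf
    change v.At (τ f) (val p f)
    unfold Place.At at h2 ⊢
    rw [Place.vanishes_iff_or] at h2 ⊢
    have h3 : ∀ g : K, g ∈ p.ring ↔ τ g ∈ v.ring := fun g => by
      rw [h1]
      exact ValuationSubring.mem_comap
    rcases h2 with h2 | h2
    · left
      have := congrArg τ h2
      rw [map_sub, AlgHom.commutes, map_zero] at this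
      exact this
    · right
      rw [h3, map_inv₀, map_sub, AlgHom.commutes] at h2
      exact h2
  · have h1 : c = p := h
    change v.At (algebraMap k F (val c f)) (val p f)
    rw [h1]
    exact Place.at_const _

end Pool.Agent.CYC
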